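import Mathlib

/-!
Suspension: a simplex with rational dihedral angles and irrational volume ratio in one dimension gives
one in the next dimension (the new facet is orthogonal to the old ones, the ratio is halved).
-/

set_option autoImplicit false

open MeasureTheory Metric Set
open scoped Pointwise

namespace Pool.Agent.CS5

/-- A counterexample in `ℝ ^ m`. -/
def Irr (m : ℕ) : Prop :=
  ∃ n : Fin m → EuclideanSpace ℝ (Fin m), LinearIndependent ℝ n ∧
    (∀ i j : Fin m, i ≠ j →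
      ∃ q : ℚ, InnerProductGeometry.angle (n i) (n j) = (q : ℝ) * Real.pi) ∧
    ¬ ∃ r : ℚ,
      (volume {x : EuclideanSpace ℝ (Fin m) | ‖x‖ ≤ 1 ∧ ∀ i, 0 ≤ inner ℝ (n i) x}).toReal
        = (r : ℝ) * (volume (closedBall (0 : EuclideanSpace ℝ (Fin m)) 1)).toReal

/-- Splitting off the first coordinate. -/
noncomputable def spl (m : ℕ) (x : EuclideanSpace ℝ (Fin (m + 1))) : ℝ × EuclideanSpace ℝ (Fin m) :=
  (x 0, WithLp.toLp 2 fun i : Fin m => x i.succ)

theorem spl_pres (m : ℕ) : MeasurePreserving (spl m) volume volume := by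
  have h := volume_preserving_piFinSuccAbove (fun _ : Fin (m + 1) => ℝ) 0
  simp only [MeasurableEquiv.piFinSuccAbove, Fin.insertNthEquiv_zero] at h
  exact ((MeasurePreserving.id volume).prod (PiLp.volume_preserving_toLp (Fin m))).comp
    (h.comp (PiLp.volume_preserving_ofLp (Fin (m + 1))))

theorem spl_norm (m : ℕ) (x : EuclideanSpace ℝ (Fin (m + 1))) :
    ‖x‖ ^ 2 = (spl m x).1 ^ 2 + ‖(spl m x).2‖ ^ 2 := by
  simp [spl, EuclideanSpace.norm_sq_eq, Fin.sum_univ_succ]

theorem susp_slice {m : ℕ} (hm : m ≠ 0) {C : Set (EuclideanSpace ℝ (Fin m))}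
    (hc : ∀ r : ℝ, 0 < r → ∀ x, r • x ∈ C ↔ x ∈ C) (t : ℝ) :
    volume {y : EuclideanSpace ℝ (Fin m) | t ^ 2 + ‖y‖ ^ 2 ≤ 1 ∧ y ∈ C}
      = ENNReal.ofReal (√(1 - t ^ 2) ^ m) * volume (C ∩ closedBall 0 1) := by
  have : Nonempty (Fin m) := ⟨⟨0, Nat.pos_of_ne_zero hm⟩⟩
  rcases lt_or_ge (t ^ 2) 1 with h | h
  · have hs : 0 < √(1 - t ^ 2) := Real.sqrt_pos.2 (by linarith)
    have hs2 : √(1 - t ^ 2) ^ 2 = 1 - t ^ 2 := Real.sq_sqrt (by linarith)
    have e : {y : EuclideanSpace ℝ (Fin m) | t ^ 2 + ‖y‖ ^ 2 ≤ 1 ∧ y ∈ C}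
        = √(1 - t ^ 2) • (C ∩ closedBall 0 1) := by
      ext y
      rw [mem_smul_set_iff_inv_smul_mem₀ hs.ne']
      simp only [mem_ofPred_eq, mem_inter_iff, mem_closedBall_zero_iff, norm_smul,
        hc _ (inv_pos.2 hs), Real.norm_eq_abs, abs_of_pos (inv_pos.2 hs)]
      rw [inv_mul_le_iff₀ hs, mul_one, and_comm]
      refine and_congr_right fun _ => ?_
      rw [← pow_le_pow_iff_left₀ (norm_nonneg y) hs.le two_ne_zero, hs2]
      constructor <;> intro h <;> linarith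
    rw [e, Measure.addHaar_smul, finrank_euclideanSpace, Fintype.card_fin,
      abs_of_nonneg (by positivity)]
  · have h0 : √(1 - t ^ 2) = 0 := Real.sqrt_eq_zero_of_nonpos (by linarith)
    rw [h0, zero_pow hm, ENNReal.ofReal_zero, zero_mul]
    refine measure_mono_null (t := {0}) ?_ (measure_singleton _)
    rintro y ⟨h1, -⟩
    have : ‖y‖ ^ 2 = 0 := le_antisymm (by linarith) (by positivity)
    simpa using this

theorem susp_vol {m : ℕ} (hm : m ≠ 0) {C : Set (EuclideanSpace ℝ (Fin m))} (hC : MeasurableSet C)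
    (hc : ∀ r : ℝ, 0 < r → ∀ x, r • x ∈ C ↔ x ∈ C) {T : Set ℝ} (hT : MeasurableSet T) :
    volume {x : EuclideanSpace ℝ (Fin (m + 1)) | ‖x‖ ≤ 1 ∧ (spl m x).1 ∈ T ∧ (spl m x).2 ∈ C}
      = (∫⁻ t in T, ENNReal.ofReal (√(1 - t ^ 2) ^ m)) * volume (C ∩ closedBall 0 1) := by
  set S : Set (ℝ × EuclideanSpace ℝ (Fin m)) :=
    {z | z.1 ^ 2 + ‖z.2‖ ^ 2 ≤ 1} ∩ T ×ˢ C with hS
  have hSm : MeasurableSet S :=
    (isClosed_le (by fun_prop) continuous_const).measurableSet.inter (hT.prod hC)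
  have e : {x : EuclideanSpace ℝ (Fin (m + 1)) | ‖x‖ ≤ 1 ∧ (spl m x).1 ∈ T ∧ (spl m x).2 ∈ C}
      = spl m ⁻¹' S := by
    ext x
    simp only [hS, mem_ofPred_eq, mem_preimage, mem_inter_iff, mem_prod, ← spl_norm]
    rw [sq_le_one_iff₀ (norm_nonneg x)]
  rw [e, (spl_pres m).measure_preimage hSm.nullMeasurableSet, Measure.volume_eq_prod,
    Measure.prod_apply hSm, ← lintegral_mul_const _ (by fun_prop), ← lintegral_indicator hT]
  refine lintegral_congr fun t => ?_
  by_cases ht : t ∈ T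
  · rw [indicator_of_mem ht, ← susp_slice hm hc t]
    congr 1
    ext y
    simp [hS, ht]
  · rw [indicator_of_notMem ht]
    have : Prod.mk t ⁻¹' S = ∅ := by
      ext y
      simp [hS, ht]
    rw [this, measure_empty]

theorem susp_half (m : ℕ) : ∫⁻ t in (univ : Set ℝ), ENNReal.ofReal (√(1 - t ^ 2) ^ m)
    = 2 * ∫⁻ t in Ici (0 : ℝ), ENNReal.ofReal (√(1 - t ^ 2) ^ m) := by
  have h1 := (Measure.measurePreserving_neg (volume : Measure ℝ)).setLIntegral_comp_preimage_emb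
    (Homeomorph.neg ℝ).measurableEmbedding (fun t => ENNReal.ofReal (√(1 - t ^ 2) ^ m)) (Ici 0)
  have h2 : (Neg.neg : ℝ → ℝ) ⁻¹' Ici 0 = Iic 0 := by ext t; simp
  simp only [h2, neg_sq] at h1
  rw [Measure.restrict_univ, ← lintegral_add_compl _ (measurableSet_Ici (a := (0 : ℝ))), compl_Ici,
    setLIntegral_congr Iio_ae_eq_Iic, h1, two_mul]

theorem Irr.succ {m : ℕ} (hm : m ≠ 0) (h : Irr m) : Irr (m + 1) := by
  obtain ⟨n, hn, ha, hv⟩ := h
  set n' : Fin (m + 1) → EuclideanSpace ℝ (Fin (m + 1)) :=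
    Fin.cons (WithLp.toLp 2 (Fin.cons 1 0)) fun i => WithLp.toLp 2 (Fin.cons 0 (n i)) with hn'
  have i0 : ∀ x, inner ℝ (n' 0) x = (spl m x).1 := by
    intro x; simp [hn', spl, PiLp.inner_apply, Fin.sum_univ_succ]
  have i1 : ∀ i x, inner ℝ (n' i.succ) x = inner ℝ (n i) (spl m x).2 := by
    intro i x; simp [hn', spl, PiLp.inner_apply, Fin.sum_univ_succ]
  have s0 : ∀ i : Fin m, spl m (n' i.succ) = (0, n i) := by
    intro i; simp [hn', spl]
  have nn : ∀ i : Fin m, ‖n' i.succ‖ = ‖n i‖ := by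
    intro i
    have := spl_norm m (n' i.succ)
    rw [s0] at this
    simpa [pow_left_inj₀] using this
  have a0 : ∀ i : Fin m, InnerProductGeometry.angle (n' 0) (n' i.succ) = Real.pi / 2 := by
    intro i
    rw [← InnerProductGeometry.inner_eq_zero_iff_angle_eq_pi_div_two, i0, s0]
  refine ⟨n', ?_, ?_, ?_⟩
  · rw [Fintype.linearIndependent_iff] at hn ⊢
    intro g hg
    rw [Fin.sum_univ_succ] at hg
    have g0 : g 0 = 0 := by
      have := congrArg (fun x => x 0) hg
      simpa [hn'] using this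
    have g1 : ∀ i : Fin m, g i.succ = 0 := by
      refine hn (fun i => g i.succ) ?_
      ext k
      have := congrArg (fun x => x k.succ) hg
      simpa [hn'] using this
    exact fun i => Fin.cases g0 g1 i
  · intro i j hij
    induction i using Fin.cases with
    | zero =>
      induction j using Fin.cases with
      | zero => exact absurd rfl hij
      | succ j => exact ⟨1 / 2, by rw [a0]; push_cast; ring⟩
    | succ i =>
      induction j using Fin.cases with
      | zero => exact ⟨1 / 2, by rw [InnerProductGeometry.angle_comm, a0]; push_cast; ring⟩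
      | succ j =>
        obtain ⟨q, hq⟩ := ha i j fun e => hij (by rw [e])
        refine ⟨q, ?_⟩
        rw [← hq, InnerProductGeometry.angle, InnerProductGeometry.angle, i1, s0, nn, nn]
  · rintro ⟨r, hr⟩
    set C : Set (EuclideanSpace ℝ (Fin m)) := {y | ∀ i, 0 ≤ inner ℝ (n i) y} with hC
    have hCm : MeasurableSet C := by
      rw [hC, ofPred_forall]
      exact MeasurableSet.iInter fun i =>
        (isClosed_le continuous_const (by fun_prop)).measurableSet
    have hc : ∀ r : ℝ, 0 < r → ∀ x, r • x ∈ C ↔ x ∈ C := by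
      intro r hr x
      simp only [hC, mem_ofPred_eq, inner_smul_right, mul_nonneg_iff_of_pos_left hr]
    have e1 := susp_vol hm hCm hc (measurableSet_Ici (a := (0 : ℝ)))
    have e2 := susp_vol hm MeasurableSet.univ (fun _ _ _ => Iff.rfl) (MeasurableSet.univ (α := ℝ))
    have f1 : {x : EuclideanSpace ℝ (Fin (m + 1)) | ‖x‖ ≤ 1 ∧ ∀ i, 0 ≤ inner ℝ (n' i) x}
        = {x | ‖x‖ ≤ 1 ∧ (spl m x).1 ∈ Ici (0 : ℝ) ∧ (spl m x).2 ∈ C} := by
      ext x
      simp only [mem_ofPred_eq, Fin.forall_fin_succ, i0, i1, hC, mem_Ici]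
    have f2 : closedBall (0 : EuclideanSpace ℝ (Fin (m + 1))) 1
        = {x | ‖x‖ ≤ 1 ∧ (spl m x).1 ∈ (univ : Set ℝ) ∧ (spl m x).2 ∈ univ} := by
      ext x; simp
    have f3 : C ∩ closedBall 0 1 = {x | ‖x‖ ≤ 1 ∧ ∀ i, 0 ≤ inner ℝ (n i) x} := by
      ext x; simp [hC, and_comm]
    have hB0 : (volume (closedBall (0 : EuclideanSpace ℝ (Fin (m + 1))) 1)).toReal ≠ 0 :=
      ENNReal.toReal_ne_zero.2
        ⟨(measure_closedBall_pos _ _ one_pos).ne', measure_closedBall_lt_top.ne⟩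
    rw [f1, f2, e1, e2, susp_half, univ_inter, f3] at hr
    rw [f2, e2, susp_half] at hB0
    simp only [ENNReal.toReal_mul, ENNReal.toReal_ofNat] at hr hB0
    have hW := right_ne_zero_of_mul (left_ne_zero_of_mul hB0)
    refine hv ⟨2 * r, mul_left_cancel₀ hW ?_⟩
    rw [hr]; push_cast; ring

end Pool.Agent.CS5
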