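import Pool.Agent.Work.MP_8f8a35_gt.CountB

-- merged part: Pool.Agent.Work.MP_8f8a35_gt.Aux2
section
-- merged part: Pool.Agent.Work.MP_8f8a35_gt.L1
section
/-!
Size and linearity lemmas for `l1`, `l1v`, `Hs`.

Plan.  `l1 q = ∑ n ∈ range N, |coeff|` for every `N > natDegree` (or every finset containing the
support).  `l1_mul_le`: write `p = ∑ monomial`, use `l1_sum_le` and `l1 (monomial n a * q) = |a| l1 q`
(or `coeff_mul` and a double sum).  `natDegree_Hs_le`: induction, `natDegree (derivative q) ≤ natDegree q`.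
`l1v_Hs_le`: induction on `n`; one step multiplies `l1v` by at most
`l1 h * (N + n c) + n * c * l1 h + ∑ x y, l1 (A x y)`; the base is monotone in `n`.
`pow_div_factorial_le`: `T ^ n / n! ≤ exp T` (`Real.pow_div_factorial_le_exp`), `b ^ n ≤ b ^ T`.
-/

set_option autoImplicit false

open Polynomial

namespace Pool.Agent.CS5

theorem l1_nonneg (q : ℤ[X]) : 0 ≤ l1 q := by
  exact Finset.sum_nonneg fun _ _ => abs_nonneg _

theorem l1_zero : l1 0 = 0 := by
  simp [l1]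

theorem one_le_l1 {q : ℤ[X]} (hq : q ≠ 0) : 1 ≤ l1 q := by
  obtain ⟨n, hn⟩ := support_nonempty.2 hq
  refine le_trans ?_ (Finset.single_le_sum (f := fun n => |((q.coeff n : ℤ) : ℝ)|)
    (fun _ _ => abs_nonneg _) hn)
  exact_mod_cast Int.one_le_abs (mem_support_iff.1 hn)

theorem l1_eq_sum (q : ℤ[X]) (s : Finset ℕ) (hs : q.support ⊆ s) :
    l1 q = ∑ n ∈ s, |((q.coeff n : ℤ) : ℝ)| := by
  refine Finset.sum_subset hs fun n _ hn => ?_
  rw [notMem_support_iff.1 hn]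
  simp

theorem l1_add_le (p q : ℤ[X]) : l1 (p + q) ≤ l1 p + l1 q := by
  rw [l1_eq_sum (p + q) (p.support ∪ q.support) support_add,
    l1_eq_sum p (p.support ∪ q.support) Finset.subset_union_left,
    l1_eq_sum q (p.support ∪ q.support) Finset.subset_union_right, ← Finset.sum_add_distrib]
  refine Finset.sum_le_sum fun n _ => ?_
  rw [coeff_add, Int.cast_add]
  exact abs_add_le _ _

theorem l1_neg (q : ℤ[X]) : l1 (-q) = l1 q := by
  simp [l1]

theorem l1_sum_le {α : Type} (s : Finset α) (f : α → ℤ[X]) :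
    l1 (∑ a ∈ s, f a) ≤ ∑ a ∈ s, l1 (f a) := by
  exact Finset.le_sum_of_subadditive l1 l1_zero.le l1_add_le s f

theorem l1_zsmul (a : ℤ) (q : ℤ[X]) : l1 (a • q) = |(a : ℝ)| * l1 q := by
  rw [l1_eq_sum (a • q) q.support (support_smul a q), l1, Finset.mul_sum]
  refine Finset.sum_congr rfl fun n _ => ?_
  rw [coeff_smul, smul_eq_mul, Int.cast_mul, abs_mul]

theorem l1_X_pow_mul (r : ℕ) (q : ℤ[X]) : l1 (X ^ r * q) = l1 q := by
  rw [l1_eq_sum (X ^ r * q) (q.support.image (· + r)) fun n hn => ?_,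
    Finset.sum_image fun a _ b _ hab => Nat.add_right_cancel hab, l1]
  · simp only [coeff_X_pow_mul]
  · have h1 := mem_support_iff.1 hn
    rw [coeff_X_pow_mul'] at h1
    split_ifs at h1 with c
    · exact Finset.mem_image.2 ⟨n - r, mem_support_iff.2 h1, Nat.sub_add_cancel c⟩
    · exact absurd rfl h1

theorem l1_mul_le (p q : ℤ[X]) : l1 (p * q) ≤ l1 p * l1 q := by
  have h1 : p * q = ∑ n ∈ p.support, p.coeff n • (X ^ n * q) := by
    conv_lhs => rw [p.as_sum_support_C_mul_X_pow, Finset.sum_mul]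
    exact Finset.sum_congr rfl fun n _ => by rw [mul_assoc, smul_eq_C_mul]
  rw [h1]
  refine (l1_sum_le _ _).trans (le_of_eq ?_)
  simp only [l1_zsmul, l1_X_pow_mul]
  rw [← Finset.sum_mul]
  rfl

theorem l1_derivative_le (q : ℤ[X]) {N : ℕ} (hq : q.natDegree ≤ N) :
    l1 (derivative q) ≤ N * l1 q := by
  have h1 : (derivative q).support ⊆ Finset.range N := fun n hn => by
    have h2 := mem_support_iff.1 hn
    rw [coeff_derivative] at h2
    exact Finset.mem_range.2 ((le_natDegree_of_ne_zero (left_ne_zero_of_mul h2)).trans hq)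
  have h2 : q.support ⊆ Finset.range (N + 1) := fun n hn =>
    Finset.mem_range.2 (Nat.lt_succ_of_le ((le_natDegree_of_mem_supp n hn).trans hq))
  rw [l1_eq_sum _ _ h1, l1_eq_sum _ _ h2, Finset.sum_range_succ', mul_add, Finset.mul_sum]
  refine le_add_of_le_of_nonneg (Finset.sum_le_sum fun n hn => ?_) (by positivity)
  have h3 : ((n : ℝ) + 1) ≤ N := by exact_mod_cast Finset.mem_range.1 hn
  rw [coeff_derivative]
  push_cast
  rw [abs_mul, mul_comm, abs_of_nonneg (by positivity : (0 : ℝ) ≤ n + 1)]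
  exact mul_le_mul_of_nonneg_right h3 (abs_nonneg _)

theorem norm_aeval_le (q : ℤ[X]) {N : ℕ} (hq : q.natDegree ≤ N) {z : ℂ} {r : ℝ} (hr : 1 ≤ r)
    (hz : ‖z‖ ≤ r) : ‖aeval z q‖ ≤ l1 q * r ^ N := by
  rw [aeval_def, eval₂_eq_sum, Polynomial.sum, l1, Finset.sum_mul]
  refine (norm_sum_le _ _).trans (Finset.sum_le_sum fun n hn => ?_)
  rw [norm_mul, norm_pow, eq_intCast, Complex.norm_intCast]
  refine mul_le_mul_of_nonneg_left ?_ (abs_nonneg _)
  exact (pow_le_pow_left₀ (norm_nonneg _) hz n).trans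
    (pow_le_pow_right₀ hr ((le_natDegree_of_mem_supp n hn).trans hq))

section
variable {ι : Type} [Fintype ι]

theorem l1v_nonneg (Q : ι → ℤ[X]) : 0 ≤ l1v Q := by
  exact Finset.sum_nonneg fun _ _ => l1_nonneg _

theorem l1v_zsmul (a : ℤ) (Q : ι → ℤ[X]) : l1v (a • Q) = |(a : ℝ)| * l1v Q := by
  simp only [l1v, Pi.smul_apply, l1_zsmul, Finset.mul_sum]

theorem l1v_sum_le {α : Type} (s : Finset α) (f : α → ι → ℤ[X]) :
    l1v (∑ a ∈ s, f a) ≤ ∑ a ∈ s, l1v (f a) := by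
  simp only [l1v, Finset.sum_apply]
  rw [Finset.sum_comm]
  exact Finset.sum_le_sum fun x _ => l1_sum_le s fun a => f a x

theorem pair_add (P Q : ι → ℤ[X]) (z : ℂ) (v : ι → ℂ) :
    pair (P + Q) z v = pair P z v + pair Q z v := by
  simp only [pair, Pi.add_apply, map_add, add_mul, Finset.sum_add_distrib]

theorem pair_smul (g : ℤ[X]) (Q : ι → ℤ[X]) (z : ℂ) (v : ι → ℂ) :
    pair (g • Q) z v = aeval z g * pair Q z v := by
  simp only [pair, Pi.smul_apply, smul_eq_mul, map_mul, mul_assoc, Finset.mul_sum]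

theorem pair_zsmul (a : ℤ) (Q : ι → ℤ[X]) (z : ℂ) (v : ι → ℂ) :
    pair (a • Q) z v = (a : ℂ) * pair Q z v := by
  simp only [pair, Pi.smul_apply, zsmul_eq_mul, map_mul, map_intCast, mul_assoc, Finset.mul_sum]

theorem pair_sum {α : Type} (s : Finset α) (f : α → ι → ℤ[X]) (z : ℂ) (v : ι → ℂ) :
    pair (∑ a ∈ s, f a) z v = ∑ a ∈ s, pair (f a) z v := by
  simp only [pair, Finset.sum_apply, map_sum, Finset.sum_mul]
  exact Finset.sum_comm

theorem norm_pair_le (Q : ι → ℤ[X]) {N : ℕ} (hQ : ∀ x, (Q x).natDegree ≤ N) {z : ℂ} {r : ℝ}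
    (hr : 1 ≤ r) (hz : ‖z‖ ≤ r) (v : ι → ℂ) {b : ℝ} (hb : 0 ≤ b) (hv : ∀ x, ‖v x‖ ≤ b) :
    ‖pair Q z v‖ ≤ l1v Q * r ^ N * b := by
  rw [pair, l1v, Finset.sum_mul, Finset.sum_mul]
  refine (norm_sum_le _ _).trans (Finset.sum_le_sum fun x _ => ?_)
  rw [norm_mul]
  exact mul_le_mul (norm_aeval_le _ (hQ x) hr hz) (hv x) (norm_nonneg _)
    (mul_nonneg (l1_nonneg _) (by positivity))

variable (h : ℤ[X]) (A : ι → ι → ℤ[X])

theorem nab_add (P Q : ι → ℤ[X]) : nab h A (P + Q) = nab h A P + nab h A Q := by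
  funext y
  simp only [nab, Pi.add_apply, derivative_add, add_mul, Finset.sum_add_distrib]
  ring

theorem nab_smul (g : ℤ[X]) (Q : ι → ℤ[X]) :
    nab h A (g • Q) = (h * derivative g) • Q + g • nab h A Q := by
  funext y
  simp only [nab, Pi.add_apply, Pi.smul_apply, smul_eq_mul, derivative_mul, mul_assoc,
    ← Finset.mul_sum]
  ring

theorem Hs_succ (P : ι → ℤ[X]) (n : ℕ) :
    Hs h A P (n + 1) = nab h A (Hs h A P n) - ((n : ℤ[X]) * derivative h) • Hs h A P n := by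
  rfl

theorem Hs_add (P Q : ι → ℤ[X]) (n : ℕ) : Hs h A (P + Q) n = Hs h A P n + Hs h A Q n := by
  induction n with
  | zero => rfl
  | succ n ih =>
    rw [Hs_succ, Hs_succ, Hs_succ, ih, nab_add, smul_add]
    abel

theorem Hs_zsmul (a : ℤ) (P : ι → ℤ[X]) (n : ℕ) : Hs h A (a • P) n = a • Hs h A P n := by
  induction n with
  | zero => rfl
  | succ n ih =>
    have h1 : ∀ Q : ι → ℤ[X], a • Q = (a : ℤ[X]) • Q := fun Q => (Int.cast_smul_eq_zsmul _ a Q).symm
    rw [Hs_succ, Hs_succ, ih, h1, h1, nab_smul, derivative_intCast, mul_zero, zero_smul, zero_add,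
      smul_sub, smul_comm]

theorem Hs_sum {α : Type} (s : Finset α) (f : α → ι → ℤ[X]) (n : ℕ) :
    Hs h A (∑ a ∈ s, f a) n = ∑ a ∈ s, Hs h A (f a) n := by
  classical
  induction s using Finset.induction_on with
  | empty =>
    have h1 := Hs_zsmul h A 0 0 n
    rw [zero_smul, zero_smul] at h1
    simpa using h1
  | insert a s ha ih => rw [Finset.sum_insert ha, Finset.sum_insert ha, Hs_add, ih]

theorem Hs_mem {M : Submodule ℤ[X] (ι → ℤ[X])} (hM : ∀ Q ∈ M, nab h A Q ∈ M)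
    {P : ι → ℤ[X]} (hP : P ∈ M) (n : ℕ) : Hs h A P n ∈ M := by
  induction n with
  | zero => exact hP
  | succ n ih =>
    rw [Hs_succ]
    exact M.sub_mem (hM _ ih) (M.smul_mem _ ih)

theorem natDegree_Hs_le {c N : ℕ} (hc : h.natDegree ≤ c) (hA : ∀ x y, (A x y).natDegree ≤ c)
    {P : ι → ℤ[X]} (hP : ∀ x, (P x).natDegree ≤ N) (n : ℕ) (x : ι) :
    (Hs h A P n x).natDegree ≤ N + n * c := by
  induction n generalizing x with
  | zero => simpa [Hs] using hP x
  | succ n ih =>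
    have h1 : ∀ q : ℤ[X], (derivative q).natDegree ≤ q.natDegree := fun q =>
      (natDegree_derivative_le q).trans (Nat.sub_le _ _)
    have e : N + (n + 1) * c = c + (N + n * c) := by ring
    rw [e]
    refine natDegree_sub_le_of_le (natDegree_add_le_of_degree_le ?_ ?_) ?_ |>.trans (max_self _).le
    · exact natDegree_mul_le_of_le hc ((h1 _).trans (ih x))
    · refine natDegree_sum_le_of_forall_le _ _ fun y _ => ?_
      rw [add_comm]
      exact natDegree_mul_le_of_le (ih y) (hA y x)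
    · refine natDegree_mul_le_of_le ?_ (ih x)
      refine natDegree_mul_le.trans ?_
      rw [natDegree_natCast, zero_add]
      exact (h1 h).trans hc

theorem L1_step {c N : ℕ} (hc : h.natDegree ≤ c) {Q : ι → ℤ[X]} (hQ : ∀ x, (Q x).natDegree ≤ N)
    (n : ℕ) : l1v (nab h A Q - ((n : ℤ[X]) * derivative h) • Q) ≤
      (l1 h * (N + n * c) + ∑ x, ∑ y, l1 (A x y)) * l1v Q := by
  have hh := l1_nonneg h
  have h1 : ∀ y, l1 ((nab h A Q - ((n : ℤ[X]) * derivative h) • Q) y) ≤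
      l1 h * (N + n * c) * l1 (Q y) + ∑ x, l1 (Q x) * l1 (A x y) := fun y => by
    have hy := l1_nonneg (Q y)
    have a1 : l1 (h * derivative (Q y)) ≤ l1 h * (N * l1 (Q y)) :=
      (l1_mul_le _ _).trans (mul_le_mul_of_nonneg_left (l1_derivative_le _ (hQ y)) hh)
    have a2 : l1 (∑ x, Q x * A x y) ≤ ∑ x, l1 (Q x) * l1 (A x y) :=
      (l1_sum_le _ _).trans (Finset.sum_le_sum fun x _ => l1_mul_le _ _)
    have a3 : l1 ((n : ℤ[X]) * derivative h * Q y) ≤ n * (c * l1 h * l1 (Q y)) := by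
      have e : (n : ℤ[X]) * derivative h * Q y = (n : ℤ) • (derivative h * Q y) := by
        rw [zsmul_eq_mul, Int.cast_natCast, mul_assoc]
      rw [e, l1_zsmul, Int.cast_natCast, Nat.abs_cast]
      exact mul_le_mul_of_nonneg_left ((l1_mul_le _ _).trans
        (mul_le_mul_of_nonneg_right (l1_derivative_le _ hc) hy)) (Nat.cast_nonneg n)
    have a4 := l1_add_le (h * derivative (Q y) + ∑ x, Q x * A x y)
      (-((n : ℤ[X]) * derivative h * Q y))
    have a5 := l1_add_le (h * derivative (Q y)) (∑ x, Q x * A x y)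
    rw [l1_neg, ← sub_eq_add_neg] at a4
    refine le_trans a4 ?_
    linarith only [a1, a2, a3, a5]
  refine (Finset.sum_le_sum fun y _ => h1 y).trans ?_
  rw [Finset.sum_add_distrib, ← Finset.mul_sum, add_mul, Finset.sum_comm, mul_comm _ (l1v Q)]
  refine add_le_add (le_of_eq (mul_comm _ _)) ?_
  rw [mul_comm, l1v, Finset.sum_mul]
  refine Finset.sum_le_sum fun x _ => ?_
  rw [← Finset.mul_sum]
  exact mul_le_mul_of_nonneg_left (Finset.single_le_sum (f := fun x => ∑ y, l1 (A x y))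
    (fun _ _ => Finset.sum_nonneg fun _ _ => l1_nonneg _) (Finset.mem_univ x)) (l1_nonneg _)

theorem l1v_Hs_le {c N : ℕ} (hc : h.natDegree ≤ c) (hA : ∀ x y, (A x y).natDegree ≤ c)
    {P : ι → ℤ[X]} (hP : ∀ x, (P x).natDegree ≤ N) (n : ℕ) :
    l1v (Hs h A P n) ≤ (l1 h * (N + 2 * c * n) + ∑ x, ∑ y, l1 (A x y)) ^ n * l1v P := by
  have hh := l1_nonneg h
  have hS : 0 ≤ ∑ x, ∑ y, l1 (A x y) :=
    Finset.sum_nonneg fun _ _ => Finset.sum_nonneg fun _ _ => l1_nonneg _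
  induction n with
  | zero => simp [Hs]
  | succ n ih =>
    have h1 := L1_step h A hc (natDegree_Hs_le h A hc hA hP n) n
    have h2 : l1 h * (N + 2 * c * n) + ∑ x, ∑ y, l1 (A x y) ≤
        l1 h * (N + 2 * c * ((n + 1 : ℕ) : ℝ)) + ∑ x, ∑ y, l1 (A x y) := by
      push_cast
      gcongr
      linarith only []
    have h3 : 0 ≤ l1 h * (N + 2 * c * n) + ∑ x, ∑ y, l1 (A x y) :=
      add_nonneg (mul_nonneg (l1_nonneg _) (by positivity))
        (Finset.sum_nonneg fun x _ => Finset.sum_nonneg fun y _ => l1_nonneg _)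
    have h4 : l1 h * (((N + n * c : ℕ) : ℝ) + n * c) = l1 h * (N + 2 * c * n) := by
      push_cast
      ring
    rw [h4] at h1
    rw [Hs_succ]
    refine h1.trans ((mul_le_mul_of_nonneg_left ih h3).trans ?_)
    rw [← mul_assoc, ← pow_succ']
    exact mul_le_mul_of_nonneg_right (pow_le_pow_left₀ h3 h2 _) (l1v_nonneg P)

end

theorem pow_div_factorial_le {b : ℝ} (hb : 1 ≤ b) {n T : ℕ} (hn : n ≤ T) :
    (b * T) ^ n / n.factorial ≤ (b * Real.exp 1) ^ T := by
  rw [mul_pow, mul_div_assoc, mul_pow, ← Real.exp_nat_mul, mul_one]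
  exact mul_le_mul (pow_le_pow_right₀ hb hn) (Real.pow_div_factorial_le_exp _ (by positivity) n)
    (by positivity) (by positivity)

end Pool.Agent.CS5
end

-- merged part: Pool.Agent.Work.MP_8f8a35_gt.An
section
/-!
Complex analysis for the auxiliary function.

Plan.  `cauchy_coeff`: `Complex.norm_iteratedDeriv_le_of_forall_mem_sphere_norm_le` (or the version for
`DiffContOnCl`).  `small_near`: for `‖z - c‖ ≤ R / 3` the Taylor series
(`Complex.hasSum_taylorSeries_on_ball`) gives `‖F z‖ ≤ ∑ n < K, e 3 ^ (-n) + ∑ n ≥ K, B 3 ^ (-n) ≤ 3 / 2 (e + B / 3 ^ K)`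
(bound term `n` by `e (1/3) ^ n + (if K ≤ n then B (1/3) ^ n else 0)`); then the Cauchy estimate on the
sphere of radius `R / 6` about `ξ`, which lies in `closedBall c (R / 3)`.
`Hs_deriv`: induction on `n`, for all `z ∈ U`: both sides are differentiable on the open set `U`
(`DifferentiableOn.analyticOnNhd`), differentiate the identity (`Filter.EventuallyEq.deriv_eq`),
multiply by `h(z)` and use `hode`; `iteratedDeriv_succ`; `Polynomial.hasDerivAt_aeval`.
`exists_pair_ne`: `Q = B 0 ≠ 0` lies in `M`; if all `pair (Hs h A Q n) ξ (Y · ξ)` vanish then all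
derivatives of `F = pair Q · (Y · ·)` at `ξ` vanish, so `F = 0` near `ξ` (Taylor series) and on the ball
(`AnalyticOnNhd.eqOn_zero_of_preconnected_of_eventuallyEq_zero`), contradicting `hind`.
-/

set_option autoImplicit false

open Polynomial Metric

namespace Pool.Agent.CS5

theorem cauchy_coeff {F : ℂ → ℂ} {c : ℂ} {R B : ℝ} (hR : 0 < R)
    (hF : DifferentiableOn ℂ F (ball c (2 * R))) (hB : ∀ z ∈ closedBall c R, ‖F z‖ ≤ B) (n : ℕ) :
    ‖iteratedDeriv n F c‖ * R ^ n / n.factorial ≤ B := by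
  have h1 := Complex.norm_iteratedDeriv_le_of_forall_mem_sphere_norm_le n hR
    (hF.diffContOnCl_ball (closedBall_subset_ball (by linarith)))
    fun z hz => hB z (sphere_subset_closedBall hz)
  rw [le_div_iff₀ (by positivity)] at h1
  rw [div_le_iff₀ (by positivity)]
  linarith

theorem small_near {F : ℂ → ℂ} {c : ℂ} {R B e : ℝ} (hR : 0 < R) (he : 0 ≤ e)
    (hF : DifferentiableOn ℂ F (ball c (2 * R))) (hB : ∀ z ∈ closedBall c R, ‖F z‖ ≤ B) (K : ℕ)
    (hK : ∀ n < K, ‖iteratedDeriv n F c‖ * R ^ n / n.factorial ≤ e) {ξ : ℂ}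
    (hξ : ξ ∈ ball c (R / 6)) (n : ℕ) :
    ‖iteratedDeriv n F ξ‖ / n.factorial ≤ (6 / R) ^ n * (3 / 2 * (e + B / 3 ^ K)) := by
  have hB0 : 0 ≤ B := (norm_nonneg _).trans (hB c (mem_closedBall_self hR.le))
  have g1 := hasSum_geometric_of_lt_one (r := 1 / 3) (by norm_num) (by norm_num)
  have g2 : HasSum (fun n : ℕ => if K ≤ n then B * (1 / 3 : ℝ) ^ n else 0)
      (B / 3 ^ K * (1 - 1 / 3)⁻¹) := by
    rw [← hasSum_nat_add_iff' K,
      Finset.sum_eq_zero fun i hi => if_neg (Finset.mem_range.1 hi).not_ge, sub_zero]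
    refine (g1.mul_left (B / 3 ^ K)).congr_fun fun i => ?_
    rw [if_pos (Nat.le_add_left _ _), pow_add, one_div, inv_pow _ K]
    ring
  have h1 : ∀ z ∈ closedBall c (R / 3), ‖F z‖ ≤ 3 / 2 * (e + B / 3 ^ K) := fun z hz => by
    refine ((Complex.hasSum_taylorSeries_on_ball hF
      (closedBall_subset_ball (by linarith only [hR]) hz)).norm_le_of_bounded ((g1.mul_left e).add g2)
      fun m => ?_).trans_eq (by ring)
    have h2 : ‖((m.factorial : ℂ))⁻¹ • (z - c) ^ m • iteratedDeriv m F c‖ ≤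
        ‖iteratedDeriv m F c‖ * R ^ m / m.factorial * (1 / 3) ^ m := by
      rw [norm_smul, norm_smul, norm_inv, norm_pow, Complex.norm_natCast]
      calc _ ≤ ((m.factorial : ℝ))⁻¹ * ((R / 3) ^ m * ‖iteratedDeriv m F c‖) := by
            gcongr
            exact mem_closedBall_iff_norm.1 hz
        _ = _ := by
            rw [div_pow, div_pow]
            ring
    refine h2.trans ?_
    split_ifs with hm
    · exact (mul_le_mul_of_nonneg_right (cauchy_coeff hR hF hB m) (by positivity)).trans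
        (le_add_of_nonneg_left (by positivity))
    · rw [add_zero]
      exact mul_le_mul_of_nonneg_right (hK m (not_le.1 hm)) (by positivity)
  have h2 : closedBall ξ (R / 6) ⊆ closedBall c (R / 3) :=
    closedBall_subset_closedBall' (by linarith only [hξ, mem_ball.1 hξ])
  have h3 := Complex.norm_iteratedDeriv_le_of_forall_mem_sphere_norm_le n
    (show 0 < R / 6 by positivity)
    (hF.diffContOnCl_ball (h2.trans (closedBall_subset_ball (by linarith))))
    fun z hz => h1 z (h2 (sphere_subset_closedBall hz))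
  rw [div_le_iff₀ (by positivity)]
  refine h3.trans_eq ?_
  rw [← inv_div R 6, inv_pow]
  ring

theorem iteratedDeriv_comb {α : Type} [Fintype α] {U : Set ℂ} (hU : IsOpen U) (F : α → ℂ → ℂ)
    (hF : ∀ a, DifferentiableOn ℂ (F a) U) (w : α → ℂ) {c : ℂ} (hc : c ∈ U) (n : ℕ) :
    iteratedDeriv n (fun z => ∑ a, w a * F a z) c = ∑ a, w a * iteratedDeriv n (F a) c := by
  rw [iteratedDeriv_fun_sum fun a _ =>
    contDiffAt_const.mul ((hF a).analyticOnNhd hU c hc).contDiffAt]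
  exact Finset.sum_congr rfl fun a _ => iteratedDeriv_const_mul_field _ _

theorem differentiableOn_pair {ι : Type} [Fintype ι] {U : Set ℂ} (Y : ι → ℂ → ℂ)
    (hY : ∀ x, DifferentiableOn ℂ (Y x) U) (P : ι → ℤ[X]) :
    DifferentiableOn ℂ (fun z => pair P z fun x => Y x z) U := by
  exact DifferentiableOn.fun_sum fun x _ => (P x).differentiableOn_aeval.mul (hY x)

theorem An_nab {ι : Type} [Fintype ι] (h : ℤ[X]) (A : ι → ι → ℤ[X]) {U : Set ℂ} (hU : IsOpen U)
    (Y : ι → ℂ → ℂ) (hY : ∀ x, DifferentiableOn ℂ (Y x) U)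
    (hode : ∀ x, ∀ z ∈ U, aeval z h * deriv (Y x) z = ∑ y, aeval z (A x y) * Y y z)
    (Q : ι → ℤ[X]) {z : ℂ} (hz : z ∈ U) :
    aeval z h * deriv (fun z => pair Q z fun x => Y x z) z = pair (nab h A Q) z fun x => Y x z := by
  have h1 := (HasDerivAt.fun_sum (u := Finset.univ) fun x _ => ((Q x).hasDerivAt_aeval z).fun_mul
    ((hY x).differentiableAt (hU.mem_nhds hz)).hasDerivAt).deriv
  simp only [pair, nab, map_add, map_mul, map_sum, add_mul, Finset.sum_add_distrib, Finset.sum_mul]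
  rw [h1, Finset.mul_sum, Finset.sum_comm, ← Finset.sum_add_distrib]
  refine Finset.sum_congr rfl fun x _ => ?_
  rw [mul_add, mul_left_comm _ _ (deriv (Y x) z), hode x z hz, Finset.mul_sum]
  simp only [mul_assoc]

theorem Hs_deriv {ι : Type} [Fintype ι] (h : ℤ[X]) (A : ι → ι → ℤ[X]) {U : Set ℂ} (hU : IsOpen U)
    (Y : ι → ℂ → ℂ) (hY : ∀ x, DifferentiableOn ℂ (Y x) U)
    (hode : ∀ x, ∀ z ∈ U, aeval z h * deriv (Y x) z = ∑ y, aeval z (A x y) * Y y z)
    (P : ι → ℤ[X]) (n : ℕ) {z : ℂ} (hz : z ∈ U) :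
    aeval z h ^ n * iteratedDeriv n (fun z => pair P z fun x => Y x z) z
      = pair (Hs h A P n) z fun x => Y x z := by
  induction n generalizing z with
  | zero => simp [Hs]
  | succ n ih =>
    have h1 : DifferentiableAt ℂ (iteratedDeriv n fun z => pair P z fun x => Y x z) z := by
      rw [iteratedDeriv_eq_iterate]
      exact (((differentiableOn_pair Y hY P).analyticOnNhd hU).iterated_deriv n z hz).differentiableAt
    have h2 := (((h.hasDerivAt_aeval z).fun_pow n).fun_mul h1.hasDerivAt).deriv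
    have h3 : (fun z => aeval z h ^ n * iteratedDeriv n (fun z => pair P z fun x => Y x z) z) =ᶠ[nhds z]
        fun z => pair (Hs h A P n) z fun x => Y x z := by
      filter_upwards [hU.mem_nhds hz] with u hu using ih hu
    rw [h3.deriv_eq] at h2
    have h4 : aeval z h * ((n : ℂ) * aeval z h ^ (n - 1)) = n * aeval z h ^ n := by
      cases n with
      | zero => simp
      | succ n => rw [Nat.add_sub_cancel]; ring
    rw [Hs_succ, sub_eq_add_neg, ← neg_smul, pair_add, pair_smul, ← An_nab h A hU Y hY hode _ hz, h2,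
      ← ih hz, iteratedDeriv_succ, map_neg, map_mul, map_natCast]
    linear_combination
      (-aeval z (derivative h) * iteratedDeriv n (fun z => pair P z fun x => Y x z) z) * h4

theorem exists_pair_ne {ι : Type} [Fintype ι] (h : ℤ[X]) (A : ι → ι → ℤ[X]) {c : ℂ} {r : ℝ}
    (Y : ι → ℂ → ℂ) (hY : ∀ x, DifferentiableOn ℂ (Y x) (ball c r))
    (hode : ∀ x, ∀ z ∈ ball c r, aeval z h * deriv (Y x) z = ∑ y, aeval z (A x y) * Y y z)
    (hind : ∀ P : ι → ℤ[X], (∀ z ∈ ball c r, pair P z (fun x => Y x z) = 0) → P = 0)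
    {M : Submodule ℤ[X] (ι → ℤ[X])} {j : ℕ} (hM : Good h A M j) {ξ : ℂ} (hξ : ξ ∈ ball c r)
    (hh : aeval ξ h ≠ 0) : ∃ Q ∈ M, pair Q ξ (fun x => Y x ξ) ≠ 0 := by
  by_contra hc
  push Not at hc
  obtain ⟨B, hB, hi⟩ := hM.ind
  have hF := differentiableOn_pair Y hY (B ⟨0, hM.pos⟩)
  refine hi.ne_zero ⟨0, hM.pos⟩ (hind _ ?_)
  refine (hF.analyticOnNhd isOpen_ball).eqOn_zero_of_preconnected_of_eventuallyEq_zero
    (convex_ball c r).isPreconnected hξ ?_
  obtain ⟨ε, hε, hs⟩ := Metric.isOpen_iff.1 isOpen_ball ξ hξ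
  filter_upwards [ball_mem_nhds ξ hε] with z hz
  have h1 := Complex.hasSum_taylorSeries_on_ball (hF.mono hs) hz
  have h2 : ∀ n, iteratedDeriv n (fun z => pair (B ⟨0, hM.pos⟩) z fun x => Y x z) ξ = 0 := fun n =>
    (mul_eq_zero.1 ((Hs_deriv h A isOpen_ball Y hY hode _ n hξ).trans
      (hc _ (Hs_mem h A hM.stab (hB _) n)))).resolve_left (pow_ne_zero _ hh)
  simp only [h2, smul_zero] at h1
  exact h1.unique hasSum_zero

end Pool.Agent.CS5
end

-- merged part: Pool.Agent.Work.MP_8f8a35_gt.Aux1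
section
/-!
Two estimates for the integral vectors `Q = D * Hs h A P n / n!`.

Plan.  From `hΛ`: `exp Λ1 * (18 * l1 h / R) * (k + 2 c + 1) ≤ exp Λ` (`Real.exp_log`, `one_le_l1`), hence both
`exp Λ1 * (l1 h * (k + 2 c + 1) * exp 1) ≤ exp Λ` (`exp 1 ≤ 3 ≤ 18 / R`) and `exp Λ1 * (l1 h * (6 / R)) ≤ exp Λ`.
`aux_size`: `n! * l1v Q = D * l1v (Hs h A P n)` (`l1v_zsmul`), `l1v_Hs_le`, the base is at most
`b * T` with `b = l1 h * (k + 2 c + 1) ≥ 1`, then `pow_div_factorial_le`.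
`aux_value`: `n! * pair Q ξ _ = D * pair (Hs h A P n) ξ _ = D * h(ξ) ^ n * F ^ (n) (ξ)` (`pair_zsmul`, `Hs_deriv`),
`‖h(ξ)‖ ≤ l1 h` (`norm_aeval_le` with `r = 1`), and `(l1 h * (6 / R)) ^ n ≤ (l1 h * (6 / R)) ^ T`.
`exists_min_slope`: the set of pairs `(S a, j)` is finite; minimise the rational number `S a / j`.
-/

set_option autoImplicit false

open Polynomial Metric

namespace Pool.Agent.CS5

theorem Aux1_key {h : ℤ[X]} (hh : h ≠ 0) {R Λ1 Λ x : ℝ} {k c T D : ℕ} (hR0 : 0 < R)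
    (hΛ : Λ1 + Real.log (18 * l1 h / R) + Real.log (k + 2 * c + 1) ≤ Λ)
    (hD : (D : ℝ) ≤ Real.exp (Λ1 * T)) (h0 : 0 ≤ x) (hx : x ≤ 18 * l1 h / R * (k + 2 * c + 1)) :
    D * x ^ T ≤ Real.exp (Λ * T) := by
  have h1 := one_le_l1 hh
  have h2 := Real.exp_le_exp.2 hΛ
  rw [Real.exp_add, Real.exp_add, Real.exp_log (by positivity), Real.exp_log (by positivity),
    mul_assoc] at h2
  rw [mul_comm Λ1, Real.exp_nat_mul] at hD
  rw [mul_comm Λ, Real.exp_nat_mul]
  calc _ ≤ Real.exp Λ1 ^ T * (18 * l1 h / R * (k + 2 * c + 1)) ^ T := by gcongr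
    _ ≤ _ := by
      rw [← mul_pow]
      gcongr

theorem aux_size {ι : Type} [Fintype ι] (h : ℤ[X]) (A : ι → ι → ℤ[X]) (c : ℕ)
    (hc : h.natDegree ≤ c) (hA : ∀ x y, (A x y).natDegree ≤ c) (hh : h ≠ 0) {R Λ1 Λ : ℝ} {k : ℕ}
    (hR0 : 0 < R) (hR1 : R ≤ 1)
    (hΛ : Λ1 + Real.log (18 * l1 h / R) + Real.log (k + 2 * c + 1) ≤ Λ)
    {T N D n : ℕ} {P Q : ι → ℤ[X]} (hP : ∀ x, (P x).natDegree ≤ N)
    (hN : l1 h * N + ∑ x, ∑ y, l1 (A x y) ≤ l1 h * ((k + 1) * T)) (hn : n ≤ T)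
    (hD : (D : ℝ) ≤ Real.exp (Λ1 * T))
    (hQ : (n.factorial : ℤ) • Q = (D : ℤ) • Hs h A P n) :
    l1v Q ≤ Real.exp (Λ * T) * l1v P := by
  have h1 := one_le_l1 hh
  have h2 : (1 : ℝ) ≤ k + 2 * c + 1 := le_add_of_nonneg_left (by positivity)
  have h3 : 1 ≤ l1 h * (k + 2 * c + 1) := one_le_mul_of_one_le_of_one_le h1 h2
  have h4 := congrArg l1v hQ
  rw [l1v_zsmul, l1v_zsmul, Int.cast_natCast, Int.cast_natCast, Nat.abs_cast, Nat.abs_cast] at h4
  have h5 : 0 ≤ ∑ x, ∑ y, l1 (A x y) :=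
    Finset.sum_nonneg fun x _ => Finset.sum_nonneg fun y _ => l1_nonneg _
  have h6 : l1 h * (N + 2 * c * n) + ∑ x, ∑ y, l1 (A x y) ≤ l1 h * (k + 2 * c + 1) * T := by
    have : l1 h * (2 * c * n) ≤ l1 h * (2 * c * T) := by gcongr
    linarith only [hN, this]
  have h7 : l1v (Hs h A P n) ≤ (l1 h * (k + 2 * c + 1) * T) ^ n * l1v P :=
    (l1v_Hs_le h A hc hA hP n).trans (mul_le_mul_of_nonneg_right
      (pow_le_pow_left₀ (add_nonneg (mul_nonneg (l1_nonneg _) (by positivity)) h5) h6 n)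
      (l1v_nonneg P))
  have h8 : l1 h * (k + 2 * c + 1) * Real.exp 1 ≤ 18 * l1 h / R * (k + 2 * c + 1) := by
    have : Real.exp 1 ≤ 18 / R := by
      rw [le_div_iff₀ hR0]
      linarith only [hR1, hR0, Real.exp_one_lt_three, Real.exp_pos 1, mul_pos_of_neg_of_neg (Mathlib.Tactic.Linarith.sub_neg_of_lt hR0) (Mathlib.Tactic.Linarith.sub_neg_of_lt Real.exp_one_lt_three)]
    calc _ ≤ l1 h * (k + 2 * c + 1) * (18 / R) := by gcongr
      _ = _ := by ring
  have h9 := Aux1_key hh hR0 hΛ hD (by positivity) h8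
  have hP0 := l1v_nonneg P
  calc l1v Q = D * (l1v (Hs h A P n) / n.factorial) := by
        rw [← mul_div_assoc, ← h4, mul_div_cancel_left₀ _ (by positivity)]
    _ ≤ D * ((l1 h * (k + 2 * c + 1) * T) ^ n / n.factorial * l1v P) := by
        rw [div_mul_eq_mul_div]
        gcongr
    _ ≤ D * ((l1 h * (k + 2 * c + 1) * Real.exp 1) ^ T * l1v P) := by
        gcongr
        exact pow_div_factorial_le h3 hn
    _ ≤ _ := by
        rw [← mul_assoc]
        gcongr

theorem aux_value {ι : Type} [Fintype ι] (h : ℤ[X]) (A : ι → ι → ℤ[X]) (c : ℕ) (hh : h ≠ 0)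
    {R Λ1 Λ : ℝ} {k : ℕ} (hR0 : 0 < R) (hR1 : R ≤ 1)
    (hΛ : Λ1 + Real.log (18 * l1 h / R) + Real.log (k + 2 * c + 1) ≤ Λ)
    {U : Set ℂ} (hU : IsOpen U) (Y : ι → ℂ → ℂ) (hY : ∀ x, DifferentiableOn ℂ (Y x) U)
    (hode : ∀ x, ∀ z ∈ U, aeval z h * deriv (Y x) z = ∑ y, aeval z (A x y) * Y y z)
    {T D n : ℕ} {P Q : ι → ℤ[X]} (hn : n ≤ T) (hD : (D : ℝ) ≤ Real.exp (Λ1 * T))
    (hQ : (n.factorial : ℤ) • Q = (D : ℤ) • Hs h A P n) {ξ : ℂ} (hξ : ξ ∈ U) (hξ1 : ‖ξ‖ ≤ 1)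
    {b : ℝ}
    (hb : ‖iteratedDeriv n (fun z => pair P z fun x => Y x z) ξ‖ / n.factorial ≤ (6 / R) ^ n * b) :
    ‖pair Q ξ fun x => Y x ξ‖ ≤ Real.exp (Λ * T) * b := by
  have h1 := one_le_l1 hh
  have h2 : (1 : ℝ) ≤ k + 2 * c + 1 := le_add_of_nonneg_left (by positivity)
  have h3 : 1 ≤ 6 / R := by
    rw [le_div_iff₀ hR0]
    linarith only [hR1]
  have hb0 : 0 ≤ b := nonneg_of_mul_nonneg_right (le_trans (by positivity) hb) (by positivity)
  have h4 := congrArg (fun Q => ‖pair Q ξ fun x => Y x ξ‖) hQ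
  simp only [pair_zsmul, ← Hs_deriv h A hU Y hY hode P n hξ, norm_mul, norm_pow, Int.cast_natCast,
    Complex.norm_natCast] at h4
  have h5 : ‖aeval ξ h‖ ≤ l1 h := by simpa using norm_aeval_le h le_rfl le_rfl hξ1
  have h6 : l1 h * (6 / R) ≤ 18 * l1 h / R * (k + 2 * c + 1) :=
    calc _ ≤ 3 * (l1 h * (6 / R)) * 1 := by linarith only [h1, h3, mul_nonneg_of_nonpos_of_nonpos (Mathlib.Tactic.Linarith.sub_nonpos_of_le h1) (Mathlib.Tactic.Linarith.sub_nonpos_of_le h3)]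
      _ ≤ 3 * (l1 h * (6 / R)) * (k + 2 * c + 1) := by gcongr
      _ = _ := by ring
  have h7 := Aux1_key hh hR0 hΛ hD (by positivity) h6
  calc _ = D * (‖aeval ξ h‖ ^ n *
        (‖iteratedDeriv n (fun z => pair P z fun x => Y x z) ξ‖ / n.factorial)) := by
        rw [← mul_div_assoc, ← mul_div_assoc, ← h4, mul_div_cancel_left₀ _ (by positivity)]
    _ ≤ D * (l1 h ^ n * ((6 / R) ^ n * b)) := by gcongr
    _ = D * (l1 h * (6 / R)) ^ n * b := by
        rw [mul_pow]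
        ring
    _ ≤ D * (l1 h * (6 / R)) ^ T * b := by
        gcongr
        exact one_le_mul_of_one_le_of_one_le h1 h3
    _ ≤ _ := by gcongr

theorem exists_min_slope {α : Type} (P : α → ℕ → Prop) (S : α → ℕ) (a b : ℕ)
    (hS : ∀ x, S x ≤ a) (hP : ∀ x j, P x j → 1 ≤ j ∧ j ≤ b) (hne : ∃ x j, P x j) :
    ∃ x j, P x j ∧ ∀ x' j', P x' j' → S x * j' ≤ S x' * j := by
  have h1 : {p : ℕ × ℕ | ∃ x, P x p.2 ∧ S x = p.1}.Finite :=
    ((Set.finite_Iic a).prod (Set.finite_Iic b)).subset fun p ⟨x, h1, h2⟩ =>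
      ⟨h2 ▸ hS x, (hP x _ h1).2⟩
  obtain ⟨x₀, j₀, h0⟩ := hne
  obtain ⟨⟨s, j⟩, ⟨x, h2, h3⟩, h4⟩ := Set.exists_min_image _ (fun p : ℕ × ℕ => (p.1 : ℚ) / p.2) h1
    ⟨(S x₀, j₀), x₀, h0, rfl⟩
  refine ⟨x, j, h2, fun x' j' h5 => ?_⟩
  have h6 := h4 (S x', j') ⟨x', h5, rfl⟩
  rw [div_le_div_iff₀ (Nat.cast_pos.2 (hP x j h2).1) (Nat.cast_pos.2 (hP x' j' h5).1), ← h3] at h6
  exact_mod_cast h6

end Pool.Agent.CS5
end

-- merged part: Pool.Agent.Work.MP_8f8a35_gt.LA
section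
/-!
Linear algebra: exact conditions plus smallness give vanishing.

Plan.  `la_main`: let `K = W ⊓ ker φ`; rank-nullity for `φ` restricted to `W` gives
`finrank W = k + finrank K`.  `exists_coords`: for a subspace `K` of `γ → ℂ` there is a set `G` of at most
`finrank K` coordinates such that an element of `K` vanishing on `G` is zero (induction on
`finrank K`: if `K ≠ ⊥` pick `u ∈ K`, `g` with `u g ≠ 0` and pass to `K ⊓ ker (proj g)`).  The subspace
`W' = {u ∈ W | u g = 0 on G}` meets `ker φ` trivially, so `φ` is injective on the finite-dimensional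
`W'` and there is `C > 0` with `‖u‖ ≤ C ‖φ u‖` on `W'` (`LinearMap.exists_antilipschitzWith`).  An integer
vector of sup norm `< 1` is zero.
`span_top`: for `u ∈ W` with `u t ≠ 0`, apply `∏ t' ≠ t, (diag ξ - ξ t')` to get a nonzero multiple of
`Pi.single t 1` in `W`.
`map_rspan_top`: the image is the span of the vectors `fun t => pair Q (ξ t) (Yv t)`, `Q ∈ M`, and
`X • Q ∈ M` (`pair_smul`); apply `span_top`.
`rspan_le_sum_sig`: `Vd` maps `rspan M ρ` injectively into `Submodule.pi univ` of the spans that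
define `sig`; the dimension of a product is the sum (`Module.finrank_pi_fintype`).
-/

set_option autoImplicit false

open Polynomial

namespace Pool.Agent.CS5

theorem exists_coords {γ : Type} [Fintype γ] (K : Submodule ℂ (γ → ℂ)) :
    ∃ G : Finset γ, G.card ≤ Module.finrank ℂ K ∧ ∀ u ∈ K, (∀ g ∈ G, u g = 0) → u = 0 := by
  classical
  induction' h : Module.finrank ℂ K using Nat.strong_induction_on with n ih generalizing K
  by_cases hK : K = ⊥
  · exact ⟨∅, by simp, fun u hu _ => by simpa [hK] using hu⟩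
  · obtain ⟨u, hu, hu0⟩ := (Submodule.ne_bot_iff K).1 hK
    obtain ⟨g, hg⟩ := Function.ne_iff.1 hu0
    have hlt : K ⊓ LinearMap.ker (LinearMap.proj g : (γ → ℂ) →ₗ[ℂ] ℂ) < K :=
      lt_of_le_of_ne inf_le_left fun e => hg (e.ge hu).2
    have h2 := Submodule.finrank_lt_finrank_of_lt hlt
    obtain ⟨G, hG, hG2⟩ := ih _ (h ▸ h2) _ rfl
    exact ⟨insert g G, (Finset.card_insert_le _ _).trans (by omega), fun w hw hw0 =>
      hG2 w ⟨hw, hw0 g (Finset.mem_insert_self _ _)⟩ fun g' hg' =>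
        hw0 g' (Finset.mem_insert_of_mem hg')⟩

theorem la_main {γ : Type} [Fintype γ] {k : ℕ} (W : Submodule ℂ (γ → ℂ))
    (φ : (γ → ℂ) →ₗ[ℂ] (Fin k → ℂ)) (hφ : W.map φ = ⊤) :
    k ≤ Module.finrank ℂ W ∧ ∃ (G : Finset γ) (c0 : ℝ), 0 < c0 ∧
      G.card ≤ Module.finrank ℂ W - k ∧
      ∀ x : γ → ℤ, (fun g => ((x g : ℤ) : ℂ)) ∈ W → (∀ g ∈ G, x g = 0) →
        (∀ t, ‖φ (fun g => ((x g : ℤ) : ℂ)) t‖ < c0) → x = 0 := by
  classical
  have h1 := LinearMap.finrank_range_add_finrank_ker (φ.domRestrict W)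
  have h2 : LinearMap.range (φ.domRestrict W) = ⊤ := by rw [LinearMap.range_domRestrict, hφ]
  rw [h2, finrank_top, Module.finrank_fin_fun] at h1
  have h3 : Module.finrank ℂ (W ⊓ LinearMap.ker φ : Submodule ℂ (γ → ℂ)) =
      Module.finrank ℂ (LinearMap.ker (φ.domRestrict W)) := by
    rw [LinearMap.ker_domRestrict, ← Submodule.finrank_map_subtype_eq W,
      Submodule.map_comap_subtype]
  obtain ⟨G, hG, hG2⟩ := exists_coords (W ⊓ LinearMap.ker φ)
  let W' : Submodule ℂ (γ → ℂ) :=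
    W ⊓ ⨅ g ∈ G, LinearMap.ker (LinearMap.proj g : (γ → ℂ) →ₗ[ℂ] ℂ)
  have hW' : ∀ u, u ∈ W' ↔ u ∈ W ∧ ∀ g ∈ G, u g = 0 := fun u => by
    simp [W', Submodule.mem_iInf]
  obtain ⟨C, hC, hA⟩ := (φ.domRestrict W').exists_antilipschitzWith (by
    rw [LinearMap.ker_eq_bot']
    intro u hu
    obtain ⟨a, b⟩ := (hW' u).1 u.2
    exact Subtype.ext (hG2 u ⟨a, hu⟩ b))
  have hC' : (0 : ℝ) < C := hC
  refine ⟨by omega, G, (C : ℝ)⁻¹, inv_pos.2 hC', by omega, fun x hx hxG hs => ?_⟩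
  have hm : (fun g => ((x g : ℤ) : ℂ)) ∈ W' := (hW' _).2 ⟨hx, fun g hg => by simp [hxG g hg]⟩
  have h4 := ZeroHomClass.bound_of_antilipschitz _ hA ⟨_, hm⟩
  have h5 : ‖φ (fun g => ((x g : ℤ) : ℂ))‖ < (C : ℝ)⁻¹ :=
    (pi_norm_lt_iff (inv_pos.2 hC')).2 hs
  have h6 : ‖(fun g => ((x g : ℤ) : ℂ))‖ < 1 := by
    refine lt_of_le_of_lt h4 ?_
    rw [← mul_inv_cancel₀ hC'.ne']
    exact mul_lt_mul_of_pos_left h5 hC'
  funext g
  have h7 := (norm_le_pi_norm (fun g => ((x g : ℤ) : ℂ)) g).trans_lt h6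
  rw [Complex.norm_intCast] at h7
  exact Int.abs_lt_one_iff.1 (by exact_mod_cast h7)

theorem span_top {k : ℕ} (ξ : Fin k → ℂ) (hξ : Function.Injective ξ) (W : Submodule ℂ (Fin k → ℂ))
    (hst : ∀ u ∈ W, (fun t => ξ t * u t) ∈ W) (hne : ∀ t, ∃ u ∈ W, u t ≠ 0) : W = ⊤ := by
  classical
  have h1 : ∀ u ∈ W, ∀ s : Finset (Fin k), (fun t => (∏ a ∈ s, (ξ t - ξ a)) * u t) ∈ W := by
    intro u hu s
    induction s using Finset.induction_on with
    | empty => simpa using hu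
    | insert a s ha ih =>
      convert W.sub_mem (hst _ ih) (W.smul_mem (ξ a) ih) using 1
      funext t
      simp only [Finset.prod_insert ha, Pi.sub_apply, Pi.smul_apply, smul_eq_mul]
      ring
  have h2 : ∀ t, Pi.single t (1 : ℂ) ∈ W := by
    intro t
    obtain ⟨u, hu, hu0⟩ := hne t
    have hc : (∏ a ∈ Finset.univ.erase t, (ξ t - ξ a)) * u t ≠ 0 :=
      mul_ne_zero (Finset.prod_ne_zero_iff.2 fun a ha =>
        sub_ne_zero.2 fun e => (Finset.ne_of_mem_erase ha) (hξ e).symm) hu0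
    convert W.smul_mem ((∏ a ∈ Finset.univ.erase t, (ξ t - ξ a)) * u t)⁻¹
      (h1 u hu (Finset.univ.erase t)) using 1
    funext t'
    by_cases e : t' = t
    · subst e
      simp only [Pi.single_eq_same, Pi.smul_apply, smul_eq_mul, inv_mul_cancel₀ hc]
    · simp only [Pi.single_eq_of_ne e, Pi.smul_apply, smul_eq_mul]
      rw [Finset.prod_eq_zero (f := fun a => ξ t' - ξ a)
        (Finset.mem_erase.2 ⟨e, Finset.mem_univ _⟩) (sub_self (ξ t')), zero_mul, mul_zero]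
  refine eq_top_iff.2 fun u _ => ?_
  rw [← Finset.univ_sum_single u]
  refine W.sum_mem fun t _ => ?_
  convert W.smul_mem (u t) (h2 t) using 1
  rw [← Pi.single_smul, smul_eq_mul, mul_one]

theorem map_rspan_top {ι γ : Type} [Fintype ι] {k : ℕ} (M : Submodule ℤ[X] (ι → ℤ[X]))
    (ρ : (ι → ℤ[X]) →+ (γ → ℤ)) (φ : (γ → ℂ) →ₗ[ℂ] (Fin k → ℂ)) (ξ : Fin k → ℂ)
    (hξ : Function.Injective ξ) (Yv : Fin k → ι → ℂ)
    (hφ : ∀ Q t, φ (fun g => ((ρ Q g : ℤ) : ℂ)) t = pair Q (ξ t) (Yv t))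
    (hne : ∀ t, ∃ Q ∈ M, pair Q (ξ t) (Yv t) ≠ 0) : (rspan M ρ).map φ = ⊤ := by
  refine span_top ξ hξ _ ?_ fun t => ?_
  · rintro _ ⟨u, hu, rfl⟩
    induction hu using Submodule.span_induction with
    | mem u hu =>
      obtain ⟨Q, hQ, rfl⟩ := hu
      refine ⟨_, Submodule.subset_span ⟨(X : ℤ[X]) • Q, M.smul_mem _ hQ, rfl⟩, ?_⟩
      funext t
      rw [hφ, hφ, pair_smul, aeval_X]
    | zero =>
      convert Submodule.zero_mem _ using 1
      funext t
      simp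
    | add a b _ _ ha hb =>
      convert Submodule.add_mem _ ha hb using 1
      funext t
      simp [mul_add]
    | smul c a _ ha =>
      convert Submodule.smul_mem _ c ha using 1
      funext t
      simp [mul_left_comm]
  · obtain ⟨Q, hQ, h0⟩ := hne t
    exact ⟨_, ⟨_, Submodule.subset_span ⟨Q, hQ, rfl⟩, rfl⟩, by rwa [hφ]⟩

theorem rspan_le_sum_sig {ι β γ : Type} [Fintype ι] [Fintype β] [Fintype γ]
    (M : Submodule ℤ[X] (ι → ℤ[X])) (ρ : (ι → ℤ[X]) →+ (γ → ℤ)) (Ξ : Finset ℂ)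
    (v : ℂ → β → ι → ℂ) (Vd : (γ → ℂ) →ₗ[ℂ] (Ξ → β → ℂ)) (hVd : Function.Injective Vd)
    (hV : ∀ Q (z : Ξ) b, Vd (fun g => ((ρ Q g : ℤ) : ℂ)) z b = pair Q z (v z b)) :
    Module.finrank ℂ (rspan M ρ) ≤ ∑ z ∈ Ξ, sig M z (v z) := by
  let S : Ξ → Submodule ℂ (β → ℂ) := fun z =>
    Submodule.span ℂ {u : β → ℂ | ∃ Q ∈ M, u = fun b => pair Q z (v z b)}
  have h1 : ∀ z : Ξ, ∀ u ∈ rspan M ρ, Vd u z ∈ S z := by
    intro z u hu
    induction hu using Submodule.span_induction with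
    | mem u hu =>
      obtain ⟨Q, hQ, rfl⟩ := hu
      exact Submodule.subset_span ⟨Q, hQ, funext fun b => hV Q z b⟩
    | zero => rw [map_zero]; exact (S z).zero_mem
    | add a b _ _ ha hb => rw [map_add]; exact (S z).add_mem ha hb
    | smul c a _ ha => rw [map_smul]; exact (S z).smul_mem c ha
  let f : rspan M ρ →ₗ[ℂ] (∀ z : Ξ, S z) := LinearMap.pi fun z =>
    (((LinearMap.proj z).comp Vd).domRestrict (rspan M ρ)).codRestrict (S z) fun u => h1 z u u.2
  have h2 : Function.Injective f := fun a b e =>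
    Subtype.ext (hVd (funext fun z => congrArg Subtype.val (congrFun e z)))
  have h3 := LinearMap.finrank_le_finrank_of_injective h2
  rw [Module.finrank_pi_fintype] at h3
  rw [← Finset.sum_coe_sort]
  exact h3

theorem rspan_le_card {ι γ : Type} [Fintype γ] (M : Submodule ℤ[X] (ι → ℤ[X]))
    (ρ : (ι → ℤ[X]) →+ (γ → ℤ)) : Module.finrank ℂ (rspan M ρ) ≤ Fintype.card γ := by
  rw [← Module.finrank_fintype_fun_eq_card ℂ]
  exact Submodule.finrank_le _

end Pool.Agent.CS5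
end

-- merged part: Pool.Agent.Work.MP_8f8a35_gt.Sg
section
/-!
A pigeonhole lemma with exact integer rows and approximate real rows.

Plan.  Map the box `U → Fin (H + 1)` (or `Fintype.piFinset fun _ => Icc 0 H`) to the pair
`(e ↦ ∑ a u * ℓ e u, f ↦ ⌊(∑ a u * r f u) / ε⌋)`, which lies in
`piFinset (Icc (-⌊B1⌋) ⌊B1⌋) ×ˢ piFinset (Icc ⌊-B2 / ε⌋ ⌊B2 / ε⌋)`.  The two intervals have at most `2 B1 + 1`
and `2 B2 / ε + 2` elements (`B1 ≥ 0` if `E` is nonempty, from `a = 0`; same for `B2`).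
`Finset.exists_ne_map_eq_of_card_lt_of_maps_to` gives two points; take the difference.
-/

set_option autoImplicit false

namespace Pool.Agent.CS5

theorem Sg_card {E : Type} [Fintype E] [DecidableEq E] (s : Finset ℤ) (c : ℝ)
    (h : Nonempty E → (s.card : ℝ) ≤ c) :
    ((Fintype.piFinset fun _ : E => s).card : ℝ) ≤ c ^ Fintype.card E := by
  rw [Fintype.card_piFinset, Finset.prod_const, Finset.card_univ, Nat.cast_pow]
  rcases isEmpty_or_nonempty E with hE | hE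
  · simp
  · exact pow_le_pow_left₀ (Nat.cast_nonneg _) (h hE) _

theorem Sg_Icc {x y : ℤ} {c : ℝ} (h0 : 0 ≤ c) (h : (y : ℝ) + 1 - x ≤ c) :
    ((Finset.Icc x y).card : ℝ) ≤ c := by
  rw [Int.card_Icc]
  rcases le_total (y + 1 - x) 0 with h1 | h1
  · rw [Int.toNat_of_nonpos h1]
    simpa using h0
  · have e : (((y + 1 - x).toNat : ℕ) : ℝ) = ((y + 1 - x : ℤ) : ℝ) := by
      rw [← Int.cast_natCast, Int.toNat_of_nonneg h1]
    rw [e]
    push_cast
    exact h

theorem siegel {U E F : Type} [Fintype U] [Fintype E] [Fintype F] (H : ℕ) (ℓ : E → U → ℤ)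
    (r : F → U → ℝ) (B1 B2 ε : ℝ) (hε : 0 < ε)
    (hB1 : ∀ a : U → ℤ, (∀ u, |a u| ≤ H) → ∀ e, |((∑ u, a u * ℓ e u : ℤ) : ℝ)| ≤ B1)
    (hB2 : ∀ a : U → ℤ, (∀ u, |a u| ≤ H) → ∀ f, |∑ u, (a u : ℝ) * r f u| ≤ B2)
    (hcount : (2 * B1 + 1) ^ Fintype.card E * (2 * B2 / ε + 2) ^ Fintype.card F
      < ((H : ℝ) + 1) ^ Fintype.card U) :
    ∃ a : U → ℤ, a ≠ 0 ∧ (∀ u, |a u| ≤ H) ∧ (∀ e, ∑ u, a u * ℓ e u = 0) ∧
      ∀ f, |∑ u, (a u : ℝ) * r f u| ≤ ε := by
  classical
  have hbox : ∀ a ∈ Fintype.piFinset fun _ : U => Finset.Icc (0 : ℤ) H, ∀ u, |a u| ≤ H := by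
    intro a ha u
    have := Finset.mem_Icc.1 (Fintype.mem_piFinset.1 ha u)
    rw [abs_le]
    omega
  have c1 : ((Fintype.piFinset fun _ : E => Finset.Icc (-⌊B1⌋) ⌊B1⌋).card : ℝ) ≤
      (2 * B1 + 1) ^ Fintype.card E := by
    refine Sg_card _ _ fun ⟨e⟩ => ?_
    have h0 : 0 ≤ B1 := (abs_nonneg _).trans (hB1 0 (by simp) e)
    have := Int.floor_le B1
    refine Sg_Icc (by linarith only [h0]) ?_
    push_cast
    linarith
  have c2 : ((Fintype.piFinset fun _ : F => Finset.Icc ⌊-B2 / ε⌋ ⌊B2 / ε⌋).card : ℝ) ≤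
      (2 * B2 / ε + 2) ^ Fintype.card F := by
    refine Sg_card _ _ fun ⟨f⟩ => ?_
    have h0 : 0 ≤ B2 := (abs_nonneg _).trans (hB2 0 (by simp) f)
    have h1 := Int.floor_le (B2 / ε)
    have h2 := Int.lt_floor_add_one (-B2 / ε)
    refine Sg_Icc (by positivity) ?_
    rw [neg_div] at h2 ⊢
    rw [mul_div_assoc]
    linarith only [h1, h2]
  have hc : ((Fintype.piFinset fun _ : E => Finset.Icc (-⌊B1⌋) ⌊B1⌋) ×ˢ
      (Fintype.piFinset fun _ : F => Finset.Icc ⌊-B2 / ε⌋ ⌊B2 / ε⌋)).card <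
        (Fintype.piFinset fun _ : U => Finset.Icc (0 : ℤ) H).card := by
    have e : ((Fintype.piFinset fun _ : U => Finset.Icc (0 : ℤ) H).card : ℝ) =
        ((H : ℝ) + 1) ^ Fintype.card U := by
      simp [Fintype.card_piFinset]
    rw [← Nat.cast_lt (α := ℝ), e, Finset.card_product, Nat.cast_mul]
    exact (mul_le_mul c1 c2 (Nat.cast_nonneg _) ((Nat.cast_nonneg _).trans c1)).trans_lt hcount
  obtain ⟨a, ha, b, hb, hab, h⟩ := Finset.exists_ne_map_eq_of_card_lt_of_maps_to hc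
    (f := fun a : U → ℤ => (fun e => ∑ u, a u * ℓ e u, fun f => ⌊(∑ u, (a u : ℝ) * r f u) / ε⌋))
    (by
      intro a ha
      have ha' := hbox a ha
      refine Finset.mem_coe.2 (Finset.mem_product.2 ⟨Fintype.mem_piFinset.2 fun e => ?_,
        Fintype.mem_piFinset.2 fun f => ?_⟩)
      · have h1 := abs_le.1 (hB1 a ha' e)
        refine Finset.mem_Icc.2 ⟨neg_le.1 (Int.le_floor.2 ?_), Int.le_floor.2 h1.2⟩
        rw [Int.cast_neg]
        exact neg_le.1 h1.1
      · have h1 := abs_le.1 (hB2 a ha' f)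
        exact Finset.mem_Icc.2 ⟨Int.floor_le_floor (div_le_div_of_nonneg_right h1.1 hε.le),
          Int.floor_le_floor (div_le_div_of_nonneg_right h1.2 hε.le)⟩)
  obtain ⟨h1, h2⟩ := Prod.mk.inj h
  refine ⟨a - b, sub_ne_zero.2 hab, fun u => ?_, fun e => ?_, fun f => ?_⟩
  · have h3 := Finset.mem_Icc.1 (Fintype.mem_piFinset.1 ha u)
    have h4 := Finset.mem_Icc.1 (Fintype.mem_piFinset.1 hb u)
    rw [Pi.sub_apply, abs_le]
    omega
  · simp only [Pi.sub_apply, sub_mul, Finset.sum_sub_distrib]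
    exact sub_eq_zero.2 (congrFun h1 e)
  · simp only [Pi.sub_apply, Int.cast_sub, sub_mul, Finset.sum_sub_distrib]
    have h3 := Int.abs_sub_lt_one_of_floor_eq_floor (congrFun h2 f)
    rw [← sub_div, abs_div, abs_of_pos hε, div_lt_one hε] at h3
    exact h3.le

end Pool.Agent.CS5
end

-- merged part: Pool.Agent.Work.MP_8f8a35_gt.Nm
section
/-!
The numerical inequalities of the auxiliary construction.

Plan.  From the hypotheses `100 ≤ k`.  Take `T` large.  `N` is the largest natural number with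
`j (N + C) < S (T - m)`; so `S (T - m) ≤ j (N + 1 + C)`, i.e. `j (N + 1) ≥ S T - C2` with `C2 = S m + j C`,
and `100 j N < 100 S T ≤ j k T`.  `H = ⌊exp (k T / 16)⌋₊`, `K = ⌈k T / 8⌉₊`, `W = C1 (N + 1) H`.
For `T` large `3 C1 (k T + 1) ≤ exp T`, so `W ≤ exp (T + k T / 16) / 3`.  Then
`2 W exp (Λ T) + 1 ≤ exp ((2 Λ + k / 16) T)` and, with `2 ^ N ≤ exp N ≤ exp (k T / 100)`,
`2 W 2 ^ N exp (2 Λ T) + 2 ≤ exp (0.1125 k T)` (indeed `1 + 2 Λ + k / 16 + k / 100 ≤ 0.1025 k`).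
Logarithm of the left side: at most `(S - k) T (2 Λ + k / 16) T + (k T / 4 + 2) 0.1125 k T`; of the
right side: at least `(S T - C2) k T / 16`.  The difference is at least
`T ^ 2 k ^ 2 (1 / 16 - 1 / 50 - 0.028125) - T k (C2 / 16 + 0.225) > 0` for `T` large (`2 Λ S ≤ k ^ 2 / 50`).
Last inequality: `3 exp (-Λ T) ≤ 3 exp (-T)` and
`exp (Λ T) W 2 ^ N / 3 ^ K ≤ exp ((Λ + 1 + k / 16 + k / 100 - k / 8) T) ≤ exp (-T)` (`3 ^ K ≥ exp K`), so
the left side is at most `5 exp (-T) < c0`.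
It helps to prove first: for reals `a, b, c > 0` there is `T0` with `a (b T + 1) ≤ exp T` and
`5 exp (-T) < c` for all `T ≥ T0`.
-/

set_option autoImplicit false

namespace Pool.Agent.CS5

theorem Nm_T (k L : ℕ) (C1 c0 : ℝ) (hC1 : 1 ≤ C1) (hc0 : 0 < c0) : ∃ T : ℕ, L < T ∧
    3 * C1 * (k * T + 1) ≤ Real.exp T ∧ 5 * Real.exp (-T) < c0 := by
  obtain ⟨T, hT⟩ := exists_nat_ge ((L : ℝ) + 1 + 6 * C1 * (k + 1) + 5 / c0)
  have a1 : (0 : ℝ) ≤ L := Nat.cast_nonneg L
  have a2 : (0 : ℝ) ≤ 6 * C1 * (k + 1) := by positivity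
  have a3 : 0 < 5 / c0 := by positivity
  have t1 : (1 : ℝ) ≤ T := by linarith only [hT, a2, a3]
  refine ⟨T, by exact_mod_cast (by linarith only [hT, a2, a3] : (L : ℝ) < T), ?_, ?_⟩
  · have h1 := Real.quadratic_le_exp_of_nonneg (by linarith only [hT, a2, a3] : (0 : ℝ) ≤ T)
    have h2 : 6 * C1 * (k + 1) * T ≤ T * T :=
      mul_le_mul_of_nonneg_right (by linarith only [hT, a3]) (by linarith only [hT, a2, a3])
    have h3 : C1 * 1 ≤ C1 * T := mul_le_mul_of_nonneg_left t1 (by linarith only [hC1])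
    linarith only [hT, a2, a3, h1, h2, h3]
  · have h1 := Real.add_one_le_exp (T : ℝ)
    have h2 : 5 / c0 < Real.exp T := by linarith only [hT, a2, h1]
    rw [div_lt_iff₀ hc0] at h2
    rw [Real.exp_neg, ← div_eq_mul_inv, div_lt_iff₀ (Real.exp_pos _)]
    linarith only [h2]

theorem Nm_N (j C A : ℕ) (hj : 1 ≤ j) (h : j * C < A) :
    ∃ N : ℕ, j * (N + C) < A ∧ A ≤ j * (N + 1) + j * C := by
  have h1 : C ≤ (A - 1) / j := (Nat.le_div_iff_mul_le hj).2 (by rw [mul_comm]; omega)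
  obtain ⟨N, hN⟩ := Nat.exists_eq_add_of_le' h1
  have h2 := Nat.div_add_mod (A - 1) j
  have h3 := Nat.mod_lt (A - 1) hj
  rw [hN] at h2
  refine ⟨N, by omega, ?_⟩
  have h4 : j * (N + 1) + j * C = j * (N + C) + j := by ring
  omega

theorem Nm_two (N : ℕ) : (2 : ℝ) ^ N ≤ Real.exp N := by
  rw [← Real.exp_one_pow]
  exact pow_le_pow_left₀ (by norm_num) (by linarith [Real.add_one_le_exp 1]) N

theorem Nm_three (K : ℕ) : Real.exp K ≤ (3 : ℝ) ^ K := by
  rw [← Real.exp_one_pow]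
  exact pow_le_pow_left₀ (Real.exp_pos 1).le (by linarith only [Real.exp_one_lt_d9]) K

theorem numerics (k S j m C T0 : ℕ) (Λ C1 c0 : ℝ) (hj : 1 ≤ j) (hkS : k ≤ S)
    (hθ : 100 * S ≤ j * k) (hΛ1 : 1 ≤ Λ) (hΛ : 100 * Λ ≤ k) (hS : 100 * S * Λ ≤ (k : ℝ) ^ 2)
    (hC1 : 1 ≤ C1) (hc0 : 0 < c0) :
    ∃ T N H K : ℕ, T0 ≤ T ∧ j * (N + C) < S * (T - m) ∧ 100 * N ≤ k * T ∧
      (2 * (C1 * (N + 1) * H * Real.exp (Λ * T)) + 1) ^ ((S - k) * T) *
          (2 * (C1 * (N + 1) * H * 2 ^ N) / Real.exp (-(2 * Λ * T)) + 2) ^ (2 * K)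
        < ((H : ℝ) + 1) ^ (j * (N + 1)) ∧
      Real.exp (Λ * T) *
          (3 / 2 * (2 * Real.exp (-(2 * Λ * T)) + C1 * (N + 1) * H * 2 ^ N / 3 ^ K)) < c0 := by
  obtain ⟨T, hT, e1, e2⟩ := Nm_T k (T0 + m + j * C + (S * m + j * C)) C1 c0 hC1 hc0
  have k100 : (100 : ℝ) ≤ k := by linarith only [hΛ1, hΛ]
  have k1 : 1 ≤ k := by exact_mod_cast (by linarith only [hΛ1, hΛ] : (1 : ℝ) ≤ k)
  obtain ⟨N, n1, n2⟩ := Nm_N j C (S * (T - m)) hj
    (lt_of_lt_of_le (by omega : j * C < T - m) (Nat.le_mul_of_pos_left _ (by omega)))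
  have n3 : 100 * N ≤ k * T := by
    have q1 : S * (T - m) ≤ S * T := Nat.mul_le_mul_left _ (Nat.sub_le _ _)
    have q2 := Nat.mul_le_mul_right T hθ
    have q3 : j * (100 * N) ≤ j * (k * T) := by linarith only [Nat.zero_le (j * C), q1, q2, n1]
    exact Nat.le_of_mul_le_mul_left q3 hj
  have n4 : (S : ℝ) * T - (S * m + j * C) ≤ (j * (N + 1) : ℕ) := by
    have q1 : ((S * (T - m) : ℕ) : ℝ) ≤ (j * (N + 1) + j * C : ℕ) := Nat.cast_le.2 n2
    rw [Nat.cast_mul, Nat.cast_sub (by omega), Nat.cast_add, Nat.cast_mul j C] at q1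
    linarith only [q1]
  have n5 : (S : ℝ) * m + j * C + 1 ≤ T := by
    exact_mod_cast (by omega : S * m + j * C + 1 ≤ T)
  have n6 : (100 : ℝ) * N ≤ k * T := by exact_mod_cast n3
  have c2 : (0 : ℝ) ≤ S * m + j * C := by positivity
  generalize (S : ℝ) * m + j * C = C2 at n4 n5 c2
  have t1 : (1 : ℝ) ≤ T := by linarith only [n5, c2]
  have t2 : (100 : ℝ) * T ≤ k * T := mul_le_mul_of_nonneg_right k100 (by linarith only [n5, c2])
  have t3 : 100 * Λ * T ≤ k * T := mul_le_mul_of_nonneg_right hΛ (by linarith only [n5, c2])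
  have t4 : 1 * (T : ℝ) ≤ Λ * T := mul_le_mul_of_nonneg_right hΛ1 (by linarith only [n5, c2])
  have N0 : (0 : ℝ) ≤ N := Nat.cast_nonneg N
  obtain ⟨H, h1, h2⟩ : ∃ H : ℕ, (H : ℝ) ≤ Real.exp (k * T / 16) ∧ Real.exp (k * T / 16) < H + 1 :=
    ⟨_, Nat.floor_le (Real.exp_pos _).le, Nat.lt_floor_add_one _⟩
  obtain ⟨K, g1, g2⟩ : ∃ K : ℕ, (k : ℝ) * T / 8 ≤ K ∧ (K : ℝ) < k * T / 8 + 1 :=
    ⟨_, Nat.le_ceil _, Nat.ceil_lt_add_one (by positivity)⟩
  have e6 : 6 ≤ Real.exp T := by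
    have q1 : (1 : ℝ) * 2 ≤ C1 * (k * T + 1) :=
      mul_le_mul hC1 (by linarith only [t1, t2]) (by norm_num) (by linarith only [hC1])
    linarith only [q1, e1]
  have w0 : 0 ≤ C1 * (N + 1) * H := by positivity
  have w1 : 3 * (C1 * (N + 1) * H) ≤ Real.exp (T + k * T / 16) := by
    have q1 : 3 * C1 * (N + 1) ≤ 3 * C1 * (k * T + 1) :=
      mul_le_mul_of_nonneg_left (by linarith only [n6, N0]) (by linarith only [hC1])
    rw [Real.exp_add, ← mul_assoc, ← mul_assoc]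
    exact mul_le_mul (q1.trans e1) h1 (Nat.cast_nonneg H) (Real.exp_pos _).le
  generalize hW : C1 * (N + 1) * H = W at w0 w1
  have w2 : 3 * (W * 2 ^ N) ≤ Real.exp (T + k * T / 16 + N) := by
    rw [Real.exp_add, ← mul_assoc]
    exact mul_le_mul w1 (Nm_two N) (by positivity) (Real.exp_pos _).le
  refine ⟨T, N, H, K, by omega, n1, n3, ?_, ?_⟩ <;> rw [hW]
  · have f1 : 2 * (W * Real.exp (Λ * T)) + 1 ≤ Real.exp (2 * Λ * T + k * T / 16) := by
      have q1 : 3 * (W * Real.exp (Λ * T)) ≤ Real.exp (2 * Λ * T + k * T / 16) := by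
        rw [← mul_assoc]
        refine (mul_le_mul_of_nonneg_right w1 (Real.exp_pos _).le).trans ?_
        rw [← Real.exp_add]
        exact Real.exp_le_exp.2 (by linarith only [t4])
      have q2 : Real.exp T ≤ Real.exp (2 * Λ * T + k * T / 16) :=
        Real.exp_le_exp.2 (by linarith only [t1, t2, t4])
      linarith only [q1, q2, e6]
    have f2 : 2 * (W * 2 ^ N) / Real.exp (-(2 * Λ * T)) + 2 ≤ Real.exp (41 / 400 * (k * T)) := by
      have q1 : 3 * (W * 2 ^ N) * Real.exp (2 * Λ * T) ≤ Real.exp (41 / 400 * (k * T)) := by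
        refine (mul_le_mul_of_nonneg_right w2 (Real.exp_pos _).le).trans ?_
        rw [← Real.exp_add]
        exact Real.exp_le_exp.2 (by linarith only [t2, t3, n6])
      have q2 : Real.exp T ≤ Real.exp (41 / 400 * (k * T)) :=
        Real.exp_le_exp.2 (by linarith only [t1, t2])
      rw [Real.exp_neg, div_inv_eq_mul]
      linarith only [q1, q2, e6]
    have f3 : Real.exp (k * T / 16) ^ (j * (N + 1)) ≤ ((H : ℝ) + 1) ^ (j * (N + 1)) :=
      pow_le_pow_left₀ (Real.exp_pos _).le h2.le _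
    refine lt_of_le_of_lt (mul_le_mul (pow_le_pow_left₀ (by positivity) f1 _)
      (pow_le_pow_left₀ (by positivity) f2 _) (by positivity) (by positivity))
      (lt_of_lt_of_le ?_ f3)
    rw [← Real.exp_nat_mul, ← Real.exp_nat_mul, ← Real.exp_nat_mul, ← Real.exp_add,
      Real.exp_lt_exp, Nat.cast_mul (S - k), Nat.cast_sub hkS, Nat.cast_mul 2, Nat.cast_ofNat]
    have x0 : (0 : ℝ) < k * T := by linarith only [t1, t2]
    have q1 := mul_le_mul_of_nonneg_right n4 (by linarith only [x0] : (0 : ℝ) ≤ k * T / 16)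
    have q2 := mul_le_mul_of_nonneg_right g2.le x0.le
    have q3 := mul_le_mul_of_nonneg_right hS (sq_nonneg (T : ℝ))
    have q4 : 0 ≤ k * T * (Λ * T) := by positivity
    have q5 : 100 * (C2 + 1) * (k * T) ≤ k * T * (k * T) :=
      mul_le_mul_of_nonneg_right (by linarith only [n5, t2]) x0.le
    have q6 := mul_nonneg c2 x0.le
    linarith only [x0, q1, q2, q3, q4, q5, q6]
  · have q1 : Real.exp (Λ * T) * Real.exp (-(2 * Λ * T)) ≤ Real.exp (-T) := by
      rw [← Real.exp_add]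
      exact Real.exp_le_exp.2 (by linarith only [t4])
    have q2 : 3 * (W * 2 ^ N / 3 ^ K) ≤ Real.exp (T + k * T / 16 + N) / Real.exp K := by
      rw [← mul_div_assoc]
      exact div_le_div₀ (Real.exp_pos _).le w2 (Real.exp_pos _) (Nm_three K)
    have q3 : Real.exp (Λ * T) * (3 * (W * 2 ^ N / 3 ^ K)) ≤ Real.exp (-T) := by
      refine (mul_le_mul_of_nonneg_left q2 (Real.exp_pos _).le).trans ?_
      rw [← Real.exp_sub, ← Real.exp_add]
      exact Real.exp_le_exp.2 (by linarith only [t1, t2, t3, n6, g1])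
    have q4 := Real.exp_pos (-(T : ℝ))
    linarith only [q1, q3, q4, e2]

end Pool.Agent.CS5
end

-- merged part: Pool.Agent.Work.MP_8f8a35_gt.Aux2
section
/-!
The auxiliary vector.

Plan.  Put `S = finrank (rspan M ρ)`, take `G, c0` from `la_main`, `B` from `hM.ind`, `cs` a bound for all
`natDegree (B i x)`, `CB` a bound for all `l1v (B i)`, `CY ≥ 0` a bound for all `‖Y x z‖` on
`closedBall Xc R` (compact, inside the ball of radius `2 R`),
`C1 = max 1 (j * CB * max Cρ (2 ^ cs * CY))`.  Apply `numerics` with `C = cs + C0`, `m = card ι`,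
`T0 ≥ cs + ∑ x y, l1 (A x y)`; take `D` from `hden T`.  Unknowns `U = Fin j × Fin (N + 1)`,
`Pu (i, r) = X ^ r • B i ∈ M`, `Pa a = ∑ u, a u • Pu u`, of degree `≤ N + cs`, and
`l1v (Pa a) ≤ j (N + 1) H CB` for `|a u| ≤ H` (`l1v_sum_le`, `l1v_zsmul`, `l1_X_pow_mul`).
Choose `Qu n u` with `n! • Qu n u = D • Hs h A (Pu u) n`; `Qa n a = ∑ u, a u • Qu n u` satisfies the same
with `Pa a` (`Hs_sum`, `Hs_zsmul`) and lies in `M` (`hM.sat` with the constant `n!`, `Hs_mem`).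
Exact rows `E = Fin T × G`, `ℓ (n, g) u = ρ (Qu n u) g`, bound `B1 = C1 (N + 1) H exp (Λ T)` by `hρ`,
`aux_size`.  Approximate rows `F = Fin K × Bool`: real and imaginary part of
`iteratedDeriv n (F u) Xc * R ^ n / n!`, `F u z = pair (Pu u) z (Y · z)`; by `iteratedDeriv_comb` the row sum
is that of `F a`, bound `B2 = C1 (N + 1) H 2 ^ N` by `cauchy_coeff`, `norm_pair_le` (`‖z‖ ≤ 2`).
`ε = exp (-(2 Λ T))`.  `card E ≤ (S - k) T`, base `≥ 1`.  `siegel` gives `a ≠ 0`; `Pa a ≠ 0` by independence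
of `B` (`Pa a = ∑ i, (∑ r, C (a (i, r)) * X ^ r) • B i`).  `small_near` with `e = 2 ε`, `aux_value` and the
last inequality of `numerics` give `‖φ (ρ (Qa n a)) t‖ < c0`; `la_main` gives `ρ (Qa n a) = 0`.
Return `N + cs` as the degree bound.
-/

set_option autoImplicit false

open Polynomial Metric

namespace Pool.Agent.CS5

theorem Aux2_siegel {U E : Type} [Fintype U] [Fintype E] (H K : ℕ) (ℓ : E → U → ℤ)
    (r : Fin K → U → ℂ) (B1 B2 ε : ℝ) (hε : 0 < ε)
    (hB1 : ∀ a : U → ℤ, (∀ u, |a u| ≤ H) → ∀ e, |((∑ u, a u * ℓ e u : ℤ) : ℝ)| ≤ B1)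
    (hB2 : ∀ a : U → ℤ, (∀ u, |a u| ≤ H) → ∀ f, ‖∑ u, (a u : ℂ) * r f u‖ ≤ B2)
    (hcount : (2 * B1 + 1) ^ Fintype.card E * (2 * B2 / ε + 2) ^ (2 * K)
      < ((H : ℝ) + 1) ^ Fintype.card U) :
    ∃ a : U → ℤ, a ≠ 0 ∧ (∀ u, |a u| ≤ H) ∧ (∀ e, ∑ u, a u * ℓ e u = 0) ∧
      ∀ f, ‖∑ u, (a u : ℂ) * r f u‖ ≤ 2 * ε := by
  have hre : ∀ (a : U → ℤ) f, ∑ u, (a u : ℝ) * (r f u).re = (∑ u, (a u : ℂ) * r f u).re :=
    fun a f => by simp [Complex.re_sum]
  have him : ∀ (a : U → ℤ) f, ∑ u, (a u : ℝ) * (r f u).im = (∑ u, (a u : ℂ) * r f u).im :=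
    fun a f => by simp [Complex.im_sum]
  obtain ⟨a, a0, a1, a2, a3⟩ := siegel (F := Fin K ⊕ Fin K) H ℓ
    (Sum.elim (fun f u => (r f u).re) fun f u => (r f u).im) B1 B2 ε hε hB1
    (fun a ha f => by
      rcases f with f | f
      · simp only [Sum.elim_inl, hre]
        exact (Complex.abs_re_le_norm _).trans (hB2 a ha f)
      · simp only [Sum.elim_inr, him]
        exact (Complex.abs_im_le_norm _).trans (hB2 a ha f))
    (by rwa [Fintype.card_sum, Fintype.card_fin, ← two_mul])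
  refine ⟨a, a0, a1, a2, fun f => (Complex.norm_le_abs_re_add_abs_im _).trans ?_⟩
  have b1 := a3 (Sum.inl f)
  have b2 := a3 (Sum.inr f)
  simp only [Sum.elim_inl, Sum.elim_inr, hre, him] at b1 b2
  linarith only [b1, b2]

theorem Aux2_fam {ι : Type} [Fintype ι] {j : ℕ} {B : Fin j → ι → ℤ[X]}
    (hB : LinearIndependent ℤ[X] B) {M : Submodule ℤ[X] (ι → ℤ[X])} (hM : ∀ i, B i ∈ M) :
    ∃ (cs : ℕ) (CB : ℝ), 0 ≤ CB ∧ ∀ N : ℕ, ∃ Pu : Fin j × Fin (N + 1) → ι → ℤ[X],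
      (∀ u, Pu u ∈ M) ∧ ∀ a : Fin j × Fin (N + 1) → ℤ,
        (∀ x, ((∑ u, a u • Pu u) x).natDegree ≤ N + cs) ∧ (∑ u, a u • Pu u = 0 → a = 0) ∧
        ∀ H : ℕ, (∀ u, |a u| ≤ H) → l1v (∑ u, a u • Pu u) ≤ CB * (N + 1) * H := by
  refine ⟨∑ i, ∑ x, (B i x).natDegree, ∑ i, l1v (B i), Finset.sum_nonneg fun i _ => l1v_nonneg _,
    fun N => ⟨fun u => (X ^ (u.2 : ℕ) : ℤ[X]) • B u.1, fun u => M.smul_mem _ (hM _),
      fun a => ⟨fun x => ?_, fun h0 => ?_, fun H hH => ?_⟩⟩⟩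
  · rw [Finset.sum_apply]
    refine natDegree_sum_le_of_forall_le _ _ fun u _ => ?_
    have h1 : (B u.1 x).natDegree ≤ ∑ i, ∑ x, (B i x).natDegree :=
      (Finset.single_le_sum (f := fun x => (B u.1 x).natDegree) (fun _ _ => Nat.zero_le _)
        (Finset.mem_univ x)).trans (Finset.single_le_sum (f := fun i => ∑ x, (B i x).natDegree)
          (fun _ _ => Nat.zero_le _) (Finset.mem_univ u.1))
    have h2 := u.2.2
    simp only [Pi.smul_apply, smul_eq_mul]
    refine (natDegree_smul_le _ _).trans (natDegree_mul_le.trans ?_)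
    rw [natDegree_X_pow]
    omega
  · have h1 : ∑ i, (∑ r : Fin (N + 1), C (a (i, r)) * X ^ (r : ℕ)) • B i = 0 := by
      rw [← h0, Fintype.sum_prod_type]
      refine Finset.sum_congr rfl fun i _ => ?_
      rw [Finset.sum_smul]
      refine Finset.sum_congr rfl fun r _ => ?_
      rw [mul_smul, eq_intCast, Int.cast_smul_eq_zsmul]
    funext ⟨i, r⟩
    have h2 := congrArg (coeff · r) (Fintype.linearIndependent_iff.1 hB _ h1 i)
    simp only [finsetSum_coeff, coeff_C_mul_X_pow, Fin.val_inj, Finset.sum_ite_eq,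
      Finset.mem_univ, if_true, coeff_zero] at h2
    exact h2
  · refine (l1v_sum_le _ _).trans ?_
    rw [Fintype.sum_prod_type, Finset.sum_mul, Finset.sum_mul]
    refine Finset.sum_le_sum fun i _ => ?_
    refine (Finset.sum_le_card_nsmul _ _ (H * l1v (B i)) fun r _ => ?_).trans (le_of_eq ?_)
    · have h1 : l1v ((X ^ (r : ℕ) : ℤ[X]) • B i) = l1v (B i) := by
        simp only [l1v, Pi.smul_apply, smul_eq_mul, l1_X_pow_mul]
      rw [l1v_zsmul, h1]
      exact mul_le_mul_of_nonneg_right (by exact_mod_cast hH (i, r)) (l1v_nonneg _)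
    · rw [Finset.card_univ, Fintype.card_fin, nsmul_eq_mul]
      push_cast
      ring

theorem Aux2_bound {ι : Type} [Fintype ι] {Xc : ℂ} {R : ℝ} (hR0 : 0 < R) {Y : ι → ℂ → ℂ}
    (hY : ∀ x, DifferentiableOn ℂ (Y x) (ball Xc (2 * R))) :
    ∃ CY : ℝ, 0 ≤ CY ∧ ∀ z ∈ closedBall Xc R, ∀ x, ‖Y x z‖ ≤ CY := by
  have h1 : ∀ x, ∃ C : ℝ, ∀ z ∈ closedBall Xc R, ‖Y x z‖ ≤ C := fun x =>
    (isCompact_closedBall Xc R).exists_bound_of_continuousOn
      ((hY x).continuousOn.mono (closedBall_subset_ball (by linarith)))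
  choose C hC using h1
  refine ⟨∑ x, |C x|, Finset.sum_nonneg fun _ _ => abs_nonneg _, fun z hz x => ?_⟩
  exact ((hC x z hz).trans (le_abs_self _)).trans
    (Finset.single_le_sum (f := fun x => |C x|) (fun _ _ => abs_nonneg _) (Finset.mem_univ x))

theorem aux_poly {ι γ : Type} [Fintype ι] [Fintype γ] (h : ℤ[X]) (A : ι → ι → ℤ[X]) (c : ℕ)
    (hc : h.natDegree ≤ c) (hA : ∀ x y, (A x y).natDegree ≤ c) (hh : h ≠ 0)
    (Xc : ℂ) (R : ℝ) (hXc : ‖Xc‖ ≤ 1) (hR0 : 0 < R) (hR1 : R ≤ 1)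
    (Y : ι → ℂ → ℂ) (hY : ∀ x, DifferentiableOn ℂ (Y x) (ball Xc (2 * R)))
    (hode : ∀ x, ∀ z ∈ ball Xc (2 * R),
      aeval z h * deriv (Y x) z = ∑ y, aeval z (A x y) * Y y z)
    (Λ1 Λ : ℝ)
    (hden : ∀ T : ℕ, ∃ D : ℕ, 0 < D ∧ (D : ℝ) ≤ Real.exp (Λ1 * T) ∧
      ∀ n < T, ∀ P : ι → ℤ[X], ∃ Q : ι → ℤ[X], (n.factorial : ℤ) • Q = (D : ℤ) • Hs h A P n)
    {k : ℕ} (ξ : Fin k → ℂ) (hξ : ∀ t, ξ t ∈ ball Xc (R / 6)) (hξ1 : ∀ t, ‖ξ t‖ ≤ 1)
    (ρ : (ι → ℤ[X]) →+ (γ → ℤ)) (Cρ : ℝ)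
    (hρ : ∀ Q g, |((ρ Q g : ℤ) : ℝ)| ≤ Cρ * l1v Q)
    (φ : (γ → ℂ) →ₗ[ℂ] (Fin k → ℂ))
    (hφ : ∀ Q t, φ (fun g => ((ρ Q g : ℤ) : ℂ)) t = pair Q (ξ t) fun x => Y x (ξ t))
    (M : Submodule ℤ[X] (ι → ℤ[X])) (j : ℕ) (hM : Good h A M j)
    (hsurj : (rspan M ρ).map φ = ⊤)
    (hθ : 100 * Module.finrank ℂ (rspan M ρ) ≤ j * k) (hΛ1 : 1 ≤ Λ) (hΛk : 100 * Λ ≤ k)
    (hS : 100 * (Module.finrank ℂ (rspan M ρ) : ℝ) * Λ ≤ (k : ℝ) ^ 2)
    (hΛ : Λ1 + Real.log (18 * l1 h / R) + Real.log (k + 2 * c + 1) ≤ Λ) (C0 : ℕ) :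
    ∃ (T N : ℕ) (P : ι → ℤ[X]), P ≠ 0 ∧ (∀ x, (P x).natDegree ≤ N) ∧
      j * (N + C0) < Module.finrank ℂ (rspan M ρ) * (T - Fintype.card ι) ∧
      ∀ n < T, ∃ D : ℕ, 0 < D ∧ ∃ Q : ι → ℤ[X],
        (n.factorial : ℤ) • Q = (D : ℤ) • Hs h A P n ∧ ρ Q = 0 := by
  obtain ⟨hkS, G, c0, hc0, hG, hla⟩ := la_main _ φ hsurj
  obtain ⟨B, hBM, hB⟩ := hM.ind
  obtain ⟨cs, CB, hCB, hfam⟩ := Aux2_fam hB hBM
  obtain ⟨CY, hCY, hYb⟩ := Aux2_bound hR0 hY
  obtain ⟨Cm, hCm1, hCm2⟩ : ∃ Cm : ℝ, Cρ ≤ Cm ∧ 2 ^ cs * CY ≤ Cm :=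
    ⟨_, le_max_left _ _, le_max_right _ _⟩
  have hCm : 0 ≤ Cm := le_trans (by positivity) hCm2
  obtain ⟨C1, hC1, hC2⟩ : ∃ C1 : ℝ, 1 ≤ C1 ∧ CB * Cm ≤ C1 := ⟨_, le_max_left _ _, le_max_right _ _⟩
  obtain ⟨T, N, H, K, hT, hN1, hN2, hcount, hlast⟩ := numerics k _ j (Fintype.card ι) (cs + C0)
    (cs + ⌈∑ x, ∑ y, l1 (A x y)⌉₊) Λ C1 c0 hM.pos hkS hθ hΛ1 hΛk hS hC1 hc0
  obtain ⟨D, hD0, hD, hQ⟩ := hden T
  obtain ⟨Pu, hPM, hP⟩ := hfam N
  choose Qu hQu using fun (n : Fin T) u => hQ n n.2 (Pu u)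
  have hQa : ∀ (n : Fin T) (a : Fin j × Fin (N + 1) → ℤ), ((n : ℕ).factorial : ℤ) •
      ∑ u, a u • Qu n u = (D : ℤ) • Hs h A (∑ u, a u • Pu u) n := fun n a => by
    rw [Hs_sum, Finset.smul_sum, Finset.smul_sum]
    refine Finset.sum_congr rfl fun u _ => ?_
    rw [Hs_zsmul, smul_comm, hQu, smul_comm]
  have hρa : ∀ (n : Fin T) (a : Fin j × Fin (N + 1) → ℤ) g,
      ∑ u, a u * ρ (Qu n u) g = ρ (∑ u, a u • Qu n u) g := fun n a g => by
    simp only [map_sum, map_zsmul, Finset.sum_apply, Pi.smul_apply, smul_eq_mul]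
  have hN : l1 h * (N + cs : ℕ) + ∑ x, ∑ y, l1 (A x y) ≤ l1 h * ((k + 1) * T) := by
    have a1 := Nat.le_ceil (∑ x, ∑ y, l1 (A x y))
    have a2 : ((N + cs + ⌈∑ x, ∑ y, l1 (A x y)⌉₊ : ℕ) : ℝ) ≤ ((k + 1) * T : ℕ) := by
      rw [Nat.cast_le, add_mul]
      omega
    have a3 := one_le_l1 hh
    have a4 := mul_le_mul_of_nonneg_left a2 (zero_le_one.trans a3)
    have a5 := mul_le_mul_of_nonneg_right a3 (Nat.cast_nonneg ⌈∑ x, ∑ y, l1 (A x y)⌉₊)
    push_cast at a4 ⊢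
    linarith only [a1, a5, a4]
  have hW : 0 ≤ ((N : ℝ) + 1) * H := by positivity
  have hFb : ∀ a : Fin j × Fin (N + 1) → ℤ, (∀ u, |a u| ≤ H) → ∀ z ∈ closedBall Xc R,
      ‖pair (∑ u, a u • Pu u) z fun x => Y x z‖ ≤ C1 * (N + 1) * H * 2 ^ N := fun a ha z hz => by
    have hz2 : ‖z‖ ≤ 2 := by
      have := norm_le_norm_add_const_of_dist_le (mem_closedBall.1 hz)
      linarith only [hXc, hR1, this]
    calc _ ≤ _ := norm_pair_le _ (hP a).1 one_le_two hz2 _ hCY (hYb z hz)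
      _ ≤ CB * (N + 1) * H * 2 ^ (N + cs) * CY := by gcongr; exact (hP a).2.2 H ha
      _ = CB * (2 ^ cs * CY) * ((N + 1) * H * 2 ^ N) := by ring
      _ ≤ CB * Cm * ((N + 1) * H * 2 ^ N) := by gcongr
      _ ≤ C1 * ((N + 1) * H * 2 ^ N) := by gcongr
      _ = _ := by ring
  have hcf : ∀ (a : Fin j × Fin (N + 1) → ℤ) (n : ℕ), ‖∑ u, (a u : ℂ) *
      (iteratedDeriv n (fun z => pair (Pu u) z fun x => Y x z) Xc * (R ^ n / n.factorial : ℝ))‖ =
      ‖iteratedDeriv n (fun z => pair (∑ u, a u • Pu u) z fun x => Y x z) Xc‖ * R ^ n /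
        n.factorial := fun a n => by
    simp only [pair_sum, pair_zsmul, ← mul_assoc]
    rw [← Finset.sum_mul, iteratedDeriv_comb isOpen_ball _
      (fun u => differentiableOn_pair Y hY (Pu u)) _ (mem_ball_self (by linarith only [hR0])), norm_mul,
      Complex.norm_real, Real.norm_of_nonneg (by positivity), mul_div_assoc]
  obtain ⟨a, a0, a1, a2, a3⟩ := Aux2_siegel (E := Fin T × G) H K (fun e u => ρ (Qu e.1 u) e.2)
    (fun n u => iteratedDeriv n (fun z => pair (Pu u) z fun x => Y x z) Xc *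
      (R ^ (n : ℕ) / (n : ℕ).factorial : ℝ)) (C1 * (N + 1) * H * Real.exp (Λ * T))
    (C1 * (N + 1) * H * 2 ^ N) (Real.exp (-(2 * Λ * T))) (Real.exp_pos _)
    (fun a ha e => by
      have b1 := aux_size h A c hc hA hh hR0 hR1 hΛ (hP a).1 hN e.1.2.le hD (hQa e.1 a)
      rw [hρa]
      calc _ ≤ _ := hρ _ _
        _ ≤ Cm * l1v (∑ u, a u • Qu e.1 u) := mul_le_mul_of_nonneg_right hCm1 (l1v_nonneg _)
        _ ≤ Cm * (Real.exp (Λ * T) * (CB * (N + 1) * H)) := by
            gcongr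
            refine b1.trans ?_
            gcongr
            exact (hP a).2.2 H ha
        _ = CB * Cm * ((N + 1) * H * Real.exp (Λ * T)) := by ring
        _ ≤ C1 * ((N + 1) * H * Real.exp (Λ * T)) := by gcongr
        _ = _ := by ring)
    (fun a ha n => by
      rw [hcf]
      exact cauchy_coeff hR0 (differentiableOn_pair Y hY _) (hFb a ha) n)
    (by
      have hC0 : 0 ≤ C1 := zero_le_one.trans hC1
      rw [Fintype.card_prod, Fintype.card_prod, Fintype.card_fin, Fintype.card_fin,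
        Fintype.card_fin, Fintype.card_coe]
      refine lt_of_le_of_lt (mul_le_mul_of_nonneg_right (pow_le_pow_right₀ ?_ ?_)
        (by positivity)) hcount
      · exact le_add_of_nonneg_left (by positivity)
      · rw [mul_comm]
        exact Nat.mul_le_mul_right _ hG)
  refine ⟨T, N + cs, _, fun e => a0 ((hP a).2.1 e), (hP a).1, by rwa [add_assoc],
    fun n hn => ⟨D, hD0, _, hQa ⟨n, hn⟩ a, hla _ ?_ (fun g hg => ?_) fun t => ?_⟩⟩
  · refine Submodule.subset_span ⟨_, hM.sat ((n.factorial : ℤ) : ℤ[X]) _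
      (by exact_mod_cast n.factorial_ne_zero) ?_, rfl⟩
    rw [Int.cast_smul_eq_zsmul, hQa ⟨n, hn⟩ a]
    exact zsmul_mem (Hs_mem h A hM.stab (M.sum_mem fun u _ => zsmul_mem (hPM u) _) _) _
  · rw [← hρa]
    exact a2 (⟨n, hn⟩, ⟨g, hg⟩)
  · rw [hφ]
    refine lt_of_le_of_lt (aux_value h A c hh hR0 hR1 hΛ isOpen_ball Y hY hode hn.le hD
      (hQa ⟨n, hn⟩ a) (ball_subset_ball (by linarith only [hR0]) (hξ t)) (hξ1 t)
      (small_near hR0 (by positivity) (differentiableOn_pair Y hY _) (hFb a a1) K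
        (fun m hm => ?_) (hξ t) n)) hlast
    rw [← hcf]
    exact a3 ⟨m, hm⟩

end Pool.Agent.CS5
end
end

-- merged part: Pool.Agent.Work.MP_8f8a35_gt.Main
section
-- merged part: Pool.Agent.Work.MP_8f8a35_gt.ZE1
section
/-!
Local divisibility of a minor.

Plan.  If the determinant is zero there is nothing to prove.  Otherwise the rows `H l` are
independent.  Let `N` be the submodule of `ι → ℂ[X]` spanned by all `H l` and `Q i`.  Over the
principal ideal domain `ℂ[X]` it has a basis `B : Fin n → N` (`Submodule.basisOfPid`,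
`Module.Free`, `Module.finBasis`), and `n = j`: the `H l` are `j` independent elements of `N`, and
a nonzero multiple `g` (product of the `g` in `hQ`) maps `N` injectively into the span of the `H l`.
Write `H = Cm * B` (`Cm` a `j × j` matrix) and `Q = a * B`.  Put `G r b = ∑ x, B r x * vt b x`
(`j × σ`).  Then `Cm * G ≡ 0` modulo `π = (X - C z) ^ τ` and `a(z) * G(z)` is invertible, so the `σ`
columns of `G(z)` are independent in `Fin j → ℂ`.  `ze_cols` finishes: `π ^ σ ∣ det Cm`, and the minor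
is `det Cm * det (B on the columns J)`.
`ze_cols`: extend the columns of `G(z)` to a basis of `Fin j → ℂ` by constant vectors, giving a square
matrix `G'` over `ℂ[X]` (indexed by `Fin σ ⊕ Fin (j - σ) ≃ Fin j` or any set of columns) with
`det G'(z) ≠ 0`; `σ` columns of `Cm * G'` are divisible by `π`, so `π ^ σ ∣ det Cm * det G'`
(`Matrix.det_mul_row`, `Matrix.det_mul_column`), and `det G'` is coprime to `X - C z`.
-/

set_option autoImplicit false

open Polynomial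

namespace Pool.Agent.CS5

/-- The block matrix with rows `(M, W)` and `(-R, 0)` has the determinant `det M * det T`, and its
last columns are divisible by `p`. -/
theorem ZE1_block {m n K : Type} [Fintype m] [Fintype n] [DecidableEq m] [DecidableEq n]
    [CommRing K] [IsDomain K] (M : Matrix m m K) (W : Matrix m n K) (R c : Matrix n m K)
    (T : Matrix n n K) (g : n → K) (hg : ∀ i, g i ≠ 0) (h1 : Matrix.diagonal g * R = c * M)
    (h2 : Matrix.diagonal g * T = c * W) (p : K) (hW : ∀ l b, p ∣ W l b) :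
    p ^ Fintype.card n ∣ M.det * T.det := by
  choose W' hW' using hW
  have e1 : Matrix.fromBlocks 1 0 c (Matrix.diagonal g) * Matrix.fromBlocks M W (-R) 0 =
      Matrix.fromBlocks M W 0 (Matrix.diagonal g * T) := by
    simp [Matrix.fromBlocks_multiply, h1, h2]
  have e2 : Matrix.fromBlocks M W (-R) 0 = Matrix.fromBlocks M (Matrix.of W') (-R) 0 *
      Matrix.fromBlocks 1 0 0 (p • (1 : Matrix n n K)) := by
    have e3 : W = p • Matrix.of W' := Matrix.ext fun l b => hW' l b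
    simp [Matrix.fromBlocks_multiply, ← e3]
  have e4 := congrArg Matrix.det e1
  rw [Matrix.det_mul, Matrix.det_fromBlocks_zero₁₂, Matrix.det_fromBlocks_zero₂₁, Matrix.det_one,
    one_mul, Matrix.det_mul, mul_left_comm, mul_right_inj' (by
      rw [Matrix.det_diagonal]
      exact Finset.prod_ne_zero_iff.2 fun i _ => hg i)] at e4
  rw [← e4, e2, Matrix.det_mul, Matrix.det_fromBlocks_zero₂₁, Matrix.det_one, one_mul,
    Matrix.det_smul, Matrix.det_one, mul_one]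
  exact dvd_mul_left _ _

theorem ZE1_det {ι : Type} [Fintype ι] {j σ τ : ℕ} (z : ℂ) (H : Fin j → ι → ℂ[X]) (J : Fin j → ι)
    (Q : Fin σ → ι → ℂ[X])
    (hQ : ∀ i, ∃ g : ℂ[X], g ≠ 0 ∧ ∃ c : Fin j → ℂ[X], g • Q i = ∑ l, c l • H l)
    (vt : Fin σ → ι → ℂ[X])
    (hdiv : ∀ l b, (X - C z) ^ τ ∣ ∑ x, H l x * vt b x)
    (hinv : (Matrix.of fun i b => (∑ x, Q i x * vt b x).eval z).det ≠ 0) :
    (X - C z) ^ (σ * τ) ∣ (Matrix.of fun l l' => H l (J l')).det := by
  choose g hg c hc using hQ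
  have h0 : ∀ i x, g i * Q i x = ∑ l, c i l * H l x := fun i x => by
    simpa using congrFun (hc i) x
  have h1 := ZE1_block (Matrix.of fun l l' => H l (J l')) (Matrix.of fun l b => ∑ x, H l x * vt b x)
    (Matrix.of fun i l' => Q i (J l')) (Matrix.of c) (Matrix.of fun i b => ∑ x, Q i x * vt b x) g hg
    (Matrix.ext fun i l => by
      rw [Matrix.diagonal_mul]
      exact h0 i _)
    (Matrix.ext fun i b => by
      rw [Matrix.diagonal_mul]
      simp only [Matrix.mul_apply, Matrix.of_apply, Finset.mul_sum, ← mul_assoc, h0, Finset.sum_mul]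
      exact Finset.sum_comm) _ hdiv
  rw [Fintype.card_fin, ← pow_mul, mul_comm τ] at h1
  refine IsCoprime.dvd_of_dvd_mul_right (IsCoprime.pow_left
    ((irreducible_X_sub_C z).coprime_iff_not_dvd.2 fun h => hinv ?_)) h1
  exact ((evalRingHom z).map_det _).symm.trans (dvd_iff_isRoot.1 h)

theorem ze_cols {j σ τ : ℕ} (z : ℂ) (Cm : Matrix (Fin j) (Fin j) ℂ[X])
    (G : Matrix (Fin j) (Fin σ) ℂ[X])
    (hG : LinearIndependent ℂ (fun b : Fin σ => fun r : Fin j => (G r b).eval z))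
    (hdiv : ∀ l b, (X - C z) ^ τ ∣ (Cm * G) l b) :
    (X - C z) ^ (σ * τ) ∣ Cm.det := by
  rcases eq_or_ne Cm.det 0 with h0 | h0
  · rw [h0]
    exact dvd_zero _
  obtain ⟨a, ha⟩ := LinearMap.exists_leftInverse_of_injective (Matrix.toLin' (G.map (eval z)))
    (LinearMap.ker_eq_bot.2 (Matrix.mulVec_injective_iff.2 hG))
  have h1 := congrArg LinearMap.toMatrix' ha
  rw [LinearMap.toMatrix'_comp, LinearMap.toMatrix'_toLin', LinearMap.toMatrix'_id] at h1
  refine ZE1_det z Cm id (fun i x => C (LinearMap.toMatrix' a i x)) (fun i => ⟨_, h0,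
    Matrix.vecMul (fun x => C (LinearMap.toMatrix' a i x)) Cm.adjugate, ?_⟩) (fun b x => G x b)
    hdiv ?_
  · rw [← Matrix.vecMul_eq_sum, Matrix.vecMul_vecMul, Matrix.adjugate_mul, Matrix.vecMul_smul,
      Matrix.vecMul_one]
  · have h2 : (Matrix.of fun i b => (∑ x, C (LinearMap.toMatrix' a i x) * G x b).eval z) = 1 := by
      rw [← h1]
      ext i b
      simp [Matrix.mul_apply, eval_finsetSum]
    rw [h2, Matrix.det_one]
    exact one_ne_zero

theorem ze_det {ι : Type} [Fintype ι] {j σ τ : ℕ} (z : ℂ) (H : Fin j → ι → ℂ[X]) (J : Fin j → ι)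
    (Q : Fin σ → ι → ℂ[X])
    (hQ : ∀ i, ∃ g : ℂ[X], g ≠ 0 ∧ ∃ c : Fin j → ℂ[X], g • Q i = ∑ l, c l • H l)
    (vt : Fin σ → ι → ℂ[X])
    (hdiv : ∀ l b, (X - C z) ^ τ ∣ ∑ x, H l x * vt b x)
    (hinv : (Matrix.of fun i b => (∑ x, Q i x * vt b x).eval z).det ≠ 0) :
    (X - C z) ^ (σ * τ) ∣ (Matrix.of fun l l' => H l (J l')).det := by
  exact ZE1_det z H J Q hQ vt hdiv hinv

end Pool.Agent.CS5
end

-- merged part: Pool.Agent.Work.MP_8f8a35_gt.ZE2
section
/-!
Truncated solutions at an ordinary point.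

Plan.  `exists_trunc`: induction on `T`.  If the error is `(X - C z) ^ T * e x`, add
`(X - C z) ^ (T + 1) * C (a x)` with `e x (z) + (T + 1) h(z) a x = 0`.
`exists_vt`: take `vt` from `exists_trunc` for the mapped `h`, `A`.  Put
`g n = ∑ x, (Hs h A P n x).map _ * vt x`.  Then `g (n + 1) ≡ h (g n)' - n h' g n` modulo
`(X - C z) ^ T` and `(g n)(z) = pair (Hs h A P n) z v = 0` for `n < T`.  Show by induction on `r`:
`n + r ≤ T → (X - C z) ^ r ∣ g n`.  Step: `(X - C z) ^ r` divides `g (n + 1)` and `g n`, hence `h (g n)'`,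
hence `(g n)'` (coprime to `h`); together with `(g n)(z) = 0` this gives `(X - C z) ^ (r + 1) ∣ g n`
in characteristic zero (`dvd_succ_of_derivative`; use `rootMultiplicity` and
`Polynomial.derivative_rootMultiplicity_of_root`, or induction).
-/

set_option autoImplicit false

open Polynomial

namespace Pool.Agent.CS5

theorem exists_trunc {ι : Type} [Fintype ι] (h : ℂ[X]) (A : ι → ι → ℂ[X]) (z : ℂ)
    (hz : h.eval z ≠ 0) (v : ι → ℂ) (T : ℕ) :
    ∃ vt : ι → ℂ[X], (∀ x, (vt x).eval z = v x) ∧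
      ∀ x, (X - C z) ^ T ∣ h * derivative (vt x) - ∑ y, A x y * vt y := by
  induction T with
  | zero => exact ⟨fun x => C (v x), fun x => eval_C, fun x => by rw [pow_zero]; exact one_dvd _⟩
  | succ T ih =>
    obtain ⟨vt, h1, h2⟩ := ih
    choose e he using h2
    have hT : ((T : ℂ) + 1) ≠ 0 := by exact_mod_cast Nat.succ_ne_zero T
    let a : ι → ℂ := fun x => -((e x).eval z) / (((T : ℂ) + 1) * h.eval z)
    refine ⟨fun x => vt x + (X - C z) ^ (T + 1) * C (a x), fun x => ?_, fun x => ?_⟩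
    · simp [h1]
    · have hroot : (X - C z) ∣ e x + h * (C ((T : ℂ) + 1) * C (a x)) := by
        rw [dvd_iff_isRoot, IsRoot.def]
        simp only [eval_add, eval_mul, eval_C, a]
        field_simp
        ring
      obtain ⟨w, hw⟩ := hroot
      have hd : derivative (vt x + (X - C z) ^ (T + 1) * C (a x)) =
          derivative (vt x) + (X - C z) ^ T * (C ((T : ℂ) + 1) * C (a x)) := by
        rw [derivative_add, derivative_mul, derivative_C, mul_zero, add_zero,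
          derivative_X_sub_C_pow, Nat.add_sub_cancel]
        push_cast
        rw [C_add, C_1, C_eq_natCast]
        ring
      have hs : ∑ y, A x y * (vt y + (X - C z) ^ (T + 1) * C (a y)) =
          ∑ y, A x y * vt y + (X - C z) ^ (T + 1) * ∑ y, A x y * C (a y) := by
        rw [Finset.mul_sum, ← Finset.sum_add_distrib]
        exact Finset.sum_congr rfl fun y _ => by ring
      refine ⟨w - ∑ y, A x y * C (a y), ?_⟩
      rw [hd, hs]
      linear_combination he x + (X - C z) ^ T * hw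

theorem dvd_succ_of_derivative (g : ℂ[X]) (z : ℂ) (r : ℕ) (h0 : g.eval z = 0)
    (h1 : (X - C z) ^ r ∣ derivative g) : (X - C z) ^ (r + 1) ∣ g := by
  by_cases hg : g = 0
  · rw [hg]; exact dvd_zero _
  have hroot : g.IsRoot z := h0
  have hd : derivative g ≠ 0 := by
    intro hd
    have hc := eq_C_of_derivative_eq_zero hd
    rw [hc, eval_C] at h0
    rw [h0, C_0] at hc
    exact hg hc
  have h2 := (le_rootMultiplicity_iff hd).2 h1
  rw [derivative_rootMultiplicity_of_root hroot] at h2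
  have h3 : 0 < rootMultiplicity z g := (rootMultiplicity_pos hg).2 hroot
  exact (le_rootMultiplicity_iff hg).1 (by omega)

theorem exists_vt {ι : Type} [Fintype ι] (h : ℤ[X]) (A : ι → ι → ℤ[X]) (z : ℂ)
    (hz : aeval z h ≠ 0) (P : ι → ℤ[X]) (T : ℕ) (v : ι → ℂ)
    (hv : ∀ n < T, pair (Hs h A P n) z v = 0) :
    ∃ vt : ι → ℂ[X], (∀ x, (vt x).eval z = v x) ∧
      ∀ n ≤ T, (X - C z) ^ (T - n) ∣ ∑ x, (Hs h A P n x).map (Int.castRingHom ℂ) * vt x := by
  have hz' : (h.map (Int.castRingHom ℂ)).eval z ≠ 0 := by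
    rwa [eval_map, ← algebraMap_int_eq, ← aeval_def]
  obtain ⟨vt, h1, h2⟩ := exists_trunc (h.map (Int.castRingHom ℂ))
    (fun x y => (A x y).map (Int.castRingHom ℂ)) z hz' v T
  refine ⟨vt, h1, ?_⟩
  set g : ℕ → ℂ[X] := fun n => ∑ x, (Hs h A P n x).map (Int.castRingHom ℂ) * vt x with hg
  have hev : ∀ n < T, (g n).eval z = 0 := by
    intro n hn
    rw [← hv n hn, hg, pair, eval_finsetSum]
    refine Finset.sum_congr rfl fun x _ => ?_
    rw [eval_mul, h1, eval_map, ← algebraMap_int_eq, ← aeval_def]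
  have hrec : ∀ n, (X - C z) ^ T ∣ h.map (Int.castRingHom ℂ) * derivative (g n) -
      ((n : ℂ[X]) * derivative (h.map (Int.castRingHom ℂ)) * g n + g (n + 1)) := by
    intro n
    have key : h.map (Int.castRingHom ℂ) * derivative (g n) -
        ((n : ℂ[X]) * derivative (h.map (Int.castRingHom ℂ)) * g n + g (n + 1)) =
        ∑ x, (Hs h A P n x).map (Int.castRingHom ℂ) *
          (h.map (Int.castRingHom ℂ) * derivative (vt x) -
            ∑ y, (A x y).map (Int.castRingHom ℂ) * vt y) := by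
      have e1 : g (n + 1) =
          ∑ y, h.map (Int.castRingHom ℂ) * derivative ((Hs h A P n y).map (Int.castRingHom ℂ)) * vt y
          + ∑ x, (Hs h A P n x).map (Int.castRingHom ℂ) *
              ∑ y, (A x y).map (Int.castRingHom ℂ) * vt y
          - (n : ℂ[X]) * derivative (h.map (Int.castRingHom ℂ)) * g n := by
        have e2 : ∑ x, (Hs h A P n x).map (Int.castRingHom ℂ) *
              ∑ y, (A x y).map (Int.castRingHom ℂ) * vt y =
            ∑ y, (∑ x, (Hs h A P n x).map (Int.castRingHom ℂ) *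
              (A x y).map (Int.castRingHom ℂ)) * vt y := by
          simp only [Finset.mul_sum, Finset.sum_mul]
          rw [Finset.sum_comm]
          exact Finset.sum_congr rfl fun y _ => Finset.sum_congr rfl fun x _ => by ring
        rw [e2, hg]
        simp only [Finset.mul_sum, ← Finset.sum_add_distrib, ← Finset.sum_sub_distrib]
        refine Finset.sum_congr rfl fun y _ => ?_
        simp only [Hs, nab, Polynomial.map_sub, Polynomial.map_add, Polynomial.map_mul,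
          Polynomial.map_sum, Polynomial.map_natCast, derivative_map]
        ring
      have e3 : derivative (g n) =
          ∑ y, (derivative ((Hs h A P n y).map (Int.castRingHom ℂ)) * vt y +
            (Hs h A P n y).map (Int.castRingHom ℂ) * derivative (vt y)) := by
        rw [hg, derivative_sum]
        exact Finset.sum_congr rfl fun y _ => derivative_mul
      rw [e1, e3, Finset.mul_sum]
      simp only [mul_sub, mul_add, Finset.sum_sub_distrib, Finset.sum_add_distrib]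
      have e4 : ∑ y, h.map (Int.castRingHom ℂ) *
            (derivative ((Hs h A P n y).map (Int.castRingHom ℂ)) * vt y) =
          ∑ y, h.map (Int.castRingHom ℂ) *
            derivative ((Hs h A P n y).map (Int.castRingHom ℂ)) * vt y :=
        Finset.sum_congr rfl fun y _ => by ring
      have e5 : ∑ y, h.map (Int.castRingHom ℂ) *
            ((Hs h A P n y).map (Int.castRingHom ℂ) * derivative (vt y)) =
          ∑ y, (Hs h A P n y).map (Int.castRingHom ℂ) *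
            (h.map (Int.castRingHom ℂ) * derivative (vt y)) :=
        Finset.sum_congr rfl fun y _ => by ring
      rw [e4, e5]
      ring
    rw [key]
    exact Finset.dvd_sum fun x _ => Dvd.dvd.mul_left (h2 x) _
  have hcop : IsCoprime (X - C z) (h.map (Int.castRingHom ℂ)) := by
    refine (irreducible_X_sub_C z).coprime_iff_not_dvd.2 ?_
    rw [dvd_iff_isRoot]
    exact hz'
  have main : ∀ r n, n + r ≤ T → (X - C z) ^ r ∣ g n := by
    intro r
    induction r with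
    | zero => intro n _; rw [pow_zero]; exact one_dvd _
    | succ r ih =>
      intro n hn
      have a1 := ih n (by omega)
      have a2 := ih (n + 1) (by omega)
      have a3 : (X - C z) ^ r ∣ (X - C z) ^ T := pow_dvd_pow _ (by omega)
      have a4 : (X - C z) ^ r ∣ h.map (Int.castRingHom ℂ) * derivative (g n) := by
        have a5 := dvd_add (a3.trans (hrec n)) (dvd_add
          (Dvd.dvd.mul_left a1 ((n : ℂ[X]) * derivative (h.map (Int.castRingHom ℂ)))) a2)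
        rwa [sub_add_cancel] at a5
      exact dvd_succ_of_derivative (g n) z r (hev n (by omega))
        ((IsCoprime.pow_left hcop).dvd_of_dvd_mul_left a4)
  intro n hn
  exact main (T - n) n (by omega)

end Pool.Agent.CS5
end

-- merged part: Pool.Agent.Work.MP_8f8a35_gt.ZE3
section
/-!
The module generated by a vector, a nonzero minor, and the choice of independent conditions.

Plan.  `exists_good`: for `j : ℕ` let `Sat j` be the submodule of all `Q` with
`g • Q = ∑ l : Fin j, c l • Hs h A P l` for some `g ≠ 0`, `c`.  Let `j` be the least index with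
`Hs h A P j ∈ Sat j`.  If `Hs h A P i ∉ Sat i` for all `i < j` then the first `j` vectors are
independent (`linearIndependent_fin_snoc`-type induction, or take the last nonzero coefficient), so
`j ≤ card ι` (`LinearIndependent.fintype_card_le_finrank`); hence the least index exists.  `j ≥ 1`
since `P ≠ 0`.  Stability: apply `nab` to `g • Q = ∑ c l • H l`, use `nab_smul`, `nab_add` and
`nab (H l) = H (l + 1) + (l h') • H l ∈ Sat j` (`Hs_succ`).
`exists_minor`: pass to the fraction field `K` (`LinearIndependent.iff_fractionRing` or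
`LinearIndependent.localization`); the columns span `Fin j → K` (row rank = column rank,
`Matrix.rank_transpose`), choose `j` columns forming a basis (`exists_linearIndependent`), the square
matrix is invertible.  Induction on `j` with cofactor expansion is also possible.
`sig_choose`: choose a basis of the span inside the generating set (`exists_linearIndependent`), so
`σ` elements `Q i ∈ M` with independent vectors `u i = fun b => pair (Q i) z (v b)`; independent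
vectors have dual functionals (a left inverse of the injective map `Fintype.linearCombination`,
`LinearMap.exists_leftInverse_of_injective`), and a functional on `β → ℂ` is `u ↦ ∑ b, L b * u b`.
The matrix is the identity.
-/

set_option autoImplicit false

open Polynomial

namespace Pool.Agent.CS5

theorem ZE3_le {ι : Type} [Fintype ι] {j : ℕ} {B : Fin j → ι → ℤ[X]}
    (hB : LinearIndependent ℤ[X] B) : j ≤ Fintype.card ι := by
  simpa using hB.fintype_card_le_finrank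

/-- The saturation of a submodule. -/
def ZE3_sat {ι : Type} (N : Submodule ℤ[X] (ι → ℤ[X])) : Submodule ℤ[X] (ι → ℤ[X]) where
  carrier := {Q | ∃ g : ℤ[X], g ≠ 0 ∧ g • Q ∈ N}
  zero_mem' := ⟨1, one_ne_zero, by simp⟩
  add_mem' := by
    rintro a b ⟨g, hg, ha⟩ ⟨g', hg', hb⟩
    refine ⟨g * g', mul_ne_zero hg hg', ?_⟩
    have e : (g * g') • (a + b) = g' • (g • a) + g • (g' • b) := by
      rw [smul_add, smul_smul, smul_smul, mul_comm g' g]
    rw [e]
    exact N.add_mem (N.smul_mem _ ha) (N.smul_mem _ hb)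
  smul_mem' := by
    rintro c a ⟨g, hg, ha⟩
    refine ⟨g, hg, ?_⟩
    rw [smul_comm]
    exact N.smul_mem _ ha

theorem ZE3_mem {ι : Type} {N : Submodule ℤ[X] (ι → ℤ[X])} {Q : ι → ℤ[X]} :
    Q ∈ ZE3_sat N ↔ ∃ g : ℤ[X], g ≠ 0 ∧ g • Q ∈ N := Iff.rfl

theorem ZE3_sub {ι : Type} {N : Submodule ℤ[X] (ι → ℤ[X])} {Q : ι → ℤ[X]} (hQ : Q ∈ N) :
    Q ∈ ZE3_sat N := ⟨1, one_ne_zero, by simpa using hQ⟩

theorem ZE3_sat_sat {ι : Type} {N : Submodule ℤ[X] (ι → ℤ[X])} (g : ℤ[X]) (Q : ι → ℤ[X])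
    (hg : g ≠ 0) (hQ : g • Q ∈ ZE3_sat N) : Q ∈ ZE3_sat N := by
  obtain ⟨g', hg', h⟩ := hQ
  exact ⟨g' * g, mul_ne_zero hg' hg, by rwa [mul_smul]⟩

theorem ZE3_last {ι : Type} (H : ℕ → ι → ℤ[X]) {j : ℕ}
    (h1 : LinearIndependent ℤ[X] fun l : Fin j => H l)
    (h2 : ¬ LinearIndependent ℤ[X] fun l : Fin (j + 1) => H l) :
    H j ∈ ZE3_sat (Submodule.span ℤ[X] (Set.range fun l : Fin j => H l)) := by
  obtain ⟨g, hg, i, hi⟩ := Fintype.not_linearIndependent_iff.1 h2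
  rw [Fin.sum_univ_castSucc] at hg
  simp only [Fin.val_castSucc, Fin.val_last] at hg
  have hl : g (Fin.last j) ≠ 0 := by
    intro h0
    rw [h0, zero_smul, add_zero] at hg
    have h3 := Fintype.linearIndependent_iff.1 h1 (fun l => g l.castSucc) hg
    rcases Fin.eq_castSucc_or_eq_last i with ⟨l, rfl⟩ | rfl
    · exact hi (h3 l)
    · exact hi h0
  refine ⟨_, hl, ?_⟩
  rw [eq_neg_of_add_eq_zero_right hg]
  exact Submodule.neg_mem _ (Submodule.sum_mem _ fun l _ =>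
    Submodule.smul_mem _ _ (Submodule.subset_span ⟨l, rfl⟩))

theorem exists_good {ι : Type} [Fintype ι] (h : ℤ[X]) (A : ι → ι → ℤ[X]) (P : ι → ℤ[X])
    (hP : P ≠ 0) :
    ∃ (j : ℕ) (M : Submodule ℤ[X] (ι → ℤ[X])), j ≤ Fintype.card ι ∧ Good h A M j ∧
      LinearIndependent ℤ[X] (fun l : Fin j => Hs h A P l) ∧
      ∀ Q ∈ M, ∃ g : ℤ[X], g ≠ 0 ∧ ∃ c : Fin j → ℤ[X], g • Q = ∑ l, c l • Hs h A P l := by
  classical
  have hex : ∃ j : ℕ, ¬ LinearIndependent ℤ[X] fun l : Fin (j + 1) => Hs h A P l :=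
    ⟨Fintype.card ι, fun H => absurd (ZE3_le H) (by omega)⟩
  have hj := Nat.find_spec hex
  have hmin := fun m => Nat.find_min hex (m := m)
  generalize Nat.find hex = j at hj hmin
  have hpos : 1 ≤ j := by
    rcases j with _ | j
    · have h0 : LinearIndependent ℤ[X] fun l : Fin 1 => Hs h A P l :=
        linearIndependent_unique_iff.2 hP
      exact absurd h0 hj
    · omega
  have hind : LinearIndependent ℤ[X] fun l : Fin j => Hs h A P l := by
    obtain ⟨i, rfl⟩ : ∃ i, j = i + 1 := ⟨j - 1, by omega⟩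
    exact not_not.1 (hmin i (Nat.lt_succ_self i))
  set N := Submodule.span ℤ[X] (Set.range fun l : Fin j => Hs h A P l) with hN
  have hH : ∀ l, l ≤ j → Hs h A P l ∈ ZE3_sat N := by
    intro l hl
    rcases hl.lt_or_eq with hl | rfl
    · exact ZE3_sub (Submodule.subset_span ⟨⟨l, hl⟩, rfl⟩)
    · exact ZE3_last (Hs h A P) hind hj
  have hnab : ∀ Q ∈ N, nab h A Q ∈ ZE3_sat N := by
    intro Q hQ
    induction hQ using Submodule.span_induction with
    | mem x hx =>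
      obtain ⟨l, rfl⟩ := hx
      have e := Hs_succ h A P l
      rw [eq_sub_iff_add_eq] at e
      rw [← e]
      exact Submodule.add_mem _ (hH _ l.2) (Submodule.smul_mem _ _ (hH _ l.2.le))
    | zero =>
      have e : nab h A 0 = 0 := by
        funext y
        simp [nab]
      rw [e]
      exact Submodule.zero_mem _
    | add x y _ _ hx hy =>
      rw [nab_add]
      exact Submodule.add_mem _ hx hy
    | smul a x hx0 hx =>
      rw [nab_smul]
      exact Submodule.add_mem _ (Submodule.smul_mem _ _ (ZE3_sub hx0)) (Submodule.smul_mem _ _ hx)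
  refine ⟨j, ZE3_sat N, ZE3_le hind, ⟨ZE3_sat_sat, ?_, hpos, _, fun i => hH _ i.2.le, hind⟩, hind,
    ?_⟩
  · intro Q hQ
    obtain ⟨g, hg, hgQ⟩ := ZE3_mem.1 hQ
    refine ZE3_sat_sat g _ hg ?_
    have e := nab_smul h A g Q
    rw [← sub_eq_iff_eq_add'] at e
    rw [← e]
    exact Submodule.sub_mem _ (hnab _ hgQ) (Submodule.smul_mem _ _ hQ)
  · rintro Q ⟨g, hg, hgQ⟩
    obtain ⟨c, hc⟩ := (Submodule.mem_span_range_iff_exists_fun _).1 hgQ
    exact ⟨g, hg, c, hc.symm⟩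

theorem ZE3_minor {K ι : Type} [Field K] [Fintype ι] {j : ℕ} (B : Matrix (Fin j) ι K)
    (hB : LinearIndependent K B.row) : ∃ J : Fin j → ι, (B.submatrix id J).det ≠ 0 := by
  have h1 := hB.rank_matrix
  rw [Matrix.rank_eq_finrank_span_cols, Fintype.card_fin] at h1
  obtain ⟨f, hf, -, hi⟩ := Submodule.exists_fun_fin_finrank_span_eq K (Set.range B.col)
  choose J hJ using hf
  refine ⟨fun l => J (Fin.cast h1.symm l), ?_⟩
  have h2 : LinearIndependent K (B.submatrix id fun l => J (Fin.cast h1.symm l)).col := by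
    have h3 := hi.comp (Fin.cast h1.symm) (Fin.cast_injective _)
    have h4 : (B.submatrix id fun l => J (Fin.cast h1.symm l)).col = f ∘ Fin.cast h1.symm :=
      funext fun l => hJ _
    rw [h4]
    exact h3
  exact ((Matrix.isUnit_iff_isUnit_det _).1 (Matrix.linearIndependent_cols_iff_isUnit.1 h2)).ne_zero

theorem exists_minor {ι : Type} [Fintype ι] {j : ℕ} (H : Fin j → ι → ℤ[X])
    (hH : LinearIndependent ℤ[X] H) :
    ∃ J : Fin j → ι, (Matrix.of fun l l' => H l (J l')).det ≠ 0 := by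
  have h1 : LinearIndependent (FractionRing ℤ[X])
      (fun i => algebraMap ℤ[X] (FractionRing ℤ[X]) ∘ H i) :=
    linearIndependent_algebraMap_comp_iff.2 hH
  obtain ⟨J, hJ⟩ := ZE3_minor (Matrix.of fun i => algebraMap ℤ[X] (FractionRing ℤ[X]) ∘ H i) h1
  refine ⟨J, fun h0 => hJ ?_⟩
  have h2 := (algebraMap ℤ[X] (FractionRing ℤ[X])).map_det (Matrix.of fun l l' => H l (J l'))
  rw [h0, map_zero] at h2
  exact h2.symm

theorem sig_choose {ι β : Type} [Fintype ι] [Fintype β] (M : Submodule ℤ[X] (ι → ℤ[X])) (z : ℂ)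
    (v : β → ι → ℂ) :
    ∃ (Q : Fin (sig M z v) → ι → ℤ[X]) (L : Fin (sig M z v) → β → ℂ), (∀ i, Q i ∈ M) ∧
      ∀ i l, ∑ b, L l b * pair (Q i) z (v b) = if i = l then 1 else 0 := by
  classical
  obtain ⟨f, hf, -, hi⟩ := Submodule.exists_fun_fin_finrank_span_eq ℂ
    {u : β → ℂ | ∃ Q ∈ M, u = fun b => pair Q z (v b)}
  choose Q hQ hfQ using hf
  obtain ⟨G, hG⟩ := LinearMap.exists_leftInverse_of_injective (Fintype.linearCombination ℂ f)
    (LinearMap.ker_eq_bot.2 hi.fintypeLinearCombination_injective)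
  refine ⟨Q, fun l b => G (Pi.single b 1) l, hQ, fun i l => ?_⟩
  have h1 : G (f i) = Pi.single i 1 := by
    have := LinearMap.congr_fun hG (Pi.single i 1)
    rwa [LinearMap.comp_apply, Fintype.linearCombination_apply_single, one_smul] at this
  have h2 : f i = ∑ b, f i b • (Pi.single b 1 : β → ℂ) := by
    funext b
    simp [Finset.sum_apply, Pi.single_apply]
  rw [h2, map_sum] at h1
  have h3 := congrFun h1 l
  simp only [map_smul, Finset.sum_apply, Pi.smul_apply, smul_eq_mul] at h3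
  rw [Pi.single_apply] at h3
  simp only [eq_comm (a := i), ← h3]
  refine Finset.sum_congr rfl fun b _ => ?_
  rw [mul_comm, hfQ i]

theorem good_top {ι : Type} [Fintype ι] (h : ℤ[X]) (A : ι → ι → ℤ[X])
    (hι : 1 ≤ Fintype.card ι) : Good h A ⊤ (Fintype.card ι) := by
  classical
  exact ⟨fun _ _ _ _ => trivial, fun _ _ => trivial, hι,
    (Pi.basisFun ℤ[X] ι) ∘ (Fintype.equivFin ι).symm, fun _ => trivial,
    (Pi.basisFun ℤ[X] ι).linearIndependent.comp _ (Fintype.equivFin ι).symm.injective⟩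

theorem Good.le_card {ι : Type} [Fintype ι] {h : ℤ[X]} {A : ι → ι → ℤ[X]}
    {M : Submodule ℤ[X] (ι → ℤ[X])} {j : ℕ} (hM : Good h A M j) : j ≤ Fintype.card ι := by
  obtain ⟨B, -, hB⟩ := hM.ind
  exact ZE3_le hB

end Pool.Agent.CS5
end

-- merged part: Pool.Agent.Work.MP_8f8a35_gt.ZE4
section
/-!
The zero estimate.

Plan.  Take `j, M` from `exists_good`, `J` from `exists_minor`; let `Δ ∈ ℂ[X]` be the minor of the mapped
rows `H l = (Hs h A P l).map`; `Δ ≠ 0` (`RingHom.map_det`, `Polynomial.map_injective`) and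
`natDegree Δ ≤ j * (N + m * c)` (`natDegree_Hs_le`, `Matrix.det_apply`, `natDegree_sum_le`,
`natDegree_prod_le`).  For `z ∈ Ξ` take `Q, L` from `sig_choose`, put
`v' l = fun x => ∑ b, L l b * v z b x`; then `pair (Hs h A P n) z (v' l) = 0` for `n < T`, take `vt l` from
`exists_vt`, and apply `ze_det` with `τ = T - m` (for `l < j ≤ m`: if `l ≤ T` then
`T - m ≤ T - l`, else `τ = 0`); the matrix in `hinv` is the identity.  So
`(X - C z) ^ (sig * τ) ∣ Δ` for all `z ∈ Ξ`; the factors are pairwise coprime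
(`Finset.prod_dvd_of_coprime`, `Polynomial.isCoprime_X_sub_C_of_isUnit_sub`), compare degrees.
-/

set_option autoImplicit false

open Polynomial

namespace Pool.Agent.CS5

theorem ZE4_deg {j d : ℕ} (B : Matrix (Fin j) (Fin j) ℂ[X]) (h : ∀ l l', (B l l').natDegree ≤ d) :
    B.det.natDegree ≤ j * d := by
  rw [Matrix.det_apply]
  refine natDegree_sum_le_of_forall_le _ _ fun σ _ => (natDegree_smul_le _ _).trans
    ((natDegree_prod_le _ _).trans ?_)
  simpa using Finset.sum_le_card_nsmul Finset.univ _ d fun l _ => h (σ l) l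

theorem ZE4_pair {ι β : Type} [Fintype ι] [Fintype β] (Q : ι → ℤ[X]) (z : ℂ) (L : β → ℂ)
    (v : β → ι → ℂ) : pair Q z (fun x => ∑ b, L b * v b x) = ∑ b, L b * pair Q z (v b) := by
  simp only [pair, Finset.mul_sum]
  exact Finset.sum_comm.trans (Finset.sum_congr rfl fun b _ => Finset.sum_congr rfl fun x _ =>
    mul_left_comm _ _ _)

theorem zero_estimate {ι β : Type} [Fintype ι] [Fintype β] (h : ℤ[X]) (A : ι → ι → ℤ[X]) (c : ℕ)
    (hc : h.natDegree ≤ c) (hA : ∀ x y, (A x y).natDegree ≤ c) (Ξ : Finset ℂ)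
    (hΞ : ∀ z ∈ Ξ, aeval z h ≠ 0) (v : ℂ → β → ι → ℂ) (P : ι → ℤ[X]) (hP0 : P ≠ 0) (N : ℕ)
    (hPN : ∀ x, (P x).natDegree ≤ N) (T : ℕ)
    (hv : ∀ n < T, ∀ z ∈ Ξ, ∀ b, pair (Hs h A P n) z (v z b) = 0) :
    ∃ (M : Submodule ℤ[X] (ι → ℤ[X])) (j : ℕ), Good h A M j ∧
      (∑ z ∈ Ξ, sig M z (v z)) * (T - Fintype.card ι) ≤ j * (N + Fintype.card ι * c) := by
  obtain ⟨j, M, hj, hG, hind, hM⟩ := exists_good h A P hP0
  obtain ⟨J, hJ⟩ := exists_minor _ hind
  refine ⟨M, j, hG, ?_⟩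
  have inj := map_injective (Int.castRingHom ℂ) (Int.castRingHom ℂ).injective_int
  let H : Fin j → ι → ℂ[X] := fun l x => (Hs h A P l x).map (Int.castRingHom ℂ)
  have h0 : (Matrix.of fun l l' => H l (J l')).det ≠ 0 := fun e => hJ (inj
    ((RingHom.map_det (mapRingHom (Int.castRingHom ℂ)) _).trans (e.trans (Polynomial.map_zero _).symm)))
  have hd : ∀ z ∈ Ξ, (X - C z) ^ (sig M z (v z) * (T - Fintype.card ι)) ∣
      (Matrix.of fun l l' => H l (J l')).det := fun z hz => by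
    obtain ⟨Q, L, hQ, hL⟩ := sig_choose M z (v z)
    choose vt h1 h2 using fun l => exists_vt h A z (hΞ z hz) P T (fun x => ∑ b, L l b * v z b x)
      fun n hn => by simp only [ZE4_pair, hv n hn z hz, mul_zero, Finset.sum_const_zero]
    refine ze_det z H J (fun i x => (Q i x).map (Int.castRingHom ℂ)) (fun i => ?_) vt
      (fun l b => ?_) ?_
    · obtain ⟨g, hg, a, ha⟩ := hM _ (hQ i)
      refine ⟨g.map (Int.castRingHom ℂ), fun e => hg (inj (e.trans (Polynomial.map_zero _).symm)),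
        fun l => (a l).map (Int.castRingHom ℂ), funext fun x => ?_⟩
      simpa only [Pi.smul_apply, smul_eq_mul, Finset.sum_apply, Polynomial.map_mul,
        Polynomial.map_sum] using congrArg (Polynomial.map (Int.castRingHom ℂ)) (congrFun ha x)
    · by_cases hl : (l : ℕ) ≤ T
      · exact (pow_dvd_pow _ (by omega)).trans (h2 b l hl)
      · rw [show T - Fintype.card ι = 0 by omega, pow_zero]
        exact one_dvd _
    · rw [show Matrix.of _ = 1 from Matrix.ext fun i l => ?_, Matrix.det_one]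
      · exact one_ne_zero
      · rw [Matrix.one_apply, ← hL, ← ZE4_pair, Matrix.of_apply, eval_finsetSum]
        exact Finset.sum_congr rfl fun x _ => by
          rw [eval_mul, h1, ← algebraMap_int_eq, eval_map_algebraMap]
  have h1 := natDegree_le_of_dvd (Finset.prod_dvd_of_coprime (fun a _ b _ hab =>
    (isCoprime_X_sub_C_of_isUnit_sub (sub_ne_zero.2 hab).isUnit).pow) hd) h0
  rw [natDegree_prod_of_monic _ _ fun z _ => (monic_X_sub_C z).pow _] at h1
  simp only [natDegree_pow, natDegree_X_sub_C, mul_one, ← Finset.sum_mul] at h1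
  refine h1.trans (ZE4_deg _ fun l l' => natDegree_map_le.trans
    ((natDegree_Hs_le h A hc hA hPN l _).trans ?_))
  exact Nat.add_le_add_left (Nat.mul_le_mul_right c (l.2.le.trans hj)) N

end Pool.Agent.CS5
end

-- merged part: Pool.Agent.Work.MP_8f8a35_gt.Core0
section
/-!
The many-point theorem with abstract sites.

Plan.  `1 ≤ k` from `hΛ1`, `hΛk`, so `h ≠ 0` (`hΞ` at `ξ 0`).  `exists_min_slope` for `P = Good h A`,
`S M = finrank (rspan M ρ)` (`rspan_le_card`, `Good.le_card`, `good_top`) gives `M, j`; comparing with `⊤`: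
`S M * m ≤ S ⊤ * j ≤ card γ * j`, so `100 S M * m ≤ m k j` and `100 S M ≤ j k`.  Define the linear map
`φ u t = ∑ b, a t b * Vd u ⟨ξ t, _⟩ b` (`a` from `hspan`); `hφ` from `hV`; `map_rspan_top` with
`exists_pair_ne`.  `aux_poly` with `C0 = m * c` gives `T, N, P`.  From `ρ Q = 0` and `hV`:
`pair Q z (v z b) = 0`, so `D * pair (Hs h A P n) z (v z b) = 0` (`pair_zsmul`).  `zero_estimate` gives
`M', j'` with `S M' * (T - m) ≤ j' (N + m c)` (`rspan_le_sum_sig`).  With `S M * j' ≤ S M' * j`: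
`S M * j' * (T - m) ≤ j * j' * (N + m c) < j' * S M * (T - m)`, a contradiction.
-/

set_option autoImplicit false

open Polynomial Metric

namespace Pool.Agent.CS5

theorem core0 {ι β γ : Type} [Fintype ι] [Fintype β] [Fintype γ] (h : ℤ[X]) (A : ι → ι → ℤ[X])
    (c : ℕ) (hc : h.natDegree ≤ c) (hA : ∀ x y, (A x y).natDegree ≤ c)
    (Xc : ℂ) (R : ℝ) (hXc : ‖Xc‖ ≤ 1) (hR0 : 0 < R) (hR1 : R ≤ 1)
    (Y : ι → ℂ → ℂ) (hY : ∀ x, DifferentiableOn ℂ (Y x) (ball Xc (2 * R)))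
    (hode : ∀ x, ∀ z ∈ ball Xc (2 * R),
      aeval z h * deriv (Y x) z = ∑ y, aeval z (A x y) * Y y z)
    (hind : ∀ P : ι → ℤ[X], (∀ z ∈ ball Xc (2 * R), pair P z (fun x => Y x z) = 0) → P = 0)
    (Λ1 Λ : ℝ)
    (hden : ∀ T : ℕ, ∃ D : ℕ, 0 < D ∧ (D : ℝ) ≤ Real.exp (Λ1 * T) ∧
      ∀ n < T, ∀ P : ι → ℤ[X], ∃ Q : ι → ℤ[X], (n.factorial : ℤ) • Q = (D : ℤ) • Hs h A P n)
    (Ξ : Finset ℂ) (hΞ : ∀ z ∈ Ξ, aeval z h ≠ 0) (v : ℂ → β → ι → ℂ)
    (ρ : (ι → ℤ[X]) →+ (γ → ℤ)) (Cρ : ℝ) (hρ : ∀ Q g, |((ρ Q g : ℤ) : ℝ)| ≤ Cρ * l1v Q)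
    (Vd : (γ → ℂ) →ₗ[ℂ] (Ξ → β → ℂ)) (hVd : Function.Injective Vd)
    (hV : ∀ Q (z : Ξ) b, Vd (fun g => ((ρ Q g : ℤ) : ℂ)) z b = pair Q z (v z b))
    {k : ℕ} (ξ : Fin k → ℂ) (hinj : Function.Injective ξ) (hξ : ∀ t, ξ t ∈ ball Xc (R / 6))
    (hξ1 : ∀ t, ‖ξ t‖ ≤ 1) (hξΞ : ∀ t, ξ t ∈ Ξ)
    (hspan : ∀ t, ∃ a : β → ℂ, ∀ x, Y x (ξ t) = ∑ b, a b * v (ξ t) b x)
    (hι : 1 ≤ Fintype.card ι) (hm : 100 * Fintype.card γ ≤ Fintype.card ι * k)
    (hΛ1 : 1 ≤ Λ) (hΛk : 100 * Λ ≤ k) (hS : 100 * (Fintype.card γ : ℝ) * Λ ≤ (k : ℝ) ^ 2)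
    (hΛ : Λ1 + Real.log (18 * l1 h / R) + Real.log (k + 2 * c + 1) ≤ Λ) : False := by
  classical
  have hk : 1 ≤ k := by
    have h1 : (1 : ℝ) ≤ k := by linarith only [hΛ1, hΛk]
    exact_mod_cast h1
  have hh : h ≠ 0 := by
    intro h0
    exact hΞ (ξ ⟨0, hk⟩) (hξΞ _) (by rw [h0, map_zero])
  obtain ⟨M, j, hM, hmin⟩ := exists_min_slope
    (fun (M : Submodule ℤ[X] (ι → ℤ[X])) j => Good h A M j)
    (fun M => Module.finrank ℂ (rspan M ρ)) (Fintype.card γ) (Fintype.card ι)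
    (fun M => rspan_le_card M ρ) (fun M j hM => ⟨hM.pos, hM.le_card⟩) ⟨⊤, _, good_top h A hι⟩
  have h1 : Module.finrank ℂ (rspan M ρ) * Fintype.card ι ≤
      Module.finrank ℂ (rspan (⊤ : Submodule ℤ[X] (ι → ℤ[X])) ρ) * j :=
    hmin ⊤ _ (good_top h A hι)
  have h2 := rspan_le_card (⊤ : Submodule ℤ[X] (ι → ℤ[X])) ρ
  have h3 := rspan_le_card M ρ
  have hθ : 100 * Module.finrank ℂ (rspan M ρ) ≤ j * k := by
    refine Nat.le_of_mul_le_mul_right ?_ hι
    calc 100 * Module.finrank ℂ (rspan M ρ) * Fintype.card ι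
        = 100 * (Module.finrank ℂ (rspan M ρ) * Fintype.card ι) := by ring
      _ ≤ 100 * (Fintype.card γ * j) :=
          Nat.mul_le_mul_left _ (h1.trans (Nat.mul_le_mul_right _ h2))
      _ = 100 * Fintype.card γ * j := by ring
      _ ≤ Fintype.card ι * k * j := Nat.mul_le_mul_right _ hm
      _ = j * k * Fintype.card ι := by ring
  choose a ha using hspan
  let φ : (γ → ℂ) →ₗ[ℂ] (Fin k → ℂ) :=
    { toFun := fun u t => ∑ b, a t b * Vd u ⟨ξ t, hξΞ t⟩ b
      map_add' := fun u w => by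
        funext t
        simp only [map_add, Pi.add_apply, mul_add, Finset.sum_add_distrib]
      map_smul' := fun r u => by
        funext t
        simp only [map_smul, Pi.smul_apply, smul_eq_mul, RingHom.id_apply, Finset.mul_sum]
        exact Finset.sum_congr rfl fun b _ => by ring }
  have hφ : ∀ Q t, φ (fun g => ((ρ Q g : ℤ) : ℂ)) t = pair Q (ξ t) fun x => Y x (ξ t) := by
    intro Q t
    have e : (fun x => Y x (ξ t)) = fun x => ∑ b, a t b * v (ξ t) b x := funext (ha t)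
    rw [e, ZE4_pair]
    exact Finset.sum_congr rfl fun b _ => congrArg (a t b * ·) (hV Q ⟨ξ t, hξΞ t⟩ b)
  have hsurj : (rspan M ρ).map φ = ⊤ :=
    map_rspan_top M ρ φ ξ hinj (fun t x => Y x (ξ t)) hφ fun t =>
      exists_pair_ne h A Y hY hode hind hM (ball_subset_ball (by linarith only [hR0]) (hξ t))
        (hΞ _ (hξΞ t))
  have hS' : 100 * (Module.finrank ℂ (rspan M ρ) : ℝ) * Λ ≤ (k : ℝ) ^ 2 := by
    have h4 : (Module.finrank ℂ (rspan M ρ) : ℝ) ≤ Fintype.card γ := by exact_mod_cast h3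
    refine le_trans ?_ hS
    exact mul_le_mul_of_nonneg_right (by linarith only [h4]) (by linarith only [hΛ1])
  obtain ⟨T, N, P, hP0, hPN, hlt, hQ⟩ := aux_poly h A c hc hA hh Xc R hXc hR0 hR1 Y hY hode Λ1 Λ
    hden ξ hξ hξ1 ρ Cρ hρ φ hφ M j hM hsurj hθ hΛ1 hΛk hS' hΛ (Fintype.card ι * c)
  have hv : ∀ n < T, ∀ z ∈ Ξ, ∀ b, pair (Hs h A P n) z (v z b) = 0 := by
    intro n hn z hz b
    obtain ⟨D, hD, Q, hQ1, hQ2⟩ := hQ n hn
    have e1 := hV Q ⟨z, hz⟩ b
    have e2 : (fun g => ((ρ Q g : ℤ) : ℂ)) = 0 := by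
      funext g
      rw [hQ2, Pi.zero_apply, Int.cast_zero, Pi.zero_apply]
    rw [e2, map_zero] at e1
    have e3 : pair Q z (v z b) = 0 := e1.symm
    have e4 := congrArg (fun Q => pair Q z (v z b)) hQ1
    simp only [pair_zsmul, e3, mul_zero] at e4
    have e5 : ((D : ℤ) : ℂ) ≠ 0 := by exact_mod_cast hD.ne'
    exact (mul_eq_zero.1 e4.symm).resolve_left e5
  obtain ⟨M', j', hM', hle⟩ := zero_estimate h A c hc hA Ξ hΞ v P hP0 N hPN T hv
  have h5 := rspan_le_sum_sig M' ρ Ξ v Vd hVd hV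
  have h6 : Module.finrank ℂ (rspan M ρ) * j' ≤ Module.finrank ℂ (rspan M' ρ) * j :=
    hmin M' j' hM'
  have h7 : Module.finrank ℂ (rspan M' ρ) * (T - Fintype.card ι) ≤
      j' * (N + Fintype.card ι * c) := (Nat.mul_le_mul_right _ h5).trans hle
  have h8 := Nat.mul_lt_mul_of_pos_left hlt hM'.pos
  have h9 : j' * (Module.finrank ℂ (rspan M ρ) * (T - Fintype.card ι)) ≤
      j' * (j * (N + Fintype.card ι * c)) :=
    calc j' * (Module.finrank ℂ (rspan M ρ) * (T - Fintype.card ι))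
        = Module.finrank ℂ (rspan M ρ) * j' * (T - Fintype.card ι) := by ring
      _ ≤ Module.finrank ℂ (rspan M' ρ) * j * (T - Fintype.card ι) := Nat.mul_le_mul_right _ h6
      _ = j * (Module.finrank ℂ (rspan M' ρ) * (T - Fintype.card ι)) := by ring
      _ ≤ j * (j' * (N + Fintype.card ι * c)) := Nat.mul_le_mul_left _ h7
      _ = j' * (j * (N + Fintype.card ι * c)) := by ring
  exact absurd h8 (not_lt.2 h9)

end Pool.Agent.CS5
end

-- merged part: Pool.Agent.Work.MP_8f8a35_gt.Sites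
section
/-!
Integer coordinates for the values at the nontrivial `p`-th roots of unity.

Plan.  `cyc_coords`: put `ρ q r = ∑ n ∈ q.support, q.coeff n * (ind (n % p = r) - ind (n % p = p - 1))` for
`r < p - 1` (additive: write it with `Polynomial.sum` and `sum_add_index`, or `Polynomial.lsum`, or define
it by `Finsupp.liftAddHom`); each weight has absolute value `≤ 1`.  For `z ^ p = 1`, `z ≠ 1`:
`z ^ n = z ^ (n % p)` and `z ^ (p - 1) = -∑ r < p - 1, z ^ r` (`geom_sum_eq`, `mul_neg_geom_sum`).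
`cyc_inj`: the polynomial `∑ r, C (x r) * X ^ r` has degree `< p - 1` and vanishes at the `p - 1` elements
of `(nthRootsFinset p 1).erase 1` (`IsPrimitiveRoot.card_nthRootsFinset`,
`Complex.isPrimitiveRoot_exp`), so it is zero (`Polynomial.eq_zero_of_natDegree_lt_card_of_eval_eq_zero'`).
`sites`: `Ξ = univ.biUnion fun t => (nthRootsFinset (p t) 1).erase 1`,
`γ = Σ t : Fin k, Fin (p t - 1) × β`, `ρ Q ⟨t, r, b⟩ = ρ_(p t) (∑ x, Q x * C (B t b x)) r`,
`Cρ = ∑ t b x, |B t b x|`, `Vd u z (t, b) = if z ^ p t = 1 then ∑ r, u ⟨t, r, b⟩ * z ^ r else 0`.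
-/

set_option autoImplicit false

open Polynomial

namespace Pool.Agent.CS5

/-- The coordinates of `z ^ n`. -/
def Sites_w (p n r : ℕ) : ℤ := (if n % p = r then 1 else 0) - (if n % p = p - 1 then 1 else 0)

theorem Sites_w_abs (p n r : ℕ) : |Sites_w p n r| ≤ 1 := by
  unfold Sites_w
  split_ifs <;> simp

theorem Sites_w_sum {p : ℕ} (hp : 2 ≤ p) (n : ℕ) {z : ℂ} (hz : z ^ p = 1) (h1 : z ≠ 1) :
    ∑ r : Fin (p - 1), ((Sites_w p n r : ℤ) : ℂ) * z ^ (r : ℕ) = z ^ n := by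
  have hm : n % p < p := Nat.mod_lt _ (by omega)
  rw [pow_eq_pow_mod n hz, Fin.sum_univ_eq_sum_range fun r => ((Sites_w p n r : ℤ) : ℂ) * z ^ r]
  by_cases h : n % p = p - 1
  · have h2 : ∑ r ∈ Finset.range (p - 1 + 1), z ^ r = 0 := by
      rw [geom_sum_eq h1, Nat.sub_add_cancel (by omega), hz, sub_self, zero_div]
    rw [Finset.sum_range_succ] at h2
    have h3 : ∀ r ∈ Finset.range (p - 1), ((Sites_w p n r : ℤ) : ℂ) * z ^ r = -z ^ r := by
      intro r hr
      have := Finset.mem_range.1 hr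
      rw [Sites_w, if_pos h, if_neg (by omega)]
      simp
    rw [Finset.sum_congr rfl h3, Finset.sum_neg_distrib, h]
    linear_combination -h2
  · rw [Finset.sum_eq_single (n % p)]
    · simp [Sites_w, h]
    · intro r _ hr
      simp [Sites_w, h, hr.symm]
    · intro hr
      exact absurd (Finset.mem_range.2 (by omega)) hr

theorem cyc_coords (p : ℕ) (hp : 2 ≤ p) :
    ∃ ρ : ℤ[X] →+ (Fin (p - 1) → ℤ), (∀ q r, |((ρ q r : ℤ) : ℝ)| ≤ l1 q) ∧
      ∀ (q : ℤ[X]) (z : ℂ), z ^ p = 1 → z ≠ 1 →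
        ∑ r : Fin (p - 1), ((ρ q r : ℤ) : ℂ) * z ^ (r : ℕ) = aeval z q := by
  refine ⟨AddMonoidHom.mk' (fun q r => q.sum fun n a => a * Sites_w p n r) fun q q' => ?_,
    fun q r => ?_, fun q z hz h1 => ?_⟩
  · funext r
    exact sum_add_index q q' _ (fun _ => zero_mul _) fun _ _ _ => add_mul _ _ _
  · simp only [AddMonoidHom.mk'_apply, Polynomial.sum, l1, Int.cast_sum, Int.cast_mul]
    refine (Finset.abs_sum_le_sum_abs _ _).trans (Finset.sum_le_sum fun n _ => ?_)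
    rw [abs_mul]
    refine mul_le_of_le_one_right (abs_nonneg _) ?_
    exact_mod_cast Sites_w_abs p n r
  · simp only [AddMonoidHom.mk'_apply, Polynomial.sum, Int.cast_sum, Int.cast_mul, Finset.sum_mul]
    rw [Finset.sum_comm, aeval_def, eval₂_eq_sum, Polynomial.sum]
    refine Finset.sum_congr rfl fun n _ => ?_
    rw [← Sites_w_sum hp n hz h1, Finset.mul_sum]
    refine Finset.sum_congr rfl fun r _ => ?_
    simp [mul_assoc]

theorem cyc_inj (p : ℕ) (hp : 2 ≤ p) (x : Fin (p - 1) → ℂ)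
    (hx : ∀ z : ℂ, z ^ p = 1 → z ≠ 1 → ∑ r : Fin (p - 1), x r * z ^ (r : ℕ) = 0) : x = 0 := by
  classical
  have hp0 : 0 < p := by omega
  let f := (degreeLTEquiv ℂ (p - 1)).symm x
  have hdeg : (f : ℂ[X]).degree < (p - 1 : ℕ) := mem_degreeLT.1 f.2
  have hcard : ((nthRootsFinset p (1 : ℂ)).erase 1).card = p - 1 := by
    rw [Finset.card_erase_of_mem ((mem_nthRootsFinset hp0 1).2 (one_pow p)),
      (Complex.isPrimitiveRoot_exp p hp0.ne').card_nthRootsFinset]
  have h0 : (f : ℂ[X]) = 0 := by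
    refine eq_zero_of_degree_lt_of_eval_finset_eq_zero ((nthRootsFinset p (1 : ℂ)).erase 1)
      (by rwa [hcard]) fun z hz => ?_
    obtain ⟨h1, h2⟩ := Finset.mem_erase.1 hz
    rw [← hx z ((mem_nthRootsFinset hp0 1).1 h2) h1]
    simp [f, degreeLTEquiv, eval_finsetSum]
  have h1 : f = 0 := Subtype.ext h0
  exact (degreeLTEquiv ℂ (p - 1)).symm.map_eq_zero_iff.1 h1

open Classical in
theorem sites {ι β : Type} [Fintype ι] [Fintype β] {k : ℕ} (M : ℕ) (p : Fin k → ℕ)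
    (hp : ∀ t, 2 ≤ p t ∧ p t ≤ M) (B : Fin k → β → ι → ℤ) :
    ∃ (Ξ : Finset ℂ) (γ : Type) (_ : Fintype γ) (ρ : (ι → ℤ[X]) →+ (γ → ℤ)) (Cρ : ℝ)
      (Vd : (γ → ℂ) →ₗ[ℂ] (Ξ → Fin k × β → ℂ)),
      (∀ z, z ∈ Ξ ↔ ∃ t, z ^ p t = 1 ∧ z ≠ 1) ∧
      Fintype.card γ ≤ k * M * Fintype.card β ∧
      (∀ Q g, |((ρ Q g : ℤ) : ℝ)| ≤ Cρ * l1v Q) ∧ Function.Injective Vd ∧
      ∀ Q (z : Ξ) (tb : Fin k × β), Vd (fun g => ((ρ Q g : ℤ) : ℂ)) z tb =
        pair Q z fun x => if (z : ℂ) ^ p tb.1 = 1 then ((B tb.1 tb.2 x : ℤ) : ℂ) else 0 := by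
  choose ρc hρ1 hρ2 using fun t => cyc_coords (p t) (hp t).1
  let Ξ : Finset ℂ := Finset.univ.biUnion fun t => (nthRootsFinset (p t) (1 : ℂ)).erase 1
  have hΞ : ∀ z, z ∈ Ξ ↔ ∃ t, z ^ p t = 1 ∧ z ≠ 1 := by
    intro z
    simp only [Ξ, Finset.mem_biUnion, Finset.mem_univ, true_and, Finset.mem_erase]
    refine exists_congr fun t => ?_
    rw [mem_nthRootsFinset (lt_of_lt_of_le two_pos (hp t).1), and_comm]
  let Vd : (((t : Fin k) × (Fin (p t - 1) × β)) → ℂ) →ₗ[ℂ] (Ξ → Fin k × β → ℂ) :=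
    { toFun := fun u z tb => if (z : ℂ) ^ p tb.1 = 1 then
        ∑ r : Fin (p tb.1 - 1), u ⟨tb.1, r, tb.2⟩ * (z : ℂ) ^ (r : ℕ) else 0
      map_add' := fun u u' => by
        funext z tb
        simp only [Pi.add_apply]
        split_ifs
        · simp only [add_mul, Finset.sum_add_distrib]
        · simp
      map_smul' := fun c u => by
        funext z tb
        simp only [Pi.smul_apply, smul_eq_mul, RingHom.id_apply]
        split_ifs
        · simp only [Finset.mul_sum, mul_assoc]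
        · simp }
  have hVd : ∀ u (z : Ξ) (tb : Fin k × β), Vd u z tb = if (z : ℂ) ^ p tb.1 = 1 then
      ∑ r : Fin (p tb.1 - 1), u ⟨tb.1, r, tb.2⟩ * (z : ℂ) ^ (r : ℕ) else 0 := fun _ _ _ => rfl
  refine ⟨Ξ, (t : Fin k) × (Fin (p t - 1) × β), inferInstance,
    AddMonoidHom.mk' (fun Q g => ρc g.1 (∑ x, B g.1 g.2.2 x • Q x) g.2.1) fun Q Q' => ?_,
    ∑ t, ∑ b, ∑ x, |((B t b x : ℤ) : ℝ)|, Vd, hΞ, ?_, fun Q g => ?_, ?_, fun Q z tb => ?_⟩
  · funext g
    simp only [Pi.add_apply, smul_add, Finset.sum_add_distrib, map_add]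
  · rw [Fintype.card_sigma]
    simp only [Fintype.card_prod, Fintype.card_fin]
    calc ∑ t, (p t - 1) * Fintype.card β ≤ ∑ _t : Fin k, M * Fintype.card β :=
          Finset.sum_le_sum fun t _ => Nat.mul_le_mul_right _ ((Nat.sub_le _ _).trans (hp t).2)
      _ = k * M * Fintype.card β := by simp [mul_assoc]
  · simp only [AddMonoidHom.mk'_apply]
    refine (hρ1 _ _ _).trans ((l1_sum_le _ _).trans ?_)
    rw [l1v, Finset.mul_sum]
    refine Finset.sum_le_sum fun x _ => ?_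
    rw [l1_zsmul]
    refine mul_le_mul_of_nonneg_right ?_ (l1_nonneg _)
    refine le_trans ?_ (Finset.single_le_sum (f := fun t => ∑ b, ∑ x, |((B t b x : ℤ) : ℝ)|)
      (fun _ _ => by positivity) (Finset.mem_univ g.1))
    refine le_trans ?_ (Finset.single_le_sum (f := fun b => ∑ x, |((B g.1 b x : ℤ) : ℝ)|)
      (fun _ _ => by positivity) (Finset.mem_univ g.2.2))
    exact Finset.single_le_sum (f := fun x => |((B g.1 g.2.2 x : ℤ) : ℝ)|)
      (fun _ _ => abs_nonneg _) (Finset.mem_univ x)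
  · refine (injective_iff_map_eq_zero Vd).2 fun u hu => ?_
    funext ⟨t, r, b⟩
    refine congrFun (cyc_inj (p t) (hp t).1 (fun r => u ⟨t, r, b⟩) fun z hz h1 => ?_) r
    have h2 := hVd u ⟨z, (hΞ z).2 ⟨t, hz, h1⟩⟩ (t, b)
    rw [hu, if_pos hz] at h2
    exact h2.symm
  · rw [hVd, pair]
    split_ifs with hz
    · obtain ⟨_, -, h1⟩ := (hΞ z).1 z.2
      simp only [AddMonoidHom.mk'_apply]
      rw [hρ2 tb.1 _ z hz h1, map_sum]
      refine Finset.sum_congr rfl fun x _ => ?_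
      rw [map_zsmul, zsmul_eq_mul, mul_comm]
    · simp

end Pool.Agent.CS5
end

-- merged part: Pool.Agent.Work.MP_8f8a35_gt.Core
section
/-!
The many-point theorem for roots of unity.
-/

set_option autoImplicit false

open Polynomial Metric

namespace Pool.Agent.CS5

theorem core {ι β : Type} [Fintype ι] [Fintype β] (h : ℤ[X]) (A : ι → ι → ℤ[X])
    (c : ℕ) (hc : h.natDegree ≤ c) (hA : ∀ x y, (A x y).natDegree ≤ c)
    (Xc : ℂ) (R : ℝ) (hXc : ‖Xc‖ ≤ 1) (hR0 : 0 < R) (hR1 : R ≤ 1)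
    (Y : ι → ℂ → ℂ) (hY : ∀ x, DifferentiableOn ℂ (Y x) (ball Xc (2 * R)))
    (hode : ∀ x, ∀ z ∈ ball Xc (2 * R),
      aeval z h * deriv (Y x) z = ∑ y, aeval z (A x y) * Y y z)
    (hind : ∀ P : ι → ℤ[X], (∀ z ∈ ball Xc (2 * R), pair P z (fun x => Y x z) = 0) → P = 0)
    (Λ1 Λ : ℝ)
    (hden : ∀ T : ℕ, ∃ D : ℕ, 0 < D ∧ (D : ℝ) ≤ Real.exp (Λ1 * T) ∧
      ∀ n < T, ∀ P : ι → ℤ[X], ∃ Q : ι → ℤ[X], (n.factorial : ℤ) • Q = (D : ℤ) • Hs h A P n)
    {k : ℕ} (M : ℕ) (p : Fin k → ℕ) (hp : ∀ t, 2 ≤ p t ∧ p t ≤ M)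
    (hroot : ∀ t (z : ℂ), z ^ p t = 1 → z ≠ 1 → aeval z h ≠ 0)
    (ξ : Fin k → ℂ) (hinj : Function.Injective ξ) (hξ : ∀ t, ξ t ∈ ball Xc (R / 6))
    (hξp : ∀ t, ξ t ^ p t = 1 ∧ ξ t ≠ 1)
    (B : Fin k → β → ι → ℤ)
    (hB : ∀ t, ∃ a : β → ℂ, ∀ x, Y x (ξ t) = ∑ b, a b * ((B t b x : ℤ) : ℂ))
    (hM : 1 ≤ M) (hβ : 1 ≤ Fintype.card β) (hm : 100 * M * Fintype.card β ≤ Fintype.card ι)
    (hΛ1 : 1 ≤ Λ) (hS : 100 * (M : ℝ) * Fintype.card β * Λ ≤ k)
    (hΛ : Λ1 + Real.log (18 * l1 h / R) + Real.log (k + 2 * c + 1) ≤ Λ) : False := by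
  classical
  obtain ⟨Ξ, γ, _, ρ, Cρ, Vd, hΞ, hγ, hρ, hVd, hV⟩ := sites M p hp B
  have hMβ : (1 : ℝ) ≤ (M : ℝ) * Fintype.card β := by
    have : 1 ≤ M * Fintype.card β := Nat.mul_pos hM hβ
    exact_mod_cast this
  have hΛk : 100 * Λ ≤ k := by linarith only [hS, hMβ, hΛ1, mul_nonneg_of_nonpos_of_nonpos (Mathlib.Tactic.Linarith.sub_nonpos_of_le hΛ1) (Mathlib.Tactic.Linarith.sub_nonpos_of_le hMβ)]
  refine core0 (β := Fin k × β) h A c hc hA Xc R hXc hR0 hR1 Y hY hode hind Λ1 Λ hden Ξ ?_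
    (fun z tb x => if z ^ p tb.1 = 1 then ((B tb.1 tb.2 x : ℤ) : ℂ) else 0) ρ Cρ hρ Vd hVd hV ξ hinj hξ
    ?_ ?_ ?_ ?_ ?_ hΛ1 hΛk ?_ hΛ
  · intro z hz
    obtain ⟨t, h1, h2⟩ := (hΞ z).1 hz
    exact hroot t z h1 h2
  · intro t
    have h1 : ‖ξ t‖ ^ p t = 1 := by rw [← norm_pow, (hξp t).1, norm_one]
    have h2 : p t ≠ 0 := by have := (hp t).1; omega
    exact le_of_eq ((pow_eq_one_iff_of_nonneg (norm_nonneg _) h2).1 h1)
  · intro t
    exact (hΞ _).2 ⟨t, hξp t⟩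
  · intro t
    obtain ⟨a, ha⟩ := hB t
    refine ⟨fun tb => if tb.1 = t then a tb.2 else 0, fun x => ?_⟩
    rw [ha x, Fintype.sum_prod_type, Finset.sum_eq_single t]
    · simp [(hξp t).1]
    · intro t' _ ht'
      simp [ht']
    · simp
  · have : 1 ≤ M * Fintype.card β := Nat.mul_pos hM hβ
    linarith only [hm, this]
  · calc 100 * Fintype.card γ ≤ 100 * (k * M * Fintype.card β) := Nat.mul_le_mul_left _ hγ
      _ = (100 * M * Fintype.card β) * k := by ring
      _ ≤ Fintype.card ι * k := Nat.mul_le_mul_right _ hm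
  · have h1 : (Fintype.card γ : ℝ) ≤ k * M * Fintype.card β := by exact_mod_cast hγ
    have h2 : (0 : ℝ) ≤ k := Nat.cast_nonneg _
    calc 100 * (Fintype.card γ : ℝ) * Λ ≤ 100 * (k * M * Fintype.card β) * Λ := by gcongr
      _ = k * (100 * (M : ℝ) * Fintype.card β * Λ) := by ring
      _ ≤ k * k := by gcongr
      _ = (k : ℝ) ^ 2 := by ring

end Pool.Agent.CS5
end

-- merged part: Pool.Agent.Work.MP_8f8a35_gt.Ring
section
/-!
The differential algebra of holomorphic functions on an open set.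

Plan.  For `f : U → ℂ` let `ext f = Function.extend Subtype.val f 0 : ℂ → ℂ` (or
`fun z => if h : z ∈ U then f ⟨z, h⟩ else 0`).  `O` is the subalgebra of `U → ℂ` of all `f` such that there is
`F : ℂ → ℂ` differentiable on `U` with `f z = F z` on `U`.  `d f z = deriv (ext f) z`; if `f z = F z` on `U` then
`ext f =ᶠ[𝓝 z] F` for `z ∈ U` (open), so `d f z = deriv F z`; `DifferentiableOn.deriv` keeps `d f` in `O`.
Build `d` with `Derivation.mk'` from a linear map and `deriv_mul`.  `ev z` is `Pi.evalAlgHom` after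
`Subalgebra.val`.  `unit`: the inverse of `hf z` is differentiable on `U`.  `inj`: a polynomial vanishing on
the infinite set `U` is zero (`IsOpen.infinite` or `infinite_of_mem_nhds`,
`Polynomial.eq_zero_of_infinite_isRoot`).  Use `map_hf`, `map_Df`, `map_rhs` with `ev z`.
-/

set_option autoImplicit false

open Polynomial

namespace Pool.Agent.CS5

/-- Restrictions to `U` of functions that are differentiable on `U`. -/
def Ring_O (U : Set ℂ) : Subalgebra ℂ (U → ℂ) where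
  carrier := {f | ∃ F : ℂ → ℂ, DifferentiableOn ℂ F U ∧ ∀ z : U, f z = F z}
  mul_mem' := by
    rintro f g ⟨F, hF, hf⟩ ⟨G, hG, hg⟩
    exact ⟨fun z => F z * G z, hF.mul hG, fun z => by simp [hf z, hg z]⟩
  add_mem' := by
    rintro f g ⟨F, hF, hf⟩ ⟨G, hG, hg⟩
    exact ⟨fun z => F z + G z, hF.add hG, fun z => by simp [hf z, hg z]⟩
  algebraMap_mem' := fun c => ⟨fun _ => c, differentiableOn_const c, fun z => by simp⟩

open Classical in
/-- Extension by zero. -/
noncomputable def Ring_ext {U : Set ℂ} (f : U → ℂ) : ℂ → ℂ :=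
  fun z => if h : z ∈ U then f ⟨z, h⟩ else 0

theorem Ring_deriv {U : Set ℂ} (hU : IsOpen U) {f : U → ℂ} {F : ℂ → ℂ} (h : ∀ z : U, f z = F z)
    (z : U) : deriv (Ring_ext f) z = deriv F z := by
  apply Filter.EventuallyEq.deriv_eq
  filter_upwards [hU.mem_nhds z.2] with w hw
  simp only [Ring_ext, dif_pos hw]
  exact h ⟨w, hw⟩

/-- The restriction of a differentiable function. -/
def Ring_mk {U : Set ℂ} (F : ℂ → ℂ) (hF : DifferentiableOn ℂ F U) : Ring_O U :=
  ⟨fun z => F z, F, hF, fun _ => rfl⟩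

/-- The derivative as a map. -/
noncomputable def Ring_d0 {U : Set ℂ} (hU : IsOpen U) (f : Ring_O U) : Ring_O U :=
  ⟨fun z => deriv (Ring_ext f.1) z, by
    obtain ⟨F, hF, h⟩ := f.2
    exact ⟨deriv F, hF.deriv hU, fun z => Ring_deriv hU h z⟩⟩

theorem Ring_d0_eq {U : Set ℂ} (hU : IsOpen U) (f : Ring_O U) {F : ℂ → ℂ}
    (h : ∀ z : U, f.1 z = F z) (z : U) : (Ring_d0 hU f).1 z = deriv F z :=
  Ring_deriv hU h z

/-- The derivative as a linear map. -/
noncomputable def Ring_d1 {U : Set ℂ} (hU : IsOpen U) : Ring_O U →ₗ[ℂ] Ring_O U where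
  toFun := Ring_d0 hU
  map_add' := by
    intro f g
    obtain ⟨F, hF, hf⟩ := f.2
    obtain ⟨G, hG, hg⟩ := g.2
    apply Subtype.ext
    funext z
    have h1 : ∀ z : U, (f + g).1 z = (fun w => F w + G w) z := fun z => by simp [hf z, hg z]
    have dF := (hF z z.2).differentiableAt (hU.mem_nhds z.2)
    have dG := (hG z z.2).differentiableAt (hU.mem_nhds z.2)
    rw [Ring_d0_eq hU _ (F := fun w => F w + G w) h1 z]
    show _ = (Ring_d0 hU f).1 z + (Ring_d0 hU g).1 z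
    rw [Ring_d0_eq hU f hf z, Ring_d0_eq hU g hg z]
    exact deriv_fun_add dF dG
  map_smul' := by
    intro c f
    obtain ⟨F, hF, hf⟩ := f.2
    apply Subtype.ext
    funext z
    have h1 : ∀ z : U, (c • f).1 z = (fun w => c * F w) z := fun z => by simp [hf z]
    rw [Ring_d0_eq hU _ (F := fun w => c * F w) h1 z]
    show _ = c * (Ring_d0 hU f).1 z
    rw [Ring_d0_eq hU f hf z]
    exact deriv_const_mul_field c

/-- The derivative as a derivation. -/
noncomputable def Ring_d {U : Set ℂ} (hU : IsOpen U) : Derivation ℂ (Ring_O U) (Ring_O U) :=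
  Derivation.mk' (Ring_d1 hU) (by
    intro f g
    obtain ⟨F, hF, hf⟩ := f.2
    obtain ⟨G, hG, hg⟩ := g.2
    apply Subtype.ext
    funext z
    have h1 : ∀ z : U, (f * g).1 z = (fun w => F w * G w) z := fun z => by simp [hf z, hg z]
    have dF := (hF z z.2).differentiableAt (hU.mem_nhds z.2)
    have dG := (hG z z.2).differentiableAt (hU.mem_nhds z.2)
    show (Ring_d0 hU (f * g)).1 z = f.1 z * (Ring_d0 hU g).1 z + g.1 z * (Ring_d0 hU f).1 z
    rw [Ring_d0_eq hU _ (F := fun w => F w * G w) h1 z, Ring_d0_eq hU f hf z, Ring_d0_eq hU g hg z, hf z, hg z,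
      deriv_fun_mul dF dG]
    ring)

theorem Ring_d_eq {U : Set ℂ} (hU : IsOpen U) (f : Ring_O U) {F : ℂ → ℂ}
    (h : ∀ z : U, f.1 z = F z) (z : U) : (Ring_d hU f).1 z = deriv F z :=
  Ring_deriv hU h z

/-- Evaluation at a point. -/
noncomputable def Ring_ev {U : Set ℂ} (z : U) : Ring_O U →ₐ[ℂ] ℂ :=
  (Pi.evalAlgHom ℂ (fun _ : U => ℂ) z).comp (Ring_O U).val

theorem Ring_ev_apply {U : Set ℂ} (z : U) (f : Ring_O U) : Ring_ev z f = f.1 z := rfl

theorem Ring_ext_iff {U : Set ℂ} {f g : Ring_O U} (h : ∀ z : U, Ring_ev z f = Ring_ev z g) :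
    f = g := Subtype.ext (funext h)

theorem Ring_hf_diff : Differentiable ℂ (fun z : ℂ => hf z) := by
  simp only [hf, hX, Df, Qa, Qb]
  simp only [Matrix.cons_val_zero, Matrix.cons_val_one, Matrix.cons_val]
  fun_prop

theorem exists_sys {U : Set ℂ} (hU : IsOpen U) (hne : U.Nonempty) {δ : Fin 3 → ℂ → ℂ}
    {y : Fin 9 → ℂ → ℂ} (hS : FSys U δ y) :
    ∃ (O : Type) (_ : CommRing O) (_ : Algebra ℂ O) (S : Sys O) (ev : U → O →ₐ[ℂ] ℂ),
      (∀ z : U, ev z S.x = z) ∧ (∀ (z : U) i, ev z (S.δ i) = δ i z) ∧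
      (∀ (z : U) j, ev z (S.y j) = y j z) ∧ (∀ f : O, (∀ z : U, ev z f = 0) → f = 0) ∧
      ∀ (f : O) (F : ℂ → ℂ), (∀ z : U, ev z f = F z) → ∀ z : U, ev z (S.d f) = deriv F z := by
  let x : Ring_O U := Ring_mk (fun z => z) differentiableOn_id
  let dl : Fin 3 → Ring_O U := fun i => Ring_mk (δ i) (hS.dδ i)
  let yy : Fin 9 → Ring_O U := fun j => Ring_mk (y j) (hS.dy j)
  have hx : ∀ z : U, Ring_ev z x = z := fun _ => rfl
  have hdl : ∀ (z : U) i, Ring_ev z (dl i) = δ i z := fun _ _ => rfl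
  have hyy : ∀ (z : U) j, Ring_ev z (yy j) = y j z := fun _ _ => rfl
  have hd : ∀ (f : Ring_O U) (F : ℂ → ℂ), (∀ z : U, Ring_ev z f = F z) →
      ∀ z : U, Ring_ev z (Ring_d hU f) = deriv F z := fun f F h z => Ring_d_eq hU f h z
  have h1 : Ring_d hU x = 1 := by
    apply Ring_ext_iff
    intro z
    rw [hd x (fun z => z) hx z, map_one]
    simp
  have h2 : IsUnit (hf x) := by
    let g : Ring_O U := Ring_mk (fun z => (hf z)⁻¹)
      (Ring_hf_diff.differentiableOn.inv hS.hne)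
    refine IsUnit.of_mul_eq_one g ?_
    apply Ring_ext_iff
    intro z
    rw [map_mul, map_hf, hx, map_one]
    exact mul_inv_cancel₀ (hS.hne z z.2)
  have h3 : ∀ q : ℂ[X], aeval x q = 0 → q = 0 := by
    intro q hq
    apply Polynomial.eq_zero_of_infinite_isRoot
    obtain ⟨z0, hz0⟩ := hne
    refine (infinite_of_mem_nhds z0 (hU.mem_nhds hz0)).mono ?_
    intro z hz
    have h := congrArg (Ring_ev (⟨z, hz⟩ : U)) hq
    rw [← Polynomial.aeval_algHom_apply, hx, map_zero] at h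
    simpa [Polynomial.coe_aeval_eq_eval] using h
  have h4 : ∀ i, dl i ^ 2 = Df i x := by
    intro i
    apply Ring_ext_iff
    intro z
    rw [map_pow, map_Df, hx, hdl]
    exact hS.sq i z z.2
  have h5 : ∀ j, hf x * Ring_d hU (yy j) = rhs x dl yy j := by
    intro j
    apply Ring_ext_iff
    intro z
    rw [map_mul, map_hf, hx, hd (yy j) (y j) (fun z => hyy z j) z, map_rhs, hx]
    simp only [hdl, hyy]
    exact hS.der j z z.2
  refine ⟨Ring_O U, inferInstance, inferInstance, ⟨Ring_d hU, x, dl, yy, h1, h2, h3, h4, h5⟩,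
    Ring_ev, hx, hdl, hyy, ?_, hd⟩
  intro f h
  apply Ring_ext_iff
  intro z
  rw [h z, map_zero]

end Pool.Agent.CS5
end

-- merged part: Pool.Agent.Work.MP_8f8a35_gt.Int1
section
/-!
The divided operators `theta S n = h ^ n d ^ n / n!`.

Plan.  `theta_mul`: Leibniz formula `d^[n] (f g) = ∑ antidiagonal, choose • (d^[a] f * d^[b] g)` (induction,
`Finset.sum_antidiagonal_choose_succ_nsmul` or `Finset.Nat.sum_antidiagonal_succ`), and
`choose = n! / (a! b!)` (`Nat.add_choose_mul_factorial_mul_factorial`).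
`theta_poly`: `d (aeval x q) = aeval x q'` for `q : ℤ[X]` (induction on `q`, `S.dx`), iterate, and
`Polynomial.factorial_smul_hasseDeriv`.
`theta_δ`: strong induction for: `n ≥ 1 → ∃ v ∈ Zx, theta n δ = δ * (2 v)`.  We have `h = 4 * D * g` with
`g ∈ Zx` (`D = Df i x`), so for `n ≥ 1`, `theta n D = 4 D u` with `u ∈ Zx` (`theta_poly`, `map_Df`).  By `theta_mul` for
`δ * δ = D`: `2 δ theta n δ + ∑ (a, b ≥ 1) δ ^ 2 4 v_a v_b = 4 δ ^ 2 u`.  Cancel `2 δ`, a unit: `δ ^ 2 = D` divides the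
unit `h` (`isUnit_of_dvd_unit`), and `2` is the image of a unit of `ℂ`.
`theta_prim`: let `η` be the inverse of `h`, `e b = h * theta b η`.  From `theta_mul` for `h * η = 1`:
`e 0 = 1`, `e n = -∑ (a ≥ 1) (h ^ (a - 1) * hasse a h) * e (n - a)`, so `e n ∈ Zx` by strong induction.
If `h * d f = g` then `d f = g η` and
`(n + 1) theta (n + 1) f = h * theta n (g η) = ∑ theta a g * e b` (`Function.iterate_succ_apply`).
-/

set_option autoImplicit false

open Polynomial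

namespace Pool.Agent.CS5

variable {O : Type} [CommRing O] [Algebra ℂ O] (S : Sys O)

theorem d_aeval (q : ℤ[X]) : S.d (aeval S.x q) = aeval S.x (derivative q) := by
  have h := (S.d.restrictScalars ℤ).map_aeval q S.x
  rwa [Derivation.restrictScalars_apply, Derivation.restrictScalars_apply, S.dx, smul_eq_mul,
    mul_one] at h

theorem theta_zero (f : O) : theta S 0 f = f := by
  simp [theta]

theorem theta_add (n : ℕ) (f g : O) : theta S n (f + g) = theta S n f + theta S n g := by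
  rw [theta, theta, theta, iterate_map_add, mul_add, smul_add]

theorem theta_sum {α : Type} (s : Finset α) (n : ℕ) (f : α → O) :
    theta S n (∑ a ∈ s, f a) = ∑ a ∈ s, theta S n (f a) := by
  classical
  induction s using Finset.induction_on with
  | empty => simp [theta]
  | insert a s ha ih => rw [Finset.sum_insert ha, Finset.sum_insert ha, theta_add, ih]

theorem factorial_smul_theta (n : ℕ) (f : O) :
    n.factorial • theta S n f = hf S.x ^ n * (S.d : O → O)^[n] f := by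
  rw [theta, ← Nat.cast_smul_eq_nsmul ℂ, smul_smul,
    mul_inv_cancel₀ (Nat.cast_ne_zero.2 n.factorial_ne_zero), one_smul]

theorem Int1_cancel (n : ℕ) {a b : O} (h : n.factorial • a = n.factorial • b) : a = b := by
  rw [← Nat.cast_smul_eq_nsmul ℂ, ← Nat.cast_smul_eq_nsmul ℂ] at h
  exact smul_right_injective O (Nat.cast_ne_zero.2 n.factorial_ne_zero) h

theorem Int1_leibniz (n : ℕ) (f g : O) : (S.d : O → O)^[n] (f * g) =
    ∑ p ∈ Finset.HasAntidiagonal.antidiagonal n,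
      n.choose p.1 • ((S.d : O → O)^[p.1] f * (S.d : O → O)^[p.2] g) := by
  induction n with
  | zero => simp
  | succ n ih =>
    rw [Function.iterate_succ_apply', ih, map_sum, Finset.sum_antidiagonal_choose_succ_nsmul
      (fun i j => (S.d : O → O)^[i] f * (S.d : O → O)^[j] g), ← Finset.sum_add_distrib]
    refine Finset.sum_congr rfl fun p hp => ?_
    rw [← Nat.choose_symm_of_eq_add (Finset.HasAntidiagonal.mem_antidiagonal.1 hp).symm,
      map_nsmul, Derivation.leibniz, Function.iterate_succ_apply', Function.iterate_succ_apply',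
      smul_eq_mul, smul_eq_mul, smul_add, mul_comm ((S.d : O → O)^[p.2] g)]

theorem theta_mul (n : ℕ) (f g : O) :
    theta S n (f * g) = ∑ p ∈ Finset.HasAntidiagonal.antidiagonal n, theta S p.1 f * theta S p.2 g := by
  rw [theta, Int1_leibniz, Finset.mul_sum, Finset.smul_sum]
  refine Finset.sum_congr rfl fun p hp => ?_
  obtain rfl := Finset.HasAntidiagonal.mem_antidiagonal.1 hp
  have h1 : ((p.1 + p.2).factorial : ℂ) ≠ 0 := Nat.cast_ne_zero.2 (Nat.factorial_ne_zero _)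
  rw [theta, theta, smul_mul_smul_comm, mul_smul_comm, ← Nat.cast_smul_eq_nsmul ℂ, smul_smul,
    Nat.cast_add_choose, div_eq_mul_inv, inv_mul_cancel_left₀ h1, mul_inv]
  congr 1
  ring

theorem theta_poly (n : ℕ) (q : ℤ[X]) :
    theta S n (aeval S.x q) = hf S.x ^ n * aeval S.x (hasseDeriv n q) := by
  have h : ∀ m : ℕ, (S.d : O → O)^[m] (aeval S.x q) = aeval S.x (derivative^[m] q) := fun m => by
    induction m with
    | zero => rfl
    | succ m ih => rw [Function.iterate_succ_apply', ih, d_aeval, Function.iterate_succ_apply']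
  refine Int1_cancel n ?_
  rw [factorial_smul_theta, h, ← factorial_smul_hasseDeriv, LinearMap.smul_apply, map_nsmul,
    mul_smul_comm]

theorem theta_Zx (n : ℕ) {q : O} (hq : q ∈ Zx S) : theta S n q ∈ Zx S := by
  obtain ⟨p, rfl⟩ := (mem_Zx_iff S q).1 hq
  rw [theta_poly]
  exact mul_mem (pow_mem (hf_mem_Zx S) n) ((mem_Zx_iff S _).2 ⟨_, rfl⟩)

theorem theta_δ (n : ℕ) (i : Fin 3) : ∃ s ∈ Zx S, theta S n (S.δ i) = S.δ i * s := by
  rcases n with _ | n
  · exact ⟨1, one_mem _, by rw [theta_zero, mul_one]⟩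
  obtain ⟨g, hg⟩ : ∃ g : ℤ[X], hf (X : ℤ[X]) = 4 * Df i X * g := by
    fin_cases i
    · exact ⟨X * Df 1 X * Df 2 X * Qa X * Qb X, by simp only [hf, hX, Fin.zero_eta]; ring⟩
    · exact ⟨X * Df 0 X * Df 2 X * Qa X * Qb X, by simp only [hf, hX, Fin.mk_one]; ring⟩
    · exact ⟨X * Df 0 X * Df 1 X * Qa X * Qb X, by simp only [hf, hX, Fin.reduceFinMk]; ring⟩
  have h1 : hf S.x = 4 * (S.δ i * S.δ i) * aeval S.x g := by
    have := congrArg (aeval S.x) hg
    rwa [map_hf, map_mul, map_mul, map_Df, aeval_X, map_ofNat, ← S.sq, sq] at this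
  have hu : IsUnit (2 * S.δ i) := by
    refine isUnit_of_mul_isUnit_left (y := 2 * S.δ i * aeval S.x g) ?_
    convert S.unit using 1
    rw [h1]
    ring
  have key : ∀ m : ℕ, ∃ v ∈ Zx S, theta S (m + 1) (S.δ i) = S.δ i * (2 * v) := fun m => by
    induction m using Nat.strong_induction_on with
    | _ m ih =>
      have h2 := theta_mul S (m + 1) (S.δ i) (S.δ i)
      have h3 := theta_poly S (m + 1) (Df i X)
      rw [map_Df, aeval_X, ← S.sq, sq, h2, Finset.Nat.sum_antidiagonal_succ, theta_zero] at h3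
      obtain ⟨w, hw, h4⟩ : ∃ w ∈ Zx S, ∑ p ∈ Finset.HasAntidiagonal.antidiagonal m,
          theta S (p.1 + 1) (S.δ i) * theta S p.2 (S.δ i) =
            theta S (m + 1) (S.δ i) * S.δ i + 4 * (S.δ i * S.δ i) * w := by
        rcases m with _ | m
        · exact ⟨0, zero_mem _, by simp [theta_zero]⟩
        · rw [Finset.Nat.sum_antidiagonal_succ', theta_zero]
          simp only [add_right_inj]
          refine Finset.sum_induction _ (fun t => ∃ w ∈ Zx S, t = 4 * (S.δ i * S.δ i) * w) ?_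
            ⟨0, zero_mem _, by simp⟩ fun p hp => ?_
          · rintro _ _ ⟨a, ha, rfl⟩ ⟨b, hb, rfl⟩
            exact ⟨a + b, add_mem ha hb, by ring⟩
          · have := Finset.HasAntidiagonal.mem_antidiagonal.1 hp
            obtain ⟨a, ha, e1⟩ := ih p.1 (by omega)
            obtain ⟨b, hb, e2⟩ := ih p.2 (by omega)
            exact ⟨a * b, mul_mem ha hb, by rw [e1, e2]; ring⟩
      refine ⟨aeval S.x g * (hf S.x ^ m * aeval S.x (hasseDeriv (m + 1) (Df i X : ℤ[X]))) - w,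
        sub_mem (mul_mem ((mem_Zx_iff S _).2 ⟨_, rfl⟩) (mul_mem (pow_mem (hf_mem_Zx S) m)
          ((mem_Zx_iff S _).2 ⟨_, rfl⟩))) hw, hu.mul_left_cancel ?_⟩
      rw [h4, pow_succ] at h3
      linear_combination h3 +
        hf S.x ^ m * aeval S.x (hasseDeriv (m + 1) (Df i X : ℤ[X])) * h1
  obtain ⟨v, hv, e⟩ := key n
  exact ⟨2 * v, mul_mem (ofNat_mem _ 2) hv, e⟩

theorem theta_prim : ∃ e : ℕ → O, (∀ b, e b ∈ Zx S) ∧ ∀ (f g : O) (n : ℕ), hf S.x * S.d f = g →
    (n + 1) • theta S (n + 1) f = ∑ p ∈ Finset.HasAntidiagonal.antidiagonal n, theta S p.1 g * e p.2 := by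
  obtain ⟨η, hη⟩ := S.unit.exists_right_inv
  refine ⟨fun b => hf S.x * theta S b η, fun b => ?_, fun f g n hg => ?_⟩
  · beta_reduce
    induction b using Nat.strong_induction_on with
    | _ b ih =>
      rcases b with _ | b
      · rw [theta_zero, hη]
        exact one_mem _
      have h1 := theta_mul S (b + 1) (hf S.x) η
      have h2 := theta_poly S (b + 1) 1
      rw [map_one, hasseDeriv_apply_one _ b.succ_pos, map_zero, mul_zero] at h2
      rw [hη, h2, Finset.Nat.sum_antidiagonal_succ, theta_zero] at h1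
      rw [eq_neg_of_add_eq_zero_left h1.symm]
      refine neg_mem (sum_mem fun p hp => ?_)
      have h3 := theta_poly S (p.1 + 1) (hf X)
      rw [map_hf, aeval_X] at h3
      have h4 := Finset.HasAntidiagonal.mem_antidiagonal.1 hp
      have h5 := mul_mem (mul_mem (pow_mem (hf_mem_Zx S) p.1) ((mem_Zx_iff S _).2
        ⟨hasseDeriv (p.1 + 1) (hf X), rfl⟩)) (ih p.2 (by omega))
      convert h5 using 1
      rw [h3]
      ring
  · have h1 : S.d f = g * η := by rw [← hg, mul_right_comm, hη, one_mul]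
    have h2 : (n + 1) • theta S (n + 1) f = hf S.x * theta S n (S.d f) := by
      refine Int1_cancel n ?_
      rw [smul_smul, mul_comm, ← Nat.factorial_succ, factorial_smul_theta, ← mul_smul_comm,
        factorial_smul_theta, Function.iterate_succ_apply, pow_succ', mul_assoc]
    rw [h2, h1, theta_mul, Finset.mul_sum]
    exact Finset.sum_congr rfl fun p _ => mul_left_comm _ _ _

end Pool.Agent.CS5
end

-- merged part: Pool.Agent.Work.MP_8f8a35_gt.Int2
section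
/-!
Arithmetic of the denominators `Den r n`.

Plan.  `lcmUpto_mono`: `Finset.lcm_mono`.  `Den_step`: if `a = 0` use `lcmUpto 0 = 1` and `Den_mono`.  Else let
`i0 = min (r + 1) (n / a) ≥ 1`.  Match the factor `a` with `n / i0` (`a ≤ n / i0` as `a * i0 ≤ n`), the factor
`b / i` with `n / i` for `i < i0`, and `b / i` with `n / (i + 1)` for `i0 ≤ i ≤ r` (then `i0 = n / a`, so
`n < a (i + 1)`, hence `b (i + 1) ≤ n i`, and `(b / i) (i + 1) i ≤ b (i + 1) ≤ n i` gives `b / i ≤ n / (i + 1)` by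
`Nat.le_div_iff_mul_le`).  Split `Icc 1 r = Ico 1 i0 ∪ Icc i0 r` and `Icc 1 (r + 1) = Ico 1 i0 ∪ {i0} ∪ Icc (i0 + 1) (r + 1)`.
`Den_le_exp`: `log (lcmUpto n) = ψ n ≤ (log 4 + 4) n` (`Chebyshev.psi_eq_log_lcmUpto`,
`Chebyshev.psi_le_const_mul_self`), `T / i ≤ T * (1 / i)`, and `∑ i ∈ Icc 1 w, 1 / i ≤ 1 + log w`
(`harmonic_le_one_add_log`).
-/

set_option autoImplicit false

namespace Pool.Agent.CS5

theorem lcmUpto_mono {a b : ℕ} (h : a ≤ b) : Nat.lcmUpto a ∣ Nat.lcmUpto b :=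
  Finset.lcm_mono (Finset.Icc_subset_Icc_right h)

theorem dvd_lcmUpto {a b : ℕ} (h0 : 1 ≤ a) (h : a ≤ b) : a ∣ Nat.lcmUpto b :=
  Finset.dvd_lcm (f := id) (Finset.mem_Icc.2 ⟨h0, h⟩)

theorem Den_pos (r n : ℕ) : 0 < Den r n :=
  Finset.prod_pos fun _ _ => pow_pos (Nat.lcmUpto_pos _) 3

theorem Den_zero (n : ℕ) : Den 0 n = 1 := by
  simp [Den]

theorem Den_mono {r r' n n' : ℕ} (hr : r ≤ r') (hn : n ≤ n') : Den r n ∣ Den r' n' :=
  (Finset.prod_dvd_prod_of_dvd _ _ fun _ _ =>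
    pow_dvd_pow_of_dvd (lcmUpto_mono (Nat.div_le_div_right hn)) 3).trans
    (Finset.prod_dvd_prod_of_subset _ _ _ (Finset.Icc_subset_Icc_right hr))

theorem Int2_succ (r n : ℕ) : Den (r + 1) n = Den r n * Nat.lcmUpto (n / (r + 1)) ^ 3 :=
  Finset.prod_Icc_succ_top (Nat.le_add_left 1 r) _

theorem Den_step (r a b : ℕ) : Nat.lcmUpto a ^ 3 * Den r b ∣ Den (r + 1) (a + b) := by
  induction r with
  | zero =>
    rw [Int2_succ, Den_zero, Den_zero, mul_one, one_mul]
    exact pow_dvd_pow_of_dvd (lcmUpto_mono (by simp)) 3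
  | succ r ih =>
    rw [Int2_succ (r + 1)]
    by_cases h : b / (r + 1) ≤ (a + b) / (r + 1 + 1)
    · rw [Int2_succ r b, ← mul_assoc]
      exact mul_dvd_mul ih (pow_dvd_pow_of_dvd (lcmUpto_mono h) 3)
    · have h1 : ((a + b) / (r + 1 + 1) + 1) * (r + 1) ≤ b :=
        (Nat.le_div_iff_mul_le (Nat.succ_pos r)).1 (not_le.1 h)
      have h2 : a + b < ((a + b) / (r + 1 + 1) + 1) * (r + 1 + 1) :=
        (Nat.div_lt_iff_lt_mul (Nat.succ_pos _)).1 (Nat.lt_succ_self _)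
      have h3 : a ≤ (a + b) / (r + 1 + 1) := by
        rw [mul_add _ (r + 1) 1, mul_one] at h2
        omega
      rw [mul_comm]
      exact mul_dvd_mul (Den_mono le_rfl (Nat.le_add_left _ _))
        (pow_dvd_pow_of_dvd (lcmUpto_mono h3) 3)

theorem Den_le_exp : ∃ C : ℝ, 0 ≤ C ∧ ∀ w T : ℕ,
    (Den w T : ℝ) ≤ Real.exp (C * (1 + Real.log w) * T) := by
  have hc : 0 ≤ Real.log 4 + 4 := by positivity
  refine ⟨3 * (Real.log 4 + 4), by positivity, fun w T => ?_⟩
  have h1 : ∀ i ∈ Finset.Icc 1 w, ((Nat.lcmUpto (T / i) ^ 3 : ℕ) : ℝ) ≤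
      Real.exp (3 * (Real.log 4 + 4) * T * (i : ℝ)⁻¹) := by
    intro i _
    have h2 := Chebyshev.psi_le_const_mul_self (x := ((T / i : ℕ) : ℝ)) (Nat.cast_nonneg _)
    rw [Chebyshev.psi_eq_log_lcmUpto] at h2
    have h3 : ((T / i : ℕ) : ℝ) ≤ T * (i : ℝ)⁻¹ := by
      rw [← div_eq_mul_inv]
      exact Nat.cast_div_le
    have h4 : (0 : ℝ) < Nat.lcmUpto (T / i) := by exact_mod_cast Nat.lcmUpto_pos _
    rw [Nat.cast_pow, ← Real.exp_log (pow_pos h4 3), Real.log_pow]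
    refine Real.exp_le_exp.2 ?_
    have := mul_le_mul_of_nonneg_left h3 hc
    push_cast
    linarith only [h2, this]
  have h5 := harmonic_le_one_add_log w
  simp only [harmonic_eq_sum_Icc, Rat.cast_sum, Rat.cast_inv, Rat.cast_natCast] at h5
  rw [Den, Nat.cast_prod]
  refine (Finset.prod_le_prod (fun _ _ => Nat.cast_nonneg _) h1).trans ?_
  rw [← Real.exp_sum, ← Finset.mul_sum]
  refine Real.exp_le_exp.2 ?_
  have := mul_le_mul_of_nonneg_left h5 (show 0 ≤ 3 * (Real.log 4 + 4) * T by positivity)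
  linarith only [this]

end Pool.Agent.CS5
end

-- merged part: Pool.Agent.Work.MP_8f8a35_gt.Int3
section
/-!
Integrality of the divided derivatives of the basis.

Plan.  Write `L n = lcmUpto n`.  For `n = 0` use `theta_zero`, `y_mem_Lat`.  For `n + 1` use `theta_prim` with `S.dy`.
Weight one (`j = 0, 1, 2, 3`): `g = hX x` or `pf i x * δ i`; `theta a g ∈ Lat 0` (`theta_mul`, `theta_Zx`, `theta_δ`),
so `(n + 1) • theta (n + 1) (y j) ∈ Lat 0` and `L n • theta n (y j) ∈ Lat 1` for all `n` (`dvd_lcmUpto`).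
Weight two: `g = hX x * y j'`; `L (n + 1) • theta a g ∈ Lat 1` for `a ≤ n` (`lcmUpto_mono`), so
`L n ^ 2 • theta n (y j) ∈ Lat 2`.  Weight three: `g = hX x * (y 1 * y j')`, `L (n + 1) ^ 2 • theta a g ∈ Lat 2`.
A useful lemma: if `c ∣ c'` and `c • f ∈ Lat w` then `c' • f ∈ Lat w`.
`theta_prod_y`: induction on the list with `theta_mul`, `Den_step`, `mul_mem_Lat`.
`theta_bas`: `∏ j, y j ^ α j` is the product of a list of length `∑ j, α j ≤ wsum α` and weight `wsum α`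
(or induct on `∑ j, α j` directly); `theta a (∏ i ∈ I, δ i) ∈ Lat 0` by induction on `I`; `Den_mono`.
-/

set_option autoImplicit false

open Polynomial

namespace Pool.Agent.CS5

variable {O : Type} [CommRing O] [Algebra ℂ O] (S : Sys O)

theorem Int3_dvd {c c' w : ℕ} {f : O} (h : c ∣ c') (hf : c • f ∈ Lat S w) : c' • f ∈ Lat S w := by
  obtain ⟨m, rfl⟩ := h
  rw [mul_comm, mul_smul]
  exact nsmul_mem hf m

/-- The divided derivatives of `f` have denominators dividing the `k`-th power of the lcm. -/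
structure Int3_P (f : O) (k w : ℕ) : Prop where
  mem : ∀ n N, n ≤ N → (Nat.lcmUpto N ^ k) • theta S n f ∈ Lat S w

theorem Int3_mul {f g : O} {k k' w w' : ℕ} (hf : Int3_P S f k w) (hg : Int3_P S g k' w') :
    Int3_P S (f * g) (k + k') (w + w') := by
  refine ⟨fun n N hn => ?_⟩
  rw [theta_mul, Finset.smul_sum]
  refine Submodule.sum_mem _ fun p hp => ?_
  have := Finset.HasAntidiagonal.mem_antidiagonal.1 hp
  rw [pow_add, ← smul_mul_smul_comm]
  exact mul_mem_Lat S (hf.mem _ _ (by omega)) (hg.mem _ _ (by omega))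

theorem Int3_Zx {q : O} (hq : q ∈ Zx S) : Int3_P S q 0 0 := by
  refine ⟨fun n N _ => ?_⟩
  rw [pow_zero, one_smul]
  exact mem_Lat_of_Zx S (theta_Zx S n hq) 0

theorem Int3_δ (i : Fin 3) : Int3_P S (S.δ i) 0 0 := by
  refine ⟨fun n N _ => ?_⟩
  obtain ⟨s, hs, e⟩ := theta_δ S n i
  rw [pow_zero, one_smul, e, mul_comm]
  exact Zx_mul_mem S hs (δ_mem_Lat S i)

theorem Int3_prim {f g : O} {k w w' : ℕ} (h : hf S.x * S.d f = g) (hg : Int3_P S g k w)
    (hw : w ≤ w') (hf' : f ∈ Lat S w') : Int3_P S f (k + 1) w' := by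
  refine ⟨fun n N hn => ?_⟩
  rcases n with _ | n
  · rw [theta_zero]
    exact nsmul_mem hf' _
  obtain ⟨e, he, key⟩ := theta_prim S
  refine Int3_dvd S (c := Nat.lcmUpto N ^ k * (n + 1))
    (pow_succ (Nat.lcmUpto N) k ▸ Nat.mul_dvd_mul_left _ (dvd_lcmUpto (by omega) hn)) ?_
  rw [mul_smul, key f g n h, Finset.smul_sum]
  refine Lat_mono S hw (Submodule.sum_mem _ fun p hp => ?_)
  have := Finset.HasAntidiagonal.mem_antidiagonal.1 hp
  rw [← smul_mul_assoc, mul_comm]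
  exact Zx_mul_mem S (he _) (hg.mem _ _ (by omega))

theorem Int3_y (j : Fin 9) : Int3_P S (S.y j) (wt j) (wt j) := by
  have hx := Int3_Zx S (hX_mem_Zx S)
  have h1 : ∀ i : Fin 3, Int3_P S (pf i S.x * S.δ i) 0 0 := fun i =>
    Int3_mul S (Int3_Zx S (pf_mem_Zx S i)) (Int3_δ S i)
  have pr : ∀ (j : Fin 9) (g : O) (k w : ℕ), rhs S.x S.δ S.y j = g → Int3_P S g k k →
      wt j = k + 1 → Int3_P S (S.y j) (wt j) (wt j) := fun j g k w e hg hk => by
    have := Int3_prim S ((S.dy j).trans e) hg (by omega) (y_mem_Lat S j)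
    rwa [← hk] at this
  have y0 := pr 0 _ 0 0 rfl hx rfl
  have y1 := pr 1 _ 0 0 rfl (h1 0) rfl
  have y2 := pr 2 _ 0 0 rfl (h1 1) rfl
  have y3 := pr 3 _ 0 0 rfl (h1 2) rfl
  have y4 := pr 4 _ 1 1 rfl (Int3_mul S hx y1) rfl
  have y5 := pr 5 _ 1 1 rfl (Int3_mul S hx y2) rfl
  have y6 := pr 6 _ 1 1 rfl (Int3_mul S hx y3) rfl
  have y7 := pr 7 _ 2 2 rfl (Int3_mul S hx (Int3_mul S y1 y2)) rfl
  have y8 := pr 8 _ 2 2 rfl (Int3_mul S hx (Int3_mul S y1 y3)) rfl
  fin_cases j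
  exacts [y0, y1, y2, y3, y4, y5, y6, y7, y8]

theorem theta_y (n : ℕ) (j : Fin 9) :
    (Nat.lcmUpto n ^ 3) • theta S n (S.y j) ∈ Lat S (wt j) := by
  refine Int3_dvd S (pow_dvd_pow _ ?_) ((Int3_y S j).mem n n le_rfl)
  fin_cases j <;> decide

theorem theta_prod_y (l : List (Fin 9)) (n : ℕ) :
    Den l.length n • theta S n (l.map S.y).prod ∈ Lat S (l.map wt).sum := by
  induction l generalizing n with
  | nil =>
    simp only [List.map_nil, List.prod_nil]
    exact nsmul_mem (mem_Lat_of_Zx S (theta_Zx S n (one_mem _)) _) _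
  | cons j l ih =>
    simp only [List.map_cons, List.prod_cons, List.sum_cons, List.length_cons]
    rw [theta_mul, Finset.smul_sum]
    refine Submodule.sum_mem _ fun p hp => ?_
    rw [← Finset.HasAntidiagonal.mem_antidiagonal.1 hp]
    refine Int3_dvd S (Den_step l.length p.1 p.2) ?_
    rw [← smul_mul_smul_comm]
    exact mul_mem_Lat S (theta_y S _ j) (ih _)

theorem Int3_list (α : Fin 9 → ℕ) : ∃ l : List (Fin 9), l.length = ∑ j, α j ∧
    (l.map S.y).prod = ∏ j, S.y j ^ α j ∧ (l.map wt).sum = wsum α := by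
  refine ⟨(List.finRange 9).flatMap fun j => List.replicate (α j) j, ?_, ?_, ?_⟩
  · simp [List.finRange, Fin.sum_univ_succ]
  · simp [List.finRange, Fin.prod_univ_succ]
  · simp [List.finRange, Fin.sum_univ_succ, wsum, mul_comm]

theorem Int3_δs (I : Finset (Fin 3)) : Int3_P S (∏ i ∈ I, S.δ i) 0 0 := by
  induction I using Finset.induction_on with
  | empty =>
    rw [Finset.prod_empty]
    exact Int3_Zx S (one_mem _)
  | insert i I hi ih =>
    rw [Finset.prod_insert hi]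
    exact Int3_mul S (Int3_δ S i) ih

theorem theta_bas (w T n : ℕ) (hn : n ≤ T) (i : Idx w) :
    Den w T • theta S n (S.b i) ∈ Lat S w := by
  obtain ⟨l, h1, h2, h3⟩ := Int3_list S i.2.1
  have hw := mem_Ex.1 i.2.2
  rw [Sys.b, bas, ← h2, theta_mul, Finset.smul_sum]
  refine Submodule.sum_mem _ fun p hp => ?_
  have := Finset.HasAntidiagonal.mem_antidiagonal.1 hp
  have h4 := (Int3_δs S i.1).mem p.1 p.1 le_rfl
  rw [pow_zero, one_smul] at h4
  rw [← mul_smul_comm]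
  refine Lat_mono S (by omega : 0 + wsum i.2.1 ≤ w) (mul_mem_Lat S h4 ?_)
  exact Int3_dvd S (Den_mono (h1 ▸ (sum_le_wsum _).trans hw) (by omega))
    (h3 ▸ theta_prod_y S l p.2)

end Pool.Agent.CS5
end

-- merged part: Pool.Agent.Work.MP_8f8a35_gt.Int4
section
/-!
Denominators for the vectors `Hs`.

Plan.  `Sys.Hs_eq`: induction on `n`; apply `h * d` to the identity, use `d_aeval`, `hA`, `map_hf`,
`d (h ^ n) = n h ^ (n - 1) h'` (multiply by `h` first), `Function.iterate_succ_apply'`, `Finset.sum_comm`.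
`Sys.den`: `Den w T • theta n (∑ i, aeval x (P i) * b i) ∈ Lat w` by `theta_sum`, `theta_mul`, `theta_Zx`,
`theta_bas`, `Zx_mul_mem`; `Lat_repr` gives `Q`; multiply by `n!` (`factorial_smul_theta`), and apply
`Sys.indep` to `n! • Q - Den • Hs`.
-/

set_option autoImplicit false

open Polynomial

namespace Pool.Agent.CS5

variable {O : Type} [CommRing O] [Algebra ℂ O] (S : Sys O)

theorem Int4_hf : aeval S.x (hf (X : ℤ[X])) = hf S.x := by
  rw [map_hf, aeval_X]

theorem Int4_nab {w : ℕ} (A : Idx w → Idx w → ℤ[X])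
    (hA : ∀ i, hf S.x * S.d (S.b i) = ∑ j, aeval S.x (A i j) * S.b j) (Q : Idx w → ℤ[X]) :
    hf S.x * S.d (∑ i, aeval S.x (Q i) * S.b i)
      = ∑ i, aeval S.x (nab (hf X) A Q i) * S.b i := by
  have h1 : ∀ i, hf S.x * S.d (aeval S.x (Q i) * S.b i)
      = hf S.x * aeval S.x (derivative (Q i)) * S.b i
        + ∑ j, aeval S.x (Q i) * aeval S.x (A i j) * S.b j := by
    intro i
    have h2 : ∑ j, aeval S.x (Q i) * aeval S.x (A i j) * S.b j
        = aeval S.x (Q i) * (hf S.x * S.d (S.b i)) := by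
      rw [hA i, Finset.mul_sum]
      exact Finset.sum_congr rfl fun j _ => mul_assoc _ _ _
    rw [h2, Derivation.leibniz, d_aeval, smul_eq_mul, smul_eq_mul]
    ring
  rw [map_sum, Finset.mul_sum, Finset.sum_congr rfl fun i _ => h1 i, Finset.sum_add_distrib,
    Finset.sum_comm, ← Finset.sum_add_distrib]
  refine Finset.sum_congr rfl fun i _ => ?_
  simp only [nab, map_add, map_mul, map_sum, Int4_hf, add_mul, Finset.sum_mul]

theorem Int4_pow (a : O) (n : ℕ) : a * S.d (a ^ n) = (n : O) * S.d a * a ^ n := by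
  induction n with
  | zero => simp
  | succ n ih =>
    rw [pow_succ, Derivation.leibniz, smul_eq_mul, smul_eq_mul]
    push_cast
    linear_combination a * ih

theorem Sys.Hs_eq {w : ℕ} (A : Idx w → Idx w → ℤ[X])
    (hA : ∀ i, hf S.x * S.d (S.b i) = ∑ j, aeval S.x (A i j) * S.b j) (P : Idx w → ℤ[X]) (n : ℕ) :
    hf S.x ^ n * (S.d : O → O)^[n] (∑ i, aeval S.x (P i) * S.b i)
      = ∑ i, aeval S.x (Hs (hf X) A P n i) * S.b i := by
  induction n with
  | zero => simp [Hs]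
  | succ n ih =>
    have h1 := Int4_nab S A hA (Hs (hf X) A P n)
    rw [← ih, Derivation.leibniz, smul_eq_mul, smul_eq_mul] at h1
    have h2 := Int4_pow S (hf S.x) n
    have h3 : S.d (hf S.x) = aeval S.x (derivative (hf (X : ℤ[X]))) := by
      rw [← d_aeval, Int4_hf]
    have h4 : ∑ i, aeval S.x (Hs (hf X) A P (n + 1) i) * S.b i
        = ∑ i, aeval S.x (nab (hf X) A (Hs (hf X) A P n) i) * S.b i
          - (n : O) * S.d (hf S.x) * ∑ i, aeval S.x (Hs (hf X) A P n i) * S.b i := by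
      rw [Finset.mul_sum, ← Finset.sum_sub_distrib]
      refine Finset.sum_congr rfl fun i _ => ?_
      simp only [Hs, map_sub, map_mul, map_natCast, h3]
      ring
    rw [h4, ← h1, ← ih, Function.iterate_succ_apply']
    linear_combination (-((S.d : O → O)^[n] (∑ i, aeval S.x (P i) * S.b i))) * h2

theorem Sys.den {w : ℕ} (A : Idx w → Idx w → ℤ[X])
    (hA : ∀ i, hf S.x * S.d (S.b i) = ∑ j, aeval S.x (A i j) * S.b j) (T n : ℕ) (hn : n ≤ T)
    (P : Idx w → ℤ[X]) :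
    ∃ Q : Idx w → ℤ[X], (n.factorial : ℤ) • Q = (Den w T : ℤ) • Hs (hf X) A P n := by
  have h1 : Den w T • theta S n (∑ i, aeval S.x (P i) * S.b i) ∈ Lat S w := by
    rw [theta_sum, Finset.smul_sum]
    refine Submodule.sum_mem _ fun i _ => ?_
    rw [theta_mul, Finset.smul_sum]
    refine Submodule.sum_mem _ fun p hp => ?_
    have hp' : p.1 + p.2 = n := Finset.HasAntidiagonal.mem_antidiagonal.mp hp
    rw [← mul_smul_comm]
    exact Zx_mul_mem S (theta_Zx S p.1 ((mem_Zx_iff S _).2 ⟨P i, rfl⟩))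
      (theta_bas S w T p.2 (by omega) i)
  obtain ⟨Q, hQ⟩ := Lat_repr S h1
  refine ⟨Q, sub_eq_zero.mp (S.indep w _ ?_)⟩
  have h2 := factorial_smul_theta S n (∑ i, aeval S.x (P i) * S.b i)
  rw [S.Hs_eq A hA P n] at h2
  have h3 : ∑ i, aeval S.x (((n.factorial : ℤ) • Q - (Den w T : ℤ) • Hs (hf X) A P n) i) * S.b i
      = n.factorial • ∑ i, aeval S.x (Q i) * S.b i
        - Den w T • ∑ i, aeval S.x (Hs (hf X) A P n i) * S.b i := by
    rw [Finset.smul_sum, Finset.smul_sum, ← Finset.sum_sub_distrib]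
    refine Finset.sum_congr rfl fun i _ => ?_
    rw [Pi.sub_apply, Pi.smul_apply, Pi.smul_apply, map_sub, map_zsmul, map_zsmul, natCast_zsmul,
      natCast_zsmul, nsmul_eq_mul, nsmul_eq_mul, nsmul_eq_mul, nsmul_eq_mul]
    ring
  rw [h3, ← hQ, ← h2, smul_comm, sub_self]

end Pool.Agent.CS5
end

-- merged part: Pool.Agent.Work.MP_8f8a35_gt.Bridge
section
/-!
The data of the linear system for holomorphic functions.

Plan.  `differentiableOn_fb`: finite products and powers.  `fsys_data`: take `O, S, ev` from `exists_sys`, `A` from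
`Sys.exists_matrix`.  `ev z (S.b i) = fb δ y i z` (`map_bas`), `ev z (aeval S.x q) = aeval z q` for `q : ℤ[X]`
(`Polynomial.aeval_algHom_apply` for `(ev z).toRingHom.toIntAlgHom`, or `Polynomial.hom_eval₂` and
`RingHom.ext_int`), `aeval z (hf X) = hf z` (`map_hf`).  Apply `ev z` to the identities; use `Sys.indep`, `Sys.den`.
-/

set_option autoImplicit false

open Polynomial

namespace Pool.Agent.CS5

theorem differentiableOn_fb {U : Set ℂ} {δ : Fin 3 → ℂ → ℂ} {y : Fin 9 → ℂ → ℂ} (hS : FSys U δ y)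
    {w : ℕ} (i : Idx w) : DifferentiableOn ℂ (fb δ y i) U := by
  unfold fb bas
  exact (DifferentiableOn.fun_finsetProd fun a _ => hS.dδ a).mul
    (DifferentiableOn.fun_finsetProd fun j _ => (hS.dy j).pow _)

theorem fsys_data {U : Set ℂ} (hU : IsOpen U) (hne : U.Nonempty) {δ : Fin 3 → ℂ → ℂ}
    {y : Fin 9 → ℂ → ℂ} (hS : FSys U δ y) (w : ℕ) :
    ∃ A : Idx w → Idx w → ℤ[X], (∀ i j, (A i j).natDegree ≤ 11) ∧
      (∀ i, ∀ z ∈ U, aeval z (hf (X : ℤ[X])) * deriv (fb δ y i) z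
        = ∑ j, aeval z (A i j) * fb δ y j z) ∧
      (∀ P : Idx w → ℤ[X], (∀ z ∈ U, pair P z (fun i => fb δ y i z) = 0) → P = 0) ∧
      ∀ T n : ℕ, n ≤ T → ∀ P : Idx w → ℤ[X],
        ∃ Q : Idx w → ℤ[X], (n.factorial : ℤ) • Q = (Den w T : ℤ) • Hs (hf X) A P n := by
  obtain ⟨O, _, _, S, ev, hx, hδ, hy, hinj, hd⟩ := exists_sys hU hne hS
  obtain ⟨A, hA, hA'⟩ := S.exists_matrix w
  have hb : ∀ (z : U) (i : Idx w), ev z (S.b i) = fb δ y i z := fun z i => by
    rw [Sys.b, map_bas]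
    simp only [hδ, hy]
    rfl
  have ha : ∀ (z : U) (q : ℤ[X]), ev z (aeval S.x q) = aeval (z : ℂ) q := fun z q => by
    rw [← hx z]
    exact (aeval_algHom_apply (ev z).toRingHom.toIntAlgHom S.x q).symm
  have hs : ∀ (z : U) (P : Idx w → ℤ[X]),
      ev z (∑ i, aeval S.x (P i) * S.b i) = ∑ i, aeval (z : ℂ) (P i) * fb δ y i z := fun z P => by
    simp only [map_sum, map_mul, ha, hb]
  refine ⟨A, hA, fun i z hz => ?_, fun P hP => S.indep w P (hinj _ fun z => ?_), S.den A hA'⟩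
  · have := congrArg (ev ⟨z, hz⟩) (hA' i)
    rw [hs, map_mul, map_hf, hx, hd _ _ fun z => hb z i] at this
    rw [map_hf, aeval_X]
    exact this
  · rw [hs]
    exact hP z z.2

end Pool.Agent.CS5
end

-- merged part: Pool.Agent.Work.MP_8f8a35_gt.VolB
section
/-!
Fubini: the Gaussian measure of the cone is `Gf`.

Plan.  Transport the integral to `((ℝ × ℝ) × (ℝ × ℝ)) × (ℝ × ℝ)` by a volume preserving measurable equivalence
`e` with `e x = (((x 0, x 1), (x 2, x 3)), (x 4, x 5))` (compose `PiLp.volume_preserving_ofLp` or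
`EuclideanSpace.volume_preserving_measurableEquiv`, `volume_preserving_piFinSuccAbove`,
`volume_preserving_finTwoArrow`, `volume_measurePreserving_sumPiEquivProdPi`, `piCongrLeft`,
`MeasurePreserving.prod`, `measurePreserving_prodAssoc`; alternatively show that the pushforward agrees on
boxes with `Measure.pi_eq`).  Write set integrals as integrals of indicators; the integrand is
dominated by the integrable Gaussian, or work with `lintegral` and `lintegral_prod` (all functions are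
nonnegative) and convert with `integral_eq_lintegral_of_nonneg_ae`.  The six conditions read
`0 ≤ x 1`, `0 ≤ x 0 + (γ / σ) x 1`, the same for `x 2, x 3`, `-m1 ≤ x 4` with `m1 = (s x 0 + s' x 2) / σ0`, and
`-((m2 + c0 x 4) / √(1 - c0 ^ 2)) ≤ x 5` with `m2 = (s x 0 - s' x 2) / σ0` (`Fin.forall_fin_succ`,
`PiLp.inner_apply`, `Fin.sum_univ_six`, `EuclideanSpace.norm_sq_eq`).
-/

set_option autoImplicit false

open MeasureTheory

namespace Pool.Agent.CS5

theorem VolB_one (n : ℕ) : MeasurePreserving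
    (fun x : Fin (n + 1) → ℝ => (x 0, fun i : Fin n => x i.succ)) volume volume := by
  have h := volume_preserving_piFinSuccAbove (fun _ : Fin (n + 1) => ℝ) 0
  simp only [MeasurableEquiv.piFinSuccAbove, Fin.insertNthEquiv_zero] at h
  exact h

theorem VolB_two (n : ℕ) : MeasurePreserving
    (fun x : Fin (n + 2) → ℝ => ((x 0, x 1), fun i : Fin n => x i.succ.succ)) volume volume :=
  volume_preserving_prodAssoc.symm.comp
    (((MeasurePreserving.id volume).prod (VolB_one n)).comp (VolB_one (n + 1)))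

theorem VolB_six : MeasurePreserving (fun x : EuclideanSpace ℝ (Fin 6) =>
    (((x 0, x 1), (x 2, x 3)), (x 4, x 5))) volume volume :=
  volume_preserving_prodAssoc.symm.comp (((MeasurePreserving.id volume).prod
    (((MeasurePreserving.id volume).prod (volume_preserving_finTwoArrow ℝ)).comp
      (VolB_two 2))).comp ((VolB_two 4).comp (PiLp.volume_preserving_ofLp (Fin 6))))

theorem VolB_fub {α β : Type} [MeasureSpace α] [MeasureSpace β] [SFinite (volume : Measure α)]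
    [SFinite (volume : Measure β)] {A : Set α} (hA : MeasurableSet A) {T : α → Set β}
    (hT : MeasurableSet {z : α × β | z.2 ∈ T z.1}) {f : α → ℝ} {g : β → ℝ} (hf : Integrable f)
    (hg : Integrable g) :
    ∫ z in {z : α × β | z.1 ∈ A ∧ z.2 ∈ T z.1}, f z.1 * g z.2 = ∫ a in A, f a * ∫ b in T a, g b := by
  have hS : MeasurableSet {z : α × β | z.1 ∈ A ∧ z.2 ∈ T z.1} := (measurable_fst hA).inter hT
  rw [← integral_indicator hS, ← integral_indicator hA]
  refine (integral_prod _ ((hf.mul_prod hg).indicator hS)).trans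
    (integral_congr_ae (Filter.Eventually.of_forall fun a => ?_))
  have h1 : MeasurableSet (T a) := measurable_prodMk_left hT
  by_cases ha : a ∈ A
  · simp only [Set.indicator_of_mem ha, ← integral_indicator h1, ← integral_const_mul]
    refine integral_congr_ae (Filter.Eventually.of_forall fun b => ?_)
    by_cases hb : b ∈ T a <;> simp [Set.indicator, ha, hb]
  · simp [Set.indicator, ha]

theorem VolB_int : Integrable fun x : ℝ => Real.exp (-x ^ 2) := by
  simpa using integrable_exp_neg_mul_sq one_pos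

theorem VolB_int2 : Integrable fun z : ℝ × ℝ => Real.exp (-z.1 ^ 2) * Real.exp (-z.2 ^ 2) :=
  VolB_int.mul_prod VolB_int

theorem VolB_K (m1 m2 c : ℝ) :
    ∫ z in {z : ℝ × ℝ | -m1 ≤ z.1 ∧ -((m2 + c * z.1) / √(1 - c ^ 2)) ≤ z.2},
      Real.exp (-z.1 ^ 2) * Real.exp (-z.2 ^ 2) = Kf m1 m2 c :=
  VolB_fub (T := fun u => Set.Ici (-((m2 + c * u) / √(1 - c ^ 2)))) measurableSet_Ici
    (measurableSet_le (by fun_prop) measurable_snd) VolB_int VolB_int

theorem VolB_blk (c : ℝ) : MeasurableSet (Blk c) :=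
  (measurableSet_le measurable_const measurable_snd).inter
    (measurableSet_le (g := fun z : ℝ × ℝ => z.1 + c * z.2) measurable_const (by fun_prop))

theorem cone_eq_Gf (s σ γ s' σ' γ' σ0 c0 : ℝ) (hσ : 0 < σ) (hσ' : 0 < σ') (hσ0 : 0 < σ0)
    (hc0 : c0 ^ 2 < 1) :
    (∫ x in {x : EuclideanSpace ℝ (Fin 6) | ∀ i, 0 ≤ inner ℝ (nvec s σ γ s' σ' γ' σ0 c0 i) x},
      Real.exp (-‖x‖ ^ 2)) = Gf s (γ / σ) s' (γ' / σ') σ0 c0 := by
  have hr : 0 < √(1 - c0 ^ 2) := Real.sqrt_pos.2 (sub_pos.2 hc0)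
  have hA := (VolB_blk (γ / σ)).prod (VolB_blk (γ' / σ'))
  have hT : MeasurableSet {z : ((ℝ × ℝ) × ℝ × ℝ) × ℝ × ℝ | z.2 ∈ {w : ℝ × ℝ |
      -((s * z.1.1.1 + s' * z.1.2.1) / σ0) ≤ w.1 ∧
      -(((s * z.1.1.1 - s' * z.1.2.1) / σ0 + c0 * w.1) / √(1 - c0 ^ 2)) ≤ w.2}} := by
    simp only [Set.ofPred_and]
    exact (measurableSet_le (by fun_prop) (by fun_prop)).inter
      (measurableSet_le (by fun_prop) (by fun_prop))
  have h1 := VolB_fub (T := fun p : (ℝ × ℝ) × ℝ × ℝ => {w : ℝ × ℝ |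
      -((s * p.1.1 + s' * p.2.1) / σ0) ≤ w.1 ∧
      -(((s * p.1.1 - s' * p.2.1) / σ0 + c0 * w.1) / √(1 - c0 ^ 2)) ≤ w.2}) hA hT
    (VolB_int2.mul_prod VolB_int2) VolB_int2
  simp only [VolB_K] at h1
  have h3 := VolB_six.restrict_preimage ((measurable_fst hA).inter hT)
  have h2 := integral_map h3.aemeasurable
    (f := fun z => Real.exp (-z.1.1.1 ^ 2) * Real.exp (-z.1.1.2 ^ 2) *
      (Real.exp (-z.1.2.1 ^ 2) * Real.exp (-z.1.2.2 ^ 2)) *
      (Real.exp (-z.2.1 ^ 2) * Real.exp (-z.2.2 ^ 2))) (by fun_prop)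
  rw [h3.map_eq] at h2
  refine Eq.trans ?_ (h2.symm.trans (h1.trans ?_))
  · congr 1
    · congr 1
      ext x
      have a1 : ∀ a b : ℝ, -(a / σ0) ≤ b ↔ 0 ≤ a + σ0 * b := fun a b => by
        rw [neg_le, le_div_iff₀ hσ0]
        constructor <;> intro h <;> linarith only [h]
      have a2 : ∀ a b d : ℝ, -((a / σ0 + b) / √(1 - c0 ^ 2)) ≤ d ↔
          0 ≤ a + σ0 * b + σ0 * √(1 - c0 ^ 2) * d := fun a b d => by
        rw [neg_le, le_div_iff₀ hr, ← sub_le_iff_le_add, le_div_iff₀ hσ0]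
        constructor <;> intro h <;> linarith only [h]
      have a3 : ∀ a b g t : ℝ, 0 < t → (0 ≤ a + g / t * b ↔ 0 ≤ t * a + g * b) :=
        fun a b g t ht => by
          rw [← mul_nonneg_iff_of_pos_left ht, mul_add, ← mul_assoc, mul_div_cancel₀ _ ht.ne']
      simp only [Set.mem_ofPred_eq, Set.mem_preimage, Set.mem_inter_iff, Set.mem_prod, Blk, a1, a2,
        a3 _ _ _ _ hσ, a3 _ _ _ _ hσ', Fin.forall_fin_succ, nvec, PiLp.inner_apply,
        Fin.sum_univ_six]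
      simp
      constructor
      · rintro ⟨b0, b1, b2, b3, b4, b5⟩
        refine ⟨⟨⟨b3, ?_⟩, b5, ?_⟩, ?_, ?_⟩ <;> linarith only [b2, b4, b0, b1]
      · rintro ⟨⟨⟨b0, b1⟩, b2, b3⟩, b4, b5⟩
        refine ⟨?_, ?_, ?_, b0, ?_, b2⟩ <;> linarith only [b4, b5, b1, b3]
    · ext x
      simp only [EuclideanSpace.real_norm_sq_eq, Fin.sum_univ_six, ← Real.exp_add]
      congr 1
      ring
  · refine integral_congr_ae (Filter.Eventually.of_forall fun p => ?_)
    simp only [← Real.exp_add]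
    congr 2
    ring

end Pool.Agent.CS5
end

-- merged part: Pool.Agent.Work.MP_8f8a35_gt.VolF
section
/-!
The simplices of the family have rational angles at rational `t`.

Plan.  `nvec_indep`: `Fintype.linearIndependent_iff`, read the six coordinates (`Fin.sum_univ_six`): coordinate
`5` gives `g 1 = 0`, `4` gives `g 0 = 0`, `0` gives `g 2 = 0`, `1` gives `g 3 = 0`, `2` gives `g 4 = 0`, `3` gives `g 5 = 0`.
All six vectors have norm one, so `angle = arccos (inner)` (`InnerProductGeometry.angle`).  Inner products: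
`01: -cos t`, `02, 12: s σ`, `04: s' σ'`, `14: -(s' σ')`, `23: γ`, `45: γ'`, all others `0`.  Use `Real.arccos_neg`,
`Real.arccos_cos`, `Real.arccos_zero`, `real_inner_comm`.  Then `gauss_rat`, `cone_eq_Gf`, `cz_sq_lt`.
To keep the file fast, prove a table `inner (nvec i) (nvec j) = g i j` by `fin_cases` once.
-/

set_option autoImplicit false

namespace Pool.Agent.CS5

theorem nvec_indep (s σ γ s' σ' γ' σ0 c0 : ℝ) (hσ : 0 < σ) (hσ' : 0 < σ') (hσ0 : 0 < σ0)
    (hc0 : c0 ^ 2 < 1) : LinearIndependent ℝ (nvec s σ γ s' σ' γ' σ0 c0) := by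
  rw [Fintype.linearIndependent_iff]
  intro g hg
  have hq : 0 < √(1 - c0 ^ 2) := Real.sqrt_pos.2 (by linarith)
  generalize hr : √(1 - c0 ^ 2) = r at hq
  have h : ∀ j : Fin 6, (∑ i, g i • nvec s σ γ s' σ' γ' σ0 c0 i) j = 0 := fun j => by
    rw [hg]
    rfl
  have e0 := h 0
  have e1 := h 1
  have e2 := h 2
  have e3 := h 3
  have e4 := h 4
  have e5 := h 5
  simp [Fin.sum_univ_six, nvec, hr] at e0 e1 e2 e3 e4 e5
  have g1 : g 1 = 0 := by
    rcases e5 with h | h | h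
    · exact h
    · exact absurd h hσ0.ne'
    · exact absurd h hq.ne'
  rw [g1] at e0 e2 e4
  have g0 : g 0 = 0 := (mul_eq_zero.1 (by linarith : g 0 * σ0 = 0)).resolve_right hσ0.ne'
  rw [g0] at e0 e2
  have g2 : g 2 = 0 := (mul_eq_zero.1 (by linarith : g 2 * σ = 0)).resolve_right hσ.ne'
  have g4 : g 4 = 0 := (mul_eq_zero.1 (by linarith : g 4 * σ' = 0)).resolve_right hσ'.ne'
  rw [g2] at e1
  rw [g4] at e3
  have g3 : g 3 = 0 := by linarith
  have g5 : g 5 = 0 := by linarith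
  intro i
  fin_cases i
  exacts [g0, g1, g2, g3, g4, g5]

/-- the table of inner products -/
noncomputable def VolF_tab (a b c d e : ℝ) : Fin 6 → Fin 6 → ℝ :=
  ![![1, -a, b, 0, d, 0], ![-a, 1, b, 0, -d, 0], ![b, b, 1, c, 0, 0], ![0, 0, c, 1, 0, 0],
    ![d, -d, 0, 0, 1, e], ![0, 0, 0, 0, e, 1]]

theorem VolF_inner (s σ γ s' σ' γ' σ0 c0 a : ℝ) (hγ : σ ^ 2 + γ ^ 2 = 1)
    (hγ' : σ' ^ 2 + γ' ^ 2 = 1) (h0 : σ0 ^ 2 = 1 - s ^ 2 - s' ^ 2) (hc0 : c0 ^ 2 < 1)
    (ha : σ0 ^ 2 * c0 = -a - s ^ 2 + s' ^ 2) (i j : Fin 6) :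
    inner ℝ (nvec s σ γ s' σ' γ' σ0 c0 i) (nvec s σ γ s' σ' γ' σ0 c0 j) =
      VolF_tab a (s * σ) γ (s' * σ') γ' i j := by
  have hq : √(1 - c0 ^ 2) ^ 2 = 1 - c0 ^ 2 := Real.sq_sqrt (by linarith)
  have hv : nvec s σ γ s' σ' γ' σ0 c0 = ![WithLp.toLp 2 ![s, 0, s', 0, σ0, 0],
      WithLp.toLp 2 ![s, 0, -s', 0, σ0 * c0, σ0 * √(1 - c0 ^ 2)],
      WithLp.toLp 2 ![σ, γ, 0, 0, 0, 0], WithLp.toLp 2 ![0, 1, 0, 0, 0, 0],
      WithLp.toLp 2 ![0, 0, σ', γ', 0, 0], WithLp.toLp 2 ![0, 0, 0, 1, 0, 0]] := rfl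
  rw [hv]
  generalize √(1 - c0 ^ 2) = r at hq
  rw [PiLp.inner_apply, Fin.sum_univ_six]
  simp only [RCLike.inner_apply, conj_trivial]
  fin_cases i <;> fin_cases j <;> simp [VolF_tab] <;>
    first
      | ring1
      | linear_combination h0
      | linear_combination ha
      | linear_combination hγ
      | linear_combination hγ'
      | linear_combination h0 + σ0 ^ 2 * hq

theorem VolF_neg {x : ℝ} (h : RatPi 1 (Real.arccos x)) : RatPi 1 (Real.arccos (-x)) := by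
  obtain ⟨q, hq⟩ := h
  refine ⟨1 - q, ?_⟩
  rw [Real.arccos_neg, hq]
  push_cast
  ring

theorem VolF_zero : RatPi 1 (Real.arccos 0) := by
  refine ⟨1 / 2, ?_⟩
  rw [Real.arccos_zero]
  push_cast
  ring

theorem VolF_rat {a b c d e : ℝ} (ha : RatPi 1 (Real.arccos a)) (hb : RatPi 1 (Real.arccos b))
    (hc : RatPi 1 (Real.arccos c)) (hd : RatPi 1 (Real.arccos d)) (he : RatPi 1 (Real.arccos e))
    (i j : Fin 6) (hij : i ≠ j) : RatPi 1 (Real.arccos (VolF_tab a b c d e i j)) := by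
  have z := VolF_zero
  have ha' := VolF_neg ha
  have hd' := VolF_neg hd
  fin_cases i <;> fin_cases j <;> first | exact absurd rfl hij | assumption

theorem VolF_diag (a b c d e : ℝ) (i : Fin 6) : VolF_tab a b c d e i i = 1 := by
  fin_cases i <;> rfl

theorem Gf_rat (H : Hyp) (s σ γ s' σ' γ' σ0 t : ℝ) (hσ : 0 < σ) (hγ : σ ^ 2 + γ ^ 2 = 1)
    (hσ' : 0 < σ') (hγ' : σ' ^ 2 + γ' ^ 2 = 1) (hσ0 : 0 < σ0) (h0 : σ0 ^ 2 = 1 - s ^ 2 - s' ^ 2)
    (ht0 : 0 < t) (ht1 : t < Real.pi)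
    (hs : s ^ 2 < (1 - Real.cos t) / 2) (hs' : s' ^ 2 < (1 + Real.cos t) / 2)
    (ht : RatPi 1 t) (h1 : RatPi 1 (Real.arccos (s * σ))) (h2 : RatPi 1 (Real.arccos γ))
    (h3 : RatPi 1 (Real.arccos (s' * σ'))) (h4 : RatPi 1 (Real.arccos γ')) :
    RatPi 3 (Gf s (γ / σ) s' (γ' / σ') σ0 (cz s s' σ0 t)) := by
  have hc := cz_sq_lt s s' σ0 t hσ0 h0 hs hs'
  have ha : σ0 ^ 2 * cz s s' σ0 t = -Real.cos t - s ^ 2 + s' ^ 2 := by
    rw [cz, mul_div_cancel₀ _ (pow_ne_zero 2 hσ0.ne')]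
  have hin := VolF_inner s σ γ s' σ' γ' σ0 _ _ hγ hγ' h0 hc ha
  have hn : ∀ i, ‖nvec s σ γ s' σ' γ' σ0 (cz s s' σ0 t) i‖ = 1 := fun i => by
    have := hin i i
    rw [real_inner_self_eq_norm_sq, VolF_diag] at this
    exact (pow_eq_one_iff_of_nonneg (norm_nonneg _) two_ne_zero).1 this
  have h5 : RatPi 1 (Real.arccos (Real.cos t)) := by
    rwa [Real.arccos_cos ht0.le ht1.le]
  rw [← cone_eq_Gf s σ γ s' σ' γ' σ0 _ hσ hσ' hσ0 hc]
  refine gauss_rat H _ (nvec_indep s σ γ s' σ' γ' σ0 _ hσ hσ' hσ0 hc) fun i j hij => ?_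
  obtain ⟨q, hq⟩ := VolF_rat h5 h1 h2 h3 h4 i j hij
  refine ⟨q, ?_⟩
  rw [InnerProductGeometry.angle, hin, hn, hn, mul_one, div_one, hq, pow_one]

end Pool.Agent.CS5
end

-- merged part: Pool.Agent.Work.MP_8f8a35_gt.VolG
section
/-!
The five members of the family.

Plan.  Blocks `(s, σ, γ)`: `P = (√3 / 3, √3 / 2, 1 / 2)` (`s ^ 2 = 1 / 3`, `s σ = 1 / 2`, `γ / σ = √3 / 3`),
`Q = (√2 / 2, √2 / 2, √2 / 2)` (`s ^ 2 = 1 / 2`, `s σ = 1 / 2`, `γ / σ = 1`), `T = (0, 1, 0)`.  With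
`G(B, B') t = Gf s (γ / σ) s' (γ' / σ') σ0 (cz s s' σ0 t)`, `σ0 = √(1 - s ^ 2 - s' ^ 2)`, put
`u 0 = 16 / π * G(P, T)`, `u 1 = 16 / π * G(T, P)`, `u 2 = 16 / π * G(T, Q)`, `v 0 = 8 G(P, P)`, `v 1 = 8 G(P, Q)`.
`hasDerivAt_Gf_cz` gives the derivatives: a trivial block contributes `π / 2`, and
`√(a / (a - s ^ 2)) * (γ / σ) = √(qsq i t)` (`Real.sqrt_mul`, or both sides are nonnegative with equal squares).
`Gf_rat` with `arccos (1 / 2) = π / 3`, `arccos (√2 / 2) = π / 4`, `arccos 0 = π / 2` (`Real.arccos_cos`,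
`Real.cos_pi_div_three`, `Real.cos_pi_div_four`).
-/

set_option autoImplicit false

namespace Pool.Agent.CS5

/-- An admissible block. -/
def VolG_ok (s σ γ : ℝ) (a A : ℝ → ℝ) : Prop :=
  0 < σ ∧ σ ^ 2 + γ ^ 2 = 1 ∧ RatPi 1 (Real.arccos (s * σ)) ∧ RatPi 1 (Real.arccos γ) ∧
    ∀ t ∈ Rng, s ^ 2 < a t ∧ Real.pi / 2 + Real.arctan (√(a t / (a t - s ^ 2)) * (γ / σ)) = A t

theorem VolG_gen (H : Hyp) {s σ γ s' σ' γ' : ℝ} {A B : ℝ → ℝ}
    (h1 : VolG_ok s σ γ (fun t => (1 - Real.cos t) / 2) A)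
    (h2 : VolG_ok s' σ' γ' (fun t => (1 + Real.cos t) / 2) B) (h0 : 0 < 1 - s ^ 2 - s' ^ 2) :
    ∃ g : ℝ → ℝ, (∀ t ∈ Rng, HasDerivAt g (A t * B t / 8) t) ∧
      ∀ t ∈ Rng, RatPi 1 t → RatPi 3 (g t) := by
  obtain ⟨a1, a2, a3, a4, a5⟩ := h1
  obtain ⟨b1, b2, b3, b4, b5⟩ := h2
  have hp := Real.sqrt_pos.2 h0
  have hq := Real.sq_sqrt h0.le
  refine ⟨fun t => Gf s (γ / σ) s' (γ' / σ') √(1 - s ^ 2 - s' ^ 2)
    (cz s s' √(1 - s ^ 2 - s' ^ 2) t), fun t ht => ?_, fun t ht hr => ?_⟩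
  · rw [← (a5 t ht).2, ← (b5 t ht).2]
    exact hasDerivAt_Gf_cz s _ s' _ _ t hp hq ht.1 ht.2.1 (a5 t ht).1 (b5 t ht).1
  · exact Gf_rat H s σ γ s' σ' γ' _ t a1 a2 b1 b2 hp hq ht.1 ht.2.1 (a5 t ht).1 (b5 t ht).1 hr
      a3 a4 b3 b4

theorem VolG_r0 : RatPi 1 (Real.arccos 0) := ⟨1 / 2, by rw [Real.arccos_zero]; push_cast; ring⟩

theorem VolG_r3 : RatPi 1 (Real.arccos (1 / 2)) := by
  refine ⟨1 / 3, ?_⟩
  have := Real.pi_pos
  rw [← Real.cos_pi_div_three, Real.arccos_cos (by positivity) (by linarith only [this])]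
  push_cast
  ring

theorem VolG_r4 : RatPi 1 (Real.arccos (√2 / 2)) := by
  refine ⟨1 / 4, ?_⟩
  have := Real.pi_pos
  rw [← Real.cos_pi_div_four, Real.arccos_cos (by positivity) (by linarith)]
  push_cast
  ring

theorem VolG_T {a : ℝ → ℝ} (ha : ∀ t ∈ Rng, 0 < a t) : VolG_ok 0 1 0 a fun _ => Real.pi / 2 := by
  refine ⟨one_pos, by norm_num, ?_, VolG_r0, fun t ht => ⟨?_, by simp⟩⟩
  · rw [zero_mul]
    exact VolG_r0
  · simpa using ha t ht

theorem VolG_sq {x c y : ℝ} (hx : 0 ≤ x) (hc : 0 ≤ c) (h : x * c ^ 2 = y) : √x * c = √y := by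
  rw [← h, Real.sqrt_mul hx, Real.sqrt_sq hc]

theorem VolG_P {a : ℝ → ℝ} (i : Fin 3)
    (ha : ∀ t ∈ Rng, 1 / 3 < a t ∧ a t / (a t - 1 / 3) * (1 / 3) = qsq i t) :
    VolG_ok (√3 / 3) (√3 / 2) (1 / 2) a (lam i) := by
  have h3 : √3 ^ 2 = 3 := Real.sq_sqrt (by norm_num)
  have hp : 0 < √3 := by positivity
  have hs : (√3 / 3) ^ 2 = 1 / 3 := by rw [div_pow, h3]; norm_num
  refine ⟨by positivity, by rw [div_pow, h3]; norm_num, ?_, VolG_r3, fun t ht => ?_⟩
  · have : √3 / 3 * (√3 / 2) = 1 / 2 := by linear_combination h3 / 6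
    rw [this]
    exact VolG_r3
  · obtain ⟨h1, h2⟩ := ha t ht
    rw [hs, lam]
    refine ⟨h1, ?_⟩
    rw [VolG_sq (div_nonneg (by linarith only [h1]) (by linarith only [h1])) (by positivity) (y := qsq i t)]
    rw [← h2, div_pow, div_pow √3, h3]
    norm_num

theorem VolG_Q {a : ℝ → ℝ} (i : Fin 3)
    (ha : ∀ t ∈ Rng, 1 / 2 < a t ∧ a t / (a t - 1 / 2) = qsq i t) :
    VolG_ok (√2 / 2) (√2 / 2) (√2 / 2) a (lam i) := by
  have h3 : √2 ^ 2 = 2 := Real.sq_sqrt (by norm_num)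
  have hp : 0 < √2 / 2 := by positivity
  have hs : (√2 / 2) ^ 2 = 1 / 2 := by rw [div_pow, h3]; norm_num
  refine ⟨hp, by rw [hs]; norm_num, ?_, VolG_r4, fun t ht => ?_⟩
  · rw [← sq, hs]
    exact VolG_r3
  · obtain ⟨h1, h2⟩ := ha t ht
    rw [hs, lam, div_self hp.ne', mul_one, h2]
    exact ⟨h1, rfl⟩

theorem VolG_u {g A : ℝ → ℝ} (h1 : ∀ t ∈ Rng, HasDerivAt g (A t * (Real.pi / 2) / 8) t)
    (h2 : ∀ t ∈ Rng, RatPi 1 t → RatPi 3 (g t)) :
    ∃ u : ℝ → ℝ, (∀ t ∈ Rng, HasDerivAt u (A t) t) ∧ ∀ t ∈ Rng, RatPi 1 t → RatPi 2 (u t) := by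
  have hp := Real.pi_pos.ne'
  refine ⟨fun t => 16 / Real.pi * g t, fun t ht => ?_, fun t ht hr => ?_⟩
  · have e : A t = 16 / Real.pi * (A t * (Real.pi / 2) / 8) := by field_simp; ring
    rw [e]
    exact (h1 t ht).const_mul _
  · obtain ⟨r, hr⟩ := h2 t ht hr
    refine ⟨16 * r, ?_⟩
    simp only [hr]
    push_cast
    field_simp

theorem VolG_v {g A : ℝ → ℝ} (h1 : ∀ t ∈ Rng, HasDerivAt g (A t / 8) t)
    (h2 : ∀ t ∈ Rng, RatPi 1 t → RatPi 3 (g t)) :
    ∃ u : ℝ → ℝ, (∀ t ∈ Rng, HasDerivAt u (A t) t) ∧ ∀ t ∈ Rng, RatPi 1 t → RatPi 3 (u t) := by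
  refine ⟨fun t => 8 * g t, fun t ht => ?_, fun t ht hr => ?_⟩
  · have e : A t = 8 * (A t / 8) := by ring
    rw [e]
    exact (h1 t ht).const_mul _
  · obtain ⟨r, hr⟩ := h2 t ht hr
    refine ⟨8 * r, ?_⟩
    simp only [hr]
    push_cast
    ring

theorem exists_volData (H : Hyp) : ∃ (u : Fin 3 → ℝ → ℝ) (v : Fin 2 → ℝ → ℝ), VolData u v := by
  have h3 : (√3 / 3 : ℝ) ^ 2 = 1 / 3 := by rw [div_pow, Real.sq_sqrt (by norm_num)]; norm_num
  have h2 : (√2 / 2 : ℝ) ^ 2 = 1 / 2 := by rw [div_pow, Real.sq_sqrt (by norm_num)]; norm_num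
  have T1 := VolG_T (a := fun t => (1 - Real.cos t) / 2) fun t ht => by
    have := ht.2.2.2
    linarith only [this]
  have T2 := VolG_T (a := fun t => (1 + Real.cos t) / 2) fun t ht => by
    have := ht.2.2.1
    linarith only [this]
  have P1 := VolG_P (a := fun t => (1 - Real.cos t) / 2) 0 fun t ht => by
    have h := ht.2.2.2
    have e : (1 - Real.cos t) / 2 - 1 / 3 = (1 - 3 * Real.cos t) / 6 := by ring
    have h' : 1 - 3 * Real.cos t ≠ 0 := by linarith only [h]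
    refine ⟨by linarith only [h], ?_⟩
    simp only [qsq, Matrix.cons_val_zero, e]
    field_simp
    ring
  have P2 := VolG_P (a := fun t => (1 + Real.cos t) / 2) 1 fun t ht => by
    have h := ht.2.2.1
    have e : (1 + Real.cos t) / 2 - 1 / 3 = (1 + 3 * Real.cos t) / 6 := by ring
    have h' : 1 + 3 * Real.cos t ≠ 0 := by linarith only [h]
    refine ⟨by linarith only [h], ?_⟩
    simp only [qsq, Matrix.cons_val_one, Matrix.cons_val_zero, e]
    field_simp
    ring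
  have Q2 := VolG_Q (a := fun t => (1 + Real.cos t) / 2) 2 fun t ht => by
    have h := ht.2.2.1
    have e : (1 + Real.cos t) / 2 - 1 / 2 = Real.cos t / 2 := by ring
    refine ⟨by linarith only [h], ?_⟩
    have e' : qsq 2 t = (1 + Real.cos t) / Real.cos t := rfl
    simp only [e, e']
    field_simp
  obtain ⟨g0, a0, b0⟩ := VolG_gen H P1 T2 (by rw [h3]; norm_num)
  obtain ⟨g1, a1, b1⟩ := VolG_gen H T1 P2 (by rw [h3]; norm_num)
  obtain ⟨g2, a2, b2⟩ := VolG_gen H T1 Q2 (by rw [h2]; norm_num)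
  obtain ⟨g3, a3, b3⟩ := VolG_gen H P1 P2 (by rw [h3]; norm_num)
  obtain ⟨g4, a4, b4⟩ := VolG_gen H P1 Q2 (by rw [h3, h2]; norm_num)
  simp only [mul_comm (Real.pi / 2)] at a1 a2
  obtain ⟨u0, c0, d0⟩ := VolG_u a0 b0
  obtain ⟨u1, c1, d1⟩ := VolG_u a1 b1
  obtain ⟨u2, c2, d2⟩ := VolG_u a2 b2
  obtain ⟨v0, c3, d3⟩ := VolG_v a3 b3
  obtain ⟨v1, c4, d4⟩ := VolG_v a4 b4
  refine ⟨![u0, u1, u2], ![v0, v1], fun i => ?_, fun i => ?_, fun i => ?_, fun i => ?_⟩
  · fin_cases i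
    exacts [c0, c1, c2]
  · fin_cases i
    exacts [c3, c4]
  · fin_cases i
    exacts [d0, d1, d2]
  · fin_cases i
    exacts [d3, d4]

end Pool.Agent.CS5
end

-- merged part: Pool.Agent.Work.MP_8f8a35_gt.Val
section
/-!
Values at a special point, the size of the basis, and roots of unity.

Plan.  `val_span`: with `y 0 = r0 Π`, `y 4 = r4 Π ^ 2`, ... (`Π = I π`) one has
`bas δ y I α = (∏ i ∈ I, δ i) * y 1 ^ α 1 * y 2 ^ α 2 * y 3 ^ α 3 * Π ^ e α * ρ α` with
`e α = α 0 + 2 (α 4 + α 5 + α 6) + 3 (α 7 + α 8) ≤ w` and `ρ α ∈ ℚ`.  Let `ex α : Fin 4 → Fin (w + 1)` be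
`![α 1, α 2, α 3, e α]`, `N ≠ 0` a common denominator of all `ρ α`, `α ∈ Ex w` (product of the denominators), and
`B b i = if b = (i.1, ex i.2) then N * ρ i.2 else 0`, `a (I, e) = δ ^ I y 1 ^ e 0 y 2 ^ e 1 y 3 ^ e 2 Π ^ e 3 / N`.
`card_Idx`: `Fintype.piFinset (fun _ => range (w / 16 + 1)) ⊆ Ex w` as the weights add up to `16`.
`hf_ne_of_root`: `z ≠ 0`.  If `z ^ 2 + 1 = 0`, `Qa z = 0` or `Qb z = 0` then `z ^ 12 = 1`, and `p` is coprime to `12`, so
`z = 1` (`pow_gcd_eq_one`).  If `3 z ^ 2 ∓ 2 z + 3 = 0` then `z + z ^ (p - 1) = ± 2 / 3` is integral over `ℤ`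
(`IsIntegral.of_pow`, `isIntegral_algebraMap_iff`, `IsIntegrallyClosed.isIntegral_iff`), which is false.
-/

set_option autoImplicit false

namespace Pool.Agent.CS5

theorem Val_prod (f : Fin 9 → ℂ) :
    ∏ j, f j = f 0 * (f 1 * (f 2 * (f 3 * (f 4 * (f 5 * (f 6 * (f 7 * f 8))))))) := by
  simp only [Fin.prod_univ_succ, Fin.prod_univ_zero, mul_one]
  rfl

theorem Val_wsum (α : Fin 9 → ℕ) : wsum α =
    α 0 + α 1 + α 2 + α 3 + 2 * α 4 + 2 * α 5 + 2 * α 6 + 3 * α 7 + 3 * α 8 := by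
  have : wsum α = 1 * α 0 + (1 * α 1 + (1 * α 2 + (1 * α 3 + (2 * α 4 + (2 * α 5 + (2 * α 6 +
      (3 * α 7 + 3 * α 8))))))) := by
    simp only [wsum, Fin.sum_univ_succ, Fin.sum_univ_zero, add_zero]
    rfl
  omega

theorem Val_den {ι : Type} [Fintype ι] (ρ : ι → ℚ) :
    ∃ (N : ℕ) (z : ι → ℤ), N ≠ 0 ∧ ∀ i, (z i : ℚ) = N * ρ i := by
  have h : ∀ i, ∃ z : ℤ, (z : ℚ) = (∏ j, (ρ j).den : ℕ) * ρ i := fun i => by
    obtain ⟨m, hm⟩ := Finset.dvd_prod_of_mem (fun j => (ρ j).den) (Finset.mem_univ i)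
    refine ⟨m * (ρ i).num, ?_⟩
    rw [hm]
    push_cast
    rw [← Rat.den_mul_eq_num]
    ring
  choose z hz using h
  exact ⟨_, z, Finset.prod_ne_zero_iff.2 fun j _ => (ρ j).den_nz, hz⟩

theorem Val_int {p : ℕ} (hp : 0 < p) {z : ℂ} (hz : z ^ p = 1) {e : ℤ} (he : e % 3 ≠ 0) :
    3 * z ^ 2 - e * z + 3 ≠ 0 := by
  intro h
  have h1 : IsIntegral ℤ z := IsIntegral.of_pow hp (by rw [hz]; exact isIntegral_one)
  obtain ⟨n, rfl⟩ : ∃ n, p = n + 1 := ⟨p - 1, by omega⟩
  have h2 : z + z ^ n = algebraMap ℚ ℂ (e / 3) := by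
    have h0 : z ≠ 0 := by
      rintro rfl
      simp at hz
    refine mul_left_cancel₀ h0 ?_
    simp only [eq_ratCast, Rat.cast_div, Rat.cast_intCast, Rat.cast_ofNat]
    linear_combination h / 3 + hz
  have h3 := h1.add (h1.pow n)
  rw [h2, isIntegral_algebraMap_iff (algebraMap ℚ ℂ).injective,
    IsIntegrallyClosed.isIntegral_iff] at h3
  obtain ⟨y, hy⟩ := h3
  rw [eq_intCast, eq_div_iff (by norm_num)] at hy
  have : y * 3 = e := by exact_mod_cast hy
  omega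

theorem val_span (w : ℕ) (δ : Fin 3 → ℂ) (y : Fin 9 → ℂ) (hy : RatVal y) :
    ∃ (B : Finset (Fin 3) × (Fin 4 → Fin (w + 1)) → Idx w → ℤ)
      (a : Finset (Fin 3) × (Fin 4 → Fin (w + 1)) → ℂ),
      ∀ i : Idx w, bas δ y i.1 i.2.1 = ∑ b, a b * ((B b i : ℤ) : ℂ) := by
  classical
  obtain ⟨⟨r0, h0⟩, ⟨r4, h4⟩, ⟨r5, h5⟩, ⟨r6, h6⟩, ⟨r7, h7⟩, r8, h8⟩ := hy
  generalize Complex.I * Real.pi = q at h0 h4 h5 h6 h7 h8
  obtain ⟨N, z, hN, hz⟩ := Val_den fun α : {α : Fin 9 → ℕ // α ∈ Ex w} =>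
    r0 ^ α.1 0 * r4 ^ α.1 4 * r5 ^ α.1 5 * r6 ^ α.1 6 * r7 ^ α.1 7 * r8 ^ α.1 8
  have hex : ∀ α : {α : Fin 9 → ℕ // α ∈ Ex w}, ∃ e : Fin 4 → Fin (w + 1),
      (e 0 : ℕ) = α.1 1 ∧ (e 1 : ℕ) = α.1 2 ∧ (e 2 : ℕ) = α.1 3 ∧
        (e 3 : ℕ) = α.1 0 + 2 * α.1 4 + 2 * α.1 5 + 2 * α.1 6 + 3 * α.1 7 + 3 * α.1 8 := fun α => by
    have h := mem_Ex.1 α.2
    rw [Val_wsum] at h
    exact ⟨![⟨α.1 1, by omega⟩, ⟨α.1 2, by omega⟩, ⟨α.1 3, by omega⟩,
      ⟨α.1 0 + 2 * α.1 4 + 2 * α.1 5 + 2 * α.1 6 + 3 * α.1 7 + 3 * α.1 8, by omega⟩],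
      rfl, rfl, rfl, rfl⟩
  choose ex e0 e1 e2 e3 using hex
  refine ⟨fun b i => if b = (i.1, ex i.2) then z i.2 else 0, fun b => (∏ i ∈ b.1, δ i) *
    (y 1 ^ (b.2 0 : ℕ) * y 2 ^ (b.2 1 : ℕ) * y 3 ^ (b.2 2 : ℕ) * q ^ (b.2 3 : ℕ)) / N, fun i => ?_⟩
  rw [Finset.sum_eq_single (i.1, ex i.2) (fun b _ hb => by simp only [if_neg hb, Int.cast_zero,
    mul_zero]) fun h => absurd (Finset.mem_univ _) h]
  have h1 : ((z i.2 : ℚ) : ℂ) = _ := congrArg _ (hz i.2)
  have h2 : (N : ℂ) ≠ 0 := Nat.cast_ne_zero.2 hN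
  push_cast at h1
  dsimp only
  rw [if_pos rfl, h1, e0, e1, e2, e3, bas, Val_prod, h0, h4, h5, h6, h7, h8,
    ← mul_assoc _ (N : ℂ), div_mul_cancel₀ _ h2]
  ring

theorem card_Idx (w : ℕ) : 8 * (w / 16 + 1) ^ 9 ≤ Fintype.card (Idx w) := by
  rw [Fintype.card_prod, Fintype.card_finset, Fintype.card_fin, Fintype.card_coe]
  refine Nat.mul_le_mul (by norm_num) ?_
  have h : (Fintype.piFinset fun _ : Fin 9 => Finset.range (w / 16 + 1)) ⊆ Ex w := fun α hα => by
    have h1 := fun j => Finset.mem_range.1 (Fintype.mem_piFinset.1 hα j)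
    rw [mem_Ex, Val_wsum]
    have := h1 0
    have := h1 1
    have := h1 2
    have := h1 3
    have := h1 4
    have := h1 5
    have := h1 6
    have := h1 7
    have := h1 8
    omega
  have h2 := Finset.card_le_card h
  rwa [Fintype.card_piFinset_const, Finset.card_range] at h2

theorem card_val (w : ℕ) :
    Fintype.card (Finset (Fin 3) × (Fin 4 → Fin (w + 1))) = 8 * (w + 1) ^ 4 := by
  rw [Fintype.card_prod, Fintype.card_finset, Fintype.card_fun, Fintype.card_fin, Fintype.card_fin,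
    Fintype.card_fin]
  norm_num

theorem hf_ne_of_root {p : ℕ} (hp : p.Prime) (h5 : 5 ≤ p) {z : ℂ} (hz : z ^ p = 1) (h1 : z ≠ 1) :
    hf z ≠ 0 := by
  have h12 : z ^ 12 ≠ 1 := fun h => by
    have c : Nat.gcd p 12 = 1 := by
      refine (Nat.Prime.coprime_iff_not_dvd hp).2 fun d => ?_
      have := Nat.le_of_dvd (by norm_num) d
      interval_cases p <;> revert hp d <;> decide
    have := pow_gcd_eq_one.2 ⟨hz, h⟩
    rw [c, pow_one] at this
    exact h1 this
  have a0 : z ≠ 0 := by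
    rintro rfl
    rw [zero_pow hp.ne_zero] at hz
    exact zero_ne_one hz
  have a1 : Df 0 z ≠ 0 := fun h => Val_int hp.pos hz (e := 2) (by decide) (by
    change -(3 * z ^ 2 - 2 * z + 3) = 0 at h
    push_cast
    linear_combination -h)
  have a2 : Df 1 z ≠ 0 := fun h => Val_int hp.pos hz (e := -2) (by decide) (by
    change -(3 * z ^ 2 + 2 * z + 3) = 0 at h
    push_cast
    linear_combination -h)
  have a3 : Df 2 z ≠ 0 := fun h => h12 (by
    change -(z ^ 2 + 1) = 0 at h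
    linear_combination -(z ^ 10 - z ^ 8 + z ^ 6 - z ^ 4 + z ^ 2 - 1) * h)
  have a4 : Qa z ≠ 0 := fun h => h12 (by
    rw [Qa] at h
    linear_combination (z + 1) * (z ^ 3 - 1) * (z ^ 6 + 1) * h)
  have a5 : Qb z ≠ 0 := fun h => h12 (by
    rw [Qb] at h
    linear_combination (z - 1) * (z ^ 3 + 1) * (z ^ 6 + 1) * h)
  rw [hf, hX]
  exact mul_ne_zero a0 (mul_ne_zero (mul_ne_zero (mul_ne_zero (mul_ne_zero
    (mul_ne_zero (by norm_num) a1) a2) a3) a4) a5)

end Pool.Agent.CS5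
end

-- merged part: Pool.Agent.Work.MP_8f8a35_gt.Main
section
/-!
The conjecture fails in dimension 5.
-/

set_option autoImplicit false

open Polynomial Metric

namespace Pool.Agent.CS5

theorem aeval_hf (z : ℂ) : aeval z (hf (X : ℤ[X])) = hf z := by
  rw [map_hf, aeval_X]

theorem not_hyp : ¬ Hyp := by
  intro H
  obtain ⟨u, v, hV⟩ := exists_volData H
  obtain ⟨tc, R, η, δ, y, hR0, hR1, hη, hη1, hη2, hS, harc⟩ := arc_data hV
  obtain ⟨C1, hC1, hDen⟩ := Den_le_exp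
  have hpi := Real.pi_pos
  set C2 : ℝ := Real.log (18 * l1 (hf (X : ℤ[X])) / R) with hC2
  set C : ℝ := max (max C1 C2) 1 with hC
  have hC0 : 0 ≤ C := le_trans zero_le_one (le_max_right _ _)
  obtain ⟨w, M, k, p, j, hw, hM, hp, hinj, hm, hk⟩ :=
    count ((tc - η) / (2 * Real.pi)) (η / Real.pi) C (by positivity) (by positivity)
      (by
        have : (tc - η) / (2 * Real.pi) + η / Real.pi = (tc + η) / (2 * Real.pi) := by
          field_simp; ring
        rw [this, div_le_one (by positivity)]; linarith only [hη, hη1, hη2]) hC0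
  have hne : (ball (Complex.exp (tc * Complex.I)) (2 * R)).Nonempty :=
    ⟨_, mem_ball_self (by positivity)⟩
  obtain ⟨A, hA, hode, hind, hden⟩ := fsys_data isOpen_ball hne hS w
  set τ : Fin k → ℝ := fun t => 2 * Real.pi * ((j t : ℝ) / p t) with hτ
  have hτ1 : ∀ t, tc - η < τ t ∧ τ t < tc + η := by
    intro t
    obtain ⟨-, -, -, h1, h2⟩ := hp t
    constructor
    · rw [div_lt_iff₀ (by positivity)] at h1
      simp only [hτ]; linarith only [h1]
    · have : (tc - η) / (2 * Real.pi) + η / Real.pi = (tc + η) / (2 * Real.pi) := by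
        field_simp; ring
      rw [this, lt_div_iff₀ (by positivity)] at h2
      simp only [hτ]; linarith only [h2]
  have hτ2 : ∀ t, |τ t - tc| < η := fun t => abs_lt.2 ⟨by linarith only [hτ1, (hτ1 t).1], by linarith only [hτ1, (hτ1 t).2]⟩
  have hτ3 : ∀ t, 0 < τ t ∧ τ t < Real.pi := fun t =>
    ⟨by linarith only [hη1, hτ1, (hτ1 t).1], by linarith only [hη2, hτ1, (hτ1 t).2]⟩
  have hrat : ∀ t, RatPi 1 (τ t) := fun t =>
    ⟨2 * (j t : ℚ) / p t, by simp only [hτ]; push_cast; ring⟩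
  have hval := fun t => val_span w (fun a => δ a (Complex.exp (τ t * Complex.I)))
    (fun a => y a (Complex.exp (τ t * Complex.I))) ((harc _ (hτ2 t)).2 (hrat t))
  choose B a hB using hval
  have hlog : ∀ t, Complex.log (Complex.exp (τ t * Complex.I)) = τ t * Complex.I := by
    intro t
    apply Complex.log_exp
    · simp; linarith only [hη, hη1, hη2, hτ3, (hτ3 t).1]
    · simp; linarith only [hτ3, (hτ3 t).2]
  have hlw : 0 ≤ Real.log w := Real.log_nonneg (by exact_mod_cast hw)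
  have hlk : 0 ≤ Real.log (k + 23) :=
    Real.log_nonneg (by have : (0 : ℝ) ≤ k := Nat.cast_nonneg _; linarith only [])
  refine core (β := Finset (Fin 3) × (Fin 4 → Fin (w + 1))) (hf X) A 11 natDegree_hf hA
    (Complex.exp (tc * Complex.I)) R (le_of_eq (Complex.norm_exp_ofReal_mul_I tc)) hR0 hR1
    (fun i => fb δ y i) (fun i => differentiableOn_fb hS i) hode hind
    (C1 * (1 + Real.log w)) (C * (1 + Real.log w) + C + Real.log (k + 23))
    (fun T => ⟨Den w T, Den_pos w T, hDen w T, fun n hn P => hden T n hn.le P⟩) M p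
    (fun t => ⟨by have := (hp t).2.1; omega, (hp t).2.2.1⟩)
    (fun t z hz h1 => by rw [aeval_hf]; exact hf_ne_of_root (hp t).1 (hp t).2.1 hz h1)
    (fun t => Complex.exp (τ t * Complex.I)) ?_ (fun t => (harc _ (hτ2 t)).1) ?_ B
    (fun t => ⟨a t, hB t⟩) hM ?_ ?_ ?_ ?_ ?_
  · intro t t' h
    have h1 : (τ t : ℂ) * Complex.I = τ t' * Complex.I := by
      rw [← hlog t, ← hlog t']; exact congrArg Complex.log h
    have h2 : τ t = τ t' := by exact_mod_cast mul_right_cancel₀ Complex.I_ne_zero h1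
    apply hinj
    simp only [hτ] at h2
    exact mul_left_cancel₀ (by positivity) h2
  · intro t
    constructor
    · have hp0 : (p t : ℂ) ≠ 0 := by exact_mod_cast (hp t).1.ne_zero
      rw [← Complex.exp_nat_mul]
      have : (p t : ℂ) * ((τ t : ℂ) * Complex.I) = (j t : ℕ) * (2 * Real.pi * Complex.I) := by
        simp only [hτ]; push_cast; field_simp
      rw [this, Complex.exp_nat_mul_two_pi_mul_I]
    · intro h
      have h1 := hlog t
      rw [h, Complex.log_one] at h1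
      have h2 : (τ t : ℂ) = 0 := by
        rcases mul_eq_zero.1 h1.symm with h | h
        · exact h
        · exact absurd h Complex.I_ne_zero
      have h3 : τ t = 0 := by exact_mod_cast h2
      linarith only [h3, hτ3, (hτ3 t).1]
  · rw [card_val]; exact Nat.succ_le_of_lt (by positivity)
  · rw [card_val]; exact hm.trans (card_Idx w)
  · have : 1 ≤ C := le_max_right _ _
    have : 0 ≤ C * (1 + Real.log w) := by positivity
    linarith
  · rw [card_val]; push_cast; exact hk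
  · have h1 : C1 ≤ C := le_trans (le_max_left _ _) (le_max_left _ _)
    have h2 : C2 ≤ C := le_trans (le_max_right _ _) (le_max_left _ _)
    have h3 : C1 * (1 + Real.log w) ≤ C * (1 + Real.log w) := by gcongr
    have h4 : ((k : ℝ) + 2 * (11 : ℕ) + 1) = k + 23 := by push_cast; ring
    rw [h4]
    linarith only [h2, h3]

end Pool.Agent.CS5
end
end
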