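import Mathlib

-- merged part: Pool.Agent.Work.MP_8f8a35_gt.VolE
section
-- merged part: Pool.Agent.Work.MP_8f8a35_gt.Defs
section
/-!
Definitions for the disproof of the rational simplex conjecture (dimension 5), problem
MP_8f8a35_gt.  The whole argument is described in PROOF.md in this folder.
-/

set_option autoImplicit false
set_option linter.unusedSimpArgs false

open Polynomial

namespace Pool.Agent.CS5

noncomputable section

/-! ### Part 1.  Integer polynomial vectors and the operators of a linear system -/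

/-- Sum of the absolute values of the coefficients. -/
def l1 (q : ℤ[X]) : ℝ := ∑ n ∈ q.support, |((q.coeff n : ℤ) : ℝ)|

/-- Sum of `l1` over the entries of a vector. -/
def l1v {ι : Type} [Fintype ι] (Q : ι → ℤ[X]) : ℝ := ∑ x, l1 (Q x)

/-- The operator dual to the system `h Y' = A Y`:  `h (Q · Y)' = (nab h A Q) · Y`. -/
def nab {ι : Type} [Fintype ι] (h : ℤ[X]) (A : ι → ι → ℤ[X]) (Q : ι → ℤ[X]) : ι → ℤ[X] :=
  fun y => h * derivative (Q y) + ∑ x, Q x * A x y

/-- `h ^ n (P · Y) ^ (n) = (Hs h A P n) · Y`. -/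
def Hs {ι : Type} [Fintype ι] (h : ℤ[X]) (A : ι → ι → ℤ[X]) (P : ι → ℤ[X]) : ℕ → ι → ℤ[X]
  | 0 => P
  | n + 1 => fun y => nab h A (Hs h A P n) y - (n : ℤ[X]) * derivative h * Hs h A P n y

/-- The value `Q(z) · v`. -/
def pair {ι : Type} [Fintype ι] (Q : ι → ℤ[X]) (z : ℂ) (v : ι → ℂ) : ℂ :=
  ∑ x, aeval z (Q x) * v x

/-- `M` is saturated, stable under `nab h A`, and holds `j ≥ 1` independent elements. -/
structure Good {ι : Type} [Fintype ι] (h : ℤ[X]) (A : ι → ι → ℤ[X])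
    (M : Submodule ℤ[X] (ι → ℤ[X])) (j : ℕ) : Prop where
  sat : ∀ (g : ℤ[X]) (Q : ι → ℤ[X]), g ≠ 0 → g • Q ∈ M → Q ∈ M
  stab : ∀ Q ∈ M, nab h A Q ∈ M
  pos : 1 ≤ j
  ind : ∃ B : Fin j → ι → ℤ[X], (∀ i, B i ∈ M) ∧ LinearIndependent ℤ[X] B

/-- The number of independent conditions that the vectors `v b` impose on `M` at the point `z`. -/
def sig {ι β : Type} [Fintype ι] (M : Submodule ℤ[X] (ι → ℤ[X])) (z : ℂ) (v : β → ι → ℂ) : ℕ :=
  Module.finrank ℂ (Submodule.span ℂ {u : β → ℂ | ∃ Q ∈ M, u = fun b => pair Q z (v b)})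

/-- The complex span of the integer vectors `ρ Q`, `Q ∈ M`. -/
def rspan {ι γ : Type} (M : Submodule ℤ[X] (ι → ℤ[X])) (ρ : (ι → ℤ[X]) →+ (γ → ℤ)) :
    Submodule ℂ (γ → ℂ) :=
  Submodule.span ℂ {u : γ → ℂ | ∃ Q ∈ M, u = fun g => ((ρ Q g : ℤ) : ℂ)}

/-! ### Part 2.  The differential system -/

section Poly
variable {O : Type} [CommRing O]

/-- The three radicands. -/
def Df (i : Fin 3) (x : O) : O :=
  ![-(3 * x ^ 2 - 2 * x + 3), -(3 * x ^ 2 + 2 * x + 3), -(x ^ 2 + 1)] i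

def Qa (x : O) : O := x ^ 2 - x + 1
def Qb (x : O) : O := x ^ 2 + x + 1

/-- `h / X`. -/
def hX (x : O) : O := 4 * Df 0 x * Df 1 x * Df 2 x * Qa x * Qb x

/-- The common denominator `h`. -/
def hf (x : O) : O := x * hX x

/-- `h D' / (2 D)` for the three radicands. -/
def lf (i : Fin 3) (x : O) : O :=
  ![2 * x * Df 1 x * Df 2 x * Qa x * Qb x * (-6 * x + 2),
    2 * x * Df 0 x * Df 2 x * Qa x * Qb x * (-6 * x - 2),
    2 * x * Df 0 x * Df 1 x * Qa x * Qb x * (-2 * x)] i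

/-- `h y_i' = pf i * δ i` for the three logarithms. -/
def pf (i : Fin 3) (x : O) : O :=
  ![4 * x * Df 1 x * Df 2 x * Qb x * (-(x + 1)),
    4 * x * Df 0 x * Df 2 x * Qa x * (x - 1),
    4 * x * Df 0 x * Df 1 x * Qa x * (x - 1)] i

/-- The right-hand sides `h y_j'` of the system. -/
def rhs (x : O) (δ : Fin 3 → O) (y : Fin 9 → O) : Fin 9 → O :=
  ![hX x, pf 0 x * δ 0, pf 1 x * δ 1, pf 2 x * δ 2, hX x * y 1, hX x * y 2, hX x * y 3,
    hX x * (y 1 * y 2), hX x * (y 1 * y 3)]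

/-- The monomial `δ ^ I y ^ α`. -/
def bas (δ : Fin 3 → O) (y : Fin 9 → O) (I : Finset (Fin 3)) (α : Fin 9 → ℕ) : O :=
  (∏ i ∈ I, δ i) * ∏ j, y j ^ α j

variable {O' F : Type} [CommRing O'] [FunLike F O O'] [RingHomClass F O O'] (f : F)

theorem map_Df (i : Fin 3) (x : O) : f (Df i x) = Df i (f x) := by
  fin_cases i <;> simp [Df, map_ofNat]
theorem map_Qa (x : O) : f (Qa x) = Qa (f x) := by simp [Qa]
theorem map_Qb (x : O) : f (Qb x) = Qb (f x) := by simp [Qb]
theorem map_hX (x : O) : f (hX x) = hX (f x) := by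
  simp [hX, map_Df, map_Qa, map_Qb, map_ofNat]
theorem map_hf (x : O) : f (hf x) = hf (f x) := by simp [hf, map_hX]
theorem map_lf (i : Fin 3) (x : O) : f (lf i x) = lf i (f x) := by
  fin_cases i <;> simp [lf, map_Df, map_Qa, map_Qb, map_ofNat]
theorem map_pf (i : Fin 3) (x : O) : f (pf i x) = pf i (f x) := by
  fin_cases i <;> simp [pf, map_Df, map_Qa, map_Qb, map_ofNat]
theorem map_rhs (x : O) (δ : Fin 3 → O) (y : Fin 9 → O) (j : Fin 9) :
    f (rhs x δ y j) = rhs (f x) (fun i => f (δ i)) (fun i => f (y i)) j := by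
  fin_cases j <;> simp [rhs, map_hX, map_pf]
theorem map_bas (δ : Fin 3 → O) (y : Fin 9 → O) (I : Finset (Fin 3)) (α : Fin 9 → ℕ) :
    f (bas δ y I α) = bas (fun i => f (δ i)) (fun i => f (y i)) I α := by
  simp [bas]

end Poly

/-- Weights of the nine functions. -/
def wt : Fin 9 → ℕ := ![1, 1, 1, 1, 2, 2, 2, 3, 3]

/-- Weight of an exponent vector. -/
def wsum (α : Fin 9 → ℕ) : ℕ := ∑ j, wt j * α j

/-- Exponent vectors of weight at most `w`. -/
def Ex (w : ℕ) : Finset (Fin 9 → ℕ) :=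
  (Fintype.piFinset fun _ => Finset.range (w + 1)).filter fun α => wsum α ≤ w

theorem one_le_wt (j : Fin 9) : 1 ≤ wt j := by fin_cases j <;> simp [wt]

theorem mem_Ex {w : ℕ} {α : Fin 9 → ℕ} : α ∈ Ex w ↔ wsum α ≤ w := by
  simp only [Ex, Finset.mem_filter, Fintype.mem_piFinset, Finset.mem_range]
  refine ⟨fun h => h.2, fun h => ⟨fun j => ?_, h⟩⟩
  have h1 : wt j * α j ≤ wsum α :=
    Finset.single_le_sum (f := fun j => wt j * α j) (fun _ _ => Nat.zero_le _) (Finset.mem_univ j)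
  have h2 : α j ≤ wt j * α j := Nat.le_mul_of_pos_left _ (one_le_wt j)
  omega

/-- Index set of the basis of weight at most `w`. -/
abbrev Idx (w : ℕ) : Type := Finset (Fin 3) × {α : Fin 9 → ℕ // α ∈ Ex w}

/-- The system in an abstract differential algebra. -/
structure Sys (O : Type) [CommRing O] [Algebra ℂ O] where
  d : Derivation ℂ O O
  x : O
  δ : Fin 3 → O
  y : Fin 9 → O
  dx : d x = 1
  unit : IsUnit (hf x)
  inj : ∀ q : ℂ[X], aeval x q = 0 → q = 0
  sq : ∀ i, δ i ^ 2 = Df i x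
  dy : ∀ j, hf x * d (y j) = rhs x δ y j

/-- The basis element with index `i`. -/
def Sys.b {O : Type} [CommRing O] [Algebra ℂ O] (S : Sys O) {w : ℕ} (i : Idx w) : O :=
  bas S.δ S.y i.1 i.2.1

theorem Sys.dδ {O : Type} [CommRing O] [Algebra ℂ O] (S : Sys O) (i : Fin 3) :
    hf S.x * S.d (S.δ i) = lf i S.x * S.δ i := by
  have h1 := congrArg S.d (S.sq i)
  have h2 := S.sq i
  have e2 : S.d (2 : O) = 0 := by simpa using S.d.map_natCast 2
  have e3 : S.d (3 : O) = 0 := by simpa using S.d.map_natCast 3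
  fin_cases i
  · simp [Df, Derivation.leibniz, Derivation.leibniz_pow, S.dx, e2, e3] at h1 h2
    simp only [hf, hX, lf, Df, Qa, Qb]
    simp
    linear_combination (2 * S.x * (-3 + -(3 * S.x ^ 2 + 2 * S.x)) * (-1 + -S.x ^ 2) *
      (S.x ^ 2 - S.x + 1) * (S.x ^ 2 + S.x + 1)) * (S.δ 0 * h1 - 2 * S.d (S.δ 0) * h2)
  · simp [Df, Derivation.leibniz, Derivation.leibniz_pow, S.dx, e2, e3] at h1 h2
    simp only [hf, hX, lf, Df, Qa, Qb]
    simp
    linear_combination (2 * S.x * (-3 + (2 * S.x - 3 * S.x ^ 2)) * (-1 + -S.x ^ 2) *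
      (S.x ^ 2 - S.x + 1) * (S.x ^ 2 + S.x + 1)) * (S.δ 1 * h1 - 2 * S.d (S.δ 1) * h2)
  · simp [Df, Derivation.leibniz, Derivation.leibniz_pow, S.dx, e2, e3] at h1 h2
    simp only [hf, hX, lf, Df, Qa, Qb]
    simp
    linear_combination (2 * S.x * (-3 + (2 * S.x - 3 * S.x ^ 2)) * (-3 + -(3 * S.x ^ 2 + 2 * S.x)) *
      (S.x ^ 2 - S.x + 1) * (S.x ^ 2 + S.x + 1)) * (S.δ 2 * h1 - 2 * S.d (S.δ 2) * h2)

/-- The system for holomorphic functions on a set `U`. -/
structure FSys (U : Set ℂ) (δ : Fin 3 → ℂ → ℂ) (y : Fin 9 → ℂ → ℂ) : Prop where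
  hne : ∀ z ∈ U, hf z ≠ 0
  dδ : ∀ i, DifferentiableOn ℂ (δ i) U
  dy : ∀ j, DifferentiableOn ℂ (y j) U
  sq : ∀ i, ∀ z ∈ U, δ i z ^ 2 = Df i z
  der : ∀ j, ∀ z ∈ U, hf z * deriv (y j) z = rhs z (fun i => δ i z) (fun i => y i z) j

/-- The basis function with index `i`. -/
def fb (δ : Fin 3 → ℂ → ℂ) (y : Fin 9 → ℂ → ℂ) {w : ℕ} (i : Idx w) (z : ℂ) : ℂ :=
  bas (fun a => δ a z) (fun a => y a z) i.1 i.2.1

/-! ### Part 3.  Integrality -/

/-- `h ^ n f ^ (n) / n!`. -/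
def theta {O : Type} [CommRing O] [Algebra ℂ O] (S : Sys O) (n : ℕ) (f : O) : O :=
  ((n.factorial : ℂ)⁻¹) • (hf S.x ^ n * (S.d : O → O)^[n] f)

/-- Integer polynomial combinations of the basis elements of weight at most `w`. -/
def Lat {O : Type} [CommRing O] [Algebra ℂ O] (S : Sys O) (w : ℕ) : Submodule ℤ O :=
  Submodule.span ℤ {f | ∃ (r : ℕ) (I : Finset (Fin 3)) (α : Fin 9 → ℕ),
    wsum α ≤ w ∧ f = S.x ^ r * bas S.δ S.y I α}

/-- Integer polynomials in `x`. -/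
def Zx {O : Type} [CommRing O] [Algebra ℂ O] (S : Sys O) : Subring O :=
  Subring.closure {S.x}

/-- The common denominator for monomials with at most `r` factors, order `n`. -/
def Den (r n : ℕ) : ℕ := ∏ i ∈ Finset.Icc 1 r, Nat.lcmUpto (n / i) ^ 3

/-! ### Part 4.  Independence: the formal model -/

/-- Formal combinations: component `I` is the polynomial coefficient of `δ ^ I`. -/
abbrev V : Type := Finset (Fin 3) → MvPolynomial (Fin 9) ℂ[X]

/-- The weight-lowering operator. -/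
def E0 {K : Type} [CommRing K] (G : MvPolynomial (Fin 9) K) : MvPolynomial (Fin 9) K :=
  MvPolynomial.pderiv 0 G + MvPolynomial.X 1 * MvPolynomial.pderiv 4 G
    + MvPolynomial.X 2 * MvPolynomial.pderiv 5 G + MvPolynomial.X 3 * MvPolynomial.pderiv 6 G
    + MvPolynomial.X 1 * MvPolynomial.X 2 * MvPolynomial.pderiv 7 G
    + MvPolynomial.X 1 * MvPolynomial.X 3 * MvPolynomial.pderiv 8 G

/-- `h d/dX` on the coefficients. -/
def D0 (G : MvPolynomial (Fin 9) ℂ[X]) : MvPolynomial (Fin 9) ℂ[X] :=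
  ∑ α ∈ G.support, MvPolynomial.monomial α (hf (X : ℂ[X]) * derivative (G.coeff α))

/-- The variable of the `i`-th logarithm. -/
def yi (i : Fin 3) : Fin 9 := ![1, 2, 3] i

/-- Multiplication by `δ i`. -/
def MV (i : Fin 3) (G : V) : V := fun I =>
  MvPolynomial.C (if i ∈ I then 1 else Df i (X : ℂ[X])) * G (symmDiff I {i})

/-- The formal version of `h d`. -/
def DV (G : V) : V := fun I =>
  D0 (G I) + MvPolynomial.C (∑ i ∈ I, lf i (X : ℂ[X])) * G I
    + MvPolynomial.C (hX (X : ℂ[X])) * E0 (G I)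
    + ∑ i : Fin 3, MvPolynomial.C (pf i (X : ℂ[X])) *
        MV i (fun J => MvPolynomial.pderiv (yi i) (G J)) I

/-- Evaluation of a formal combination. -/
def evV {O : Type} [CommRing O] [Algebra ℂ O] (S : Sys O) (G : V) : O :=
  ∑ I : Finset (Fin 3), (∏ i ∈ I, S.δ i) *
    MvPolynomial.eval₂ (aeval S.x : ℂ[X] →ₐ[ℂ] O).toRingHom S.y (G I)

/-! ### Part 5.  Volumes -/

/-- The conjecture in dimension 5. -/
def Hyp : Prop :=
  ∀ n : Fin 6 → EuclideanSpace ℝ (Fin 6), LinearIndependent ℝ n →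
    (∀ i j : Fin 6, i ≠ j →
      ∃ q : ℚ, InnerProductGeometry.angle (n i) (n j) = (q : ℝ) * Real.pi) →
    ∃ r : ℚ,
      (MeasureTheory.volume
          {x : EuclideanSpace ℝ (Fin 6) | ‖x‖ ≤ 1 ∧ ∀ i, 0 ≤ inner ℝ (n i) x}).toReal
        = (r : ℝ) *
          (MeasureTheory.volume (Metric.closedBall (0 : EuclideanSpace ℝ (Fin 6)) 1)).toReal

/-- Gaussian measure of a half-line. -/
def Eg (s : ℝ) : ℝ := ∫ v in Set.Ici (-s), Real.exp (-v ^ 2)

/-- Gaussian measure of a translated plane wedge. -/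
def Kf (m1 m2 c : ℝ) : ℝ :=
  ∫ u in Set.Ici (-m1), Real.exp (-u ^ 2) * Eg ((m2 + c * u) / √(1 - c ^ 2))

/-- A plane wedge with apex at the origin. -/
def Blk (c : ℝ) : Set (ℝ × ℝ) := {z | 0 ≤ z.2 ∧ 0 ≤ z.1 + c * z.2}

/-- Gaussian measure of the cone, as an integral over the two blocks. -/
def Gf (s c s' c' σ0 c0 : ℝ) : ℝ :=
  ∫ p in Blk c ×ˢ Blk c', Real.exp (-(p.1.1 ^ 2 + p.1.2 ^ 2 + p.2.1 ^ 2 + p.2.2 ^ 2)) *
    Kf ((s * p.1.1 + s' * p.2.1) / σ0) ((s * p.1.1 - s' * p.2.1) / σ0) c0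

/-- The six normals. -/
def nvec (s σ γ s' σ' γ' σ0 c0 : ℝ) : Fin 6 → EuclideanSpace ℝ (Fin 6) :=
  ![WithLp.toLp 2 ![s, 0, s', 0, σ0, 0],
    WithLp.toLp 2 ![s, 0, -s', 0, σ0 * c0, σ0 * √(1 - c0 ^ 2)],
    WithLp.toLp 2 ![σ, γ, 0, 0, 0, 0],
    WithLp.toLp 2 ![0, 1, 0, 0, 0, 0],
    WithLp.toLp 2 ![0, 0, σ', γ', 0, 0],
    WithLp.toLp 2 ![0, 0, 0, 1, 0, 0]]

/-- The parameter `c0` as a function of the moving dihedral angle. -/
def cz (s s' σ0 t : ℝ) : ℝ := (-Real.cos t - s ^ 2 + s' ^ 2) / σ0 ^ 2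

/-- The squares of the three slopes. -/
def qsq (i : Fin 3) (t : ℝ) : ℝ :=
  ![(1 - Real.cos t) / (1 - 3 * Real.cos t), (1 + Real.cos t) / (1 + 3 * Real.cos t),
    (1 + Real.cos t) / Real.cos t] i

/-- The three edge lengths. -/
def lam (i : Fin 3) (t : ℝ) : ℝ := Real.pi / 2 + Real.arctan √(qsq i t)

/-- The admissible range of the moving angle. -/
def Rng : Set ℝ := {t | 0 < t ∧ t < Real.pi ∧ 0 < Real.cos t ∧ Real.cos t < 1 / 3}

/-- `a` is a rational multiple of `π ^ e`. -/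
def RatPi (e : ℕ) (a : ℝ) : Prop := ∃ r : ℚ, a = (r : ℝ) * Real.pi ^ e

/-- What the conjecture gives: primitives with rational values at rational angles. -/
structure VolData (u : Fin 3 → ℝ → ℝ) (v : Fin 2 → ℝ → ℝ) : Prop where
  du : ∀ i, ∀ t ∈ Rng, HasDerivAt (u i) (lam i t) t
  dv : ∀ l : Fin 2, ∀ t ∈ Rng, HasDerivAt (v l) (lam 0 t * lam l.succ t) t
  ru : ∀ i, ∀ t ∈ Rng, RatPi 1 t → RatPi 2 (u i t)
  rv : ∀ l, ∀ t ∈ Rng, RatPi 1 t → RatPi 3 (v l t)

/-- The values of six of the nine functions are rational multiples of powers of `i π`. -/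
structure RatVal (y : Fin 9 → ℂ) : Prop where
  r0 : ∃ r : ℚ, y 0 = (r : ℂ) * (Complex.I * Real.pi)
  r4 : ∃ r : ℚ, y 4 = (r : ℂ) * (Complex.I * Real.pi) ^ 2
  r5 : ∃ r : ℚ, y 5 = (r : ℂ) * (Complex.I * Real.pi) ^ 2
  r6 : ∃ r : ℚ, y 6 = (r : ℂ) * (Complex.I * Real.pi) ^ 2
  r7 : ∃ r : ℚ, y 7 = (r : ℂ) * (Complex.I * Real.pi) ^ 3
  r8 : ∃ r : ℚ, y 8 = (r : ℂ) * (Complex.I * Real.pi) ^ 3

end

end Pool.Agent.CS5
end

-- merged part: Pool.Agent.Work.MP_8f8a35_gt.Int0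
section
/-!
The lattices `Lat S w` and the ring `Zx S`.

Plan.  `mem_Zx_iff`: `Subring.closure_induction`, and `Polynomial.induction_on` for the converse.
`Zx_mul_mem`: the set of `q` with `q * Lat ⊆ Lat` is a subring containing `x` (`Submodule.span_induction`).
`bas_mul`: `δ ^ I * δ ^ J = (∏ i ∈ I ∩ J, Df i x) * δ ^ (symmDiff I J)` from `S.sq` (`Finset.prod_sdiff`,
`Finset.prod_union`, or write the products over `univ` with `if`, factor by factor).
`mul_mem_Lat`: span induction in both factors, `bas_mul`, `wsum_add`.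
`Lat_repr`: span induction; a generator is `Pi.single (I, ⟨α, _⟩) (X ^ r)`.
-/

set_option autoImplicit false

open Polynomial

namespace Pool.Agent.CS5

theorem wsum_add (α β : Fin 9 → ℕ) : wsum (α + β) = wsum α + wsum β := by
  simp only [wsum, Pi.add_apply, mul_add, Finset.sum_add_distrib]

theorem wsum_single (j : Fin 9) : wsum (Pi.single j 1) = wt j := by
  rw [wsum, Finset.sum_eq_single j (fun i _ h => by rw [Pi.single_eq_of_ne h, mul_zero])
    (fun h => absurd (Finset.mem_univ j) h), Pi.single_eq_same, mul_one]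

theorem sum_le_wsum (α : Fin 9 → ℕ) : ∑ j, α j ≤ wsum α := by
  exact Finset.sum_le_sum fun j _ => Nat.le_mul_of_pos_left _ (one_le_wt j)

variable {O : Type} [CommRing O] [Algebra ℂ O] (S : Sys O)

theorem mem_Zx_iff (q : O) : q ∈ Zx S ↔ ∃ p : ℤ[X], q = aeval S.x p := by
  constructor
  · intro hq
    have : Zx S ≤ (aeval S.x : ℤ[X] →ₐ[ℤ] O).toRingHom.range :=
      Subring.closure_le.2 (Set.singleton_subset_iff.2 ⟨X, aeval_X _⟩)
    obtain ⟨p, hp⟩ := this hq
    exact ⟨p, hp.symm⟩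
  · rintro ⟨p, rfl⟩
    have hx : S.x ∈ Zx S := Subring.subset_closure rfl
    rw [aeval_eq_sum_range]
    exact (Zx S).sum_mem fun i _ => (Zx S).zsmul_mem ((Zx S).pow_mem hx i) _

theorem x_mem_Zx : S.x ∈ Zx S := by
  exact Subring.subset_closure rfl

theorem Df_mem_Zx (i : Fin 3) : Df i S.x ∈ Zx S := by
  exact (mem_Zx_iff S _).2 ⟨Df i X, by rw [map_Df, aeval_X]⟩

theorem hX_mem_Zx : hX S.x ∈ Zx S := by
  exact (mem_Zx_iff S _).2 ⟨hX X, by rw [map_hX, aeval_X]⟩

theorem hf_mem_Zx : hf S.x ∈ Zx S := by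
  exact (mem_Zx_iff S _).2 ⟨hf X, by rw [map_hf, aeval_X]⟩

theorem pf_mem_Zx (i : Fin 3) : pf i S.x ∈ Zx S := by
  exact (mem_Zx_iff S _).2 ⟨pf i X, by rw [map_pf, aeval_X]⟩

theorem bas_mul (I J : Finset (Fin 3)) (α β : Fin 9 → ℕ) :
    bas S.δ S.y I α * bas S.δ S.y J β
      = (∏ i ∈ I ∩ J, Df i S.x) * bas S.δ S.y (symmDiff I J) (α + β) := by
  have h1 : Disjoint (symmDiff I J) (I ∩ J) := disjoint_symmDiff_inf I J
  have h2 : symmDiff I J ∪ I ∩ J = I ∪ J := symmDiff_sup_inf I J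
  have h3 : (∏ i ∈ I, S.δ i) * ∏ i ∈ J, S.δ i =
      (∏ i ∈ I ∩ J, Df i S.x) * ∏ i ∈ symmDiff I J, S.δ i := by
    rw [← Finset.prod_union_inter, ← h2, Finset.prod_union h1]
    simp only [← S.sq, Finset.prod_pow]
    ring
  simp only [bas, Pi.add_apply, pow_add, Finset.prod_mul_distrib]
  rw [mul_mul_mul_comm, h3, mul_assoc]

theorem Lat_mono {a b : ℕ} (hab : a ≤ b) : Lat S a ≤ Lat S b := by
  exact Submodule.span_mono fun f ⟨r, I, α, h1, h2⟩ => ⟨r, I, α, h1.trans hab, h2⟩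

theorem bas_mem_Lat (I : Finset (Fin 3)) (α : Fin 9 → ℕ) {w : ℕ} (h : wsum α ≤ w) :
    bas S.δ S.y I α ∈ Lat S w := by
  exact Submodule.subset_span ⟨0, I, α, h, by rw [pow_zero, one_mul]⟩

theorem Int0_ind {w : ℕ} {p : O → Prop}
    (h1 : ∀ (r : ℕ) I α, wsum α ≤ w → p (S.x ^ r * bas S.δ S.y I α)) (h0 : p 0)
    (ha : ∀ x y, p x → p y → p (x + y)) (hs : ∀ (c : ℤ) x, p x → p (c • x)) {f : O}
    (hf : f ∈ Lat S w) : p f :=
  Submodule.span_induction (p := fun x _ => p x) (by rintro _ ⟨r, I, α, h, rfl⟩; exact h1 r I α h)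
    h0 (fun x y _ _ => ha x y) (fun c x _ => hs c x) hf

theorem Zx_mul_mem {q f : O} {w : ℕ} (hq : q ∈ Zx S) (hf : f ∈ Lat S w) : q * f ∈ Lat S w := by
  obtain ⟨p, rfl⟩ := (mem_Zx_iff S q).1 hq
  rw [aeval_eq_sum_range, Finset.sum_mul]
  refine sum_mem fun i _ => ?_
  rw [smul_mul_assoc]
  refine Submodule.smul_mem _ _ (Int0_ind S (p := fun f => S.x ^ i * f ∈ Lat S w) ?_ ?_ ?_ ?_ hf)
  · exact fun r I α h => Submodule.subset_span ⟨i + r, I, α, h, by rw [pow_add, mul_assoc]⟩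
  · simp
  · exact fun a b ha hb => by rw [mul_add]; exact add_mem ha hb
  · exact fun c a ha => by rw [mul_smul_comm]; exact Submodule.smul_mem _ c ha

theorem mul_mem_Lat {f g : O} {a b : ℕ} (hf : f ∈ Lat S a) (hg : g ∈ Lat S b) :
    f * g ∈ Lat S (a + b) := by
  refine Int0_ind S (p := fun f => f * g ∈ Lat S (a + b)) (fun r I α h => ?_) (by simp)
    (fun u v hu hv => by rw [add_mul]; exact add_mem hu hv)
    (fun c u hu => by rw [smul_mul_assoc]; exact Submodule.smul_mem _ c hu) hf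
  refine Int0_ind S (p := fun g => S.x ^ r * bas S.δ S.y I α * g ∈ Lat S (a + b))
    (fun r' J β h' => ?_) (by simp) (fun u v hu hv => by rw [mul_add]; exact add_mem hu hv)
    (fun c u hu => by rw [mul_smul_comm]; exact Submodule.smul_mem _ c hu) hg
  rw [mul_mul_mul_comm, bas_mul, ← mul_assoc]
  exact Zx_mul_mem S (mul_mem (mul_mem (pow_mem (x_mem_Zx S) _) (pow_mem (x_mem_Zx S) _))
    (prod_mem fun i _ => Df_mem_Zx S i))
    (bas_mem_Lat S _ _ ((wsum_add α β).trans_le (add_le_add h h')))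

theorem mem_Lat_of_Zx {q : O} (hq : q ∈ Zx S) (w : ℕ) : q ∈ Lat S w := by
  simpa [bas] using Zx_mul_mem S hq (bas_mem_Lat S ∅ 0 (w := w) (by simp [wsum]))

theorem δ_mem_Lat (i : Fin 3) : S.δ i ∈ Lat S 0 := by
  simpa [bas] using bas_mem_Lat S {i} 0 (w := 0) (by simp [wsum])

theorem y_mem_Lat (j : Fin 9) : S.y j ∈ Lat S (wt j) := by
  have := bas_mem_Lat S ∅ (Pi.single j 1) (wsum_single j).le
  rwa [bas, Finset.prod_empty, one_mul, Finset.prod_eq_single j
    (fun i _ h => by rw [Pi.single_eq_of_ne h, pow_zero]) (fun h => absurd (Finset.mem_univ j) h),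
    Pi.single_eq_same, pow_one] at this

theorem Lat_repr {f : O} {w : ℕ} (hf : f ∈ Lat S w) :
    ∃ Q : Idx w → ℤ[X], f = ∑ i, aeval S.x (Q i) * S.b i := by
  classical
  refine Int0_ind S (p := fun f => ∃ Q : Idx w → ℤ[X], f = ∑ i, aeval S.x (Q i) * S.b i)
    (fun r I α h => ⟨Pi.single (I, ⟨α, mem_Ex.2 h⟩) (X ^ r), ?_⟩) ⟨0, by simp⟩ ?_ ?_ hf
  · rw [Finset.sum_eq_single (I, ⟨α, mem_Ex.2 h⟩)
      (fun i _ h => by rw [Pi.single_eq_of_ne h, map_zero, zero_mul])
      (fun h => absurd (Finset.mem_univ _) h), Pi.single_eq_same, map_pow, aeval_X]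
    rfl
  · rintro _ _ ⟨P, rfl⟩ ⟨Q, rfl⟩
    exact ⟨P + Q, by simp only [Pi.add_apply, map_add, add_mul, Finset.sum_add_distrib]⟩
  · rintro c _ ⟨P, rfl⟩
    exact ⟨c • P, by simp only [Pi.smul_apply, map_zsmul, smul_mul_assoc, Finset.smul_sum]⟩

end Pool.Agent.CS5
end

-- merged part: Pool.Agent.Work.MP_8f8a35_gt.MatA
section
/-!
The matrix of the system on the basis of weight at most `w`.

Plan.  Let `InC w f` mean `∃ Q : Idx w → ℤ[X], (∀ i, natDegree (Q i) ≤ 11) ∧ f = ∑ i, aeval x (Q i) * S.b i`.  It is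
closed under sums and natural multiples and holds for `aeval x q * bas δ y I α` if `natDegree q ≤ 11`,
`wsum α ≤ w` (`Pi.single`).  Leibniz rule (`Derivation.leibniz_prod`, `leibniz_pow`, `Sys.dδ`, `S.dy`):
`h d (bas I α) = ∑ i ∈ I, lf i x * bas I α + ∑ j, α j • (bas I (α - single j 1) * rhs j)`.
For `α j ≥ 1`, `rhs j` is `hX x * bas ∅ β` with `wsum β < wt j`, or `pf i x * bas {i} 0`; use `bas_mul`.  Degrees:
`lf i X`, `hX X`, `pf i X`, `pf i X * Df i X` have `natDegree ≤ 11` (`compute_degree`); `map_lf` and so on turn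
`lf i S.x` into `aeval S.x (lf i X)`.
-/

set_option autoImplicit false

open Polynomial

namespace Pool.Agent.CS5

theorem MatA_Df (i : Fin 3) : (Df i (X : ℤ[X])).natDegree ≤ 2 := by
  fin_cases i
  · show (-(3 * X ^ 2 - 2 * X + 3) : ℤ[X]).natDegree ≤ 2
    compute_degree
  · show (-(3 * X ^ 2 + 2 * X + 3) : ℤ[X]).natDegree ≤ 2
    compute_degree
  · show (-(X ^ 2 + 1) : ℤ[X]).natDegree ≤ 2
    compute_degree

theorem MatA_Qa : (Qa (X : ℤ[X])).natDegree ≤ 2 := by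
  unfold Qa
  compute_degree

theorem MatA_Qb : (Qb (X : ℤ[X])).natDegree ≤ 2 := by
  unfold Qb
  compute_degree

theorem MatA_mul {p q : ℤ[X]} {a b : ℕ} (hp : p.natDegree ≤ a) (hq : q.natDegree ≤ b) :
    (p * q).natDegree ≤ a + b := natDegree_mul_le_of_le hp hq

theorem MatA_hX : (hX (X : ℤ[X])).natDegree ≤ 10 :=
  MatA_mul (MatA_mul (MatA_mul (MatA_mul (MatA_mul (a := 0) (by compute_degree) (MatA_Df 0))
    (MatA_Df 1)) (MatA_Df 2)) MatA_Qa) MatA_Qb

theorem natDegree_hf : (hf (X : ℤ[X])).natDegree ≤ 11 :=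
  MatA_mul (a := 1) natDegree_X_le MatA_hX

theorem MatA_lf (i : Fin 3) : (lf i (X : ℤ[X])).natDegree ≤ 10 := by
  fin_cases i
  · exact MatA_mul (b := 1) (MatA_mul (MatA_mul (MatA_mul (MatA_mul (a := 1) (by compute_degree)
      (MatA_Df 1)) (MatA_Df 2)) MatA_Qa) MatA_Qb) (by compute_degree)
  · exact MatA_mul (b := 1) (MatA_mul (MatA_mul (MatA_mul (MatA_mul (a := 1) (by compute_degree)
      (MatA_Df 0)) (MatA_Df 2)) MatA_Qa) MatA_Qb) (by compute_degree)
  · exact MatA_mul (b := 1) (MatA_mul (MatA_mul (MatA_mul (MatA_mul (a := 1) (by compute_degree)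
      (MatA_Df 0)) (MatA_Df 1)) MatA_Qa) MatA_Qb) (by compute_degree)

theorem MatA_pf (i : Fin 3) : (pf i (X : ℤ[X])).natDegree ≤ 8 := by
  fin_cases i
  · exact MatA_mul (b := 1) (MatA_mul (MatA_mul (MatA_mul (a := 1) (by compute_degree)
      (MatA_Df 1)) (MatA_Df 2)) MatA_Qb) (by compute_degree)
  · exact MatA_mul (b := 1) (MatA_mul (MatA_mul (MatA_mul (a := 1) (by compute_degree)
      (MatA_Df 0)) (MatA_Df 2)) MatA_Qa) (by compute_degree)
  · exact MatA_mul (b := 1) (MatA_mul (MatA_mul (MatA_mul (a := 1) (by compute_degree)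
      (MatA_Df 0)) (MatA_Df 1)) MatA_Qa) (by compute_degree)

section

variable {O : Type} [CommRing O] [Algebra ℂ O] (S : Sys O)

/-- combinations of the basis with coefficients of degree at most eleven -/
def MatA_In (w : ℕ) (f : O) : Prop :=
  ∃ Q : Idx w → ℤ[X], (∀ i, (Q i).natDegree ≤ 11) ∧ f = ∑ i, aeval S.x (Q i) * S.b i

variable {S}

theorem MatA_zero (w : ℕ) : MatA_In S w 0 := ⟨0, fun _ => by simp, by simp⟩

theorem MatA_add {w : ℕ} {f g : O} (hf : MatA_In S w f) (hg : MatA_In S w g) :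
    MatA_In S w (f + g) := by
  obtain ⟨P, h1, rfl⟩ := hf
  obtain ⟨Q, h2, rfl⟩ := hg
  refine ⟨P + Q, fun i => (natDegree_add_le _ _).trans (max_le (h1 i) (h2 i)), ?_⟩
  simp only [Pi.add_apply, map_add, add_mul, Finset.sum_add_distrib]

theorem MatA_bas {w : ℕ} {q : ℤ[X]} (hq : q.natDegree ≤ 11) (I : Finset (Fin 3)) {α : Fin 9 → ℕ}
    (h : wsum α ≤ w) : MatA_In S w (aeval S.x q * bas S.δ S.y I α) := by
  classical
  refine ⟨Pi.single (I, ⟨α, mem_Ex.2 h⟩) q, fun i => ?_, ?_⟩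
  · rw [Pi.single_apply]
    split_ifs
    · exact hq
    · simp
  · rw [Finset.sum_eq_single (I, ⟨α, mem_Ex.2 h⟩)]
    · rw [Pi.single_eq_same]
      rfl
    · intro j _ hj
      rw [Pi.single_eq_of_ne hj, map_zero, zero_mul]
    · intro h
      exact absurd (Finset.mem_univ _) h

theorem MatA_y (I : Finset (Fin 3)) (γ : Fin 9 → ℕ) (j : Fin 9) :
    bas S.δ S.y I (γ + Pi.single j 1) = bas S.δ S.y I γ * S.y j := by
  have e : ∏ k, S.y k ^ (Pi.single j 1 : Fin 9 → ℕ) k = S.y j := by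
    rw [Finset.prod_eq_single j]
    · simp
    · intro k _ hk
      simp [hk]
    · intro h
      exact absurd (Finset.mem_univ _) h
  simp only [bas, Pi.add_apply, pow_add, Finset.prod_mul_distrib, e, mul_assoc]

theorem MatA_h0 {w : ℕ} (I : Finset (Fin 3)) {γ : Fin 9 → ℕ} (h : wsum γ ≤ w) :
    MatA_In S w (bas S.δ S.y I γ * hX S.x) := by
  have h1 := MatA_bas (S := S) (MatA_hX.trans (by norm_num)) I h
  rwa [map_hX, aeval_X, mul_comm] at h1

theorem MatA_h1 {w : ℕ} (I : Finset (Fin 3)) {γ : Fin 9 → ℕ} (j : Fin 9) (h : wsum γ + wt j ≤ w) :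
    MatA_In S w (bas S.δ S.y I γ * (hX S.x * S.y j)) := by
  have h1 := MatA_h0 (S := S) (w := w) I (γ := γ + Pi.single j 1) (by rwa [wsum_add, wsum_single])
  rwa [MatA_y, mul_right_comm, mul_assoc] at h1

theorem MatA_h2 {w : ℕ} (I : Finset (Fin 3)) {γ : Fin 9 → ℕ} (j l : Fin 9)
    (h : wsum γ + wt j + wt l ≤ w) :
    MatA_In S w (bas S.δ S.y I γ * (hX S.x * (S.y j * S.y l))) := by
  have h1 := MatA_h1 (S := S) (w := w) I (γ := γ + Pi.single j 1) l
    (by rwa [wsum_add, wsum_single])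
  rw [MatA_y] at h1
  convert h1 using 1
  ring

theorem MatA_p {w : ℕ} (I : Finset (Fin 3)) {γ : Fin 9 → ℕ} (i : Fin 3) (h : wsum γ ≤ w) :
    MatA_In S w (bas S.δ S.y I γ * (pf i S.x * S.δ i)) := by
  by_cases hi : i ∈ I
  · have h1 := MatA_bas (S := S) ((MatA_mul (MatA_pf i) (MatA_Df i)).trans (by norm_num))
      (I.erase i) h
    rw [map_mul, map_pf, map_Df, aeval_X, ← S.sq] at h1
    convert h1 using 1
    rw [bas, bas, ← Finset.mul_prod_erase I _ hi]
    ring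
  · have h1 := MatA_bas (S := S) ((MatA_pf i).trans (by norm_num)) (insert i I) h
    rw [map_pf, aeval_X] at h1
    convert h1 using 1
    rw [bas, bas, Finset.prod_insert hi]
    ring

theorem MatA_rhs {w : ℕ} (I : Finset (Fin 3)) {γ : Fin 9 → ℕ} (j : Fin 9) (h : wsum γ + wt j ≤ w) :
    MatA_In S w (bas S.δ S.y I γ * rhs S.x S.δ S.y j) := by
  have h0 : wsum γ ≤ w := by omega
  fin_cases j
  · exact MatA_h0 I h0
  · exact MatA_p I 0 h0
  · exact MatA_p I 1 h0
  · exact MatA_p I 2 h0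
  · exact MatA_h1 I 1 (le_trans (Nat.add_le_add_left (by decide) _) h)
  · exact MatA_h1 I 2 (le_trans (Nat.add_le_add_left (by decide) _) h)
  · exact MatA_h1 I 3 (le_trans (Nat.add_le_add_left (by decide) _) h)
  · exact MatA_h2 I 1 2 (by
      rw [add_assoc]
      exact le_trans (Nat.add_le_add_left (by decide) _) h)
  · exact MatA_h2 I 1 3 (by
      rw [add_assoc]
      exact le_trans (Nat.add_le_add_left (by decide) _) h)

theorem MatA_dy {w : ℕ} (I : Finset (Fin 3)) (n : ℕ) : ∀ α β : Fin 9 → ℕ, ∑ j, α j = n →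
    wsum α + wsum β ≤ w →
    MatA_In S w (bas S.δ S.y I β * (hf S.x * S.d (bas S.δ S.y ∅ α))) := by
  induction n with
  | zero =>
    intro α β hα _
    have e : α = 0 := funext fun j => (Finset.sum_eq_zero_iff.1 hα) j (Finset.mem_univ j)
    have e1 : bas S.δ S.y ∅ α = 1 := by simp [bas, e]
    rw [e1, Derivation.map_one_eq_zero, mul_zero, mul_zero]
    exact MatA_zero w
  | succ n ih =>
    intro α β hα h
    obtain ⟨j, -, hj⟩ := Finset.exists_ne_zero_of_sum_ne_zero (hα.trans_ne n.succ_ne_zero)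
    obtain ⟨α', rfl⟩ : ∃ α' : Fin 9 → ℕ, α = α' + Pi.single j 1 := by
      refine ⟨fun k => α k - if k = j then 1 else 0, funext fun k => ?_⟩
      rw [Pi.add_apply, Pi.single_apply]
      split_ifs with e
      · subst e
        omega
      · omega
    rw [wsum_add, wsum_single] at h
    have h1 : ∑ k, α' k = n := by
      simp only [Pi.add_apply, Finset.sum_add_distrib, Finset.sum_pi_single', Finset.mem_univ,
        if_true] at hα
      omega
    have h2 := ih α' (β + Pi.single j 1) h1 (by rw [wsum_add, wsum_single]; omega)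
    have h3 := MatA_rhs (S := S) (w := w) I (γ := β + α') j (by rw [wsum_add]; omega)
    have e : bas S.δ S.y I (β + α') = bas S.δ S.y I β * bas S.δ S.y ∅ α' := by
      simp only [bas, Pi.add_apply, pow_add, Finset.prod_mul_distrib, Finset.prod_empty, one_mul,
        mul_assoc]
    rw [MatA_y] at h2
    rw [e, ← S.dy] at h3
    convert MatA_add h2 h3 using 1
    rw [MatA_y, Derivation.leibniz, smul_eq_mul, smul_eq_mul]
    ring

theorem MatA_dδ (I : Finset (Fin 3)) :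
    hf S.x * S.d (∏ i ∈ I, S.δ i) = (∑ i ∈ I, lf i S.x) * ∏ i ∈ I, S.δ i := by
  induction I using Finset.induction_on with
  | empty => simp
  | insert i I hi ih =>
    rw [Finset.prod_insert hi, Finset.sum_insert hi, Derivation.leibniz, smul_eq_mul, smul_eq_mul]
    linear_combination S.δ i * ih + (∏ i ∈ I, S.δ i) * S.dδ i

theorem MatA_main {w : ℕ} (I : Finset (Fin 3)) {α : Fin 9 → ℕ} (h : wsum α ≤ w) :
    MatA_In S w (hf S.x * S.d (bas S.δ S.y I α)) := by
  have h0 : wsum 0 = 0 := by simp [wsum]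
  have h1 := MatA_dy (S := S) (w := w) I _ α 0 rfl (by omega)
  have h2 := MatA_bas (S := S) (q := ∑ i ∈ I, lf i X)
    (natDegree_sum_le_of_forall_le _ _ fun i _ => (MatA_lf i).trans (by norm_num)) I h
  simp only [map_sum, map_lf, aeval_X] at h2
  convert MatA_add h1 h2 using 1
  simp only [bas, Finset.prod_empty, one_mul, Pi.zero_apply, pow_zero, Finset.prod_const_one,
    mul_one, Derivation.leibniz, smul_eq_mul]
  linear_combination (∏ j, S.y j ^ α j) * MatA_dδ (S := S) I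

end

theorem Sys.exists_matrix {O : Type} [CommRing O] [Algebra ℂ O] (S : Sys O) (w : ℕ) :
    ∃ A : Idx w → Idx w → ℤ[X], (∀ i j, (A i j).natDegree ≤ 11) ∧
      ∀ i, hf S.x * S.d (S.b i) = ∑ j, aeval S.x (A i j) * S.b j := by
  choose A h1 h2 using fun i : Idx w => MatA_main (S := S) i.1 (mem_Ex.1 i.2.2)
  exact ⟨A, h1, h2⟩

end Pool.Agent.CS5
end

-- merged part: Pool.Agent.Work.MP_8f8a35_gt.Ind1
section
/-!
The formal operators against evaluation, and their coefficients.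

Plan.  Write `ev G = MvPolynomial.eval₂ (aeval S.x) S.y G` (a ring homomorphism, `eval₂Hom`).
Key formula (induction `MvPolynomial.induction_on`, both sides are derivations; or additivity plus
monomials):  `h * d (ev G) = ev (D0 G) + ∑ j, ev (pderiv j G) * (h * d (y j))`; for this show `D0` additive and
`D0 (G * X j) = D0 G * X j` through `coeff_D0`, `D0 (C c) = C (h c')`, and `d (aeval x c) = aeval x c'`
(`Derivation.map_aeval`-type lemma, `S.dx`).  Insert `S.dy` and `rhs`: the sum is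
`hX * ev (E0 G) + ∑ i, pf i * δ i * ev (pderiv (yi i) G)`.  `h * d (∏ i ∈ I, δ i) = (∑ i ∈ I, lf i) * ∏ i ∈ I, δ i`
by `Sys.dδ` and induction on `I`.  `evV_MV`: reindex the sum by the involution `I ↦ symmDiff I {i}`
(`Finset.sum_bijective`, `Function.Involutive`), using `S.sq`:
`δ i * δ ^ (J) = (if i ∈ I then 1 else Df i) * δ ^ I` for `J = symmDiff I {i}`.
`map_hf`, `map_lf`, `map_pf`, `map_Df`, `map_hX` turn `aeval S.x (hf X)` into `hf S.x`.
Coefficients: `coeff β (pderiv j G) = (β j + 1) * coeff (β + single j 1) G`, `MvPolynomial.coeff_X_mul'`;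
every term of `E0` lowers the weight by exactly one.
-/

set_option autoImplicit false

open Polynomial

namespace Pool.Agent.CS5

theorem coeff_D0 (G : MvPolynomial (Fin 9) ℂ[X]) (α : Fin 9 →₀ ℕ) :
    (D0 G).coeff α = hf (X : ℂ[X]) * derivative (G.coeff α) := by
  classical
  simp only [D0, MvPolynomial.coeff_sum, MvPolynomial.coeff_monomial]
  rw [Finset.sum_ite_eq']
  split_ifs with h
  · rfl
  · rw [MvPolynomial.notMem_support_iff.1 h, derivative_zero, mul_zero]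

theorem Ind1_wsum_add (β : Fin 9 →₀ ℕ) (j : Fin 9) :
    wsum (β + Finsupp.single j 1 : Fin 9 →₀ ℕ) = wsum β + wt j := by
  simp [wsum, mul_add, Finset.sum_add_distrib, Finsupp.single_apply]

theorem Ind1_X_mul {K : Type} [CommRing K] (i : Fin 9) (P P' : MvPolynomial (Fin 9) K)
    (β : Fin 9 →₀ ℕ) (h : ∀ γ : Fin 9 →₀ ℕ, wsum γ + wt i = wsum β → P.coeff γ = P'.coeff γ) :
    (MvPolynomial.X i * P).coeff β = (MvPolynomial.X i * P').coeff β := by
  rw [MvPolynomial.coeff_X_mul', MvPolynomial.coeff_X_mul']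
  split_ifs with k
  · refine h _ ?_
    rw [← Ind1_wsum_add, tsub_add_cancel_of_le]
    rw [Finsupp.single_le_iff]
    exact Nat.one_le_iff_ne_zero.2 (Finsupp.mem_support_iff.1 k)
  · rfl

theorem coeff_pderiv_congr {K : Type} [CommRing K] (j : Fin 9) (G G' : MvPolynomial (Fin 9) K)
    (β : Fin 9 →₀ ℕ) (h : ∀ α : Fin 9 →₀ ℕ, wsum α = wsum β + wt j → G.coeff α = G'.coeff α) :
    (MvPolynomial.pderiv j G).coeff β = (MvPolynomial.pderiv j G').coeff β := by
  rw [MvPolynomial.coeff_pderiv, MvPolynomial.coeff_pderiv, h _ (Ind1_wsum_add β j)]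

theorem coeff_E0_congr {K : Type} [CommRing K] (G G' : MvPolynomial (Fin 9) K)
    (β : Fin 9 →₀ ℕ) (h : ∀ α : Fin 9 →₀ ℕ, wsum α = wsum β + 1 → G.coeff α = G'.coeff α) :
    (E0 G).coeff β = (E0 G').coeff β := by
  have one : ∀ i j : Fin 9, wt j = wt i + 1 →
      (MvPolynomial.X i * MvPolynomial.pderiv j G).coeff β =
        (MvPolynomial.X i * MvPolynomial.pderiv j G').coeff β := fun i j hj =>
    Ind1_X_mul i _ _ β fun γ hγ => coeff_pderiv_congr j G G' γ fun α hα => h α (by omega)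
  have two : ∀ i k j : Fin 9, wt j = wt i + wt k + 1 →
      (MvPolynomial.X i * MvPolynomial.X k * MvPolynomial.pderiv j G).coeff β =
        (MvPolynomial.X i * MvPolynomial.X k * MvPolynomial.pderiv j G').coeff β := by
    intro i k j hj
    rw [mul_assoc, mul_assoc]
    exact Ind1_X_mul i _ _ β fun γ hγ => Ind1_X_mul k _ _ γ fun γ' hγ' =>
      coeff_pderiv_congr j G G' γ' fun α hα => h α (by omega)
  simp only [E0, MvPolynomial.coeff_add]
  rw [coeff_pderiv_congr 0 G G' β h, one 1 4 rfl, one 2 5 rfl, one 3 6 rfl, two 1 2 7 rfl,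
    two 1 3 8 rfl]

theorem wt_yi (i : Fin 3) : wt (yi i) = 1 := by
  fin_cases i <;> rfl

theorem E0_zero {K : Type} [CommRing K] : E0 (0 : MvPolynomial (Fin 9) K) = 0 := by
  simp [E0]

theorem E0_C_mul_map (g : ℂ[X]) (G : MvPolynomial (Fin 9) ℂ) :
    E0 (MvPolynomial.C g * MvPolynomial.map (C : ℂ →+* ℂ[X]) G)
      = MvPolynomial.C g * MvPolynomial.map (C : ℂ →+* ℂ[X]) (E0 G) := by
  simp only [E0, MvPolynomial.pderiv_C_mul, MvPolynomial.pderiv_map, map_add, map_mul,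
    MvPolynomial.map_X]
  ring

theorem pderiv_C_mul_map (j : Fin 9) (g : ℂ[X]) (G : MvPolynomial (Fin 9) ℂ) :
    MvPolynomial.pderiv j (MvPolynomial.C g * MvPolynomial.map (C : ℂ →+* ℂ[X]) G)
      = MvPolynomial.C g * MvPolynomial.map (C : ℂ →+* ℂ[X]) (MvPolynomial.pderiv j G) := by
  rw [MvPolynomial.pderiv_C_mul, MvPolynomial.pderiv_map]

/-- The coefficients of `DV G`. -/
theorem coeff_DV (G : V) (I : Finset (Fin 3)) (α : Fin 9 →₀ ℕ) :
    (DV G I).coeff α = hf (X : ℂ[X]) * derivative ((G I).coeff α)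
      + (∑ i ∈ I, lf i (X : ℂ[X])) * (G I).coeff α + hX (X : ℂ[X]) * (E0 (G I)).coeff α
      + ∑ i : Fin 3, pf i (X : ℂ[X]) * ((if i ∈ I then 1 else Df i (X : ℂ[X])) *
          (MvPolynomial.pderiv (yi i) (G (symmDiff I {i}))).coeff α) := by
  simp only [DV, MV, MvPolynomial.coeff_add, MvPolynomial.coeff_sum, MvPolynomial.coeff_C_mul,
    coeff_D0]

variable {O : Type} [CommRing O] [Algebra ℂ O] (S : Sys O)

theorem evV_zero : evV S 0 = 0 := by
  simp [evV]

theorem evV_add (G G' : V) : evV S (G + G') = evV S G + evV S G' := by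
  simp only [evV, Pi.add_apply, MvPolynomial.eval₂_add, mul_add, Finset.sum_add_distrib]

theorem evV_smul (g : ℂ[X]) (G : V) : evV S (g • G) = aeval S.x g * evV S G := by
  simp only [evV, Pi.smul_apply, MvPolynomial.smul_eq_C_mul, MvPolynomial.eval₂_mul,
    MvPolynomial.eval₂_C, Finset.mul_sum]
  exact Finset.sum_congr rfl fun I _ => mul_left_comm _ _ _

theorem evV_MV (i : Fin 3) (G : V) : evV S (MV i G) = S.δ i * evV S G := by
  have inv : Function.Involutive fun I : Finset (Fin 3) => symmDiff I {i} := fun I =>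
    symmDiff_symmDiff_cancel_right _ _
  simp only [evV, MV, Finset.mul_sum, MvPolynomial.eval₂_mul, MvPolynomial.eval₂_C]
  refine Finset.sum_bijective _ inv.bijective (fun _ => by simp) fun I _ => ?_
  rw [← mul_assoc, ← mul_assoc]
  congr 1
  by_cases h : i ∈ I
  · have e : symmDiff I {i} = I.erase i := by
      ext x
      by_cases k : x = i <;> simp [Finset.mem_symmDiff, k, h]
    rw [if_pos h, map_one, mul_one, e, Finset.mul_prod_erase _ _ h]
  · have e : symmDiff I {i} = insert i I := by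
      ext x
      by_cases k : x = i <;> simp [Finset.mem_symmDiff, k, h]
    rw [if_neg h, e, Finset.prod_insert h, map_Df, ← mul_assoc, ← pow_two, S.sq, mul_comm]
    simp

/-- evaluation of one component -/
noncomputable def Ind1_ev : MvPolynomial (Fin 9) ℂ[X] →+* O :=
  MvPolynomial.eval₂Hom (aeval S.x : ℂ[X] →ₐ[ℂ] O).toRingHom S.y

theorem Ind1_ev_C (c : ℂ[X]) : Ind1_ev S (MvPolynomial.C c) = aeval S.x c :=
  MvPolynomial.eval₂Hom_C _ _ _

theorem Ind1_ev_X (j : Fin 9) : Ind1_ev S (MvPolynomial.X j) = S.y j :=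
  MvPolynomial.eval₂Hom_X' _ _ _

theorem Ind1_gen (G : MvPolynomial (Fin 9) ℂ[X]) :
    hf S.x * S.d (Ind1_ev S G) = Ind1_ev S (D0 G) +
      ∑ j, Ind1_ev S (MvPolynomial.pderiv j G) * (hf S.x * S.d (S.y j)) := by
  induction G using MvPolynomial.induction_on with
  | C c =>
    have e : D0 (MvPolynomial.C c) = MvPolynomial.C (hf (X : ℂ[X]) * derivative c) := by
      ext1 α
      rw [coeff_D0, MvPolynomial.coeff_C, MvPolynomial.coeff_C]
      split_ifs <;> simp
    simp only [e, Ind1_ev_C, MvPolynomial.pderiv_C, map_zero, zero_mul, Finset.sum_const_zero,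
      add_zero, map_mul, map_hf, aeval_X, Derivation.map_aeval, S.dx, smul_eq_mul, mul_one]
  | add P Q hP hQ =>
    have e : D0 (P + Q) = D0 P + D0 Q := by
      ext1 α
      simp only [coeff_D0, MvPolynomial.coeff_add, derivative_add, mul_add]
    simp only [e, map_add, mul_add, add_mul, hP, hQ, Finset.sum_add_distrib]
    ring
  | mul_X P j hP =>
    have e : D0 (P * MvPolynomial.X j) = D0 P * MvPolynomial.X j := by
      ext1 α
      rw [coeff_D0, MvPolynomial.coeff_mul_X', MvPolynomial.coeff_mul_X', coeff_D0]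
      split_ifs <;> simp
    have s : ∑ k, Ind1_ev S P * Ind1_ev S (MvPolynomial.pderiv k (MvPolynomial.X j)) *
        (hf S.x * S.d (S.y k)) = Ind1_ev S P * (hf S.x * S.d (S.y j)) := by
      rw [Finset.sum_eq_single j]
      · simp
      · intro k _ hk
        simp [MvPolynomial.pderiv_X_of_ne hk.symm]
      · simp
    simp only [e, MvPolynomial.pderiv_mul, map_add, map_mul, add_mul, Finset.sum_add_distrib, s,
      Ind1_ev_X]
    simp only [mul_right_comm _ (S.y j), ← Finset.sum_mul]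
    rw [Derivation.leibniz, smul_eq_mul, smul_eq_mul]
    linear_combination S.y j * hP

theorem Ind1_key (G : MvPolynomial (Fin 9) ℂ[X]) :
    hf S.x * S.d (Ind1_ev S G) = Ind1_ev S (D0 G) + hX S.x * Ind1_ev S (E0 G) +
      ∑ i : Fin 3, pf i S.x * (S.δ i * Ind1_ev S (MvPolynomial.pderiv (yi i) G)) := by
  rw [Ind1_gen]
  simp only [S.dy, E0, map_add, map_mul, Ind1_ev_X, Fin.sum_univ_succ, Fin.sum_univ_zero]
  simp [rhs, yi]
  ring

theorem Ind1_prod (I : Finset (Fin 3)) :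
    hf S.x * S.d (∏ k ∈ I, S.δ k) = (∑ i ∈ I, lf i S.x) * ∏ k ∈ I, S.δ k := by
  induction I using Finset.induction_on with
  | empty => simp
  | insert a I ha ih =>
    rw [Finset.prod_insert ha, Finset.sum_insert ha, Derivation.leibniz, smul_eq_mul, smul_eq_mul]
    linear_combination S.δ a * ih + (∏ k ∈ I, S.δ k) * S.dδ a

theorem evV_DV (G : V) : evV S (DV G) = hf S.x * S.d (evV S G) := by
  have m : ∀ i : Fin 3, ∑ I : Finset (Fin 3), (∏ k ∈ I, S.δ k) * Ind1_ev S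
      (MV i (fun J => MvPolynomial.pderiv (yi i) (G J)) I) = S.δ i * ∑ I : Finset (Fin 3),
        (∏ k ∈ I, S.δ k) * Ind1_ev S (MvPolynomial.pderiv (yi i) (G I)) := fun i =>
    evV_MV S i _
  have l : evV S (DV G) = ∑ I : Finset (Fin 3), (∏ k ∈ I, S.δ k) * (Ind1_ev S (D0 (G I)) +
      (∑ i ∈ I, lf i S.x) * Ind1_ev S (G I) + hX S.x * Ind1_ev S (E0 (G I))) +
      ∑ i : Fin 3, pf i S.x * ∑ I : Finset (Fin 3), (∏ k ∈ I, S.δ k) * Ind1_ev S
        (MV i (fun J => MvPolynomial.pderiv (yi i) (G J)) I) := by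
    change ∑ I : Finset (Fin 3), (∏ k ∈ I, S.δ k) * Ind1_ev S (DV G I) = _
    simp only [DV, map_add, map_mul, map_sum, Ind1_ev_C, map_lf, map_hX, map_pf, aeval_X,
      mul_add (∏ k ∈ _, S.δ k) _ (∑ i : Fin 3, _), Finset.sum_add_distrib, Finset.mul_sum]
    congr 1
    rw [Finset.sum_comm]
    exact Finset.sum_congr rfl fun i _ => Finset.sum_congr rfl fun I _ => mul_left_comm _ _ _
  have r : hf S.x * S.d (evV S G) = ∑ I : Finset (Fin 3), ((∏ k ∈ I, S.δ k) *
      (hf S.x * S.d (Ind1_ev S (G I))) + Ind1_ev S (G I) * (hf S.x * S.d (∏ k ∈ I, S.δ k))) := by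
    change hf S.x * S.d (∑ I : Finset (Fin 3), (∏ k ∈ I, S.δ k) * Ind1_ev S (G I)) = _
    rw [map_sum, Finset.mul_sum]
    refine Finset.sum_congr rfl fun I _ => ?_
    rw [Derivation.leibniz, smul_eq_mul, smul_eq_mul]
    ring
  rw [l, r]
  simp only [m, Ind1_key, Ind1_prod]
  simp only [Finset.mul_sum]
  rw [Finset.sum_comm (s := Finset.univ (α := Fin 3)), ← Finset.sum_add_distrib]
  refine Finset.sum_congr rfl fun I _ => ?_
  simp only [Fin.sum_univ_three]
  ring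

theorem evV_single (g : ℂ[X]) :
    evV S (Pi.single (∅ : Finset (Fin 3)) (MvPolynomial.C g) : V) = aeval S.x g := by
  rw [evV, Finset.sum_eq_single ∅]
  · simp
  · intro I _ h
    simp [Pi.single_eq_of_ne h]
  · simp

end Pool.Agent.CS5
end

-- merged part: Pool.Agent.Work.MP_8f8a35_gt.Ord
section
/-!
Order-of-vanishing lemmas, the roots of `h`, and a commutator argument.

Plan.  `ord_eval`: write `g = (X - C x0) ^ α * g1`, `r = (X - C x0) ^ β * r1`, `a = (X - C x0) * a1` with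
`a1(x0) = a'(x0)`.  Then `(X - C x0) * g' = (X - C x0) ^ α * (α g1 + (X - C x0) g1')` (also for `α = 0`), so the
expression is `(X - C x0) ^ (α + β) * z` with the stated value.
`ord_L1`: if `r ≠ 0` then `z = 0`, so `a'(x0) (β - α + 1 / 2) = 0`, impossible for integers `α, β`.
`ord_L2`: if `r = 0` then `κ e g ^ 2 = 0`.  Else, if `κ ≠ 0`, `(X - C x0) ^ (α + β) z = -(X - C x0) ^ (2 α) κ e g1 ^ 2` where
the last factor does not vanish at `x0`.  If `β = α` cancel and evaluate: `z(x0) = 0`, contradiction.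
If `β ≠ α` then `z(x0) ≠ 0`, and comparing orders gives `α + β = 2 α`, contradiction.
`ord_L0`: as in `ord_L2` with `a = X`, `b = 0`, `x0 = 0`: the orders of `g` and `r` agree, subtract `C κ * g` to
raise the order (or use `Polynomial.wronskian` facts, or degrees).
Roots: `root_X`: `x0 = 0`.  `root_Q 0`: a root of `x ^ 2 - x + 1`; `root_Q 1`, `root_Q 2`: a root of `x ^ 2 + x + 1`.
`root_D i`: a root of `Df i` (`IsAlgClosed.exists_pow_nat_eq` or explicit formulas with `Complex.I * √`).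
With `x0 ≠ 0` and the quadratic relation every other factor is a nonzero multiple of `x0`
(for instance on `3 x ^ 2 - 2 x + 3 = 0`: `Df 1 = -4 x`, `Df 2 = -2 x / 3`, `Qa = -x / 3`, `Qb = 5 x / 3`).
`lie_const`: apply `pderiv` to `E0 G = 0` (`MvPolynomial.pderiv_mul`, `pderiv_X`, commuting of `pderiv`):
`pderiv 1` gives `∂4 G + X 2 ∂7 G + X 3 ∂8 G = 0`; `pderiv 2` of that gives `∂7 G = 0`, `pderiv 3` gives `∂8 G = 0`; then
`∂4, ∂5, ∂6, ∂0` vanish.  A polynomial over `ℂ` with all `pderiv` zero is constant (coefficient of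
`α - single j 1` in `pderiv j G` is `α j * coeff α G`).
-/

set_option autoImplicit false

open Polynomial

namespace Pool.Agent.CS5

theorem Ord_dpow (g1 : ℂ[X]) (x0 : ℂ) (α : ℕ) :
    (X - C x0) * derivative ((X - C x0) ^ α * g1)
      = (X - C x0) ^ α * ((α : ℂ[X]) * g1 + (X - C x0) * derivative g1) := by
  rcases α with _ | n
  · simp
  · rw [derivative_mul, derivative_pow]
    simp only [derivative_sub, derivative_X, derivative_C, sub_zero, mul_one, Nat.add_sub_cancel,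
      map_natCast]
    ring

theorem Ord_dec {g : ℂ[X]} (hg : g ≠ 0) (x0 : ℂ) :
    ∃ (α : ℕ) (g1 : ℂ[X]), g = (X - C x0) ^ α * g1 ∧ g1.eval x0 ≠ 0 := by
  obtain ⟨q, hq, hn⟩ := exists_eq_pow_rootMultiplicity_mul_and_not_dvd g hg x0
  exact ⟨_, q, hq, fun h => hn (dvd_iff_isRoot.2 h)⟩

theorem Ord_cmp {x0 : ℂ} {m n : ℕ} {u v : ℂ[X]} (hu : u.eval x0 ≠ 0)
    (h : (X - C x0) ^ m * u = (X - C x0) ^ n * v) : n ≤ m := by
  by_contra hlt
  obtain ⟨k, rfl⟩ : ∃ k, n = m + (k + 1) := ⟨n - m - 1, by omega⟩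
  have hp : (X - C x0 : ℂ[X]) ^ m ≠ 0 := pow_ne_zero _ (X_sub_C_ne_zero x0)
  have h2 : u = (X - C x0) ^ (k + 1) * v := by
    apply mul_left_cancel₀ hp
    rw [h]; ring
  apply hu
  rw [h2]; simp

theorem ord_eval (a b g1 r1 : ℂ[X]) (x0 : ℂ) (α β : ℕ) (ha : a.eval x0 = 0) :
    ∃ z : ℂ[X],
      a * ((X - C x0) ^ α * g1 * derivative ((X - C x0) ^ β * r1)
          - derivative ((X - C x0) ^ α * g1) * ((X - C x0) ^ β * r1))
        + b * ((X - C x0) ^ α * g1) * ((X - C x0) ^ β * r1) = (X - C x0) ^ (α + β) * z ∧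
      z.eval x0 = g1.eval x0 * r1.eval x0 *
        ((derivative a).eval x0 * ((β : ℂ) - (α : ℂ)) + b.eval x0) := by
  obtain ⟨a1, rfl⟩ : (X - C x0) ∣ a := dvd_iff_isRoot.2 ha
  refine ⟨a1 * (g1 * ((β : ℂ[X]) * r1 + (X - C x0) * derivative r1)
      - ((α : ℂ[X]) * g1 + (X - C x0) * derivative g1) * r1) + b * g1 * r1, ?_, ?_⟩
  · have h1 := Ord_dpow g1 x0 α
    have h2 := Ord_dpow r1 x0 β
    rw [pow_add]
    linear_combination (a1 * (X - C x0) ^ α * g1) * h2 - (a1 * (X - C x0) ^ β * r1) * h1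
  · simp [derivative_mul]
    ring

theorem ord_L1 {a b g r : ℂ[X]} {x0 : ℂ} (ha : a.eval x0 = 0) (ha' : (derivative a).eval x0 ≠ 0)
    (hb : 2 * b.eval x0 = (derivative a).eval x0) (hg : g ≠ 0)
    (heq : a * (g * derivative r - derivative g * r) + b * g * r = 0) : r = 0 := by
  by_contra hr
  obtain ⟨α, g1, rfl, hg1⟩ := Ord_dec hg x0
  obtain ⟨β, r1, rfl, hr1⟩ := Ord_dec hr x0
  obtain ⟨z, hz, hz0⟩ := ord_eval a b g1 r1 x0 α β ha
  rw [hz] at heq
  have hz1 : z = 0 :=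
    (mul_eq_zero.1 heq).resolve_left (pow_ne_zero _ (X_sub_C_ne_zero x0))
  rw [hz1, eval_zero] at hz0
  have h3 := (mul_eq_zero.1 hz0.symm).resolve_left (mul_ne_zero hg1 hr1)
  have h4 : (derivative a).eval x0 * (2 * (β : ℂ) + 1 - 2 * (α : ℂ)) = 0 := by
    linear_combination 2 * h3 - hb
  have h5 := (mul_eq_zero.1 h4).resolve_left ha'
  have h6 : ((2 * β + 1 : ℕ) : ℂ) = ((2 * α : ℕ) : ℂ) := by
    push_cast
    linear_combination h5
  have h7 : 2 * β + 1 = 2 * α := by exact_mod_cast h6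
  omega

theorem ord_L2 {a b e g r : ℂ[X]} {x0 κ : ℂ} (ha : a.eval x0 = 0)
    (ha' : (derivative a).eval x0 ≠ 0) (hb : b.eval x0 = 0) (he : e.eval x0 ≠ 0) (hg : g ≠ 0)
    (heq : a * (g * derivative r - derivative g * r) + b * g * r + C κ * e * g ^ 2 = 0) :
    κ = 0 := by
  by_contra hκ
  have he0 : e ≠ 0 := by
    rintro rfl
    simp at he
  by_cases hr : r = 0
  · subst hr
    simp [hκ, he0, hg] at heq
  obtain ⟨α, g1, rfl, hg1⟩ := Ord_dec hg x0
  obtain ⟨β, r1, rfl, hr1⟩ := Ord_dec hr x0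
  obtain ⟨z, hz, hz0⟩ := ord_eval a b g1 r1 x0 α β ha
  rw [hz] at heq
  have h1 : (X - C x0) ^ (α + β) * z = (X - C x0) ^ (α + α) * (-(C κ * e * g1 ^ 2)) := by
    rw [pow_add (X - C x0) α α]
    linear_combination heq
  have hv : (-(C κ * e * g1 ^ 2)).eval x0 ≠ 0 := by
    simp [hκ, he, hg1]
  by_cases hab : β = α
  · subst hab
    have h2 := mul_left_cancel₀ (pow_ne_zero _ (X_sub_C_ne_zero x0)) h1
    apply hv
    rw [← h2, hz0, hb]
    simp
  · have hzv : z.eval x0 ≠ 0 := by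
      rw [hz0, hb, add_zero]
      refine mul_ne_zero (mul_ne_zero hg1 hr1) (mul_ne_zero ha' (sub_ne_zero.2 ?_))
      exact_mod_cast hab
    have h2 := Ord_cmp hzv h1
    have h3 := Ord_cmp hv h1.symm
    omega

theorem ord_L0 {g r : ℂ[X]} (hg : g ≠ 0) (heq : g * derivative r - derivative g * r = 0) :
    ∃ κ : ℂ, r = C κ * g := by
  obtain ⟨x0, hx0⟩ : ∃ x0 : ℂ, g.eval x0 ≠ 0 := by
    by_contra hc
    push Not at hc
    exact hg (Polynomial.funext (by simpa using hc))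
  refine ⟨r.eval x0 / g.eval x0, ?_⟩
  by_contra hne
  have hs : r - C (r.eval x0 / g.eval x0) * g ≠ 0 := sub_ne_zero.2 hne
  obtain ⟨β, s1, hs1, hs0⟩ := Ord_dec hs x0
  obtain ⟨z, hz, hz0⟩ := ord_eval (X - C x0) 0 g s1 x0 0 β (by simp)
  rw [← hs1] at hz
  have hz1 : (X - C x0) ^ (0 + β) * z = 0 := by
    rw [← hz]
    simp only [pow_zero, one_mul, derivative_sub, derivative_mul, derivative_C]
    linear_combination (X - C x0) * heq
  have hz2 : z = 0 := (mul_eq_zero.1 hz1).resolve_left (pow_ne_zero _ (X_sub_C_ne_zero x0))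
  rw [hz2] at hz0
  have hβ : β = 0 := by
    simpa [hx0, hs0] using hz0
  subst hβ
  apply hs0
  rw [pow_zero, one_mul] at hs1
  rw [← hs1]
  simp only [eval_sub, eval_mul, eval_C]
  field_simp
  ring

theorem Ord_ev_Df (i : Fin 3) (x : ℂ) : (Df i (X : ℂ[X])).eval x = Df i x := by
  simpa using map_Df (evalRingHom x) i X

theorem Ord_ev_hf (x : ℂ) : (hf (X : ℂ[X])).eval x = hf x := by
  simpa using map_hf (evalRingHom x) X

theorem Ord_ev_hX (x : ℂ) : (hX (X : ℂ[X])).eval x = hX x := by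
  simpa using map_hX (evalRingHom x) X

theorem Ord_ev_lf (i : Fin 3) (x : ℂ) : (lf i (X : ℂ[X])).eval x = lf i x := by
  simpa using map_lf (evalRingHom x) i X

theorem Ord_ev_pf (i : Fin 3) (x : ℂ) : (pf i (X : ℂ[X])).eval x = pf i x := by
  simpa using map_pf (evalRingHom x) i X

theorem Ord_ev_dh (x : ℂ) : (derivative (hf (X : ℂ[X]))).eval x =
    4 * Df 0 x * Df 1 x * Df 2 x * Qa x * Qb x
      + 4 * x * (-6 * x + 2) * Df 1 x * Df 2 x * Qa x * Qb x
      + 4 * x * Df 0 x * (-6 * x - 2) * Df 2 x * Qa x * Qb x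
      + 4 * x * Df 0 x * Df 1 x * (-2 * x) * Qa x * Qb x
      + 4 * x * Df 0 x * Df 1 x * Df 2 x * (2 * x - 1) * Qb x
      + 4 * x * Df 0 x * Df 1 x * Df 2 x * Qa x * (2 * x + 1) := by
  simp [hf, hX, Df, Qa, Qb, derivative_mul]
  ring

theorem Ord_quad (a b c : ℂ) (ha : a ≠ 0) : ∃ x : ℂ, a * x ^ 2 + b * x + c = 0 := by
  obtain ⟨x, hx⟩ := exists_quadratic_eq_zero ha (IsAlgClosed.exists_eq_mul_self (discrim a b c))
  exact ⟨x, by linear_combination hx⟩

theorem Df_ne_zero (i : Fin 3) : Df i (X : ℂ[X]) ≠ 0 := by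
  intro h
  have h0 := Ord_ev_Df i 0
  rw [h, eval_zero] at h0
  fin_cases i <;> simp [Df] at h0

theorem hf_ne_zero : hf (X : ℂ[X]) ≠ 0 := by
  intro h
  have h0 := Ord_ev_hf 1
  rw [h, eval_zero] at h0
  have e0 : Df 0 (1 : ℂ) = -4 := by simp [Df]; norm_num
  have e1 : Df 1 (1 : ℂ) = -8 := by simp [Df]; norm_num
  have e2 : Df 2 (1 : ℂ) = -2 := by simp [Df]; norm_num
  rw [hf, hX, e0, e1, e2] at h0
  norm_num [Qa, Qb] at h0

theorem root_X : ∃ x0 : ℂ, (hf (X : ℂ[X])).eval x0 = 0 ∧ (derivative (hf (X : ℂ[X]))).eval x0 ≠ 0 ∧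
    (hX (X : ℂ[X])).eval x0 ≠ 0 := by
  refine ⟨0, ?_, ?_, ?_⟩
  · rw [Ord_ev_hf]; simp [hf]
  · rw [Ord_ev_dh]; simp [Df, Qa, Qb]
  · rw [Ord_ev_hX]; simp [hX, Df, Qa, Qb]

theorem root_Q (i : Fin 3) : ∃ x0 : ℂ, (hf (X : ℂ[X])).eval x0 = 0 ∧
    (derivative (hf (X : ℂ[X]))).eval x0 ≠ 0 ∧ (lf i (X : ℂ[X])).eval x0 = 0 ∧
    (pf i (X : ℂ[X])).eval x0 ≠ 0 := by
  simp only [Ord_ev_hf, Ord_ev_dh, Ord_ev_lf, Ord_ev_pf]
  have hA : ∃ x : ℂ, x ≠ 0 ∧ Df 0 x = -x ∧ Df 1 x = -5 * x ∧ Df 2 x = -x ∧ Qa x = 0 ∧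
      Qb x = 2 * x ∧ 2 * x - 1 ≠ 0 ∧ -(x + 1) ≠ 0 := by
    obtain ⟨x, hx⟩ := Ord_quad 1 (-1) 1 one_ne_zero
    refine ⟨x, ?_, ?_, ?_, ?_, ?_, ?_, ?_, ?_⟩
    · rintro rfl; norm_num at hx
    · simp [Df]; linear_combination -3 * hx
    · simp [Df]; linear_combination -3 * hx
    · simp [Df]; linear_combination -1 * hx
    · simp [Qa]; linear_combination hx
    · simp [Qb]; linear_combination hx
    · intro h
      have : (3 : ℂ) = 0 := by linear_combination 4 * hx - (2 * x - 1) * h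
      norm_num at this
    · intro h
      have : (3 : ℂ) = 0 := by linear_combination hx + (x - 2) * h
      norm_num at this
  have hB : ∃ x : ℂ, x ≠ 0 ∧ Df 0 x = 5 * x ∧ Df 1 x = x ∧ Df 2 x = x ∧ Qa x = -2 * x ∧
      Qb x = 0 ∧ 2 * x + 1 ≠ 0 ∧ x - 1 ≠ 0 := by
    obtain ⟨x, hx⟩ := Ord_quad 1 1 1 one_ne_zero
    refine ⟨x, ?_, ?_, ?_, ?_, ?_, ?_, ?_, ?_⟩
    · rintro rfl; norm_num at hx
    · simp [Df]; linear_combination -3 * hx
    · simp [Df]; linear_combination -3 * hx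
    · simp [Df]; linear_combination -1 * hx
    · simp [Qa]; linear_combination hx
    · simp [Qb]; linear_combination hx
    · intro h
      have : (3 : ℂ) = 0 := by linear_combination 4 * hx - (2 * x + 1) * h
      norm_num at this
    · intro h
      have : (3 : ℂ) = 0 := by linear_combination hx - (x + 2) * h
      norm_num at this
  fin_cases i
  · obtain ⟨x, h0, h1, h2, h3, h4, h5, h6, h7⟩ := hA
    refine ⟨x, ?_, ?_, ?_, ?_⟩
    · simp [hf, hX, h4]
    · rw [h1, h2, h3, h4, h5]; simp [h0, h6]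
    · simp [lf, h4]
    · show 4 * x * Df 1 x * Df 2 x * Qb x * (-(x + 1)) ≠ 0
      rw [h2, h3, h5]
      exact mul_ne_zero (by simp [h0]) h7
  · obtain ⟨x, h0, h1, h2, h3, h4, h5, h6, h7⟩ := hB
    refine ⟨x, ?_, ?_, ?_, ?_⟩
    · simp [hf, hX, h5]
    · rw [h1, h2, h3, h4, h5]; simp [h0, h6]
    · simp [lf, h5]
    · show 4 * x * Df 0 x * Df 2 x * Qa x * (x - 1) ≠ 0
      rw [h1, h3, h4]
      exact mul_ne_zero (by simp [h0]) h7
  · obtain ⟨x, h0, h1, h2, h3, h4, h5, h6, h7⟩ := hB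
    refine ⟨x, ?_, ?_, ?_, ?_⟩
    · simp [hf, hX, h5]
    · rw [h1, h2, h3, h4, h5]; simp [h0, h6]
    · simp [lf, h5]
    · show 4 * x * Df 0 x * Df 1 x * Qa x * (x - 1) ≠ 0
      rw [h1, h2, h4]
      exact mul_ne_zero (by simp [h0]) h7

theorem root_D (i : Fin 3) : ∃ x0 : ℂ, (hf (X : ℂ[X])).eval x0 = 0 ∧
    (derivative (hf (X : ℂ[X]))).eval x0 ≠ 0 ∧
    2 * (lf i (X : ℂ[X])).eval x0 = (derivative (hf (X : ℂ[X]))).eval x0 ∧
    ∀ i', i' ≠ i → (lf i' (X : ℂ[X])).eval x0 = 0 := by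
  simp only [Ord_ev_hf, Ord_ev_dh, Ord_ev_lf]
  have l0 : ∀ x : ℂ, lf 0 x = 2 * x * Df 1 x * Df 2 x * Qa x * Qb x * (-6 * x + 2) := fun _ => rfl
  have l1 : ∀ x : ℂ, lf 1 x = 2 * x * Df 0 x * Df 2 x * Qa x * Qb x * (-6 * x - 2) := fun _ => rfl
  have l2 : ∀ x : ℂ, lf 2 x = 2 * x * Df 0 x * Df 1 x * Qa x * Qb x * (-2 * x) := fun _ => rfl
  fin_cases i
  · obtain ⟨x, hx⟩ := Ord_quad 3 (-2) 3 (by norm_num)
    have h0 : x ≠ 0 := by rintro rfl; norm_num at hx
    have h1 : Df 0 x = 0 := by simp [Df]; linear_combination -1 * hx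
    have h2 : Df 1 x = -4 * x := by simp [Df]; linear_combination -1 * hx
    have h3 : Df 2 x = -2 / 3 * x := by simp [Df]; linear_combination -1 / 3 * hx
    have h4 : Qa x = -1 / 3 * x := by simp [Qa]; linear_combination 1 / 3 * hx
    have h5 : Qb x = 5 / 3 * x := by simp [Qb]; linear_combination 1 / 3 * hx
    have h6 : -6 * x + 2 ≠ 0 := by
      intro h
      have : (32 : ℂ) = 0 := by linear_combination 12 * hx - (-6 * x + 2) * h
      norm_num at this
    refine ⟨x, ?_, ?_, ?_, ?_⟩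
    · simp [hf, hX, h1]
    · rw [h1, h2, h3, h4, h5]
      simp only [mul_zero, zero_mul, add_zero, zero_add]
      refine mul_ne_zero (mul_ne_zero (mul_ne_zero (mul_ne_zero (mul_ne_zero ?_ h6) ?_) ?_) ?_) ?_ <;>
        simp [h0]
    · show 2 * lf 0 x = _
      rw [l0, h1]; ring
    · intro i' hi
      fin_cases i'
      · exact absurd rfl hi
      · show lf 1 x = 0
        rw [l1, h1]; ring
      · show lf 2 x = 0
        rw [l2, h1]; ring
  · obtain ⟨x, hx⟩ := Ord_quad 3 2 3 (by norm_num)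
    have h0 : x ≠ 0 := by rintro rfl; norm_num at hx
    have h1 : Df 0 x = 4 * x := by simp [Df]; linear_combination -1 * hx
    have h2 : Df 1 x = 0 := by simp [Df]; linear_combination -1 * hx
    have h3 : Df 2 x = 2 / 3 * x := by simp [Df]; linear_combination -1 / 3 * hx
    have h4 : Qa x = -5 / 3 * x := by simp [Qa]; linear_combination 1 / 3 * hx
    have h5 : Qb x = 1 / 3 * x := by simp [Qb]; linear_combination 1 / 3 * hx
    have h6 : -6 * x - 2 ≠ 0 := by
      intro h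
      have : (32 : ℂ) = 0 := by linear_combination 12 * hx - (-6 * x - 2) * h
      norm_num at this
    refine ⟨x, ?_, ?_, ?_, ?_⟩
    · simp [hf, hX, h2]
    · rw [h1, h2, h3, h4, h5]
      simp only [mul_zero, zero_mul, add_zero, zero_add]
      refine mul_ne_zero (mul_ne_zero (mul_ne_zero (mul_ne_zero ?_ h6) ?_) ?_) ?_ <;>
        simp [h0]
    · show 2 * lf 1 x = _
      rw [l1, h2]; ring
    · intro i' hi
      fin_cases i'
      · show lf 0 x = 0
        rw [l0, h2]; ring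
      · exact absurd rfl hi
      · show lf 2 x = 0
        rw [l2, h2]; ring
  · obtain ⟨x, hx⟩ := Ord_quad 1 0 1 (by norm_num)
    have h0 : x ≠ 0 := by rintro rfl; norm_num at hx
    have h1 : Df 0 x = 2 * x := by simp [Df]; linear_combination -3 * hx
    have h2 : Df 1 x = -2 * x := by simp [Df]; linear_combination -3 * hx
    have h3 : Df 2 x = 0 := by simp [Df]; linear_combination -1 * hx
    have h4 : Qa x = -x := by simp [Qa]; linear_combination hx
    have h5 : Qb x = x := by simp [Qb]; linear_combination hx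
    refine ⟨x, ?_, ?_, ?_, ?_⟩
    · simp [hf, hX, h3]
    · rw [h1, h2, h3, h4, h5]
      simp [h0]
    · show 2 * lf 2 x = _
      rw [l2, h3]; ring
    · intro i' hi
      fin_cases i'
      · show lf 0 x = 0
        rw [l0, h3]; ring
      · show lf 1 x = 0
        rw [l1, h3]; ring
      · exact absurd rfl hi

theorem Ord_comm (i j : Fin 9) (G : MvPolynomial (Fin 9) ℂ) :
    MvPolynomial.pderiv i (MvPolynomial.pderiv j G)
      = MvPolynomial.pderiv j (MvPolynomial.pderiv i G) := by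
  ext m
  simp only [MvPolynomial.coeff_pderiv]
  by_cases hij : i = j
  · subst hij; rfl
  · have e : m + Finsupp.single i 1 + Finsupp.single j 1
        = m + Finsupp.single j 1 + Finsupp.single i 1 := add_right_comm _ _ _
    rw [e]
    simp [hij, Ne.symm hij]
    ring

theorem Ord_const (G : MvPolynomial (Fin 9) ℂ) (h : ∀ j, MvPolynomial.pderiv j G = 0) :
    G = MvPolynomial.C (G.coeff 0) := by
  ext m
  rw [MvPolynomial.coeff_C]
  split_ifs with hm
  · rw [← hm]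
  · obtain ⟨j, hj⟩ : ∃ j, m j ≠ 0 := by
      by_contra hc
      push Not at hc
      exact hm (Finsupp.ext fun j => by simp [hc j])
    have h1 := congrArg (MvPolynomial.coeff (m - Finsupp.single j 1)) (h j)
    rw [MvPolynomial.coeff_pderiv, MvPolynomial.coeff_zero] at h1
    have e : m - Finsupp.single j 1 + Finsupp.single j 1 = m := by
      apply tsub_add_cancel_of_le
      rw [Finsupp.single_le_iff]
      omega
    rw [e] at h1
    refine (mul_eq_zero.1 h1).resolve_right ?_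
    exact Nat.cast_add_one_ne_zero _

theorem lie_const (G : MvPolynomial (Fin 9) ℂ) (h0 : E0 G = 0)
    (h1 : ∀ i : Fin 3, MvPolynomial.pderiv (yi i) G = 0) :
    G = MvPolynomial.C (G.coeff 0) := by
  have d1 : MvPolynomial.pderiv 1 G = 0 := h1 0
  have d2 : MvPolynomial.pderiv 2 G = 0 := h1 1
  have d3 : MvPolynomial.pderiv 3 G = 0 := h1 2
  have c1 : ∀ j, MvPolynomial.pderiv 1 (MvPolynomial.pderiv j G) = 0 := fun j => by
    rw [Ord_comm, d1, map_zero]
  have c2 : ∀ j, MvPolynomial.pderiv 2 (MvPolynomial.pderiv j G) = 0 := fun j => by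
    rw [Ord_comm, d2, map_zero]
  have c3 : ∀ j, MvPolynomial.pderiv 3 (MvPolynomial.pderiv j G) = 0 := fun j => by
    rw [Ord_comm, d3, map_zero]
  have x11 : MvPolynomial.pderiv (1 : Fin 9) (MvPolynomial.X 1 : MvPolynomial (Fin 9) ℂ) = 1 :=
    MvPolynomial.pderiv_X_self _
  have x22 : MvPolynomial.pderiv (2 : Fin 9) (MvPolynomial.X 2 : MvPolynomial (Fin 9) ℂ) = 1 :=
    MvPolynomial.pderiv_X_self _
  have x33 : MvPolynomial.pderiv (3 : Fin 9) (MvPolynomial.X 3 : MvPolynomial (Fin 9) ℂ) = 1 :=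
    MvPolynomial.pderiv_X_self _
  have x12 : MvPolynomial.pderiv (1 : Fin 9) (MvPolynomial.X 2 : MvPolynomial (Fin 9) ℂ) = 0 :=
    MvPolynomial.pderiv_X_of_ne (by decide)
  have x13 : MvPolynomial.pderiv (1 : Fin 9) (MvPolynomial.X 3 : MvPolynomial (Fin 9) ℂ) = 0 :=
    MvPolynomial.pderiv_X_of_ne (by decide)
  have x21 : MvPolynomial.pderiv (2 : Fin 9) (MvPolynomial.X 1 : MvPolynomial (Fin 9) ℂ) = 0 :=
    MvPolynomial.pderiv_X_of_ne (by decide)
  have x23 : MvPolynomial.pderiv (2 : Fin 9) (MvPolynomial.X 3 : MvPolynomial (Fin 9) ℂ) = 0 :=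
    MvPolynomial.pderiv_X_of_ne (by decide)
  have x31 : MvPolynomial.pderiv (3 : Fin 9) (MvPolynomial.X 1 : MvPolynomial (Fin 9) ℂ) = 0 :=
    MvPolynomial.pderiv_X_of_ne (by decide)
  have x32 : MvPolynomial.pderiv (3 : Fin 9) (MvPolynomial.X 2 : MvPolynomial (Fin 9) ℂ) = 0 :=
    MvPolynomial.pderiv_X_of_ne (by decide)
  unfold E0 at h0
  have e1 := congrArg (MvPolynomial.pderiv (1 : Fin 9)) h0
  simp only [map_add, MvPolynomial.pderiv_mul, c1, x11, x12, x13, map_zero, mul_zero, zero_mul,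
    add_zero, zero_add, one_mul] at e1
  have e7 := congrArg (MvPolynomial.pderiv (2 : Fin 9)) e1
  simp only [map_add, MvPolynomial.pderiv_mul, c2, x22, x23, map_zero, mul_zero, zero_mul,
    add_zero, zero_add, one_mul] at e7
  have e8 := congrArg (MvPolynomial.pderiv (3 : Fin 9)) e1
  simp only [map_add, MvPolynomial.pderiv_mul, c3, x33, x32, map_zero, mul_zero, zero_mul,
    add_zero, zero_add, one_mul] at e8
  simp only [e7, e8, mul_zero, add_zero] at e1 h0
  have e2 := congrArg (MvPolynomial.pderiv (2 : Fin 9)) h0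
  simp only [map_add, MvPolynomial.pderiv_mul, c2, x21, x22, x23, map_zero, mul_zero, zero_mul,
    add_zero, zero_add, one_mul] at e2
  have e3 := congrArg (MvPolynomial.pderiv (3 : Fin 9)) h0
  simp only [map_add, MvPolynomial.pderiv_mul, c3, x31, x32, x33, map_zero, mul_zero, zero_mul,
    add_zero, zero_add, one_mul] at e3
  simp only [e1, e2, e3, mul_zero, add_zero] at h0
  apply Ord_const
  intro j
  fin_cases j
  exacts [h0, d1, d2, d3, e1, e2, e3, e7, e8]

end Pool.Agent.CS5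
end

-- merged part: Pool.Agent.Work.MP_8f8a35_gt.Ind2
section
/-!
A minimal element of a stable submodule is an eigenvector.

Plan.  Fix an injection `enc : (Fin 9 →₀ ℕ) → ℕ` (`Encodable`/`Countable`) and the key
`key α = toLex (wsum α, enc α) ∈ ℕ ×ₗ ℕ` (injective, well-founded linear order).  Call `(G, α0, I0)` admissible if
`G ∈ N`, `coeff α0 (G I0) ≠ 0` and `key α ≤ key α0` whenever `coeff α (G I) ≠ 0` for some `I`.  Every nonzero
`G ∈ N` has an admissible triple (maximum over the finite union of supports).  Choose an admissible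
triple minimising lexicographically `(key α0, card {I | coeff α0 (G I) ≠ 0}, card I0)`.
(1) `I0 = ∅`: else take `i ∈ I0`; `(MV i G, α0, I0.erase i)` is admissible with the same first two
entries (`I ↦ symmDiff I {i}` is a bijection, the multipliers are nonzero by `Df_ne_zero`).
(2) With `g = coeff α0 (G ∅)` put `G' = g • DV G - (h g') • G ∈ N`.  If `wsum α0 ≤ wsum α` then by `coeff_DV`,
`coeff_E0_congr`, `coeff_pderiv_congr` (against `0`) one has
`coeff α (G' I) = g (h c' + (∑ i ∈ I, lf i) c) - h g' c` with `c = coeff α (G I)`.  This vanishes if `c = 0` and for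
`(α, I) = (α0, ∅)`.  So if `G' ≠ 0`, an admissible triple of `G'` has smaller key, or the same key and a
smaller second entry.  Hence `G' = 0`.
-/

set_option autoImplicit false

open Polynomial

namespace Pool.Agent.CS5

theorem Ind2_coeff_MV (i : Fin 3) (G : V) (I : Finset (Fin 3)) (α : Fin 9 →₀ ℕ) :
    (MV i G I).coeff α ≠ 0 ↔ (G (symmDiff I {i})).coeff α ≠ 0 := by
  unfold MV
  rw [MvPolynomial.coeff_C_mul, mul_ne_zero_iff]
  refine ⟨fun h => h.2, fun h => ⟨?_, h⟩⟩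
  split_ifs
  · exact one_ne_zero
  · exact Df_ne_zero i

theorem Ind2_invol (i : Fin 3) :
    Function.Involutive (fun I : Finset (Fin 3) => symmDiff I {i}) := fun I => by
  simp only [symmDiff_symmDiff_cancel_right]

open Classical in
theorem Ind2_card_MV (i : Fin 3) (G : V) (α : Fin 9 →₀ ℕ) :
    (Finset.univ.filter fun I => (MV i G I).coeff α ≠ 0).card
      = (Finset.univ.filter fun I => (G I).coeff α ≠ 0).card := by
  refine Finset.card_bijective (fun I : Finset (Fin 3) => symmDiff I {i})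
    (Ind2_invol i).bijective ?_
  intro I
  simp only [Finset.mem_filter, Finset.mem_univ, true_and]
  exact Ind2_coeff_MV i G I α

open Classical in
theorem Ind2_move (N : Submodule ℂ[X] V) (hM : ∀ i, ∀ G ∈ N, MV i G ∈ N) (α0 : Fin 9 →₀ ℕ)
    (P : (Fin 9 →₀ ℕ) → Prop) (n : ℕ) :
    ∀ G ∈ N, (∀ I α, (G I).coeff α ≠ 0 → P α) → ∀ I0 : Finset (Fin 3), I0.card = n →
      (G I0).coeff α0 ≠ 0 →
      ∃ G' ∈ N, (∀ I α, (G' I).coeff α ≠ 0 → P α) ∧ (G' ∅).coeff α0 ≠ 0 ∧
        (Finset.univ.filter fun I => (G' I).coeff α0 ≠ 0).card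
          = (Finset.univ.filter fun I => (G I).coeff α0 ≠ 0).card := by
  induction n with
  | zero =>
    intro G hG hP I0 hI h0
    rw [Finset.card_eq_zero] at hI
    subst hI
    exact ⟨G, hG, hP, h0, rfl⟩
  | succ n ih =>
    intro G hG hP I0 hI h0
    obtain ⟨i, hi⟩ : I0.Nonempty := Finset.card_pos.mp (by omega)
    have hs : symmDiff (I0.erase i) {i} = I0 := by
      ext a
      simp only [Finset.mem_symmDiff, Finset.mem_erase, Finset.mem_singleton]
      by_cases ha : a = i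
      · subst ha
        simp [hi]
      · simp [ha]
    obtain ⟨G', hG', hP', h0', hc⟩ := ih (MV i G) (hM i G hG)
      (fun I α h => hP _ α ((Ind2_coeff_MV i G I α).mp h)) (I0.erase i)
      (by rw [Finset.card_erase_of_mem hi]; omega)
      (by rw [Ind2_coeff_MV, hs]; exact h0)
    exact ⟨G', hG', hP', h0', hc.trans (Ind2_card_MV i G α0)⟩

theorem Ind2_coeff_top (G : V) (w0 : ℕ)
    (hw : ∀ (I : Finset (Fin 3)) (α : Fin 9 →₀ ℕ), (G I).coeff α ≠ 0 → wsum α ≤ w0)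
    (I : Finset (Fin 3)) (α : Fin 9 →₀ ℕ) (hα : w0 ≤ wsum α) :
    (DV G I).coeff α = hf (X : ℂ[X]) * derivative ((G I).coeff α)
      + (∑ i ∈ I, lf i (X : ℂ[X])) * (G I).coeff α := by
  have hz : ∀ (J : Finset (Fin 3)) (β : Fin 9 →₀ ℕ), wsum β = wsum α + 1 →
      (G J).coeff β = (0 : MvPolynomial (Fin 9) ℂ[X]).coeff β := by
    intro J β hβ
    rw [MvPolynomial.coeff_zero]
    by_contra hne
    have := hw J β hne
    omega
  have h1 : (E0 (G I)).coeff α = 0 := by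
    rw [coeff_E0_congr (G I) 0 α (hz I), E0_zero, MvPolynomial.coeff_zero]
  have h2 : ∀ i : Fin 3, (MvPolynomial.pderiv (yi i) (G (symmDiff I {i}))).coeff α = 0 := by
    intro i
    rw [coeff_pderiv_congr (yi i) (G (symmDiff I {i})) 0 α
      (fun β hβ => hz _ β (by rw [hβ, wt_yi])), map_zero, MvPolynomial.coeff_zero]
  rw [coeff_DV, h1]
  simp only [h2, mul_zero, Finset.sum_const_zero, add_zero]

theorem Ind2_exists_max {L : Type} [LinearOrder L] (key : (Fin 9 →₀ ℕ) → L) (G : V) (hG : G ≠ 0) :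
    ∃ α0 : Fin 9 →₀ ℕ, (∃ I, (G I).coeff α0 ≠ 0) ∧
      ∀ I α, (G I).coeff α ≠ 0 → key α ≤ key α0 := by
  classical
  have hne : ((Finset.univ : Finset (Finset (Fin 3))).biUnion fun I => (G I).support).Nonempty := by
    obtain ⟨I, hI⟩ := Function.ne_iff.mp hG
    obtain ⟨α, hα⟩ := MvPolynomial.support_nonempty.mpr (show G I ≠ 0 from hI)
    exact ⟨α, Finset.mem_biUnion.mpr ⟨I, Finset.mem_univ _, hα⟩⟩
  obtain ⟨α0, h0, hmax⟩ := Finset.exists_max_image _ key hne
  obtain ⟨I, -, hI⟩ := Finset.mem_biUnion.mp h0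
  refine ⟨α0, ⟨I, MvPolynomial.mem_support_iff.mp hI⟩, fun J α h => hmax α ?_⟩
  exact Finset.mem_biUnion.mpr ⟨J, Finset.mem_univ _, MvPolynomial.mem_support_iff.mpr h⟩

theorem ind_min (N : Submodule ℂ[X] V) (hD : ∀ G ∈ N, DV G ∈ N) (hM : ∀ i, ∀ G ∈ N, MV i G ∈ N)
    (hN : N ≠ ⊥) :
    ∃ G ∈ N, ∃ α0 : Fin 9 →₀ ℕ, (G ∅).coeff α0 ≠ 0 ∧
      (∀ (I : Finset (Fin 3)) (α : Fin 9 →₀ ℕ), (G I).coeff α ≠ 0 → wsum α ≤ wsum α0) ∧
      (G ∅).coeff α0 • DV G = (hf (X : ℂ[X]) * derivative ((G ∅).coeff α0)) • G := by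
  classical
  obtain ⟨enc, henc⟩ := exists_injective_nat (Fin 9 →₀ ℕ)
  let key : (Fin 9 →₀ ℕ) → ℕ ×ₗ ℕ := fun α => toLex (wsum α, enc α)
  have key_inj : Function.Injective key := by
    intro a b hab
    have := congrArg (fun p : ℕ ×ₗ ℕ => (ofLex p).2) hab
    exact henc this
  have key_le : ∀ a b, key a ≤ key b → wsum a ≤ wsum b := by
    intro a b hab
    rcases Prod.Lex.toLex_le_toLex.mp hab with h | h
    · exact le_of_lt h
    · exact le_of_eq h.1
  let cd : V → (Fin 9 →₀ ℕ) → ℕ := fun G α => (Finset.univ.filter fun I => (G I).coeff α ≠ 0).card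
  let μ : V × (Fin 9 →₀ ℕ) → (ℕ ×ₗ ℕ) ×ₗ ℕ := fun p => toLex (key p.2, cd p.1 p.2)
  let A : Set (V × (Fin 9 →₀ ℕ)) := {p | p.1 ∈ N ∧ (∃ I, (p.1 I).coeff p.2 ≠ 0) ∧
    ∀ I α, (p.1 I).coeff α ≠ 0 → key α ≤ key p.2}
  have hA : A.Nonempty := by
    obtain ⟨G, hG, hG0⟩ := Submodule.exists_mem_ne_zero_of_ne_bot hN
    obtain ⟨α0, h1, h2⟩ := Ind2_exists_max key G hG0
    exact ⟨(G, α0), hG, h1, h2⟩
  obtain ⟨⟨G1, α0⟩, ⟨hG1, ⟨I0, hI0⟩, hk1⟩, hmin⟩ := (InvImage.wf μ wellFounded_lt).has_min A hA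
  obtain ⟨G, hG, hk, h0, hc⟩ := Ind2_move N hM α0 (fun α => key α ≤ key α0) I0.card G1 hG1 hk1
    I0 rfl hI0
  have hw : ∀ (I : Finset (Fin 3)) (α : Fin 9 →₀ ℕ), (G I).coeff α ≠ 0 → wsum α ≤ wsum α0 :=
    fun I α h => key_le _ _ (hk I α h)
  refine ⟨G, hG, α0, h0, hw, ?_⟩
  rw [← sub_eq_zero]
  set g := (G ∅).coeff α0 with hg
  set G' := g • DV G - (hf (X : ℂ[X]) * derivative g) • G with hG'
  have hG'N : G' ∈ N := N.sub_mem (N.smul_mem _ (hD G hG)) (N.smul_mem _ hG)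
  have hco : ∀ (I : Finset (Fin 3)) (α : Fin 9 →₀ ℕ), wsum α0 ≤ wsum α →
      (G' I).coeff α = g * (hf (X : ℂ[X]) * derivative ((G I).coeff α)
        + (∑ i ∈ I, lf i (X : ℂ[X])) * (G I).coeff α)
        - hf (X : ℂ[X]) * derivative g * (G I).coeff α := by
    intro I α hα
    rw [hG', Pi.sub_apply, Pi.smul_apply, Pi.smul_apply, MvPolynomial.coeff_sub,
      MvPolynomial.coeff_smul, MvPolynomial.coeff_smul, Ind2_coeff_top G _ hw I α hα,
      smul_eq_mul, smul_eq_mul]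
  have hsub : ∀ (I : Finset (Fin 3)) (α : Fin 9 →₀ ℕ), wsum α0 ≤ wsum α →
      (G' I).coeff α ≠ 0 → (G I).coeff α ≠ 0 := by
    intro I α hα hne hz
    apply hne
    rw [hco I α hα, hz]
    simp
  have hemp : (G' ∅).coeff α0 = 0 := by
    rw [hco ∅ α0 le_rfl, ← hg]
    simp only [Finset.sum_empty, zero_mul, add_zero]
    ring
  by_contra hne
  obtain ⟨α1, ⟨I1, hI1⟩, hk'⟩ := Ind2_exists_max key G' hne
  apply hmin (G', α1) ⟨hG'N, ⟨I1, hI1⟩, hk'⟩
  change toLex (key α1, cd G' α1) < toLex (key α0, cd G1 α0)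
  rw [Prod.Lex.toLex_lt_toLex]
  rcases lt_trichotomy (key α1) (key α0) with h | h | h
  · exact Or.inl h
  · right
    refine ⟨h, ?_⟩
    have e := key_inj h
    subst e
    change cd G' α1 < cd G1 α1
    have hc' : cd G α1 = cd G1 α1 := hc
    rw [← hc']
    apply Finset.card_lt_card
    rw [Finset.ssubset_iff_of_subset]
    · refine ⟨∅, ?_, ?_⟩
      · simp only [Finset.mem_filter, Finset.mem_univ, true_and]
        exact h0
      · simp only [Finset.mem_filter, Finset.mem_univ, true_and, not_not]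
        exact hemp
    · intro I hI
      simp only [Finset.mem_filter, Finset.mem_univ, true_and] at hI ⊢
      exact hsub I α1 le_rfl hI
  · exact absurd (hk I1 α1 (hsub I1 α1 (key_le _ _ h.le) hI1)) (not_le.mpr h)

end Pool.Agent.CS5
end

-- merged part: Pool.Agent.Work.MP_8f8a35_gt.Ind3
section
/-!
An eigenvector is a polynomial in `X` alone.

Plan.  Let `g = coeff α0 (G ∅)`, `w0 = wsum α0`.  Take coefficients of `heq` with `coeff_DV`.
Top weight (`wsum α = w0`): the `E0` and `pderiv` terms vanish (`coeff_E0_congr`, `coeff_pderiv_congr` against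
`0`), so `h (g c' - g' c) + (∑ i ∈ I, lf i) g c = 0` for `c = coeff α (G I)`.  For `I ≠ ∅` pick `i ∈ I`, `root_D i` and
`ord_L1` give `c = 0`.  For `I = ∅`, `hf_ne_zero` and `ord_L0` give `c = C (κ α) * g`, with `κ α0 = 1`.
Let `Gt = ∑ α ∈ (G ∅).support with wsum α = w0, monomial α (κ α)` over `ℂ`; then `G ∅` and
`C g * map C Gt` have the same coefficients in weight `w0`, and `G I`, `I ≠ ∅`, has none.
If `w0 = 0` then only `α = 0` occurs (`one_le_wt`), which is the claim.  If `w0 > 0`, take `β` with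
`wsum β + 1 = w0`.  Component `∅`, `r = coeff β (G ∅)`:
`h (g r' - g' r) + 0 * g * r + C (coeff β (E0 Gt)) * hX * g ^ 2 = 0`, so `root_X`, `ord_L2` give `coeff β (E0 Gt) = 0`.
Component `{i}`, `r = coeff β (G {i})`:
`h (g r' - g' r) + lf i * g * r + C (coeff β (pderiv (yi i) Gt)) * pf i * g ^ 2 = 0`, so `root_Q i`, `ord_L2`.
For other `β` these coefficients vanish by the congruence lemmas (against `0`).  `lie_const` makes `Gt` a
constant, but `coeff α0 Gt = 1` with `α0 ≠ 0`: contradiction.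
-/

set_option autoImplicit false

open Polynomial

namespace Pool.Agent.CS5

theorem Ind3_E0 {K : Type} [CommRing K] (G : MvPolynomial (Fin 9) K) (β : Fin 9 →₀ ℕ)
    (h : ∀ α : Fin 9 →₀ ℕ, wsum α = wsum β + 1 → G.coeff α = 0) : (E0 G).coeff β = 0 := by
  rw [coeff_E0_congr G 0 β h, E0_zero, MvPolynomial.coeff_zero]

theorem Ind3_pd {K : Type} [CommRing K] (i : Fin 3) (G : MvPolynomial (Fin 9) K) (β : Fin 9 →₀ ℕ)
    (h : ∀ α : Fin 9 →₀ ℕ, wsum α = wsum β + 1 → G.coeff α = 0) :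
    (MvPolynomial.pderiv (yi i) G).coeff β = 0 := by
  rw [coeff_pderiv_congr (yi i) G 0 β (by rwa [wt_yi]), map_zero, MvPolynomial.coeff_zero]

theorem Ind3_sd (i i' : Fin 3) (h : i' ≠ i) : symmDiff ({i} : Finset (Fin 3)) {i'} ≠ ∅ := by
  revert i i'
  decide

theorem Ind3_sd0 (i : Fin 3) : symmDiff (∅ : Finset (Fin 3)) {i} ≠ ∅ := by
  revert i
  decide

theorem Ind3_sd1 (i : Fin 3) : symmDiff ({i} : Finset (Fin 3)) {i} = ∅ := by
  revert i
  decide

theorem ind_top (G : V) (α0 : Fin 9 →₀ ℕ) (h0 : (G ∅).coeff α0 ≠ 0)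
    (hw : ∀ (I : Finset (Fin 3)) (α : Fin 9 →₀ ℕ), (G I).coeff α ≠ 0 → wsum α ≤ wsum α0)
    (heq : (G ∅).coeff α0 • DV G = (hf (X : ℂ[X]) * derivative ((G ∅).coeff α0)) • G) :
    G = Pi.single (∅ : Finset (Fin 3)) (MvPolynomial.C ((G ∅).coeff α0)) := by
  classical
  set g := (G ∅).coeff α0 with hg
  have hco : ∀ (I : Finset (Fin 3)) (α : Fin 9 →₀ ℕ), g * (DV G I).coeff α =
      hf (X : ℂ[X]) * derivative g * (G I).coeff α := by
    intro I α
    have := congrArg (MvPolynomial.coeff α) (congrFun heq I)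
    simpa only [Pi.smul_apply, MvPolynomial.coeff_smul, smul_eq_mul] using this
  have hhigh : ∀ (I : Finset (Fin 3)) (β : Fin 9 →₀ ℕ), wsum α0 ≤ wsum β →
      ∀ α : Fin 9 →₀ ℕ, wsum α = wsum β + 1 → (G I).coeff α = 0 := by
    intro I β hβ α hα
    by_contra hne
    have := hw I α hne
    omega
  have htop : ∀ (I : Finset (Fin 3)) (α : Fin 9 →₀ ℕ), wsum α0 ≤ wsum α →
      hf (X : ℂ[X]) * (g * derivative ((G I).coeff α) - derivative g * (G I).coeff α) +
        (∑ i ∈ I, lf i (X : ℂ[X])) * g * (G I).coeff α = 0 := by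
    intro I α hα
    have h1 := hco I α
    rw [coeff_DV, Ind3_E0 _ _ (hhigh I α hα)] at h1
    simp only [Ind3_pd _ _ _ (hhigh _ α hα), mul_zero, Finset.sum_const_zero] at h1
    linear_combination h1
  have hne : ∀ (I : Finset (Fin 3)), I ≠ ∅ → ∀ α : Fin 9 →₀ ℕ, wsum α0 ≤ wsum α →
      (G I).coeff α = 0 := by
    intro I hI α hα
    obtain ⟨i, hi⟩ := Finset.nonempty_iff_ne_empty.2 hI
    obtain ⟨x0, h1, h2, h3, h4⟩ := root_D i
    refine ord_L1 h1 h2 ?_ h0 (htop I α hα)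
    rw [eval_finsetSum, Finset.sum_eq_single_of_mem i hi fun i' _ hi' => h4 i' hi', h3]
  have hκ : ∀ α : Fin 9 →₀ ℕ, ∃ κ : ℂ, wsum α0 ≤ wsum α → (G ∅).coeff α = C κ * g := by
    intro α
    by_cases hα : wsum α0 ≤ wsum α
    · have h1 := htop ∅ α hα
      rw [Finset.sum_empty, zero_mul, zero_mul, add_zero] at h1
      obtain ⟨κ, hκ⟩ := ord_L0 h0 ((mul_eq_zero.1 h1).resolve_left hf_ne_zero)
      exact ⟨κ, fun _ => hκ⟩
    · exact ⟨0, fun h => absurd h hα⟩
  choose κ hκ using hκ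
  obtain ⟨Gt, hGt⟩ : ∃ Gt : MvPolynomial (Fin 9) ℂ, ∀ α : Fin 9 →₀ ℕ, Gt.coeff α =
      if α ∈ (G ∅).support.filter (fun α : Fin 9 →₀ ℕ => wsum α0 ≤ wsum α) then κ α else 0 := by
    refine ⟨∑ α ∈ (G ∅).support.filter (fun α : Fin 9 →₀ ℕ => wsum α0 ≤ wsum α),
      MvPolynomial.monomial α (κ α), fun α => ?_⟩
    rw [MvPolynomial.coeff_sum]
    simp only [MvPolynomial.coeff_monomial]
    rw [Finset.sum_ite_eq']
  have hG1 : ∀ α : Fin 9 →₀ ℕ, wsum α0 ≤ wsum α → (G ∅).coeff α =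
      (MvPolynomial.C g * MvPolynomial.map (C : ℂ →+* ℂ[X]) Gt).coeff α := by
    intro α hα
    rw [MvPolynomial.coeff_C_mul, MvPolynomial.coeff_map, hGt]
    split_ifs with h1
    · rw [hκ α hα, mul_comm]
    · rw [map_zero, mul_zero]
      by_contra h2
      exact h1 (Finset.mem_filter.2 ⟨MvPolynomial.mem_support_iff.2 h2, hα⟩)
  have hG2 : ∀ β : Fin 9 →₀ ℕ, wsum β + 1 ≠ wsum α0 →
      ∀ α : Fin 9 →₀ ℕ, wsum α = wsum β + 1 → Gt.coeff α = 0 := by
    intro β hβ α hα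
    rw [hGt, if_neg]
    intro h1
    obtain ⟨h2, h3⟩ := Finset.mem_filter.1 h1
    have := hw ∅ α (MvPolynomial.mem_support_iff.1 h2)
    omega
  have hE : E0 Gt = 0 := by
    ext β
    rw [MvPolynomial.coeff_zero]
    by_cases hβ : wsum β + 1 = wsum α0
    · obtain ⟨x0, h1, h2, h3⟩ := root_X
      refine ord_L2 (b := 0) (r := (G ∅).coeff β) h1 h2 eval_zero h3 h0 ?_
      have h4 := hco ∅ β
      rw [coeff_DV, coeff_E0_congr _ _ β fun α hα => hG1 α (by omega), E0_C_mul_map,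
        MvPolynomial.coeff_C_mul, MvPolynomial.coeff_map] at h4
      simp only [fun i => Ind3_pd i _ β fun α hα => hne _ (Ind3_sd0 i) α (by omega), mul_zero,
        Finset.sum_const_zero, Finset.sum_empty] at h4
      linear_combination h4
    · exact Ind3_E0 _ _ (hG2 β hβ)
  have hP : ∀ i : Fin 3, MvPolynomial.pderiv (yi i) Gt = 0 := by
    intro i
    ext β
    rw [MvPolynomial.coeff_zero]
    by_cases hβ : wsum β + 1 = wsum α0
    · obtain ⟨x0, h1, h2, h3, h3'⟩ := root_Q i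
      refine ord_L2 (r := (G {i}).coeff β) h1 h2 h3 h3' h0 ?_
      have h4 := hco {i} β
      rw [coeff_DV, Ind3_E0 _ β fun α hα => hne _ (Finset.singleton_ne_empty i) α (by omega),
        Finset.sum_singleton, Finset.sum_eq_single i, if_pos (Finset.mem_singleton_self i), Ind3_sd1,
        coeff_pderiv_congr _ _ _ β fun α hα => hG1 α (by rw [wt_yi] at hα; omega), pderiv_C_mul_map,
        MvPolynomial.coeff_C_mul, MvPolynomial.coeff_map] at h4
      · linear_combination h4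
      · intro i' _ hi'
        rw [Ind3_pd i' _ β fun α hα => hne _ (Ind3_sd i i' hi') α (by omega), mul_zero, mul_zero]
      · intro h
        exact absurd (Finset.mem_univ i) h
    · exact Ind3_pd _ _ _ (hG2 β hβ)
  have hC := lie_const Gt hE hP
  have h1 : C (Gt.coeff α0) = (1 : ℂ[X]) := by
    have h2 := hG1 α0 le_rfl
    rw [MvPolynomial.coeff_C_mul, MvPolynomial.coeff_map, ← hg] at h2
    exact mul_left_cancel₀ h0 (h2.symm.trans (mul_one g).symm)
  have hα0 : α0 = 0 := by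
    by_contra h2
    rw [hC, MvPolynomial.coeff_C, if_neg (Ne.symm h2), map_zero] at h1
    exact zero_ne_one h1
  have hw0 : ∀ α : Fin 9 →₀ ℕ, wsum α0 ≤ wsum α := by
    intro α
    rw [hα0]
    simp [wsum]
  rw [hα0] at h1
  funext I
  ext1 α
  by_cases hI : I = ∅
  · subst hI
    rw [Pi.single_eq_same, hG1 α (hw0 α), hC, MvPolynomial.map_C, h1, map_one, mul_one]
  · rw [Pi.single_eq_of_ne hI, hne I hI α (hw0 α), MvPolynomial.coeff_zero]

end Pool.Agent.CS5
end

-- merged part: Pool.Agent.Work.MP_8f8a35_gt.Ind4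
section
/-!
Linear independence of the basis.

Plan.  `evV_eq_zero`: the kernel `N` of `evV S` is a submodule (`evV_add`, `evV_smul`) stable under `DV`, `MV`;
if `N ≠ ⊥`, `ind_min`, `ind_top`, `evV_single`, `S.inj` give a contradiction.
`Sys.indep`: put `G I = ∑ a : {α // α ∈ Ex w}, monomial (Finsupp.equivFunOnFinite.symm a.1) ((P (I, a)).map _)`;
`evV S G` is the given sum (`eval₂_monomial`, `Finsupp.prod_fintype`, `Polynomial.aeval_map_algebraMap` or
`eval₂_map`), so `G = 0`; take coefficients; `Polynomial.map_injective`.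
-/

set_option autoImplicit false

open Polynomial

namespace Pool.Agent.CS5

variable {O : Type} [CommRing O] [Algebra ℂ O] (S : Sys O)

/-- The kernel of the evaluation. -/
noncomputable def Ind4_ker : Submodule ℂ[X] V where
  carrier := {G | evV S G = 0}
  add_mem' := by
    intro a b ha hb
    simp only [Set.mem_ofPred_eq] at ha hb ⊢
    rw [evV_add, ha, hb, add_zero]
  zero_mem' := evV_zero S
  smul_mem' := by
    intro g G hG
    simp only [Set.mem_ofPred_eq] at hG ⊢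
    rw [evV_smul, hG, mul_zero]

theorem Ind4_mem (G : V) : G ∈ Ind4_ker S ↔ evV S G = 0 := Iff.rfl

theorem evV_eq_zero (G : V) (hG : evV S G = 0) : G = 0 := by
  have hN : Ind4_ker S = ⊥ := by
    by_contra hN
    obtain ⟨G', hG', α0, h0, hw, heq⟩ := ind_min (Ind4_ker S)
      (fun G hG => by
        rw [Ind4_mem] at hG ⊢
        rw [evV_DV, hG, map_zero, mul_zero])
      (fun i G hG => by
        rw [Ind4_mem] at hG ⊢
        rw [evV_MV, hG, mul_zero]) hN
    have h1 := ind_top G' α0 h0 hw heq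
    rw [Ind4_mem, h1, evV_single] at hG'
    exact h0 (S.inj _ hG')
  have : G ∈ Ind4_ker S := hG
  rw [hN] at this
  exact (Submodule.mem_bot _).1 this

theorem Sys.indep (w : ℕ) (P : Idx w → ℤ[X]) (hP : ∑ i, aeval S.x (P i) * S.b i = 0) : P = 0 := by
  classical
  let G : V := fun I => ∑ a : {α : Fin 9 → ℕ // α ∈ Ex w},
    MvPolynomial.monomial (Finsupp.equivFunOnFinite.symm a.1)
      ((P (I, a)).map (algebraMap ℤ ℂ))
  have hG : evV S G = 0 := by
    rw [← hP, Fintype.sum_prod_type]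
    unfold evV
    refine Finset.sum_congr rfl fun I _ => ?_
    simp only [G]
    rw [MvPolynomial.eval₂_sum, Finset.mul_sum]
    refine Finset.sum_congr rfl fun a _ => ?_
    rw [MvPolynomial.eval₂_monomial, Finsupp.prod_fintype _ _ (by simp)]
    have e : (aeval S.x : ℂ[X] →ₐ[ℂ] O).toRingHom ((P (I, a)).map (algebraMap ℤ ℂ))
        = aeval S.x (P (I, a)) := by
      change aeval S.x ((P (I, a)).map (algebraMap ℤ ℂ)) = _
      exact Polynomial.aeval_map_algebraMap ℂ S.x (P (I, a))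
    rw [e]
    simp only [Sys.b, bas, Finsupp.equivFunOnFinite_symm_apply_apply]
    ring
  have h0 := evV_eq_zero S G hG
  funext ⟨I, a⟩
  have h1 : (G I).coeff (Finsupp.equivFunOnFinite.symm a.1) = 0 := by rw [h0]; simp
  simp only [G, MvPolynomial.coeff_sum, MvPolynomial.coeff_monomial] at h1
  rw [Finset.sum_eq_single a] at h1
  · simp only [if_true] at h1
    exact (Polynomial.map_eq_zero_iff (algebraMap ℤ ℂ).injective_int).1 h1
  · intro b _ hb
    rw [if_neg]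
    intro h
    exact hb (Subtype.ext (Finsupp.equivFunOnFinite.symm.injective h))
  · intro h
    exact absurd (Finset.mem_univ a) h

end Pool.Agent.CS5
end

-- merged part: Pool.Agent.Work.MP_8f8a35_gt.VolA
section
/-!
Gaussian measure of a cone against the volume of its trace in the unit ball.

Plan.  Layer cake (`MeasureTheory.lintegral_eq_lintegral_meas_le` for the measure `volume.restrict Cn`,
or `Integrable.integral_eq_integral_meas_le`): for `0 < s < 1` the set `{x ∈ Cn | s ≤ exp (-‖x‖ ^ 2)}` is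
`√(-log s) • (Cn ∩ closedBall 0 1)`, of measure `ofReal ((-log s) ^ 3) * volume (Cn ∩ closedBall 0 1)`
(`Measure.addHaar_smul`, `finrank = 6`); for `s > 1` it is empty, and `s = 1` is a null set.  So
`∫⁻ x in Cn, ofReal (exp (-‖x‖ ^ 2)) = κ * volume (Cn ∩ closedBall 0 1)` with `κ` independent of `Cn`; compare with
`Cn = univ`, where the integral is `π ^ 3` (`GaussianFourier.integral_rexp_neg_mul_sq_norm`).  Another
route: `MeasureTheory.Measure.toSphere` and polar coordinates.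
`gauss_rat`: the cone is closed and invariant; the volume of the unit ball is positive and finite.
-/

set_option autoImplicit false

open MeasureTheory Metric

namespace Pool.Agent.CS5

open scoped Pointwise in
theorem VolA_level (Cn : Set (EuclideanSpace ℝ (Fin 6)))
    (hc : ∀ r : ℝ, 0 < r → ∀ x, r • x ∈ Cn ↔ x ∈ Cn) {t : ℝ} (ht : 0 < t) :
    volume ({x : EuclideanSpace ℝ (Fin 6) | t ≤ Real.exp (-‖x‖ ^ 2)} ∩ Cn)
      = ENNReal.ofReal ((-Real.log t) ^ 3) * volume (Cn ∩ closedBall 0 1) := by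
  have hiff : ∀ x : EuclideanSpace ℝ (Fin 6),
      t ≤ Real.exp (-‖x‖ ^ 2) ↔ ‖x‖ ^ 2 ≤ -Real.log t := by
    intro x
    rw [← Real.log_le_iff_le_exp ht, le_neg]
  rcases le_or_gt (-Real.log t) 0 with h | h
  · have h1 : (-Real.log t) ^ 3 ≤ 0 := Odd.pow_nonpos ⟨1, rfl⟩ h
    rw [ENNReal.ofReal_of_nonpos h1, zero_mul]
    refine measure_mono_null (t := {0}) ?_ (measure_singleton _)
    rintro x ⟨hx, -⟩
    have h2 : ‖x‖ ^ 2 = 0 := le_antisymm (((hiff x).1 hx).trans h) (sq_nonneg _)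
    exact norm_eq_zero.1 (pow_eq_zero_iff two_ne_zero |>.1 h2)
  · have hr : 0 < √(-Real.log t) := Real.sqrt_pos.2 h
    have e : {x : EuclideanSpace ℝ (Fin 6) | t ≤ Real.exp (-‖x‖ ^ 2)} ∩ Cn
        = √(-Real.log t) • (Cn ∩ closedBall 0 1) := by
      ext x
      rw [Set.mem_smul_set_iff_inv_smul_mem₀ hr.ne', Set.mem_inter_iff, Set.mem_inter_iff,
        hc _ (inv_pos.2 hr), mem_closedBall_zero_iff, norm_smul, Real.norm_eq_abs,
        abs_of_pos (inv_pos.2 hr), inv_mul_le_iff₀ hr, mul_one, Set.mem_ofPred_eq, hiff,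
        Real.le_sqrt (norm_nonneg _) h.le, and_comm]
    rw [e, Measure.addHaar_smul, finrank_euclideanSpace_fin, abs_of_pos (pow_pos hr _)]
    have e2 : √(-Real.log t) ^ 6 = (-Real.log t) ^ 3 := by
      rw [show 6 = 2 * 3 from rfl, pow_mul, Real.sq_sqrt h.le]
    rw [e2]

theorem VolA_int (Cn : Set (EuclideanSpace ℝ (Fin 6)))
    (hc : ∀ r : ℝ, 0 < r → ∀ x, r • x ∈ Cn ↔ x ∈ Cn) :
    ∫ x in Cn, Real.exp (-‖x‖ ^ 2)
      = (∫⁻ t in Set.Ioi (0 : ℝ), ENNReal.ofReal ((-Real.log t) ^ 3)).toReal *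
        (volume (Cn ∩ closedBall 0 1)).toReal := by
  have hcont : Continuous fun x : EuclideanSpace ℝ (Fin 6) => Real.exp (-‖x‖ ^ 2) := by
    fun_prop
  have hnn : 0 ≤ᵐ[volume.restrict Cn] fun x : EuclideanSpace ℝ (Fin 6) => Real.exp (-‖x‖ ^ 2) :=
    Filter.Eventually.of_forall fun x => (Real.exp_pos _).le
  have hfin : volume (Cn ∩ closedBall (0 : EuclideanSpace ℝ (Fin 6)) 1) ≠ ⊤ :=
    ((measure_mono Set.inter_subset_right).trans_lt measure_closedBall_lt_top).ne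
  rw [integral_eq_lintegral_of_nonneg_ae hnn hcont.aestronglyMeasurable,
    lintegral_eq_lintegral_meas_le _ hnn hcont.aemeasurable, ← ENNReal.toReal_mul,
    ← lintegral_mul_const' _ _ hfin]
  congr 1
  refine setLIntegral_congr_fun measurableSet_Ioi fun t ht => ?_
  have hm : MeasurableSet {x : EuclideanSpace ℝ (Fin 6) | t ≤ Real.exp (-‖x‖ ^ 2)} :=
    (isClosed_le continuous_const hcont).measurableSet
  rw [Measure.restrict_apply hm]
  exact VolA_level Cn hc ht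

theorem gauss_cone (Cn : Set (EuclideanSpace ℝ (Fin 6))) (hm : MeasurableSet Cn)
    (hc : ∀ r : ℝ, 0 < r → ∀ x, r • x ∈ Cn ↔ x ∈ Cn) :
    (∫ x in Cn, Real.exp (-‖x‖ ^ 2)) *
        (volume (closedBall (0 : EuclideanSpace ℝ (Fin 6)) 1)).toReal
      = Real.pi ^ 3 * (volume (Cn ∩ closedBall 0 1)).toReal := by
  have h1 := VolA_int Set.univ fun _ _ _ => Iff.rfl
  have h2 := GaussianFourier.integral_rexp_neg_mul_sq_norm (V := EuclideanSpace ℝ (Fin 6))
    (b := 1) one_pos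
  rw [finrank_euclideanSpace_fin, div_one,
    show (((6 : ℕ) : ℝ) / 2) = ((3 : ℕ) : ℝ) by norm_num, Real.rpow_natCast] at h2
  simp only [neg_mul, one_mul] at h2
  rw [Measure.restrict_univ, h2, Set.univ_inter] at h1
  rw [VolA_int Cn hc, h1]
  ring

theorem gauss_rat (H : Hyp) (n : Fin 6 → EuclideanSpace ℝ (Fin 6)) (hn : LinearIndependent ℝ n)
    (ha : ∀ i j : Fin 6, i ≠ j →
      ∃ q : ℚ, InnerProductGeometry.angle (n i) (n j) = (q : ℝ) * Real.pi) :
    RatPi 3 (∫ x in {x : EuclideanSpace ℝ (Fin 6) | ∀ i, 0 ≤ inner ℝ (n i) x},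
      Real.exp (-‖x‖ ^ 2)) := by
  obtain ⟨r, hr⟩ := H n hn ha
  have hcl : IsClosed {x : EuclideanSpace ℝ (Fin 6) | ∀ i, 0 ≤ inner ℝ (n i) x} := by
    rw [Set.ofPred_forall]
    exact isClosed_iInter fun i => isClosed_le continuous_const (by fun_prop)
  have h1 := gauss_cone _ hcl.measurableSet fun r hr x => by
    simp only [Set.mem_ofPred_eq, real_inner_smul_right]
    exact forall_congr' fun i => mul_nonneg_iff_of_pos_left hr
  have e : {x : EuclideanSpace ℝ (Fin 6) | ∀ i, 0 ≤ inner ℝ (n i) x} ∩ closedBall 0 1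
      = {x : EuclideanSpace ℝ (Fin 6) | ‖x‖ ≤ 1 ∧ ∀ i, 0 ≤ inner ℝ (n i) x} := by
    ext x
    simp only [Set.mem_inter_iff, Set.mem_ofPred_eq, mem_closedBall_zero_iff, and_comm]
  rw [e, hr] at h1
  have hpos : 0 < (volume (closedBall (0 : EuclideanSpace ℝ (Fin 6)) 1)).toReal :=
    ENNReal.toReal_pos (measure_closedBall_pos _ _ one_pos).ne' measure_closedBall_lt_top.ne
  refine ⟨r, mul_right_cancel₀ hpos.ne' ?_⟩
  rw [h1]
  ring

end Pool.Agent.CS5
end

-- merged part: Pool.Agent.Work.MP_8f8a35_gt.VolC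
section
/-!
The functions `Eg` and `Kf`.

Plan.  `Eg s = Eg 0 + ∫ v in (-s)..0, exp (-v ^ 2)` (`intervalIntegral.integral_Iic_sub_Iic` for `Ioi`, or
`integral_interval_add_Ioi`), so `Eg' s = exp (-s ^ 2)`; `integrable_exp_neg_mul_sq`, `integral_gaussian`.
`measurable_Kf`: write `Kf` as `∫ u, indicator ...` and use `StronglyMeasurable.integral_prod_right'`.
`hasDerivAt_Kf`: `hasDerivAt_integral_of_dominated_loc_of_deriv_le` on a small ball about `c` inside
`(-1, 1)`; the derivative of the integrand in `c` is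
`exp (-u ^ 2) exp (-σ ^ 2) (u + c m2) / (1 - c ^ 2) ^ (3 / 2)` with `σ = (m2 + c u) / √(1 - c ^ 2)`, bounded by
`const * exp (-u ^ 2) (|u| + |m2|)`.  It equals `-(1 / (2 √(1 - c ^ 2))) d/du exp (-(u ^ 2 + 2 c m2 u + m2 ^ 2) / (1 - c ^ 2))`
since `u ^ 2 + σ ^ 2 = (u ^ 2 + 2 c m2 u + m2 ^ 2) / (1 - c ^ 2)`; integrate with
`integral_Ioi_of_hasDerivAt_of_tendsto'`.
-/

set_option autoImplicit false

open MeasureTheory

namespace Pool.Agent.CS5

theorem VolC_int : Integrable fun v : ℝ => Real.exp (-v ^ 2) := by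
  simpa using integrable_exp_neg_mul_sq (b := 1) one_pos

theorem VolC_total : ∫ v : ℝ, Real.exp (-v ^ 2) = √Real.pi := by
  simpa using integral_gaussian 1

theorem Eg_nonneg (s : ℝ) : 0 ≤ Eg s :=
  integral_nonneg fun _ => (Real.exp_pos _).le

theorem Eg_le (s : ℝ) : Eg s ≤ √Real.pi := by
  rw [← VolC_total]
  exact setIntegral_le_integral VolC_int (Filter.Eventually.of_forall fun _ => (Real.exp_pos _).le)

theorem Eg_zero : Eg 0 = √Real.pi / 2 := by
  unfold Eg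
  rw [neg_zero, integral_Ici_eq_integral_Ioi]
  simpa using integral_gaussian_Ioi 1

theorem VolC_Eg_eq (s : ℝ) : Eg s = Eg 0 - ∫ v in (0 : ℝ)..(-s), Real.exp (-v ^ 2) := by
  unfold Eg
  rw [neg_zero, integral_Ici_eq_integral_Ioi, integral_Ici_eq_integral_Ioi,
    ← intervalIntegral.integral_interval_add_Ioi (a := 0) (b := -s) VolC_int.integrableOn
      VolC_int.integrableOn]
  ring

theorem hasDerivAt_Eg (s : ℝ) : HasDerivAt Eg (Real.exp (-s ^ 2)) s := by
  have hc : Continuous fun v : ℝ => Real.exp (-v ^ 2) := by fun_prop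
  have h1 := (hc.integral_hasStrictDerivAt 0 (-s)).hasDerivAt
  have h2 := (h1.comp s (hasDerivAt_neg s)).const_sub (Eg 0)
  have e : Eg = fun x => Eg 0 - ((fun u => ∫ v in (0 : ℝ)..u, Real.exp (-v ^ 2)) ∘ Neg.neg) x :=
    funext fun x => VolC_Eg_eq x
  rw [e]
  refine h2.congr_deriv ?_
  simp

theorem continuous_Eg : Continuous Eg :=
  continuous_iff_continuousAt.2 fun s => (hasDerivAt_Eg s).continuousAt

theorem Kf_nonneg (m1 m2 c : ℝ) : 0 ≤ Kf m1 m2 c :=
  integral_nonneg fun _ => mul_nonneg (Real.exp_pos _).le (Eg_nonneg _)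

theorem VolC_cont (m2 c : ℝ) :
    Continuous fun u : ℝ => Real.exp (-u ^ 2) * Eg ((m2 + c * u) / √(1 - c ^ 2)) := by
  have := continuous_Eg
  fun_prop

theorem VolC_intK (m2 c : ℝ) :
    Integrable fun u : ℝ => Real.exp (-u ^ 2) * Eg ((m2 + c * u) / √(1 - c ^ 2)) := by
  refine (VolC_int.mul_const (√Real.pi)).mono' (VolC_cont m2 c).aestronglyMeasurable
    (Filter.Eventually.of_forall fun u => ?_)
  rw [Real.norm_of_nonneg (mul_nonneg (Real.exp_pos _).le (Eg_nonneg _))]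
  exact mul_le_mul_of_nonneg_left (Eg_le _) (Real.exp_pos _).le

theorem Kf_le (m1 m2 c : ℝ) : Kf m1 m2 c ≤ Real.pi := by
  unfold Kf
  refine (setIntegral_le_integral (VolC_intK m2 c) (Filter.Eventually.of_forall fun _ =>
    mul_nonneg (Real.exp_pos _).le (Eg_nonneg _))).trans ?_
  refine (integral_mono (VolC_intK m2 c) (VolC_int.mul_const (√Real.pi)) fun u =>
    mul_le_mul_of_nonneg_left (Eg_le _) (Real.exp_pos _).le).trans (le_of_eq ?_)
  rw [integral_mul_const, VolC_total, Real.mul_self_sqrt Real.pi_pos.le]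

theorem measurable_Kf (c : ℝ) : Measurable fun m : ℝ × ℝ => Kf m.1 m.2 c := by
  have hE := continuous_Eg
  let S : Set ((ℝ × ℝ) × ℝ) := {z | -z.1.1 ≤ z.2}
  have hS : MeasurableSet S := measurableSet_le (by fun_prop) (by fun_prop)
  let f : (ℝ × ℝ) × ℝ → ℝ := S.indicator fun z =>
    Real.exp (-z.2 ^ 2) * Eg ((z.1.2 + c * z.2) / √(1 - c ^ 2))
  have hf : StronglyMeasurable f := by
    refine StronglyMeasurable.indicator (Continuous.stronglyMeasurable ?_) hS
    fun_prop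
  have h := (hf.integral_prod_right' (ν := (volume : Measure ℝ))).measurable
  convert h using 2 with m
  unfold Kf
  rw [← integral_indicator measurableSet_Ici]
  rfl

theorem VolC_sig (m2 u x : ℝ) (hx : x ^ 2 < 1) :
    HasDerivAt (fun x : ℝ => (m2 + x * u) / √(1 - x ^ 2)) ((u + x * m2) / √(1 - x ^ 2) ^ 3) x := by
  have hp : 0 < 1 - x ^ 2 := by linarith
  have hr : 0 < √(1 - x ^ 2) := Real.sqrt_pos.2 hp
  have h1 : HasDerivAt (fun x : ℝ => m2 + x * u) u x := by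
    simpa using ((hasDerivAt_id x).mul_const u).const_add m2
  have h2 : HasDerivAt (fun x : ℝ => 1 - x ^ 2) (-(2 * x)) x := by
    simpa using (hasDerivAt_pow 2 x).const_sub 1
  have h3 := h1.div (h2.sqrt hp.ne') hr.ne'
  refine h3.congr_deriv ?_
  have hs : √(1 - x ^ 2) ^ 2 = 1 - x ^ 2 := Real.sq_sqrt hp.le
  generalize √(1 - x ^ 2) = r at hr hs
  field_simp
  rw [hs]
  ring

theorem hasDerivAt_Kf (m1 m2 c : ℝ) (hc : c ^ 2 < 1) :
    HasDerivAt (Kf m1 m2)
      (Real.exp (-((m1 ^ 2 - 2 * c * m1 * m2 + m2 ^ 2) / (1 - c ^ 2))) / (2 * √(1 - c ^ 2))) c := by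
  have hp : 0 < 1 - c ^ 2 := by linarith
  have hr : 0 < √(1 - c ^ 2) := Real.sqrt_pos.2 hp
  have hs : √(1 - c ^ 2) ^ 2 = 1 - c ^ 2 := Real.sq_sqrt hp.le
  have hδ : 0 < √((1 - c ^ 2) / 2) := Real.sqrt_pos.2 (by linarith only [hc])
  have hU : {x : ℝ | x ^ 2 < (1 + c ^ 2) / 2} ∈ nhds c :=
    (isOpen_lt (by fun_prop) continuous_const).mem_nhds (by
      show c ^ 2 < (1 + c ^ 2) / 2
      linarith only [hc])
  have hb : Integrable fun u : ℝ =>
      Real.exp (-u ^ 2) * ((|u| + |m2|) / √((1 - c ^ 2) / 2) ^ 3) := by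
    have h1 : Integrable fun u : ℝ => |u| * Real.exp (-u ^ 2) := by
      have := (integrable_mul_exp_neg_mul_sq (b := 1) one_pos).abs
      simpa [abs_mul] using this
    have h2 := (h1.add (VolC_int.const_mul |m2|)).div_const (√((1 - c ^ 2) / 2) ^ 3)
    convert h2 using 2 with u
    simp only [Pi.add_apply]
    ring
  have key := hasDerivAt_integral_of_dominated_loc_of_deriv_le
    (μ := volume.restrict (Set.Ici (-m1)))
    (F := fun x u : ℝ => Real.exp (-u ^ 2) * Eg ((m2 + x * u) / √(1 - x ^ 2)))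
    (F' := fun x u : ℝ => Real.exp (-u ^ 2) * (Real.exp (-((m2 + x * u) / √(1 - x ^ 2)) ^ 2) *
      ((u + x * m2) / √(1 - x ^ 2) ^ 3)))
    (bound := fun u : ℝ => Real.exp (-u ^ 2) * ((|u| + |m2|) / √((1 - c ^ 2) / 2) ^ 3)) hU
    (Filter.Eventually.of_forall fun x => (VolC_cont m2 x).aestronglyMeasurable)
    (VolC_intK m2 c).integrableOn (Continuous.aestronglyMeasurable (by fun_prop))
    (Filter.Eventually.of_forall fun u x hx => by
      have hx' : x ^ 2 < (1 + c ^ 2) / 2 := hx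
      have hx1 : |x| ≤ 1 := by
        rw [← sq_le_one_iff_abs_le_one]; linarith only [hc, hx']
      have h1 : √((1 - c ^ 2) / 2) ≤ √(1 - x ^ 2) := Real.sqrt_le_sqrt (by linarith only [hx'])
      rw [norm_mul, norm_mul, Real.norm_of_nonneg (Real.exp_pos _).le,
        Real.norm_of_nonneg (Real.exp_pos _).le]
      refine mul_le_mul_of_nonneg_left ?_ (Real.exp_pos _).le
      have h2 : Real.exp (-((m2 + x * u) / √(1 - x ^ 2)) ^ 2) ≤ 1 :=
        Real.exp_le_one_iff.2 (neg_nonpos.2 (sq_nonneg _))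
      refine (mul_le_of_le_one_left (norm_nonneg _) h2).trans ?_
      rw [Real.norm_eq_abs, abs_div, abs_of_pos (pow_pos (hδ.trans_le h1) 3)]
      have h3 : |u + x * m2| ≤ |u| + |m2| := by
        refine (abs_add_le _ _).trans ?_
        rw [abs_mul]
        have := mul_le_of_le_one_left (abs_nonneg m2) hx1
        linarith only [this]
      gcongr)
    hb.integrableOn
    (Filter.Eventually.of_forall fun u x hx => by
      have hx' : x ^ 2 < (1 + c ^ 2) / 2 := hx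
      exact (((hasDerivAt_Eg _).comp x (VolC_sig m2 u x (by linarith only [hc, hx']))).const_mul _))
  obtain ⟨k1, k2⟩ := key
  have hG : ∀ u : ℝ, HasDerivAt (fun u : ℝ =>
      -(Real.exp (-((u * (u + 2 * c * m2) + m2 ^ 2) / (1 - c ^ 2))) / (2 * √(1 - c ^ 2))))
      (Real.exp (-u ^ 2) * (Real.exp (-((m2 + c * u) / √(1 - c ^ 2)) ^ 2) *
        ((u + c * m2) / √(1 - c ^ 2) ^ 3))) u := by
    intro u
    have h1 : HasDerivAt (fun u : ℝ => u * (u + 2 * c * m2) + m2 ^ 2) (2 * u + 2 * c * m2) u := by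
      have := ((hasDerivAt_id u).mul ((hasDerivAt_id u).add_const (2 * c * m2))).add_const (m2 ^ 2)
      refine this.congr_deriv ?_
      simp only [id]
      ring
    have h2 := (((h1.div_const (1 - c ^ 2)).neg.exp).div_const (2 * √(1 - c ^ 2))).neg
    refine h2.congr_deriv (Eq.symm ?_)
    have e : Real.exp (-u ^ 2) * Real.exp (-((m2 + c * u) / √(1 - c ^ 2)) ^ 2) =
        Real.exp (-((u * (u + 2 * c * m2) + m2 ^ 2) / (1 - c ^ 2))) := by
      rw [← Real.exp_add, div_pow, hs]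
      congr 1
      field_simp
      ring
    rw [← mul_assoc, e]
    simp only [Pi.neg_apply]
    rw [pow_succ (√(1 - c ^ 2)) 2, hs]
    field_simp
  have hT : Filter.Tendsto (fun u : ℝ =>
      -(Real.exp (-((u * (u + 2 * c * m2) + m2 ^ 2) / (1 - c ^ 2))) / (2 * √(1 - c ^ 2))))
      Filter.atTop (nhds 0) := by
    have h1 : Filter.Tendsto (fun u : ℝ => (u * (u + 2 * c * m2) + m2 ^ 2) / (1 - c ^ 2))
        Filter.atTop Filter.atTop :=
      (Filter.tendsto_atTop_add_const_right _ _ (Filter.tendsto_id.atTop_mul_atTop₀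
        (Filter.tendsto_atTop_add_const_right _ _ Filter.tendsto_id))).atTop_div_const hp
    have h2 := ((Real.tendsto_exp_neg_atTop_nhds_zero.comp h1).div_const
      (2 * √(1 - c ^ 2))).neg
    simpa using h2
  have hI := integral_Ioi_of_hasDerivAt_of_tendsto' (a := -m1) (fun u _ => hG u)
    (IntegrableOn.mono_set k1 Set.Ioi_subset_Ici_self) hT
  rw [integral_Ici_eq_integral_Ioi, hI] at k2
  refine k2.congr_deriv ?_
  rw [zero_sub, neg_neg]
  congr 3
  ring

end Pool.Agent.CS5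
end

-- merged part: Pool.Agent.Work.MP_8f8a35_gt.VolD
section
/-!
The Gaussian measure of a plane wedge.

Plan.  `wedge_line`: `φ m = ∫ v in Ici 0, exp (-v ^ 2) * Eg (m * v)` has derivative
`∫ v in Ici 0, v exp (-(1 + m ^ 2) v ^ 2) = 1 / (2 (1 + m ^ 2))` (dominated by `|v| exp (-v ^ 2)`,
`hasDerivAt_integral_of_dominated_loc_of_deriv_le`, `hasDerivAt_Eg`) and `φ 0 = π / 4` (`Eg_zero`); compare
with `arctan` (`is_const_of_deriv_eq_zero`).
`wedge`: Fubini (`integral_prod_symm` for the indicator, integrable as a product of two Gaussians), the inner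
integral is `∫ u in Ici (-(c v)), exp (-(κ u) ^ 2) = Eg (κ c v) / κ` (`integral_comp_mul_left_Ioi`).
-/

set_option autoImplicit false

open MeasureTheory

namespace Pool.Agent.CS5

theorem measurableSet_Blk (c : ℝ) : MeasurableSet (Blk c) := by
  exact (measurableSet_le measurable_const measurable_snd).inter
    (measurableSet_le measurable_const (measurable_fst.add (measurable_snd.const_mul c)))

theorem VolD_gauss : Integrable fun v : ℝ => Real.exp (-v ^ 2) := by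
  simpa using integrable_exp_neg_mul_sq one_pos

theorem VolD_mom {b : ℝ} (hb : 0 < b) :
    ∫ v in Set.Ici (0 : ℝ), v * Real.exp (-b * v ^ 2) = 1 / (2 * b) := by
  have h := integral_mul_cexp_neg_mul_sq (b := (b : ℂ)) (by simpa using hb)
  rw [integral_Ici_eq_integral_Ioi]
  apply Complex.ofReal_injective
  rw [← integral_complex_ofReal]
  push_cast
  rw [h, one_div]

theorem VolD_deriv (m : ℝ) :
    HasDerivAt (fun m : ℝ => ∫ v in Set.Ici (0 : ℝ), Real.exp (-v ^ 2) * Eg (m * v))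
      (1 / (2 * (1 + m ^ 2))) m := by
  have hc : ∀ x : ℝ, Continuous fun v : ℝ => Real.exp (-v ^ 2) * Eg (x * v) := fun x =>
    (by fun_prop : Continuous fun v : ℝ => Real.exp (-v ^ 2)).mul
      (continuous_Eg.comp (by fun_prop))
  have h := (hasDerivAt_integral_of_dominated_loc_of_deriv_le
    (μ := volume.restrict (Set.Ici (0 : ℝ))) (x₀ := m) (s := Set.univ)
    (F := fun x v => Real.exp (-v ^ 2) * Eg (x * v))
    (F' := fun x v => v * Real.exp (-(1 + x ^ 2) * v ^ 2))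
    (bound := fun v => ‖v * Real.exp (-1 * v ^ 2)‖) Filter.univ_mem
    (Filter.Eventually.of_forall fun x => (hc x).aestronglyMeasurable) ?_
    (by fun_prop) (Filter.Eventually.of_forall fun v x _ => ?_)
    (integrable_mul_exp_neg_mul_sq one_pos).norm.integrableOn
    (Filter.Eventually.of_forall fun v x _ => ?_)).2
  · rwa [VolD_mom (by positivity)] at h
  · refine ((VolD_gauss.mul_const √Real.pi).mono' (hc m).aestronglyMeasurable
      (Filter.Eventually.of_forall fun v => ?_)).integrableOn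
    rw [Real.norm_of_nonneg (mul_nonneg (Real.exp_pos _).le (Eg_nonneg _))]
    exact mul_le_mul_of_nonneg_left (Eg_le _) (Real.exp_pos _).le
  · rw [norm_mul, norm_mul, Real.norm_of_nonneg (Real.exp_pos _).le,
      Real.norm_of_nonneg (Real.exp_pos _).le]
    refine mul_le_mul_of_nonneg_left (Real.exp_le_exp.2 ?_) (norm_nonneg _)
    linarith only [sq_nonneg (x * v), sq_nonneg (x * v)]
  · have h1 := ((hasDerivAt_Eg (x * v)).comp x (hasDerivAt_mul_const v)).const_mul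
      (Real.exp (-v ^ 2))
    refine h1.congr_deriv ?_
    rw [← mul_assoc, ← Real.exp_add, mul_comm]
    congr 2
    ring

theorem wedge_line (m : ℝ) :
    ∫ v in Set.Ici (0 : ℝ), Real.exp (-v ^ 2) * Eg (m * v) = (Real.pi / 2 + Real.arctan m) / 2 := by
  have hd : ∀ x : ℝ, HasDerivAt (fun m : ℝ => (∫ v in Set.Ici (0 : ℝ),
      Real.exp (-v ^ 2) * Eg (m * v)) - Real.arctan m / 2) 0 x := fun x => by
    refine ((VolD_deriv x).sub ((Real.hasDerivAt_arctan x).div_const 2)).congr_deriv ?_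
    field_simp
    ring
  have h := is_const_of_deriv_eq_zero (fun x => (hd x).differentiableAt)
    (fun x => (hd x).deriv) m 0
  have h0 : ∫ v in Set.Ici (0 : ℝ), Real.exp (-v ^ 2) = √Real.pi / 2 := by
    rw [← Eg_zero, Eg, neg_zero]
  simp only [zero_mul, Real.arctan_zero, integral_mul_const, h0, Eg_zero] at h
  have := Real.mul_self_sqrt Real.pi_pos.le
  linarith only [h, this]

theorem wedge (κ c : ℝ) (hκ : 0 < κ) :
    ∫ z in Blk c, Real.exp (-(κ ^ 2 * z.1 ^ 2 + z.2 ^ 2))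
      = (Real.pi / 2 + Real.arctan (κ * c)) / (2 * κ) := by
  have hi : Integrable fun z : ℝ × ℝ => Real.exp (-(κ ^ 2 * z.1 ^ 2 + z.2 ^ 2)) := by
    have h := (integrable_exp_neg_mul_sq (pow_pos hκ 2)).mul_prod VolD_gauss
    refine h.congr (Filter.Eventually.of_forall fun z => ?_)
    simp only
    rw [← Real.exp_add]
    congr 1
    ring
  have hin : ∀ v : ℝ, ∫ u in Set.Ici (-(c * v)), Real.exp (-(κ ^ 2 * u ^ 2 + v ^ 2)) =
      κ⁻¹ * (Real.exp (-v ^ 2) * Eg (κ * c * v)) := by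
    intro v
    have e : ∀ u : ℝ, Real.exp (-(κ ^ 2 * u ^ 2 + v ^ 2)) =
        Real.exp (-v ^ 2) * Real.exp (-(κ * u) ^ 2) := fun u => by
      rw [← Real.exp_add]
      congr 1
      ring
    simp only [e]
    rw [integral_const_mul, integral_Ici_eq_integral_Ioi,
      integral_comp_mul_left_Ioi (fun w => Real.exp (-w ^ 2)) _ hκ, Eg,
      integral_Ici_eq_integral_Ioi, smul_eq_mul, mul_left_comm]
    rw [mul_neg, mul_assoc κ c v]
  rw [← integral_indicator (measurableSet_Blk c), Measure.volume_eq_prod,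
    integral_prod_symm _ (hi.indicator (measurableSet_Blk c))]
  have e : ∀ v : ℝ, ∫ u : ℝ, (Blk c).indicator
      (fun z : ℝ × ℝ => Real.exp (-(κ ^ 2 * z.1 ^ 2 + z.2 ^ 2))) (u, v) =
        (Set.Ici (0 : ℝ)).indicator (fun v => κ⁻¹ * (Real.exp (-v ^ 2) * Eg (κ * c * v))) v := by
    intro v
    by_cases hv : 0 ≤ v
    · rw [Set.indicator_of_mem (Set.mem_Ici.2 hv), ← hin, ← integral_indicator measurableSet_Ici]
      congr 1
      ext u
      have : (u, v) ∈ Blk c ↔ u ∈ Set.Ici (-(c * v)) :=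
        ⟨fun h => by have := h.2; simp only [Set.mem_Ici]; linarith,
          fun h => ⟨hv, by have := Set.mem_Ici.1 h; simp only; linarith⟩⟩
      by_cases hu : u ∈ Set.Ici (-(c * v))
      · rw [Set.indicator_of_mem hu, Set.indicator_of_mem (this.2 hu)]
      · rw [Set.indicator_of_notMem hu, Set.indicator_of_notMem fun h => hu (this.1 h)]
    · rw [Set.indicator_of_notMem (s := Set.Ici (0 : ℝ)) hv]
      refine integral_eq_zero_of_ae (Filter.Eventually.of_forall fun u => ?_)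
      exact Set.indicator_of_notMem (fun h => hv h.1) _
  simp only [e]
  rw [integral_indicator measurableSet_Ici, integral_const_mul, wedge_line]
  field_simp

end Pool.Agent.CS5
end

-- merged part: Pool.Agent.Work.MP_8f8a35_gt.VolE
section
/-!
The derivative of `Gf` (the Schlaefli formula for the family).

Plan.  `hasDerivAt_Gf`: `hasDerivAt_integral_of_dominated_loc_of_deriv_le` for the measure
`volume.restrict (Blk c ×ˢ Blk c')`, with `hasDerivAt_Kf`, `measurable_Kf`, `Kf_le`; on a small ball about `c0` the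
derivative of `Kf` is at most `1 / (2 √(1 - b ^ 2))` (`b < 1`; the quadratic form is nonnegative), and the
four-dimensional Gaussian is integrable (`Integrable.mul_prod`).  With `u = s p.1.1`, `u' = s' p.2.1`:
`(m1 ^ 2 - 2 c0 m1 m2 + m2 ^ 2) / (1 - c0 ^ 2) = 2 u ^ 2 / (σ0 ^ 2 (1 + c0)) + 2 u' ^ 2 / (σ0 ^ 2 (1 - c0))`, so the derivative
factors (`setIntegral_prod_mul`, `Measure.volume_eq_prod`).
`hasDerivAt_Gf_cz`: chain rule, `cz' = sin t / σ0 ^ 2`, `σ0 ^ 2 (1 + c0) = 2 (a - s ^ 2)`, `σ0 ^ 2 (1 - c0) = 2 (a' - s' ^ 2)`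
with `a = (1 - cos t) / 2`, `a' = (1 + cos t) / 2`; `wedge` with `κ = √(a / (a - s ^ 2))`, `κ' = √(a' / (a' - s' ^ 2))`; and
`σ0 ^ 2 √(1 - c0 ^ 2) κ κ' = sin t` (both sides are positive, compare squares, `4 a a' = sin t ^ 2`).
-/

set_option autoImplicit false

open MeasureTheory

namespace Pool.Agent.CS5

theorem VolE_int : Integrable fun p : (ℝ × ℝ) × ℝ × ℝ =>
    Real.exp (-(p.1.1 ^ 2 + p.1.2 ^ 2 + p.2.1 ^ 2 + p.2.2 ^ 2)) := by
  have h1 := integrable_exp_neg_mul_sq (b := 1) one_pos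
  have h2 := h1.mul_prod h1
  refine (h2.mul_prod h2).congr (Filter.Eventually.of_forall fun p => ?_)
  simp only [← Real.exp_add]
  congr 1
  ring

theorem hasDerivAt_Gf (s c s' c' σ0 c0 : ℝ) (hσ0 : 0 < σ0) (hc0 : c0 ^ 2 < 1) :
    HasDerivAt (Gf s c s' c' σ0)
      ((∫ z in Blk c, Real.exp (-((1 + 2 * s ^ 2 / (σ0 ^ 2 * (1 + c0))) * z.1 ^ 2 + z.2 ^ 2))) *
        (∫ z in Blk c', Real.exp (-((1 + 2 * s' ^ 2 / (σ0 ^ 2 * (1 - c0))) * z.1 ^ 2 + z.2 ^ 2))) /
        (2 * √(1 - c0 ^ 2))) c0 := by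
  have hS : {x : ℝ | x ^ 2 < (1 + c0 ^ 2) / 2} ∈ nhds c0 :=
    (isOpen_lt (by fun_prop) continuous_const).mem_nhds (by
      show c0 ^ 2 < (1 + c0 ^ 2) / 2
      linarith only [hc0])
  have hmeas : ∀ x : ℝ, Measurable fun p : (ℝ × ℝ) × ℝ × ℝ =>
      Real.exp (-(p.1.1 ^ 2 + p.1.2 ^ 2 + p.2.1 ^ 2 + p.2.2 ^ 2)) *
        Kf ((s * p.1.1 + s' * p.2.1) / σ0) ((s * p.1.1 - s' * p.2.1) / σ0) x := fun x =>
    Measurable.mul (by fun_prop) ((measurable_Kf x).comp
      (f := fun p : (ℝ × ℝ) × ℝ × ℝ =>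
        ((s * p.1.1 + s' * p.2.1) / σ0, (s * p.1.1 - s' * p.2.1) / σ0)) (by fun_prop))
  have key := (hasDerivAt_integral_of_dominated_loc_of_deriv_le
    (μ := volume.restrict (Blk c ×ˢ Blk c'))
    (F := fun x (p : (ℝ × ℝ) × ℝ × ℝ) =>
      Real.exp (-(p.1.1 ^ 2 + p.1.2 ^ 2 + p.2.1 ^ 2 + p.2.2 ^ 2)) *
        Kf ((s * p.1.1 + s' * p.2.1) / σ0) ((s * p.1.1 - s' * p.2.1) / σ0) x)
    (F' := fun x p => Real.exp (-(p.1.1 ^ 2 + p.1.2 ^ 2 + p.2.1 ^ 2 + p.2.2 ^ 2)) *
      (Real.exp (-((((s * p.1.1 + s' * p.2.1) / σ0) ^ 2 -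
        2 * x * ((s * p.1.1 + s' * p.2.1) / σ0) * ((s * p.1.1 - s' * p.2.1) / σ0) +
        ((s * p.1.1 - s' * p.2.1) / σ0) ^ 2) / (1 - x ^ 2))) / (2 * √(1 - x ^ 2))))
    (bound := fun p => Real.exp (-(p.1.1 ^ 2 + p.1.2 ^ 2 + p.2.1 ^ 2 + p.2.2 ^ 2)) *
      (1 / (2 * √(1 - (1 + c0 ^ 2) / 2)))) hS
    (Filter.Eventually.of_forall fun x => (hmeas x).aestronglyMeasurable)
    ((VolE_int.mul_const Real.pi).restrict.mono' (hmeas c0).aestronglyMeasurable
      (Filter.Eventually.of_forall fun p => by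
        rw [Real.norm_of_nonneg (mul_nonneg (Real.exp_pos _).le (Kf_nonneg _ _ _))]
        exact mul_le_mul_of_nonneg_left (Kf_le _ _ _) (Real.exp_pos _).le))
    (Measurable.aestronglyMeasurable (by fun_prop))
    (Filter.Eventually.of_forall fun p x hx => by
      have hx' : x ^ 2 < (1 + c0 ^ 2) / 2 := hx
      rw [Real.norm_of_nonneg (by positivity)]
      refine mul_le_mul_of_nonneg_left ?_ (Real.exp_pos _).le
      refine div_le_div₀ zero_le_one ?_ (mul_pos two_pos (Real.sqrt_pos.2 (by linarith only [hc0])))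
        (mul_le_mul_of_nonneg_left (Real.sqrt_le_sqrt (by linarith only [hx'])) zero_le_two)
      rw [Real.exp_le_one_iff, neg_nonpos]
      refine div_nonneg ?_ (by linarith only [hc0, hx'])
      generalize (s * p.1.1 + s' * p.2.1) / σ0 = u
      generalize (s * p.1.1 - s' * p.2.1) / σ0 = v
      have h1 : 0 ≤ (1 - x ^ 2) * v ^ 2 := mul_nonneg (by linarith only [hc0, hx']) (sq_nonneg v)
      linarith only [h1, sq_nonneg (u - x * v), sq_nonneg (u - x * v)])
    (VolE_int.mul_const _).restrict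
    (Filter.Eventually.of_forall fun p x hx => by
      have hx' : x ^ 2 < (1 + c0 ^ 2) / 2 := hx
      exact (hasDerivAt_Kf _ _ x (by linarith only [hc0, hx'])).const_mul _)).2
  refine key.congr_deriv ?_
  rw [← setIntegral_prod_mul, ← integral_div, Measure.volume_eq_prod]
  refine integral_congr_ae (Filter.Eventually.of_forall fun p => ?_)
  have h1 : 1 + c0 ≠ 0 := by nlinarith
  have h2 : 1 - c0 ≠ 0 := by nlinarith
  simp only [← mul_div_assoc, ← Real.exp_add]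
  congr 2
  rw [show 1 - c0 ^ 2 = (1 + c0) * (1 - c0) by ring]
  field_simp
  ring

theorem VolE_cz (s s' σ0 t : ℝ) (hσ0 : 0 < σ0) (hσ : σ0 ^ 2 = 1 - s ^ 2 - s' ^ 2) :
    σ0 ^ 2 * (1 + cz s s' σ0 t) = 2 * ((1 - Real.cos t) / 2 - s ^ 2) ∧
      σ0 ^ 2 * (1 - cz s s' σ0 t) = 2 * ((1 + Real.cos t) / 2 - s' ^ 2) := by
  have h : σ0 ^ 2 * cz s s' σ0 t = -Real.cos t - s ^ 2 + s' ^ 2 :=
    mul_div_cancel₀ _ (pow_pos hσ0 2).ne'
  exact ⟨by linarith only [hσ, h], by linarith only [hσ, h]⟩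

theorem cz_sq_lt (s s' σ0 t : ℝ) (hσ0 : 0 < σ0) (hσ : σ0 ^ 2 = 1 - s ^ 2 - s' ^ 2)
    (hs : s ^ 2 < (1 - Real.cos t) / 2) (hs' : s' ^ 2 < (1 + Real.cos t) / 2) :
    cz s s' σ0 t ^ 2 < 1 := by
  obtain ⟨h1, h2⟩ := VolE_cz s s' σ0 t hσ0 hσ
  have h3 : 0 < 1 + cz s s' σ0 t := (mul_pos_iff_of_pos_left (pow_pos hσ0 2)).1 (by linarith only [hs, h1])
  have h4 : 0 < 1 - cz s s' σ0 t := (mul_pos_iff_of_pos_left (pow_pos hσ0 2)).1 (by linarith only [hσ, hs', h1])
  linarith only [h3, h4, mul_pos h3 h4]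

theorem hasDerivAt_Gf_cz (s c s' c' σ0 t : ℝ) (hσ0 : 0 < σ0) (hσ : σ0 ^ 2 = 1 - s ^ 2 - s' ^ 2)
    (ht0 : 0 < t) (ht1 : t < Real.pi)
    (hs : s ^ 2 < (1 - Real.cos t) / 2) (hs' : s' ^ 2 < (1 + Real.cos t) / 2) :
    HasDerivAt (fun t => Gf s c s' c' σ0 (cz s s' σ0 t))
      ((Real.pi / 2 + Real.arctan
          (√((1 - Real.cos t) / 2 / ((1 - Real.cos t) / 2 - s ^ 2)) * c)) *
        (Real.pi / 2 + Real.arctan
          (√((1 + Real.cos t) / 2 / ((1 + Real.cos t) / 2 - s' ^ 2)) * c')) / 8) t := by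
  have hc := cz_sq_lt s s' σ0 t hσ0 hσ hs hs'
  obtain ⟨h1, h2⟩ := VolE_cz s s' σ0 t hσ0 hσ
  have hd : HasDerivAt (cz s s' σ0) (Real.sin t / σ0 ^ 2) t := by
    have := (((Real.hasDerivAt_cos t).neg.sub_const (s ^ 2)).add_const (s' ^ 2)).div_const (σ0 ^ 2)
    rw [neg_neg] at this
    exact this
  refine ((hasDerivAt_Gf s c s' c' σ0 _ hσ0 hc).comp t hd).congr_deriv ?_
  have hsin : Real.sin t ^ 2 = 4 * ((1 - Real.cos t) / 2) * ((1 + Real.cos t) / 2) := by
    rw [Real.sin_sq]; ring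
  have hsp := Real.sin_pos_of_pos_of_lt_pi ht0 ht1
  generalize cz s s' σ0 t = c0 at hc h1 h2 ⊢
  generalize (1 - Real.cos t) / 2 = a at hs h1 hsin ⊢
  generalize (1 + Real.cos t) / 2 = a' at hs' h2 hsin ⊢
  have ha : 0 < a - s ^ 2 := sub_pos.2 hs
  have ha' : 0 < a' - s' ^ 2 := sub_pos.2 hs'
  have hq : 0 < a / (a - s ^ 2) := div_pos ((sq_nonneg s).trans_lt hs) ha
  have hq' : 0 < a' / (a' - s' ^ 2) := div_pos ((sq_nonneg s').trans_lt hs') ha'
  have e1 : 1 + 2 * s ^ 2 / (σ0 ^ 2 * (1 + c0)) = √(a / (a - s ^ 2)) ^ 2 := by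
    rw [h1, Real.sq_sqrt hq.le]; field_simp; ring
  have e2 : 1 + 2 * s' ^ 2 / (σ0 ^ 2 * (1 - c0)) = √(a' / (a' - s' ^ 2)) ^ 2 := by
    rw [h2, Real.sq_sqrt hq'.le]; field_simp; ring
  have hκ := Real.sqrt_pos.2 hq
  have hκ' := Real.sqrt_pos.2 hq'
  have hr : 0 < √(1 - c0 ^ 2) := Real.sqrt_pos.2 (by linarith only [hc])
  have e3 : Real.sin t = σ0 ^ 2 * √(1 - c0 ^ 2) * √(a / (a - s ^ 2)) * √(a' / (a' - s' ^ 2)) := by
    refine (pow_left_inj₀ hsp.le (by positivity) two_ne_zero).1 ?_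
    rw [mul_pow, mul_pow, mul_pow, Real.sq_sqrt hq.le, Real.sq_sqrt hq'.le,
      Real.sq_sqrt (by linarith only [hc]), hsin,
      show (σ0 ^ 2) ^ 2 * (1 - c0 ^ 2) = σ0 ^ 2 * (1 + c0) * (σ0 ^ 2 * (1 - c0)) by ring, h1, h2]
    field_simp
    ring
  rw [e1, e2, wedge _ _ hκ, wedge _ _ hκ', e3]
  field_simp
  ring

end Pool.Agent.CS5
end
end

-- merged part: Pool.Agent.Work.MP_8f8a35_gt.CountB
section
-- merged part: Pool.Agent.Work.MP_8f8a35_gt.ArcA
section
/-!
The square roots and the three logarithms near a point of the arc.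

Plan.  Let `ε i = ![1, -1, -1] i`, `r i z = (-Df i z / (z - ε i) ^ 2) ^ (1 / 2 : ℂ)` (principal branch),
`δ i z = I * (z - ε i) * r i z`, `q i z = (r i z)⁻¹`, `L i z = I π + log ((1 + q I) / (1 - q I))`.
For `z = exp (t I)`, `t ∈ Rng`: `z ^ 2 + 1 = 2 z cos t`, so `Df 0 z = z (2 - 6 cos t)`, `Df 1 z = -z (2 + 6 cos t)`,
`Df 2 z = -2 z cos t`, `Qa z = z (2 cos t - 1)`, `Qb z = z (2 cos t + 1)`, `(z - ε) ^ 2 = z (2 cos t - 2 ε)`; hence `hf z ≠ 0`,
`-Df i z / (z - ε i) ^ 2 = 1 / qsq i t > 0`, `q i z = √(qsq i t) > 0` (`Complex.ofReal_cpow`, `Real.sqrt_eq_rpow`) and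
`L i z = 2 I lam i t` by `Complex.ofReal_arctan` and the definition of `Complex.arctan`.
At `z0 = exp (tc I)` the following open conditions hold, hence on a ball (continuity, `Metric.eventually_nhds_iff_ball`):
`hf z ≠ 0`, `z ∈ slitPlane` (`im z0 = sin tc > 0`), `z ≠ ε i`, `-Df i z / (z - ε i) ^ 2 ∈ slitPlane`, `1 - q I ≠ 0`,
`(1 + q I) / (1 - q I) ∈ slitPlane` (its imaginary part is `2 q / (1 + q ^ 2) > 0` at `z0`).
Derivative: `L' = 2 I q' / (1 + q ^ 2)`; from `q δ = I (z - ε)` and `δ ^ 2 = D` get `2 δ δ' = D'`, `q' δ + q δ' = I`,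
`(1 + q ^ 2) D = D - (z - ε) ^ 2`, which is `-4 Qa`, `-4 Qb`, `-2 Qb` for `i = 0, 1, 2`; the result is
`L 0' = -(z + 1) / (δ 0 Qa)`, `L 1' = (z - 1) / (δ 1 Qb)`, `L 2' = (z - 1) / (δ 2 Qb)`; multiply by `hf z`.
-/

set_option autoImplicit false

open Metric

namespace Pool.Agent.CS5

theorem isOpen_Rng : IsOpen Rng := by
  have h : Rng = Set.Ioo 0 Real.pi ∩ Real.cos ⁻¹' Set.Ioo 0 (1 / 3) := by
    ext t
    simp only [Rng, Set.mem_ofPred_eq, Set.mem_inter_iff, Set.mem_Ioo, Set.mem_preimage]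
    tauto
  rw [h]
  exact isOpen_Ioo.inter (isOpen_Ioo.preimage Real.continuous_cos)

theorem Rng_nonempty : Rng.Nonempty := by
  have h : Real.cos (Real.arccos (1 / 4)) = 1 / 4 := Real.cos_arccos (by norm_num) (by norm_num)
  refine ⟨Real.arccos (1 / 4), Real.arccos_pos.2 (by norm_num), ?_, by rw [h]; norm_num,
    by rw [h]; norm_num⟩
  have h1 : Real.arccos (1 / 4) ≤ Real.pi / 2 := Real.arccos_le_pi_div_two.2 (by norm_num)
  linarith only [h1, Real.pi_pos]

/-- The radicand after removing the double pole. -/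
noncomputable def ArcA_w (D : ℂ → ℂ) (e z : ℂ) : ℂ := -D z / (z - e) ^ 2

/-- Its principal square root. -/
noncomputable def ArcA_r (D : ℂ → ℂ) (e z : ℂ) : ℂ := ArcA_w D e z ^ (2⁻¹ : ℂ)

/-- The square root of `D`. -/
noncomputable def ArcA_d (D : ℂ → ℂ) (e z : ℂ) : ℂ := Complex.I * (z - e) * ArcA_r D e z

/-- The logarithm. -/
noncomputable def ArcA_L (D : ℂ → ℂ) (e z : ℂ) : ℂ :=
  Complex.I * Real.pi + Complex.log (ArcA_r D e z + Complex.I)
    - Complex.log (ArcA_r D e z - Complex.I)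

theorem ArcA_re_pos {w : ℂ} (hw : w ∈ Complex.slitPlane) : 0 < (w ^ (2⁻¹ : ℂ)).re := by
  rw [Complex.cpow_inv_two_re]
  refine Real.sqrt_pos.2 ?_
  rcases hw with h | h
  · have := norm_nonneg w
    linarith only [h, this]
  · have h1 := Complex.abs_re_lt_norm.2 h
    have h2 := neg_abs_le w.re
    linarith

theorem ArcA_sq (w : ℂ) : (w ^ (2⁻¹ : ℂ)) ^ 2 = w := by
  simp

theorem ArcA_d_sq (D : ℂ → ℂ) {e z : ℂ} (hz : z ≠ e) : ArcA_d D e z ^ 2 = D z := by
  have h1 : z - e ≠ 0 := sub_ne_zero.2 hz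
  rw [ArcA_d, mul_pow, mul_pow, ArcA_r, ArcA_sq, ArcA_w, Complex.I_sq]
  field_simp

theorem ArcA_der (D : ℂ → ℂ) {D' e z : ℂ} (hD : HasDerivAt D D' z) (hz : z ≠ e)
    (hw : ArcA_w D e z ∈ Complex.slitPlane) :
    DifferentiableAt ℂ (ArcA_d D e) z ∧ ∃ L', HasDerivAt (ArcA_L D e) L' z ∧
      D z * ((z - e) ^ 2 - D z) * L' = ArcA_d D e z * (2 * D z - D' * (z - e)) := by
  have h1 : z - e ≠ 0 := sub_ne_zero.2 hz
  have he : HasDerivAt (fun x : ℂ => x - e) 1 z := (hasDerivAt_id z).sub_const e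
  have hw' : HasDerivAt (ArcA_w D e) ((2 * D z - D' * (z - e)) / (z - e) ^ 3) z := by
    have h2 : HasDerivAt (ArcA_w D e) _ z := hD.neg.div (he.pow 2) (pow_ne_zero 2 h1)
    refine h2.congr_deriv ?_
    simp only [Pi.neg_apply]
    field_simp
    ring
  have hw0 : ArcA_w D e z ≠ 0 := Complex.slitPlane_ne_zero hw
  have hr : HasDerivAt (ArcA_r D e) (2⁻¹ * (ArcA_r D e z / ArcA_w D e z) *
      ((2 * D z - D' * (z - e)) / (z - e) ^ 3)) z := by
    have h2 := hw'.cpow_const (c := (2⁻¹ : ℂ)) hw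
    rw [Complex.cpow_sub _ _ hw0, Complex.cpow_one] at h2
    exact h2
  have hre : 0 < (ArcA_r D e z).re := ArcA_re_pos hw
  have hp : ArcA_r D e z + Complex.I ∈ Complex.slitPlane := Or.inl (by simpa using hre)
  have hm : ArcA_r D e z - Complex.I ∈ Complex.slitPlane := Or.inl (by simpa using hre)
  refine ⟨((he.const_mul Complex.I).mul hr).differentiableAt, _,
    (((hr.add_const Complex.I).clog hp).const_add (Complex.I * Real.pi)).sub
      ((hr.sub_const Complex.I).clog hm), ?_⟩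
  have hp0 := Complex.slitPlane_ne_zero hp
  have hm0 := Complex.slitPlane_ne_zero hm
  have hsq : ArcA_r D e z ^ 2 = ArcA_w D e z := ArcA_sq _
  have hDz : D z = -(ArcA_r D e z ^ 2 * (z - e) ^ 2) := by
    rw [hsq, ArcA_w]
    field_simp
  have hr0 : ArcA_r D e z ≠ 0 := fun h => by rw [h] at hre; simp at hre
  rw [← hsq, ArcA_d]
  generalize 2 * D z - D' * (z - e) = N
  rw [hDz]
  generalize ArcA_r D e z = r at *
  generalize z - e = u at *
  field_simp
  linear_combination (2 * N * Complex.I) * Complex.I_sq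

theorem ArcA_val (D : ℂ → ℂ) (e z : ℂ) {a : ℝ} (ha : 0 < a) (h : ArcA_w D e z = ((a⁻¹ : ℝ) : ℂ)) :
    ArcA_L D e z = 2 * Complex.I * ((Real.pi / 2 + Real.arctan √a : ℝ) : ℂ) := by
  have hs : 0 < √a := Real.sqrt_pos.2 ha
  have hr : ArcA_r D e z = (((√a)⁻¹ : ℝ) : ℂ) := by
    rw [ArcA_r, h, ← Real.sqrt_inv, Real.sqrt_eq_rpow, Complex.ofReal_cpow (inv_pos.2 ha).le]
    norm_num
  set x : ℂ := (((√a)⁻¹ : ℝ) : ℂ) + Complex.I with hx
  have hxre : x.re = (√a)⁻¹ := by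
    rw [hx, Complex.add_re, Complex.ofReal_re, Complex.I_re, add_zero]
  have hxim : x.im = 1 := by
    rw [hx, Complex.add_im, Complex.ofReal_im, Complex.I_im, zero_add]
  have hpos : 0 < x.re := by rw [hxre]; exact inv_pos.2 hs
  have habs : |x.arg| < Real.pi / 2 := Complex.abs_arg_lt_pi_div_two_iff.2 (Or.inl hpos)
  have harg : x.arg = Real.arctan √a := by
    rw [← Real.arctan_tan (abs_lt.1 habs).1 (abs_lt.1 habs).2, Complex.tan_arg, hxre, hxim]
    simp
  have hc : (((√a)⁻¹ : ℝ) : ℂ) - Complex.I = (starRingEnd ℂ) x := by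
    rw [hx, map_add, Complex.conj_ofReal, Complex.conj_I, sub_eq_add_neg]
  have hne : x.arg ≠ Real.pi := by
    have h1 := (abs_lt.1 habs).2
    have h2 := Real.pi_pos
    intro h3
    linarith only [h1, h2, h3]
  rw [ArcA_L, hr, hc, ← hx, Complex.log_conj x hne, add_sub_assoc, Complex.sub_conj,
    Complex.log_im, harg]
  push_cast
  ring

/-- The double poles. -/
def ArcA_e (i : Fin 3) : ℂ := ![1, -1, -1] i

theorem ArcA_circ (t : ℝ) : Complex.exp (t * Complex.I) ^ 2 + 1 =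
    2 * Complex.exp (t * Complex.I) * ((Real.cos t : ℝ) : ℂ) := by
  rw [Complex.exp_mul_I, Complex.ofReal_cos]
  linear_combination (Complex.sin t ^ 2) * Complex.I_sq - Complex.sin_sq_add_cos_sq (t : ℂ)

theorem ArcA_qsq_pos (i : Fin 3) {t : ℝ} (ht : t ∈ Rng) : 0 < qsq i t := by
  obtain ⟨-, -, h1, h2⟩ := ht
  fin_cases i
  · exact div_pos (by linarith only [h1, h2]) (by linarith)
  · exact div_pos (by linarith) (by linarith)
  · exact div_pos (by linarith) h1

theorem ArcA_arc {t : ℝ} (ht : t ∈ Rng) :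
    hf (Complex.exp (t * Complex.I)) ≠ 0 ∧ ∀ i, Complex.exp (t * Complex.I) ≠ ArcA_e i ∧
      ArcA_w (Df i) (ArcA_e i) (Complex.exp (t * Complex.I)) = (((qsq i t)⁻¹ : ℝ) : ℂ) := by
  obtain ⟨-, -, h1, h2⟩ := ht
  have hc := ArcA_circ t
  have hz : Complex.exp (t * Complex.I) ≠ 0 := Complex.exp_ne_zero _
  simp only [qsq]
  generalize Complex.exp (t * Complex.I) = z at *
  generalize Real.cos t = c at *
  have n1 : ((1 - 3 * c : ℝ) : ℂ) ≠ 0 := Complex.ofReal_ne_zero.2 (by linarith)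
  have n2 : ((1 + 3 * c : ℝ) : ℂ) ≠ 0 := Complex.ofReal_ne_zero.2 (by linarith)
  have n3 : ((c : ℝ) : ℂ) ≠ 0 := Complex.ofReal_ne_zero.2 (by linarith)
  have n4 : ((2 * c - 1 : ℝ) : ℂ) ≠ 0 := Complex.ofReal_ne_zero.2 (by linarith)
  have n5 : ((2 * c + 1 : ℝ) : ℂ) ≠ 0 := Complex.ofReal_ne_zero.2 (by linarith)
  have n6 : ((1 - c : ℝ) : ℂ) ≠ 0 := Complex.ofReal_ne_zero.2 (by linarith)
  have n7 : ((1 + c : ℝ) : ℂ) ≠ 0 := Complex.ofReal_ne_zero.2 (by linarith)
  push_cast at n1 n2 n4 n5 n6 n7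
  have d0 : Df 0 z = 2 * z * (1 - 3 * c) := by
    show -(3 * z ^ 2 - 2 * z + 3) = _
    linear_combination (-3 : ℂ) * hc
  have d1 : Df 1 z = -2 * z * (1 + 3 * c) := by
    show -(3 * z ^ 2 + 2 * z + 3) = _
    linear_combination (-3 : ℂ) * hc
  have d2 : Df 2 z = -2 * z * c := by
    show -(z ^ 2 + 1) = _
    linear_combination (-1 : ℂ) * hc
  have qa : Qa z = z * (2 * c - 1) := by
    rw [Qa]
    linear_combination hc
  have qb : Qb z = z * (2 * c + 1) := by
    rw [Qb]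
    linear_combination hc
  have e0 : (z - 1) ^ 2 = -2 * z * (1 - c) := by linear_combination hc
  have e1 : (z - -1) ^ 2 = 2 * z * (1 + c) := by linear_combination hc
  have m0 : z ≠ 1 := by
    intro h
    have h3 : -2 * z * (1 - c) ≠ 0 := mul_ne_zero (mul_ne_zero (by norm_num) hz) n6
    rw [← e0, h] at h3
    simp at h3
  have m1 : z ≠ -1 := by
    intro h
    have h3 : 2 * z * (1 + c) ≠ 0 := mul_ne_zero (mul_ne_zero (by norm_num) hz) n7
    rw [← e1, h] at h3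
    simp at h3
  refine ⟨?_, fun i => ?_⟩
  · rw [hf, hX, d0, d1, d2, qa, qb]
    simp [hz, n1, n2, n3, n4, n5]
  · fin_cases i
    · refine ⟨m0, ?_⟩
      show -Df 0 z / (z - 1) ^ 2 = ((((1 - c) / (1 - 3 * c))⁻¹ : ℝ) : ℂ)
      rw [d0, e0]
      push_cast
      field_simp
    · refine ⟨m1, ?_⟩
      show -Df 1 z / (z - -1) ^ 2 = ((((1 + c) / (1 + 3 * c))⁻¹ : ℝ) : ℂ)
      rw [d1, e1]
      push_cast
      field_simp
    · refine ⟨m1, ?_⟩
      show -Df 2 z / (z - -1) ^ 2 = ((((1 + c) / c)⁻¹ : ℝ) : ℂ)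
      rw [d2, e1]
      push_cast
      field_simp

theorem ArcA_Df_der (i : Fin 3) (z : ℂ) :
    HasDerivAt (Df i) (![-6 * z + 2, -6 * z - 2, -2 * z] i) z := by
  have h1 := hasDerivAt_id z
  fin_cases i
  · show HasDerivAt (fun x : ℂ => -(3 * x ^ 2 - 2 * x + 3)) (-6 * z + 2) z
    refine HasDerivAt.congr_deriv
      ((((h1.pow 2).const_mul 3).sub (h1.const_mul 2)).add_const 3).neg ?_
    simp
    ring
  · show HasDerivAt (fun x : ℂ => -(3 * x ^ 2 + 2 * x + 3)) (-6 * z - 2) z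
    refine HasDerivAt.congr_deriv
      ((((h1.pow 2).const_mul 3).add (h1.const_mul 2)).add_const 3).neg ?_
    simp
    ring
  · show HasDerivAt (fun x : ℂ => -(x ^ 2 + 1)) (-2 * z) z
    refine HasDerivAt.congr_deriv ((h1.pow 2).add_const 1).neg ?_
    simp

theorem ArcA_hf_cont : Continuous (hf : ℂ → ℂ) := by
  have h : ∀ i, Continuous (Df i : ℂ → ℂ) := fun i =>
    continuous_iff_continuousAt.2 fun z => (ArcA_Df_der i z).continuousAt
  have h0 := h 0
  have h1 := h 1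
  have h2 := h 2
  unfold hf hX Qa Qb
  fun_prop

theorem arc_logs (tc : ℝ) (htc : tc ∈ Rng) :
    ∃ (R0 : ℝ) (δ L : Fin 3 → ℂ → ℂ), 0 < R0 ∧
      (∀ z ∈ ball (Complex.exp (tc * Complex.I)) R0, hf z ≠ 0 ∧ z ∈ Complex.slitPlane) ∧
      (∀ i, DifferentiableOn ℂ (δ i) (ball (Complex.exp (tc * Complex.I)) R0)) ∧
      (∀ i, DifferentiableOn ℂ (L i) (ball (Complex.exp (tc * Complex.I)) R0)) ∧
      (∀ i, ∀ z ∈ ball (Complex.exp (tc * Complex.I)) R0, δ i z ^ 2 = Df i z) ∧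
      (∀ i, ∀ z ∈ ball (Complex.exp (tc * Complex.I)) R0,
        hf z * deriv (L i) z = pf i z * δ i z) ∧
      ∀ i, ∀ t ∈ Rng, L i (Complex.exp (t * Complex.I)) = 2 * Complex.I * (lam i t : ℝ) := by
  obtain ⟨h0, h1⟩ := ArcA_arc htc
  have hsl : Complex.exp (tc * Complex.I) ∈ Complex.slitPlane :=
    Or.inl (by rw [Complex.exp_ofReal_mul_I_re]; exact htc.2.2.1)
  have hev : ∀ᶠ z in nhds (Complex.exp (tc * Complex.I)), (hf z ≠ 0 ∧ z ∈ Complex.slitPlane) ∧
      ∀ i, z ≠ ArcA_e i ∧ ArcA_w (Df i) (ArcA_e i) z ∈ Complex.slitPlane := by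
    refine ((ArcA_hf_cont.continuousAt.eventually_ne h0).and
      (Complex.isOpen_slitPlane.mem_nhds hsl)).and (Filter.eventually_all.2 fun i => ?_)
    refine (continuousAt_id.eventually_ne (h1 i).1).and ?_
    have hc : ContinuousAt (ArcA_w (Df i) (ArcA_e i)) (Complex.exp (tc * Complex.I)) :=
      (ArcA_Df_der i _).continuousAt.neg.div ((continuousAt_id.sub continuousAt_const).pow 2)
        (pow_ne_zero 2 (sub_ne_zero.2 (h1 i).1))
    refine hc.eventually_mem (Complex.isOpen_slitPlane.mem_nhds ?_)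
    rw [(h1 i).2]
    exact Complex.ofReal_mem_slitPlane.2 (inv_pos.2 (ArcA_qsq_pos i htc))
  obtain ⟨R0, hR0, hb⟩ := Metric.eventually_nhds_iff_ball.1 hev
  have hd := fun i z hz => ArcA_der (Df i) (ArcA_Df_der i z) ((hb z hz).2 i).1 ((hb z hz).2 i).2
  refine ⟨R0, fun i => ArcA_d (Df i) (ArcA_e i), fun i => ArcA_L (Df i) (ArcA_e i), hR0,
    fun z hz => (hb z hz).1, fun i z hz => (hd i z hz).1.differentiableWithinAt,
    fun i z hz => ?_, fun i z hz => ArcA_d_sq _ ((hb z hz).2 i).1, fun i z hz => ?_,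
    fun i t ht => ArcA_val _ _ _ (ArcA_qsq_pos i ht) ((ArcA_arc ht).2 i).2⟩
  · obtain ⟨L', h, -⟩ := (hd i z hz).2
    exact h.differentiableAt.differentiableWithinAt
  · obtain ⟨L', h, h'⟩ := (hd i z hz).2
    beta_reduce
    rw [h.deriv]
    generalize ArcA_d (Df i) (ArcA_e i) z = δ at h' ⊢
    fin_cases i
    · simp only [hf, hX, pf, Df, Qa, Qb, ArcA_e] at h' ⊢
      simp at h' ⊢
      linear_combination (z * -(3 * z ^ 2 + 2 * z + 3) * -(z ^ 2 + 1) * (z ^ 2 + z + 1)) * h'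
    · simp only [hf, hX, pf, Df, Qa, Qb, ArcA_e] at h' ⊢
      simp at h' ⊢
      linear_combination (z * -(3 * z ^ 2 - 2 * z + 3) * -(z ^ 2 + 1) * (z ^ 2 - z + 1)) * h'
    · simp only [hf, hX, pf, Df, Qa, Qb, ArcA_e] at h' ⊢
      simp at h' ⊢
      linear_combination (2 * z * -(3 * z ^ 2 - 2 * z + 3) * -(3 * z ^ 2 + 2 * z + 3) *
        (z ^ 2 - z + 1)) * h'

end Pool.Agent.CS5
end

-- merged part: Pool.Agent.Work.MP_8f8a35_gt.ArcB
section
/-!
The nine holomorphic functions and their values at rational angles.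

Plan.  Take `tc` from `Rng_nonempty`, `R0, δ, L` from `arc_logs`, `R = min 1 (R0 / 2)`, and `η > 0` with
`η ≤ R / 6` and `ball tc η ⊆ Rng`, `η ≤ tc`, `η ≤ π - tc`; `‖exp (t I) - exp (tc I)‖ ≤ |t - tc|`
(`Complex.norm_exp_I_mul_ofReal_sub_one_le`, or use continuity to shrink `η`).  `y 0 = log`, `y 1, y 2, y 3 = L 0, L 1, L 2`.
`prim_arc` with `f z = L i z / z`, `g t = -2 u i t` gives `y 4, y 5, y 6`, and with `f z = L 0 z * L l z / z`,
`g t = -4 I v l t` gives `y 7, y 8`.  `hf z = z * hX z`.  Values: `log (exp (t I)) = t I` (`Complex.log_exp`),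
`-2 r π ^ 2 = 2 r (I π) ^ 2`, `-4 I r π ^ 3 = 4 r (I π) ^ 3`.
`prim_arc`: `DifferentiableOn.isExactOn_ball` gives a primitive `F0`; add the constant
`g tc - F0 (exp (tc I))`; the function `t ↦ F (exp (t I)) - g t` has derivative zero on the interval
(`HasDerivAt.comp_ofReal`, `IsOpen.is_const_of_deriv_eq_zero` or
`Convex.is_const_of_fderivWithin_eq_zero`).
-/

set_option autoImplicit false

open Metric

namespace Pool.Agent.CS5

theorem prim_arc {tc r η : ℝ} (hη : 0 < η) {f : ℂ → ℂ}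
    (hf : DifferentiableOn ℂ f (ball (Complex.exp (tc * Complex.I)) r)) {g : ℝ → ℂ}
    (harc : ∀ t : ℝ, |t - tc| < η →
      Complex.exp (t * Complex.I) ∈ ball (Complex.exp (tc * Complex.I)) r)
    (hg : ∀ t : ℝ, |t - tc| < η → HasDerivAt g
      (f (Complex.exp (t * Complex.I)) * (Complex.exp (t * Complex.I) * Complex.I)) t) :
    ∃ F : ℂ → ℂ, (∀ z ∈ ball (Complex.exp (tc * Complex.I)) r, HasDerivAt F (f z) z) ∧
      ∀ t : ℝ, |t - tc| < η → F (Complex.exp (t * Complex.I)) = g t := by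
  obtain ⟨F, hF0, hF⟩ := hf.isExactOn_ball.with_val_at (Complex.exp (tc * Complex.I)) (g tc)
  refine ⟨F, hF, fun t ht => ?_⟩
  have hd : ∀ s ∈ ball tc η,
      HasDerivAt (fun s : ℝ => F (Complex.exp (s * Complex.I)) - g s) 0 s := by
    intro s hs
    have hs' : |s - tc| < η := by simpa [Real.dist_eq] using hs
    have h1 : HasDerivAt (fun w : ℂ => Complex.exp (w * Complex.I))
        (Complex.exp (s * Complex.I) * Complex.I) (s : ℂ) := by
      simpa using ((hasDerivAt_id (s : ℂ)).mul_const Complex.I).cexp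
    have h2 := ((hF _ (harc s hs')).comp (s : ℂ) h1).comp_ofReal
    have h3 := h2.sub (hg s hs')
    rw [sub_self] at h3
    exact h3
  have h4 := (isOpen_ball (x := tc) (ε := η)).is_const_of_deriv_eq_zero
    (convex_ball tc η).isPreconnected
    (fun s hs => (hd s hs).differentiableAt.differentiableWithinAt)
    (fun s hs => (hd s hs).deriv) (x := t) (y := tc) (by simpa [Real.dist_eq] using ht)
    (mem_ball_self hη)
  simp only [hF0, sub_self] at h4
  exact sub_eq_zero.1 h4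

theorem ArcB_dist (t s : ℝ) :
    ‖Complex.exp (t * Complex.I) - Complex.exp (s * Complex.I)‖ ≤ |t - s| := by
  have h : Complex.exp (t * Complex.I) - Complex.exp (s * Complex.I) =
      Complex.exp (s * Complex.I) * (Complex.exp (Complex.I * ((t - s : ℝ) : ℂ)) - 1) := by
    rw [mul_sub, ← Complex.exp_add, mul_one]
    congr 2
    push_cast
    ring
  rw [h, norm_mul, Complex.norm_exp_ofReal_mul_I, one_mul]
  exact Real.norm_exp_I_mul_ofReal_sub_one_le

theorem arc_data {u : Fin 3 → ℝ → ℝ} {v : Fin 2 → ℝ → ℝ} (hV : VolData u v) :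
    ∃ (tc R η : ℝ) (δ : Fin 3 → ℂ → ℂ) (y : Fin 9 → ℂ → ℂ), 0 < R ∧ R ≤ 1 ∧ 0 < η ∧ η ≤ tc ∧
      tc + η ≤ Real.pi ∧ FSys (ball (Complex.exp (tc * Complex.I)) (2 * R)) δ y ∧
      ∀ t : ℝ, |t - tc| < η →
        Complex.exp (t * Complex.I) ∈ ball (Complex.exp (tc * Complex.I)) (R / 6) ∧
        (RatPi 1 t → RatVal fun j => y j (Complex.exp (t * Complex.I))) := by
  obtain ⟨tc, htc⟩ := Rng_nonempty
  obtain ⟨R0, δ, L, hR0, h1, h2, h3, h4, h5, h6⟩ := arc_logs tc htc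
  obtain ⟨η0, hη0, hsub⟩ := Metric.isOpen_iff.1 isOpen_Rng tc htc
  set z0 := Complex.exp (tc * Complex.I) with hz0
  set R := min 1 (R0 / 2) with hR
  have hRpos : 0 < R := lt_min one_pos (by linarith only [hR0])
  have hR1 : R ≤ 1 := min_le_left _ _
  have hR2 : 2 * R ≤ R0 := by have := min_le_right 1 (R0 / 2); linarith
  have htc0 : 0 < tc := htc.1
  have htc1 : tc < Real.pi := htc.2.1
  set η := min (min (R / 6) η0) (min tc (Real.pi - tc)) with hη
  have hηpos : 0 < η := lt_min (lt_min (by linarith) hη0) (lt_min htc0 (by linarith))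
  have hη1 : η ≤ R / 6 := (min_le_left _ _).trans (min_le_left _ _)
  have hη2 : η ≤ η0 := (min_le_left _ _).trans (min_le_right _ _)
  have hη3 : η ≤ tc := (min_le_right _ _).trans (min_le_left _ _)
  have hη4 : η ≤ Real.pi - tc := (min_le_right _ _).trans (min_le_right _ _)
  have hRng : ∀ t : ℝ, |t - tc| < η → t ∈ Rng := fun t ht =>
    hsub (by rw [mem_ball, Real.dist_eq]; linarith)
  have harc : ∀ t : ℝ, |t - tc| < η → Complex.exp (t * Complex.I) ∈ ball z0 (R / 6) :=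
    fun t ht => by
      rw [mem_ball, dist_eq_norm]
      exact ((ArcB_dist t tc).trans_lt ht).trans_le hη1
  have hsubB : ball z0 (2 * R) ⊆ ball z0 R0 := ball_subset_ball hR2
  have harc' : ∀ t : ℝ, |t - tc| < η → Complex.exp (t * Complex.I) ∈ ball z0 (2 * R) :=
    fun t ht => ball_subset_ball (by linarith only [hηpos, hη1]) (harc t ht)
  have hne : ∀ z ∈ ball z0 (2 * R), z ≠ 0 := fun z hz =>
    Complex.slitPlane_ne_zero (h1 z (hsubB hz)).2
  have hA : ∀ i : Fin 3, ∃ F : ℂ → ℂ, (∀ z ∈ ball z0 (2 * R), HasDerivAt F (L i z / z) z) ∧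
      ∀ t : ℝ, |t - tc| < η → F (Complex.exp (t * Complex.I)) = -2 * ((u i t : ℝ) : ℂ) := by
    intro i
    refine prim_arc (f := fun z => L i z / z) (g := fun t => -2 * ((u i t : ℝ) : ℂ)) hηpos
      (((h3 i).mono hsubB).div differentiableOn_id hne) harc' fun t ht => ?_
    have e := ((hV.du i t (hRng t ht)).ofReal_comp).const_mul (-2 : ℂ)
    refine e.congr_deriv ?_
    have e0 := Complex.exp_ne_zero (t * Complex.I)
    rw [h6 i t (hRng t ht), ← mul_assoc, div_mul_cancel₀ _ e0]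
    linear_combination (-2 * ((lam i t : ℝ) : ℂ)) * Complex.I_sq
  have hB : ∀ l : Fin 2, ∃ F : ℂ → ℂ,
      (∀ z ∈ ball z0 (2 * R), HasDerivAt F (L 0 z * L l.succ z / z) z) ∧
      ∀ t : ℝ, |t - tc| < η →
        F (Complex.exp (t * Complex.I)) = -4 * Complex.I * ((v l t : ℝ) : ℂ) := by
    intro l
    refine prim_arc (f := fun z => L 0 z * L l.succ z / z)
      (g := fun t => -4 * Complex.I * ((v l t : ℝ) : ℂ)) hηpos
      ((((h3 0).mono hsubB).mul ((h3 l.succ).mono hsubB)).div differentiableOn_id hne) harc'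
      fun t ht => ?_
    have e := ((hV.dv l t (hRng t ht)).ofReal_comp).const_mul (-4 * Complex.I : ℂ)
    refine e.congr_deriv ?_
    have e0 := Complex.exp_ne_zero (t * Complex.I)
    rw [h6 0 t (hRng t ht), h6 l.succ t (hRng t ht), ← mul_assoc, div_mul_cancel₀ _ e0]
    push_cast
    linear_combination (-4 * Complex.I * ((lam 0 t : ℝ) : ℂ) * ((lam l.succ t : ℝ) : ℂ)) *
      Complex.I_sq
  choose A hA1 hA2 using hA
  choose B hB1 hB2 using hB
  have hlog : ∀ z ∈ ball z0 (2 * R), HasDerivAt Complex.log z⁻¹ z := fun z hz =>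
    Complex.hasDerivAt_log (h1 z (hsubB hz)).2
  refine ⟨tc, R, η, δ, ![Complex.log, L 0, L 1, L 2, A 0, A 1, A 2, B 0, B 1], hRpos, hR1, hηpos,
    hη3, by linarith, ⟨fun z hz => (h1 z (hsubB hz)).1, fun i => (h2 i).mono hsubB, ?_,
      fun i z hz => h4 i z (hsubB hz), ?_⟩, fun t ht => ⟨harc t ht, fun hr => ?_⟩⟩
  · intro j
    fin_cases j
    · exact fun z hz => (hlog z hz).differentiableAt.differentiableWithinAt
    · exact (h3 0).mono hsubB
    · exact (h3 1).mono hsubB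
    · exact (h3 2).mono hsubB
    · exact fun z hz => (hA1 0 z hz).differentiableAt.differentiableWithinAt
    · exact fun z hz => (hA1 1 z hz).differentiableAt.differentiableWithinAt
    · exact fun z hz => (hA1 2 z hz).differentiableAt.differentiableWithinAt
    · exact fun z hz => (hB1 0 z hz).differentiableAt.differentiableWithinAt
    · exact fun z hz => (hB1 1 z hz).differentiableAt.differentiableWithinAt
  · intro j z hz
    have hz' := hne z hz
    have key : ∀ a : ℂ, hf z * (a / z) = hX z * a := fun a => by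
      unfold hf
      field_simp
    fin_cases j
    · change hf z * deriv Complex.log z = hX z
      rw [(hlog z hz).deriv, ← one_div, key, mul_one]
    · exact h5 0 z (hsubB hz)
    · exact h5 1 z (hsubB hz)
    · exact h5 2 z (hsubB hz)
    · change hf z * deriv (A 0) z = hX z * L 0 z
      rw [(hA1 0 z hz).deriv, key]
    · change hf z * deriv (A 1) z = hX z * L 1 z
      rw [(hA1 1 z hz).deriv, key]
    · change hf z * deriv (A 2) z = hX z * L 2 z
      rw [(hA1 2 z hz).deriv, key]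
    · change hf z * deriv (B 0) z = hX z * (L 0 z * L 1 z)
      rw [(hB1 0 z hz).deriv, key]
      rfl
    · change hf z * deriv (B 1) z = hX z * (L 0 z * L 2 z)
      rw [(hB1 1 z hz).deriv, key]
      rfl
  · have ht' := hRng t ht
    have hu : ∀ i, ∃ r : ℚ,
        A i (Complex.exp (t * Complex.I)) = (r : ℂ) * (Complex.I * Real.pi) ^ 2 := fun i => by
      obtain ⟨r, hr'⟩ := hV.ru i t ht' hr
      refine ⟨2 * r, ?_⟩
      rw [hA2 i t ht, hr', mul_pow, Complex.I_sq]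
      push_cast
      ring
    have hv : ∀ l, ∃ r : ℚ,
        B l (Complex.exp (t * Complex.I)) = (r : ℂ) * (Complex.I * Real.pi) ^ 3 := fun l => by
      obtain ⟨r, hr'⟩ := hV.rv l t ht' hr
      refine ⟨4 * r, ?_⟩
      rw [hB2 l t ht, hr', mul_pow, pow_succ Complex.I 2, Complex.I_sq]
      push_cast
      ring
    refine ⟨?_, hu 0, hu 1, hu 2, hv 0, hv 1⟩
    obtain ⟨r, hr'⟩ := hr
    refine ⟨r, ?_⟩
    change Complex.log (Complex.exp (t * Complex.I)) = _
    rw [Complex.log_exp (by simp; linarith only [htc0, htc1, ht', ht'.1, Real.pi_pos]) (by simp; linarith [ht'.2.1]), hr']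
    push_cast
    ring

end Pool.Agent.CS5
end

-- merged part: Pool.Agent.Work.MP_8f8a35_gt.CountA
section
/-!
Many fractions with prime denominator in an interval.

Plan.  Let `n = primeCounting M`, `𝒫` the primes `p ≤ M` with `n / 2 < p`; at most `n / 2` primes are `≤ n / 2`, so
`card 𝒫 ≥ n / 2` (as reals).  For `p ∈ 𝒫` the naturals `j` with `a p < j < (a + L) p` number at least
`L p - 1 ≥ L n / 4` (`Nat.card_Ioo`, `Nat.floor`, `Nat.ceil`; for instance `Ioo ⌊a p⌋₊ ⌈(a + L) p⌉₊`).  Let `s` be the finset of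
pairs `(p, j)` (`Finset.sigma` or a filter of `range (M + 1) ×ˢ range M`), `k = card s`, enumerate by `s.equivFin`.
Injectivity: `0 < j < p`, and `j p' = j' p` with `p ≠ p'` primes forces `p ∣ j`.
-/

set_option autoImplicit false

namespace Pool.Agent.CS5

theorem CountA_mem {a L : ℝ} (ha : 0 ≤ a) (h1 : a + L ≤ 1) {p j : ℕ} (hp : 0 < p)
    (hj : j ∈ Finset.Ioo ⌊a * p⌋₊ ⌈(a + L) * p⌉₊) :
    a < (j : ℝ) / p ∧ (j : ℝ) / p < a + L ∧ 0 < j ∧ j < p := by
  have hp' : (0 : ℝ) < p := Nat.cast_pos.2 hp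
  obtain ⟨h2, h3⟩ := Finset.mem_Ioo.1 hj
  have h4 := (Nat.floor_lt (mul_nonneg ha hp'.le)).1 h2
  have h5 := Nat.lt_ceil.1 h3
  exact ⟨(lt_div_iff₀ hp').2 h4, (div_lt_iff₀ hp').2 h5, (Nat.zero_le _).trans_lt h2,
    Nat.cast_lt.1 (h5.trans_le (mul_le_of_le_one_left hp'.le h1))⟩

theorem CountA_card {a L : ℝ} (ha : 0 ≤ a) (p : ℕ) :
    L * p - 1 ≤ ((Finset.Ioo ⌊a * p⌋₊ ⌈(a + L) * p⌉₊).card : ℝ) := by
  have h1 := Nat.floor_le (mul_nonneg ha (Nat.cast_nonneg p))
  have h2 := Nat.le_ceil ((a + L) * p)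
  have h3 : ⌈(a + L) * p⌉₊ ≤ (Finset.Ioo ⌊a * p⌋₊ ⌈(a + L) * p⌉₊).card + ⌊a * p⌋₊ + 1 := by
    rw [Nat.card_Ioo]
    omega
  have h4 := (Nat.cast_le (α := ℝ)).2 h3
  push_cast at h4
  linarith only [h1, h2, h4]

theorem CountA_inj {p j p' j' : ℕ} (hp : p.Prime) (hp' : p'.Prime) (h0 : 0 < j) (h1 : j < p)
    (h : (j : ℝ) / p = (j' : ℝ) / p') : p = p' ∧ j = j' := by
  rw [div_eq_div_iff (Nat.cast_ne_zero.2 hp.ne_zero) (Nat.cast_ne_zero.2 hp'.ne_zero)] at h
  have h2 : j * p' = j' * p := by exact_mod_cast h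
  obtain rfl : p = p' := (Nat.prime_dvd_prime_iff_eq hp hp').1
    (((Nat.Prime.dvd_mul hp).1 ⟨j', h2.trans (mul_comm _ _)⟩).resolve_left
      (Nat.not_dvd_of_pos_of_lt h0 h1))
  exact ⟨rfl, Nat.eq_of_mul_eq_mul_right hp.pos h2⟩

theorem fractions (a L : ℝ) (ha : 0 ≤ a) (hL : 0 < L) (h1 : a + L ≤ 1) (M : ℕ)
    (hM1 : 10 ≤ Nat.primeCounting M) (hM2 : 4 ≤ L * Nat.primeCounting M) :
    ∃ (k : ℕ) (p j : Fin k → ℕ),
      (∀ t, (p t).Prime ∧ 5 ≤ p t ∧ p t ≤ M ∧ a < (j t : ℝ) / p t ∧ (j t : ℝ) / p t < a + L) ∧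
      Function.Injective (fun t => (j t : ℝ) / p t) ∧
      L / 8 * (Nat.primeCounting M : ℝ) ^ 2 ≤ k ∧ k ≤ M ^ 2 := by
  set n := Nat.primeCounting M with hn
  set P := ((Finset.range (M + 1)).filter Nat.Prime).filter fun p => n < 2 * p with hP
  have mP : ∀ p ∈ P, p.Prime ∧ p ≤ M ∧ n < 2 * p := fun p hp => by
    simp only [hP, Finset.mem_filter, Finset.mem_range] at hp
    exact ⟨hp.1.2, Nat.lt_succ_iff.1 hp.1.1, hp.2⟩
  have c1 : (n : ℝ) ≤ 2 * P.card := by
    have e : n = ((Finset.range (M + 1)).filter Nat.Prime).card := Nat.count_eq_card_filter_range _ _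
    have e1 := Finset.card_filter_add_card_filter_not
      (s := (Finset.range (M + 1)).filter Nat.Prime) fun p => n < 2 * p
    have e2 : (((Finset.range (M + 1)).filter Nat.Prime).filter fun p => ¬ n < 2 * p).card ≤
        (Finset.Icc 1 (n / 2)).card := Finset.card_le_card fun p hp => by
      simp only [Finset.mem_filter, Finset.mem_Icc] at hp ⊢
      exact ⟨hp.1.2.one_le, by omega⟩
    rw [Nat.card_Icc] at e2
    rw [← hP, ← e] at e1
    exact_mod_cast (by omega : n ≤ 2 * P.card)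
  have c2 : P.card ≤ M := (Finset.card_le_card (t := Finset.Icc 1 M) fun p hp =>
    Finset.mem_Icc.2 ⟨(mP p hp).1.one_le, (mP p hp).2.1⟩).trans_eq (by simp)
  set s := P.sigma fun p => Finset.Ioo ⌊a * p⌋₊ ⌈(a + L) * p⌉₊ with hs
  have ms : ∀ x : s, x.1.1 ∈ P ∧ a < (x.1.2 : ℝ) / x.1.1 ∧ (x.1.2 : ℝ) / x.1.1 < a + L ∧
      0 < x.1.2 ∧ x.1.2 < x.1.1 := fun x => by
    obtain ⟨h2, h3⟩ := Finset.mem_sigma.1 x.2
    exact ⟨h2, CountA_mem ha h1 (mP _ h2).1.pos h3⟩
  refine ⟨s.card, fun t => (s.equivFin.symm t).1.1, fun t => (s.equivFin.symm t).1.2,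
    fun t => ?_, fun t t' h => ?_, ?_, ?_⟩
  · obtain ⟨h2, h3, h4, -⟩ := ms (s.equivFin.symm t)
    obtain ⟨h5, h6, h7⟩ := mP _ h2
    exact ⟨h5, by beta_reduce; omega, h6, h3, h4⟩
  · obtain ⟨h2, -, -, h3, h4⟩ := ms (s.equivFin.symm t)
    obtain ⟨h5, h6⟩ := CountA_inj (mP _ h2).1 (mP _ (ms (s.equivFin.symm t')).1).1 h3 h4 h
    exact s.equivFin.symm.injective (Subtype.ext (Sigma.ext h5 (heq_of_eq h6)))
  · rw [hs, Finset.card_sigma, Nat.cast_sum]
    refine le_trans ?_ (Finset.card_nsmul_le_sum P _ (L * n / 4) fun p hp =>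
      le_trans ?_ (CountA_card ha p))
    · rw [nsmul_eq_mul]
      linarith only [c1, hM2, mul_le_mul_of_nonneg_left c1 (by linarith : 0 ≤ L * n)]
    · have : (n : ℝ) ≤ 2 * p := by exact_mod_cast (mP p hp).2.2.le
      linarith only [hM2, hL, this, mul_nonneg_of_nonpos_of_nonpos (le_of_lt (Mathlib.Tactic.Linarith.sub_neg_of_lt hL)) (Mathlib.Tactic.Linarith.sub_nonpos_of_le this)]
  · rw [hs, Finset.card_sigma, sq]
    refine (Finset.sum_le_card_nsmul P _ M fun p hp => ?_).trans (Nat.mul_le_mul_right M c2)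
    exact (Finset.card_le_card (t := Finset.range p) fun j hj => Finset.mem_range.2
      (CountA_mem ha h1 (mP p hp).1.pos hj).2.2.2).trans ((Finset.card_range p).trans_le (mP p hp).2.1)

end Pool.Agent.CS5
end

-- merged part: Pool.Agent.Work.MP_8f8a35_gt.CountB
section
/-!
The choice of the parameters.

Plan.  `pi_lower`: `Chebyshev.pi_ge` gives `π(M) ≥ (M log 2 - log (M + 1)) / log M ≥ M / (2 log M)` for `M` large.
`count`: take `w = 400 ν`, `M = ν ^ 5`, `ν` large.  `w / 16 = 25 ν`, `(w + 1) ^ 4 ≤ (425 ν) ^ 4` and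
`100 * 425 ^ 4 ≤ 25 ^ 9`.  `fractions` gives `k ≥ L / 8 * (ν ^ 5 / (10 log ν)) ^ 2` and `k ≤ ν ^ 10`, so
`log (k + 23) ≤ 11 log ν`, `log w ≤ 2 log ν` for `ν ≥ 400`; the last inequality follows from
`C' (log ν) ^ 3 ≤ ν` for `ν` large (`isLittleO_pow_log_id_atTop`, or `log ν ≤ 4 ν ^ (1 / 4)`; one may also take
`ν = 2 ^ u` or `ν = u ^ 4`).
-/

set_option autoImplicit false

namespace Pool.Agent.CS5

theorem pi_lower : ∃ M0 : ℕ, ∀ M ≥ M0, (M : ℝ) / (2 * Real.log M) ≤ Nat.primeCounting M := by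
  refine ⟨100, fun M hM => le_trans ?_ (Chebyshev.pi_ge M)⟩
  have h0 : (100 : ℝ) ≤ M := by exact_mod_cast hM
  have h1 : 0 < Real.log M := Real.log_pos (by linarith)
  have h2 := Real.log_le_sub_one_of_pos (show 0 < ((M : ℝ) + 1) / 2 ^ 4 by positivity)
  rw [Real.log_div (by positivity) (by positivity), Real.log_pow] at h2
  have h3 := Real.log_two_gt_d9
  have h4 := Real.log_two_lt_d9
  rw [← div_div]
  refine div_le_div_of_nonneg_right ?_ h1.le
  push_cast at h2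
  linarith only [h0, h2, h3, h4, mul_nonneg_of_nonpos_of_nonpos (Mathlib.Tactic.Linarith.sub_nonpos_of_le (Mathlib.Tactic.Linarith.natCast_nonneg ℝ M)) (le_of_lt (Mathlib.Tactic.Linarith.sub_neg_of_lt h3))]

theorem CountB_nu (K B : ℝ) (hK : 0 < K) (N : ℕ) :
    ∃ ν : ℕ, N ≤ ν ∧ B ≤ ν ∧ K * Real.log ν ^ 3 ≤ ν := by
  have h1 := (Real.isLittleO_pow_log_id_atTop (n := 3)).bound (inv_pos.2 hK)
  obtain ⟨ν, h2, h3, h4⟩ := ((Filter.eventually_ge_atTop N).and
    ((tendsto_natCast_atTop_atTop.eventually (Filter.eventually_ge_atTop B)).and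
      (tendsto_natCast_atTop_atTop.eventually h1))).exists
  refine ⟨ν, h2, h3, ?_⟩
  rw [id, Real.norm_natCast, le_inv_mul_iff₀ hK] at h4
  exact (mul_le_mul_of_nonneg_left (Real.le_norm_self _) hK.le).trans h4

theorem count (a L C : ℝ) (ha : 0 ≤ a) (hL : 0 < L) (h1 : a + L ≤ 1) (hC : 0 ≤ C) :
    ∃ (w M k : ℕ) (p j : Fin k → ℕ), 1 ≤ w ∧ 1 ≤ M ∧
      (∀ t, (p t).Prime ∧ 5 ≤ p t ∧ p t ≤ M ∧ a < (j t : ℝ) / p t ∧ (j t : ℝ) / p t < a + L) ∧
      Function.Injective (fun t => (j t : ℝ) / p t) ∧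
      100 * M * (8 * (w + 1) ^ 4) ≤ 8 * (w / 16 + 1) ^ 9 ∧
      100 * (M : ℝ) * (8 * (w + 1) ^ 4) * (C * (1 + Real.log w) + C + Real.log (k + 23)) ≤ k := by
  obtain ⟨M0, hM0⟩ := pi_lower
  obtain ⟨ν, n1, n2, n3⟩ := CountB_nu (800 ^ 2 * 425 ^ 4 * (4 * C + 11) / L) (40 / L)
    (by positivity) (M0 + 400)
  have n4 : 400 ≤ ν := by omega
  have r4 : (400 : ℝ) ≤ ν := by exact_mod_cast n4
  have r0 : (0 : ℝ) < ν := by linarith only [r4]
  have l1 : 1 ≤ Real.log ν := by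
    rw [Real.le_log_iff_exp_le r0]
    linarith only [r4, Real.exp_one_lt_d9]
  have l2 : Real.log ν ≤ ν := (Real.log_le_sub_one_of_pos r0).trans (by linarith only [])
  have q1 := hM0 (ν ^ 5) (le_trans (by omega) (Nat.le_self_pow (by norm_num) ν))
  rw [Nat.cast_pow, Real.log_pow, Nat.cast_ofNat] at q1
  have q2 : (ν : ℝ) / 10 ≤ Nat.primeCounting (ν ^ 5) := by
    refine le_trans ?_ q1
    rw [div_le_div_iff₀ (by norm_num) (by positivity)]
    have e1 : (ν : ℝ) ^ 2 ≤ (ν : ℝ) ^ 5 := pow_le_pow_right₀ (by linarith only [r4]) (by norm_num)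
    linarith only [mul_le_mul_of_nonneg_left l2 r0.le, e1]
  have q3 : 10 ≤ Nat.primeCounting (ν ^ 5) := by
    have : (10 : ℝ) ≤ Nat.primeCounting (ν ^ 5) := by linarith only [r4, q2]
    exact_mod_cast this
  have q4 : 4 ≤ L * Nat.primeCounting (ν ^ 5) := by
    rw [div_le_iff₀ hL] at n2
    linarith only [mul_le_mul_of_nonneg_left q2 hL.le, n2]
  obtain ⟨k, p, j, k1, k2, k3, k4⟩ := fractions a L ha hL h1 (ν ^ 5) q3 q4
  have w1 : (400 * ν + 1) ^ 4 ≤ (425 * ν) ^ 4 := Nat.pow_le_pow_left (by omega) 4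
  refine ⟨400 * ν, ν ^ 5, k, p, j, by omega, Nat.one_le_pow _ _ (by omega), k1, k2, ?_, ?_⟩
  · rw [show 400 * ν / 16 = 25 * ν by omega]
    have w2 : (25 * ν) ^ 9 ≤ (25 * ν + 1) ^ 9 := Nat.pow_le_pow_left (by omega) 9
    calc 100 * ν ^ 5 * (8 * (400 * ν + 1) ^ 4) ≤ 100 * ν ^ 5 * (8 * (425 * ν) ^ 4) := by gcongr
      _ = 8 * (100 * 425 ^ 4 * ν ^ 9) := by ring
      _ ≤ 8 * (25 ^ 9 * ν ^ 9) := by gcongr; norm_num
      _ = 8 * (25 * ν) ^ 9 := by ring
      _ ≤ _ := by gcongr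
  have b1 : Real.log ((400 * ν : ℕ) : ℝ) ≤ 2 * Real.log ν := by
    have := Real.log_pow (ν : ℝ) 2
    rw [Nat.cast_ofNat] at this
    rw [← this]
    refine Real.log_le_log (by positivity) ?_
    push_cast
    linarith only [mul_le_mul_of_nonneg_right r4 r0.le]
  have b2 : Real.log (k + 23) ≤ 11 * Real.log ν := by
    have := Real.log_pow (ν : ℝ) 11
    rw [Nat.cast_ofNat] at this
    rw [← this]
    refine Real.log_le_log (by positivity) ?_
    have e1 : (k : ℝ) ≤ ((ν : ℝ) ^ 5) ^ 2 := by exact_mod_cast k4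
    have e2 : (1 : ℝ) ≤ ((ν : ℝ) ^ 5) ^ 2 := one_le_pow₀ (one_le_pow₀ (by linarith only [r4]))
    have e3 : (ν : ℝ) ^ 11 = ν * ((ν : ℝ) ^ 5) ^ 2 := by ring
    linarith only [e1, e2, e3, mul_le_mul_of_nonneg_right r4 (zero_le_one.trans e2)]
  have b3 : C * (1 + Real.log ((400 * ν : ℕ) : ℝ)) + C + Real.log (k + 23) ≤
      (4 * C + 11) * Real.log ν := by
    linarith only [mul_le_mul_of_nonneg_left b1 hC, mul_le_mul_of_nonneg_left l1 hC, b2]
  have b4 : (((400 * ν : ℕ) : ℝ) + 1) ^ 4 ≤ (425 * (ν : ℝ)) ^ 4 := by exact_mod_cast w1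
  have b5 : L / 8 * ((ν : ℝ) ^ 5 / (2 * (5 * Real.log ν))) ^ 2 ≤ k :=
    le_trans (by gcongr) k3
  refine le_trans ?_ b5
  have b6 : 0 < Real.log ν := by linarith only [l1]
  calc 100 * ((ν ^ 5 : ℕ) : ℝ) * (8 * (((400 * ν : ℕ) : ℝ) + 1) ^ 4) *
        (C * (1 + Real.log ((400 * ν : ℕ) : ℝ)) + C + Real.log (k + 23))
      ≤ 100 * ((ν ^ 5 : ℕ) : ℝ) * (8 * (((400 * ν : ℕ) : ℝ) + 1) ^ 4) *
        ((4 * C + 11) * Real.log ν) := by gcongr
    _ ≤ 100 * ((ν ^ 5 : ℕ) : ℝ) * (8 * (425 * (ν : ℝ)) ^ 4) * ((4 * C + 11) * Real.log ν) := by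
        gcongr
    _ = L * (ν : ℝ) ^ 9 / (800 * Real.log ν ^ 2) *
        (800 ^ 2 * 425 ^ 4 * (4 * C + 11) / L * Real.log ν ^ 3) := by
        push_cast
        field_simp
        norm_num
    _ ≤ L * (ν : ℝ) ^ 9 / (800 * Real.log ν ^ 2) * ν := by gcongr
    _ = _ := by
        field_simp
        ring

end Pool.Agent.CS5
end
end
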